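import Mathlib

set_option autoImplicit false

open NumberField IsDedekindDomain

namespace CF

section
variable (K L : Type) [Field K] [NumberField K] [Field L] [NumberField L] [Algebra K L]

/-- the places of `L` above the place `v` of `K` -/
def plab (v : HeightOneSpectrum (𝓞 K)) : Set (HeightOneSpectrum (𝓞 L)) :=
  {P | P.asIdeal.LiesOver v.asIdeal}

theorem q1_plab_image (v : HeightOneSpectrum (𝓞 K)) :
    (fun P : HeightOneSpectrum (𝓞 L) => P.asIdeal) '' plab K L v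
      = ↑(IsDedekindDomain.primesOverFinset v.asIdeal (𝓞 L)) := by
  have : v.asIdeal.IsMaximal := v.isMaximal
  rw [IsDedekindDomain.coe_primesOverFinset v.ne_bot]
  ext I
  constructor
  · rintro ⟨P, hP, rfl⟩
    exact ⟨P.isPrime, hP⟩
  · rintro ⟨h1, h2⟩
    have := h1
    have := h2
    exact ⟨⟨I, h1, Ideal.ne_bot_of_liesOver_of_ne_bot v.ne_bot I⟩, h2, rfl⟩

theorem q1_asIdeal_inj {R : Type} [CommRing R] :
    Function.Injective (fun P : HeightOneSpectrum R => P.asIdeal) := by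
  intro P Q h
  exact HeightOneSpectrum.ext h

theorem plab_finite (v : HeightOneSpectrum (𝓞 K)) : (plab K L v).Finite := by
  have h := q1_plab_image K L v
  refine Set.Finite.of_finite_image (f := fun P : HeightOneSpectrum (𝓞 L) => P.asIdeal) ?_
    q1_asIdeal_inj.injOn
  rw [h]
  exact Finset.finite_toSet _

theorem q1_plab_sum (h2 : Module.finrank K L = 2) (v : HeightOneSpectrum (𝓞 K)) :
    ∑ P ∈ (plab_finite K L v).toFinset,
      Ideal.ramificationIdx' v.asIdeal P.asIdeal * Ideal.inertiaDeg' v.asIdeal P.asIdeal = 2 := by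
  have : v.asIdeal.IsMaximal := v.isMaximal
  rw [← h2, ← Ideal.sum_ramification_inertia (R := 𝓞 K) (S := 𝓞 L) K L v.ne_bot]
  refine Finset.sum_nbij (fun P : HeightOneSpectrum (𝓞 L) => P.asIdeal) ?_ q1_asIdeal_inj.injOn ?_ ?_
  · intro P hP
    rw [← Finset.mem_coe, ← q1_plab_image K L v]
    exact ⟨P, (by simpa using hP), rfl⟩
  · intro I hI
    rw [← q1_plab_image K L v] at hI
    obtain ⟨P, hP, rfl⟩ := hI
    exact ⟨P, (by simpa using hP), rfl⟩
  · intro P hP
    rfl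

theorem q1_plab_e_pos (v : HeightOneSpectrum (𝓞 K)) (P : HeightOneSpectrum (𝓞 L))
    (hP : P ∈ plab K L v) : 1 ≤ Ideal.ramificationIdx' v.asIdeal P.asIdeal := by
  have : P.asIdeal.LiesOver v.asIdeal := hP
  exact Nat.one_le_iff_ne_zero.2 (Ideal.IsDedekindDomain.ramificationIdx'_ne_zero_of_liesOver P.asIdeal v.ne_bot)

theorem q1_plab_f_pos (v : HeightOneSpectrum (𝓞 K)) (P : HeightOneSpectrum (𝓞 L))
    (hP : P ∈ plab K L v) : 1 ≤ Ideal.inertiaDeg' v.asIdeal P.asIdeal := by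
  have : P.asIdeal.LiesOver v.asIdeal := hP
  have : v.asIdeal.IsMaximal := v.isMaximal
  exact Ideal.inertiaDeg'_pos _ _

theorem q1_plab_card (v : HeightOneSpectrum (𝓞 K)) (P : HeightOneSpectrum (𝓞 L))
    (hP : P ∈ plab K L v) : Nat.card (𝓞 L ⧸ P.asIdeal) =
      Nat.card (𝓞 K ⧸ v.asIdeal) ^ Ideal.inertiaDeg' v.asIdeal P.asIdeal := by
  have : P.asIdeal.LiesOver v.asIdeal := hP
  have := Ideal.absNorm_eq_pow_inertiaDeg'_of_liesOver P.asIdeal v.asIdeal v.isPrime v.ne_bot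
  simpa [Ideal.absNorm_apply, Submodule.cardQuot_apply] using this

theorem q1_plab_two (h2 : Module.finrank K L = 2) (v : HeightOneSpectrum (𝓞 K))
    (P Q : HeightOneSpectrum (𝓞 L)) (hP : P ∈ plab K L v) (hQ : Q ∈ plab K L v) (hPQ : P ≠ Q) :
    (plab K L v).ncard = 2 ∧ ∀ P ∈ plab K L v, Nat.card (𝓞 L ⧸ P.asIdeal) =
      Nat.card (𝓞 K ⧸ v.asIdeal) := by
  classical
  have hs := q1_plab_sum K L h2 v
  set F := (plab_finite K L v).toFinset with hF
  have hmem : ∀ P, P ∈ F ↔ P ∈ plab K L v := fun P => by simp [hF]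
  have hge : ∀ R ∈ F, 1 ≤ Ideal.ramificationIdx' v.asIdeal R.asIdeal *
      Ideal.inertiaDeg' v.asIdeal R.asIdeal := fun R hR =>
    Nat.one_le_iff_ne_zero.2 (mul_ne_zero
      (Nat.one_le_iff_ne_zero.1 (q1_plab_e_pos K L v R ((hmem R).1 hR)))
      (Nat.one_le_iff_ne_zero.1 (q1_plab_f_pos K L v R ((hmem R).1 hR))))
  have hcard : F.card ≤ 2 := by
    rw [← hs]
    calc F.card = ∑ R ∈ F, 1 := by simp
      _ ≤ _ := Finset.sum_le_sum hge
  have h2le : 2 ≤ F.card := by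
    have : ({P, Q} : Finset _) ⊆ F := by
      intro R hR
      rcases Finset.mem_insert.1 hR with h | h
      · rw [h]; exact (hmem P).2 hP
      · rw [Finset.mem_singleton.1 h]; exact (hmem Q).2 hQ
    calc 2 = ({P, Q} : Finset _).card := (Finset.card_pair hPQ).symm
      _ ≤ _ := Finset.card_le_card this
  have hc : F.card = 2 := le_antisymm hcard h2le
  refine ⟨?_, ?_⟩
  · rw [Set.ncard_eq_toFinset_card _ (plab_finite K L v), ← hF, hc]
  · intro R hR
    have h1 : Ideal.ramificationIdx' v.asIdeal R.asIdeal *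
      Ideal.inertiaDeg' v.asIdeal R.asIdeal = 1 := by
      by_contra hne
      have hlt : ∑ R ∈ F, 1 < ∑ R ∈ F, Ideal.ramificationIdx' v.asIdeal R.asIdeal *
          Ideal.inertiaDeg' v.asIdeal R.asIdeal :=
        Finset.sum_lt_sum hge ⟨R, (hmem R).2 hR, lt_of_le_of_ne (hge R ((hmem R).2 hR)) (Ne.symm hne)⟩
      rw [hs] at hlt
      simp [hc] at hlt
    rw [q1_plab_card K L v R hR, Nat.eq_one_of_mul_eq_one_left h1, pow_one]

theorem q1_plab_one (h2 : Module.finrank K L = 2) (v : HeightOneSpectrum (𝓞 K))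
    (h : ∀ P ∈ plab K L v, 2 ≤ Ideal.ramificationIdx' v.asIdeal P.asIdeal *
      Ideal.inertiaDeg' v.asIdeal P.asIdeal) :
    (plab K L v).ncard = 1 ∧ ∀ P ∈ plab K L v, Ideal.ramificationIdx' v.asIdeal P.asIdeal *
      Ideal.inertiaDeg' v.asIdeal P.asIdeal = 2 := by
  classical
  have hs := q1_plab_sum K L h2 v
  set F := (plab_finite K L v).toFinset with hF
  have hmem : ∀ P, P ∈ F ↔ P ∈ plab K L v := fun P => by simp [hF]
  have hge : ∀ R ∈ F, 2 ≤ Ideal.ramificationIdx' v.asIdeal R.asIdeal *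
      Ideal.inertiaDeg' v.asIdeal R.asIdeal := fun R hR => h R ((hmem R).1 hR)
  have hcard : F.card * 2 ≤ 2 := by
    conv_rhs => rw [← hs]
    calc F.card * 2 = ∑ R ∈ F, 2 := by simp
      _ ≤ _ := Finset.sum_le_sum hge
  have hpos : F.card ≠ 0 := by
    intro h0
    rw [Finset.card_eq_zero.1 h0] at hs
    simp at hs
  have hc : F.card = 1 := by omega
  refine ⟨?_, ?_⟩
  · rw [Set.ncard_eq_toFinset_card _ (plab_finite K L v), ← hF, hc]
  · intro R hR
    obtain ⟨R', hR'⟩ := Finset.card_eq_one.1 hc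
    rw [hR'] at hs
    have : R = R' := by
      have := (hmem R).2 hR
      rw [hR'] at this
      exact Finset.mem_singleton.1 this
    rw [this]
    simpa using hs

theorem q1_exists_int_root (a b : 𝓞 K) (η : L)
    (hη : η ^ 2 + algebraMap K L a * η + algebraMap K L b = 0) :
    ∃ y : 𝓞 L, algebraMap (𝓞 L) L y = η ∧
      y ^ 2 + algebraMap (𝓞 K) (𝓞 L) a * y + algebraMap (𝓞 K) (𝓞 L) b = 0 := by
  have h1 : IsIntegral (𝓞 K) η := by
    refine ⟨Polynomial.X ^ 2 + Polynomial.C a * Polynomial.X + Polynomial.C b, ?_, ?_⟩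
    · monicity!
    · simp only [Polynomial.eval₂_add, Polynomial.eval₂_mul, Polynomial.eval₂_pow,
        Polynomial.eval₂_X, Polynomial.eval₂_C]
      rw [IsScalarTower.algebraMap_apply (𝓞 K) K L, IsScalarTower.algebraMap_apply (𝓞 K) K L]
      exact hη
  have h2 : IsIntegral ℤ η := isIntegral_trans (R := ℤ) (A := 𝓞 K) η h1
  obtain ⟨y, hy⟩ : ∃ y : 𝓞 L, algebraMap (𝓞 L) L y = η := ⟨⟨η, h2⟩, rfl⟩
  refine ⟨y, hy, ?_⟩
  apply FaithfulSMul.algebraMap_injective (𝓞 L) L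
  simp only [map_add, map_mul, map_pow, map_zero]
  rw [← IsScalarTower.algebraMap_apply (𝓞 K) (𝓞 L) L, ← IsScalarTower.algebraMap_apply (𝓞 K) (𝓞 L) L,
    IsScalarTower.algebraMap_apply (𝓞 K) K L, IsScalarTower.algebraMap_apply (𝓞 K) K L, hy]
  exact hη

theorem q1_trace_quad (h2 : Module.finrank K L = 2) (a b : K) (η : L)
    (hη : η ^ 2 + algebraMap K L a * η + algebraMap K L b = 0)
    (hηK : η ∉ Set.range (algebraMap K L)) : Algebra.trace K L η = -a := by
  have : FiniteDimensional K L := Module.finite_of_finrank_pos (by omega)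
  have hint : IsIntegral K η := .of_finite K η
  set p : Polynomial K := Polynomial.X ^ 2 + Polynomial.C a * Polynomial.X + Polynomial.C b with hp
  have hpm : p.Monic := by rw [hp]; monicity!
  have hpd : p.natDegree = 2 := by rw [hp]; compute_degree!
  have hdvd : minpoly K η ∣ p := by
    apply minpoly.dvd
    rw [hp]
    simpa [Polynomial.aeval_def] using hη
  have hge : 2 ≤ (minpoly K η).natDegree := by
    rw [minpoly.two_le_natDegree_iff hint]
    exact hηK
  have heq : minpoly K η = p := by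
    refine (Polynomial.eq_of_monic_of_dvd_of_natDegree_le (minpoly.monic hint) hpm hdvd ?_).symm
    rw [hpd]; exact hge
  have hnc : (minpoly K η).nextCoeff = a := by
    rw [heq, Polynomial.nextCoeff, hpd]
    simp [hp, Polynomial.coeff_C]
  have hfr : Module.finrank (IntermediateField.adjoin K {η}) L = 1 := by
    have h := Module.finrank_mul_finrank K (IntermediateField.adjoin K {η}) L
    rw [IntermediateField.adjoin.finrank hint, heq, hpd, h2] at h
    omega
  rw [trace_eq_finrank_mul_minpoly_nextCoeff, hnc, hfr]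
  simp

theorem q1_intTrace_mem (v : Ideal (𝓞 K)) (x : 𝓞 L) (hx : x ∈ v.map (algebraMap (𝓞 K) (𝓞 L))) :
    Algebra.intTrace (𝓞 K) (𝓞 L) x ∈ v := by
  rw [Ideal.map] at hx
  have key : ∀ c : 𝓞 L, Algebra.intTrace (𝓞 K) (𝓞 L) (c * x) ∈ v := by
    induction hx using Submodule.span_induction with
    | mem x hx =>
      intro c
      obtain ⟨a, ha, rfl⟩ := hx
      rw [mul_comm, ← Algebra.smul_def, map_smul, smul_eq_mul]
      exact v.mul_mem_right _ ha
    | zero => intro c; simp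
    | add x y _ _ hx hy => intro c; rw [mul_add, map_add]; exact v.add_mem (hx c) (hy c)
    | smul d x hx' hx => intro c; rw [smul_eq_mul, ← mul_assoc]; exact hx (c * d)
  simpa using key 1

theorem q1_intTrace_quad (h2 : Module.finrank K L = 2) (a b : 𝓞 K) (y : 𝓞 L)
    (hy : y ^ 2 + algebraMap (𝓞 K) (𝓞 L) a * y + algebraMap (𝓞 K) (𝓞 L) b = 0)
    (hyK : algebraMap (𝓞 L) L y ∉ Set.range (algebraMap K L)) :
    Algebra.intTrace (𝓞 K) (𝓞 L) y = - a := by
  apply FaithfulSMul.algebraMap_injective (𝓞 K) K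
  rw [Algebra.algebraMap_intTrace (K := K) (L := L), map_neg]
  refine q1_trace_quad K L h2 _ (algebraMap (𝓞 K) K b) _ ?_ hyK
  have := congrArg (algebraMap (𝓞 L) L) hy
  simp only [map_add, map_mul, map_pow, map_zero] at this
  rw [← IsScalarTower.algebraMap_apply (𝓞 K) (𝓞 L) L, ← IsScalarTower.algebraMap_apply (𝓞 K) (𝓞 L) L,
    IsScalarTower.algebraMap_apply (𝓞 K) K L, IsScalarTower.algebraMap_apply (𝓞 K) K L] at this
  exact this

theorem q1_intTrace_algebraMap (h2 : Module.finrank K L = 2) (a : 𝓞 K) :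
    Algebra.intTrace (𝓞 K) (𝓞 L) (algebraMap (𝓞 K) (𝓞 L) a) = 2 * a := by
  apply FaithfulSMul.algebraMap_injective (𝓞 K) K
  rw [Algebra.algebraMap_intTrace (K := K) (L := L), ← IsScalarTower.algebraMap_apply (𝓞 K) (𝓞 L) L,
    IsScalarTower.algebraMap_apply (𝓞 K) K L, Algebra.trace_algebraMap, h2, map_mul, map_ofNat]
  simp

/-- the key point: `v B + (y - s) ≠ B` -/
theorem q1_exists_place (h2 : Module.finrank K L = 2) (a b s : 𝓞 K) (y : 𝓞 L)
    (hy : y ^ 2 + algebraMap (𝓞 K) (𝓞 L) a * y + algebraMap (𝓞 K) (𝓞 L) b = 0)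
    (hyK : algebraMap (𝓞 L) L y ∉ Set.range (algebraMap K L)) (v : HeightOneSpectrum (𝓞 K))
    (hD : a ^ 2 - 4 * b ∉ v.asIdeal) (hs : s ^ 2 + a * s + b ∈ v.asIdeal) :
    ∃ P ∈ plab K L v, y - algebraMap (𝓞 K) (𝓞 L) s ∈ P.asIdeal := by
  have hmax : v.asIdeal.IsMaximal := v.isMaximal
  have hne : v.asIdeal.map (algebraMap (𝓞 K) (𝓞 L)) ⊔
      Ideal.span {y - algebraMap (𝓞 K) (𝓞 L) s} ≠ ⊤ := by
    intro htop
    rw [Ideal.eq_top_iff_one, Submodule.mem_sup] at htop
    obtain ⟨m, hm, t, ht, hmt⟩ := htop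
    obtain ⟨t', rfl⟩ := Ideal.mem_span_singleton'.1 ht
    have hmem : y + algebraMap (𝓞 K) (𝓞 L) (a + s) ∈ v.asIdeal.map (algebraMap (𝓞 K) (𝓞 L)) := by
      have e1 : y + algebraMap (𝓞 K) (𝓞 L) (a + s) =
          m * (y + algebraMap (𝓞 K) (𝓞 L) (a + s)) -
            t' * algebraMap (𝓞 K) (𝓞 L) (s ^ 2 + a * s + b) := by
        simp only [map_add, map_mul, map_pow]
        linear_combination (-(y + (algebraMap (𝓞 K) (𝓞 L) a + algebraMap (𝓞 K) (𝓞 L) s))) * hmt
          + t' * hy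
      rw [e1]
      exact Ideal.sub_mem _ (Ideal.mul_mem_right _ _ hm)
        (Ideal.mul_mem_left _ _ (Ideal.mem_map_of_mem _ hs))
    have htr := q1_intTrace_mem K L v.asIdeal _ hmem
    rw [map_add, q1_intTrace_quad K L h2 a b y hy hyK, q1_intTrace_algebraMap K L h2] at htr
    apply hD
    have e2 : a ^ 2 - 4 * b = (-a + 2 * (a + s)) * (-a + 2 * (a + s)) - 4 * (s ^ 2 + a * s + b) := by
      ring
    rw [e2]
    exact Ideal.sub_mem _ (Ideal.mul_mem_left _ _ htr) (Ideal.mul_mem_left _ _ hs)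
  obtain ⟨I, hI, hle⟩ := Ideal.exists_le_maximal _ hne
  have hlo : I.LiesOver v.asIdeal := by
    constructor
    refine hmax.eq_of_le ?_ ?_
    · exact (Ideal.comap_isPrime (algebraMap (𝓞 K) (𝓞 L)) I).ne_top
    · rw [Ideal.under_def, ← Ideal.map_le_iff_le_comap]
      exact le_sup_left.trans hle
  exact ⟨⟨I, hI.isPrime, Ideal.ne_bot_of_liesOver_of_ne_bot v.ne_bot I⟩, hlo,
    hle (Ideal.mem_sup_right (Ideal.mem_span_singleton_self _))⟩

theorem q1_quad_split_int (h2 : Module.finrank K L = 2) (a b s : 𝓞 K) (y : 𝓞 L)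
    (hy : y ^ 2 + algebraMap (𝓞 K) (𝓞 L) a * y + algebraMap (𝓞 K) (𝓞 L) b = 0)
    (hyK : algebraMap (𝓞 L) L y ∉ Set.range (algebraMap K L)) (v : HeightOneSpectrum (𝓞 K))
    (hD : a ^ 2 - 4 * b ∉ v.asIdeal) (hs : s ^ 2 + a * s + b ∈ v.asIdeal) :
    (plab K L v).ncard = 2 ∧ ∀ P ∈ plab K L v, Nat.card (𝓞 L ⧸ P.asIdeal) =
      Nat.card (𝓞 K ⧸ v.asIdeal) := by
  obtain ⟨P, hP, h1⟩ := q1_exists_place K L h2 a b s y hy hyK v hD hs
  obtain ⟨Q, hQ, h3⟩ := q1_exists_place K L h2 a b (-a - s) y hy hyK v hD (by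
    have : (-a - s) ^ 2 + a * (-a - s) + b = s ^ 2 + a * s + b := by ring
    rw [this]; exact hs)
  refine q1_plab_two K L h2 v P Q hP hQ ?_
  rintro rfl
  apply hD
  have h4 := Ideal.sub_mem _ h1 h3
  have e : y - algebraMap (𝓞 K) (𝓞 L) s - (y - algebraMap (𝓞 K) (𝓞 L) (-a - s)) =
      algebraMap (𝓞 K) (𝓞 L) (-(a + 2 * s)) := by
    simp only [map_sub, map_neg, map_add, map_mul, map_ofNat]
    ring
  rw [e] at h4
  have hlo : P.asIdeal.LiesOver v.asIdeal := hP
  have h5 : -(a + 2 * s) ∈ v.asIdeal := by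
    rw [hlo.over]
    exact h4
  have e2 : a ^ 2 - 4 * b = (-(a + 2 * s)) * (-(a + 2 * s)) - 4 * (s ^ 2 + a * s + b) := by
    ring
  rw [e2]
  exact Ideal.sub_mem _ (Ideal.mul_mem_left _ _ h5) (Ideal.mul_mem_left _ _ hs)

theorem q1_quad_inert_int (h2 : Module.finrank K L = 2) (a b : 𝓞 K) (y : 𝓞 L)
    (hy : y ^ 2 + algebraMap (𝓞 K) (𝓞 L) a * y + algebraMap (𝓞 K) (𝓞 L) b = 0)
    (v : HeightOneSpectrum (𝓞 K))
    (hs : ¬ ∃ s : 𝓞 K, s ^ 2 + a * s + b ∈ v.asIdeal) :
    (plab K L v).ncard = 1 ∧ ∀ P ∈ plab K L v, Nat.card (𝓞 L ⧸ P.asIdeal) =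
      Nat.card (𝓞 K ⧸ v.asIdeal) ^ 2 := by
  have hmax : v.asIdeal.IsMaximal := v.isMaximal
  have hf : ∀ P ∈ plab K L v, 2 ≤ Ideal.inertiaDeg' v.asIdeal P.asIdeal := by
    intro P hP
    by_contra hlt
    have h1 : Ideal.inertiaDeg' v.asIdeal P.asIdeal = 1 := by
      have := q1_plab_f_pos K L v P hP
      omega
    have hlo : P.asIdeal.LiesOver v.asIdeal := hP
    letI : Field (𝓞 K ⧸ v.asIdeal) := Ideal.Quotient.field _
    rw [Ideal.inertiaDeg'_algebraMap] at h1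
    have hne : (1 : 𝓞 L ⧸ P.asIdeal) ≠ 0 := by
      have := P.isPrime
      exact one_ne_zero
    have h3 := (finrank_eq_one_iff_of_nonzero' (K := 𝓞 K ⧸ v.asIdeal) (1 : 𝓞 L ⧸ P.asIdeal) hne).1 h1
      (Ideal.Quotient.mk _ y)
    obtain ⟨c, hc⟩ := h3
    obtain ⟨s, rfl⟩ := Ideal.Quotient.mk_surjective c
    apply hs
    refine ⟨s, ?_⟩
    rw [← Algebra.algebraMap_eq_smul_one, Ideal.Quotient.algebraMap_mk_of_liesOver, Ideal.Quotient.eq] at hc
    rw [hlo.over]
    change algebraMap (𝓞 K) (𝓞 L) (s ^ 2 + a * s + b) ∈ P.asIdeal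
    have e : algebraMap (𝓞 K) (𝓞 L) (s ^ 2 + a * s + b) = (algebraMap (𝓞 K) (𝓞 L) s - y) *
        (algebraMap (𝓞 K) (𝓞 L) s + y + algebraMap (𝓞 K) (𝓞 L) a) := by
      simp only [map_add, map_mul, map_pow]
      linear_combination hy
    rw [e]
    exact Ideal.mul_mem_right _ _ hc
  have hef : ∀ P ∈ plab K L v, 2 ≤ Ideal.ramificationIdx' v.asIdeal P.asIdeal *
      Ideal.inertiaDeg' v.asIdeal P.asIdeal := by
    intro P hP
    nlinarith [hf P hP, q1_plab_e_pos K L v P hP]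
  obtain ⟨h3, h4⟩ := q1_plab_one K L h2 v hef
  refine ⟨h3, fun P hP => ?_⟩
  rw [q1_plab_card K L v P hP]
  have h5 := hf P hP
  have h6 := q1_plab_e_pos K L v P hP
  have h7 := h4 P hP
  have h8 : Ideal.inertiaDeg' v.asIdeal P.asIdeal = 2 := by nlinarith
  rw [h8]

/-- clearing denominators at `v` -/
theorem q1_clear_denom (v : HeightOneSpectrum (𝓞 K)) (x : K) (hx : v.valuation K x ≤ 1) :
    ∃ n d : 𝓞 K, d ∉ v.asIdeal ∧ algebraMap (𝓞 K) K d * x = algebraMap (𝓞 K) K n := by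
  obtain ⟨n, d, h⟩ := v.exists_primeCompl_mul_eq_of_integer x hx
  exact ⟨n, d.1, d.2, by rw [mul_comm]; exact h⟩

/-- the reduction to integral coefficients -/
theorem q1_quad_reduce (a b : K) (η : L)
    (hη : η ^ 2 + algebraMap K L a * η + algebraMap K L b = 0) (v : HeightOneSpectrum (𝓞 K))
    (ha : v.valuation K a ≤ 1) (hb : v.valuation K b ≤ 1) :
    ∃ (c a' b' : 𝓞 K) (y : 𝓞 L), c ∉ v.asIdeal ∧
      algebraMap (𝓞 K) K a' = algebraMap (𝓞 K) K c * a ∧
      algebraMap (𝓞 K) K b' = algebraMap (𝓞 K) K c ^ 2 * b ∧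
      algebraMap (𝓞 L) L y = algebraMap K L (algebraMap (𝓞 K) K c) * η ∧
      y ^ 2 + algebraMap (𝓞 K) (𝓞 L) a' * y + algebraMap (𝓞 K) (𝓞 L) b' = 0 := by
  obtain ⟨n, d, hd, h1⟩ := q1_clear_denom K v a ha
  obtain ⟨m, e, he, h2⟩ := q1_clear_denom K v b hb
  have hp := v.isPrime
  have hA : algebraMap (𝓞 K) K (e * n) = algebraMap (𝓞 K) K (d * e) * a := by
    rw [map_mul, map_mul]; linear_combination (-algebraMap (𝓞 K) K e) * h1
  have hB : algebraMap (𝓞 K) K (d ^ 2 * e * m) = algebraMap (𝓞 K) K (d * e) ^ 2 * b := by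
    simp only [map_mul, map_pow]
    linear_combination (-algebraMap (𝓞 K) K d ^ 2 * algebraMap (𝓞 K) K e) * h2
  obtain ⟨y, hy1, hy2⟩ := q1_exists_int_root K L (e * n) (d ^ 2 * e * m)
    (algebraMap K L (algebraMap (𝓞 K) K (d * e)) * η) (by
      change (algebraMap K L (algebraMap (𝓞 K) K (d * e)) * η) ^ 2 +
        algebraMap K L (algebraMap (𝓞 K) K (e * n)) *
          (algebraMap K L (algebraMap (𝓞 K) K (d * e)) * η) +
        algebraMap K L (algebraMap (𝓞 K) K (d ^ 2 * e * m)) = 0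
      rw [hA, hB]
      simp only [map_mul, map_pow]
      linear_combination (algebraMap K L (algebraMap (𝓞 K) K d)) ^ 2 * (algebraMap K L (algebraMap (𝓞 K) K e)) ^ 2 * hη)
  refine ⟨d * e, e * n, d ^ 2 * e * m, y, ?_, hA, hB, hy1, hy2⟩
  intro h
  rcases hp.mem_or_mem h with h | h
  · exact hd h
  · exact he h

/-- `L = K(η)`, `η² + a η + b = 0`, with discriminant a unit at `v`, and the polynomial has a root modulo
`v`: `v` splits. Sketch: `∑ e f = 2`. Modulo a place `P` above `v`: `η ≡ s` or `η ≡ -a - s`. The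
conjugation `σ` maps `η` to `-a - η`; if `P` were the only place then `σ P = P`, so `η ≡ s` would give
`-a - η ≡ s` too, so `2 s + a ≡ 0`, `a² - 4 b ≡ (2 s + a)² ≡ 0`, a contradiction. -/
theorem quad_split (h2 : Module.finrank K L = 2) (a b : K) (η : L)
    (hη : η ^ 2 + algebraMap K L a * η + algebraMap K L b = 0)
    (hηK : η ∉ Set.range (algebraMap K L)) (v : HeightOneSpectrum (𝓞 K))
    (ha : v.valuation K a ≤ 1) (hb : v.valuation K b ≤ 1)
    (hD : v.valuation K (a ^ 2 - 4 * b) = 1)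
    (hs : ∃ s : K, v.valuation K (s ^ 2 + a * s + b) < 1) :
    (plab K L v).ncard = 2 ∧ ∀ P ∈ plab K L v, Nat.card (𝓞 L ⧸ P.asIdeal) =
      Nat.card (𝓞 K ⧸ v.asIdeal) := by
  obtain ⟨s, hs⟩ := hs
  obtain ⟨c, a', b', y, hc, ha', hb', hy1, hy2⟩ := q1_quad_reduce K L a b η hη v ha hb
  have hcv : v.valuation K (algebraMap (𝓞 K) K c) = 1 := v.valuation_eq_one_iff_notMem.2 hc
  have hc0 : algebraMap (𝓞 K) K c ≠ 0 := by
    intro h0
    rw [h0, map_zero] at hcv
    exact zero_ne_one hcv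
  -- `v(s) ≤ 1`
  have hsv : v.valuation K s ≤ 1 := by
    by_contra hgt
    push Not at hgt
    have h1 : v.valuation K (a * s + b) ≤ v.valuation K s := by
      refine (Valuation.map_add _ _ _).trans (max_le ?_ (hb.trans hgt.le))
      rw [map_mul]
      exact mul_le_of_le_one_left' ha
    have h3 : v.valuation K s < v.valuation K (s ^ 2) := by
      rw [map_pow, pow_two]
      exact lt_mul_of_one_lt_left (zero_lt_one.trans hgt) hgt
    have h4 : v.valuation K (s ^ 2 + (a * s + b)) = v.valuation K (s ^ 2) :=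
      Valuation.map_add_eq_of_lt_left _ (h1.trans_lt h3)
    rw [add_assoc, h4] at hs
    exact absurd (hs.trans (hgt.trans h3)) (lt_irrefl _)
  have hcs : v.valuation K (algebraMap (𝓞 K) K c * s) ≤ 1 := by
    rw [map_mul, hcv, one_mul]; exact hsv
  obtain ⟨s', hs'⟩ := v.exists_valuation_sub_lt_of_integer hcs 1
  rw [Units.val_one] at hs'
  refine q1_quad_split_int K L h2 a' b' s' y hy2 ?_ v ?_ ?_
  · rintro ⟨x, hx⟩
    apply hηK
    refine ⟨(algebraMap (𝓞 K) K c)⁻¹ * x, ?_⟩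
    rw [map_mul, hx, hy1, map_inv₀, inv_mul_cancel_left₀]
    exact (map_ne_zero _).2 hc0
  · rw [← v.valuation_eq_one_iff_notMem (K := K)]
    have e : algebraMap (𝓞 K) K (a' ^ 2 - 4 * b') = algebraMap (𝓞 K) K c ^ 2 * (a ^ 2 - 4 * b) := by
      rw [map_sub, map_mul, map_pow, ha', hb', map_ofNat]; ring
    rw [e, map_mul, map_pow, hcv, hD]; simp
  · rw [← v.valuation_lt_one_iff_mem (K := K)]
    have e : algebraMap (𝓞 K) K (s' ^ 2 + a' * s' + b') =
        algebraMap (𝓞 K) K c ^ 2 * (s ^ 2 + a * s + b) +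
        (algebraMap (𝓞 K) K s' - algebraMap (𝓞 K) K c * s) *
          (algebraMap (𝓞 K) K s' + algebraMap (𝓞 K) K c * s + algebraMap (𝓞 K) K a') := by
      rw [map_add, map_add, map_mul, map_pow, ha', hb']; ring
    change v.valuation K (algebraMap (𝓞 K) K (s' ^ 2 + a' * s' + b')) < 1
    rw [e]
    refine (Valuation.map_add _ _ _).trans_lt (max_lt ?_ ?_)
    · rw [map_mul, map_pow, hcv]; simpa using hs
    · rw [map_mul]
      refine (mul_le_of_le_one_right' ?_).trans_lt hs'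
      refine (Valuation.map_add _ _ _).trans (max_le ?_ (v.valuation_le_one a'))
      exact (Valuation.map_add _ _ _).trans (max_le (v.valuation_le_one s') hcs)

/-- … and the polynomial has no root modulo `v`: `v` is inert. Sketch: the residue field of `P` contains
the root `η mod P` of `X² + a X + b`, irreducible over the residue field of `v`, so `f ≥ 2`, and
`∑ e f = 2`. -/
theorem quad_inert (h2 : Module.finrank K L = 2) (a b : K) (η : L)
    (hη : η ^ 2 + algebraMap K L a * η + algebraMap K L b = 0) (v : HeightOneSpectrum (𝓞 K))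
    (ha : v.valuation K a ≤ 1) (hb : v.valuation K b ≤ 1)
    (hs : ¬ ∃ s : K, v.valuation K (s ^ 2 + a * s + b) < 1) :
    (plab K L v).ncard = 1 ∧ ∀ P ∈ plab K L v, Nat.card (𝓞 L ⧸ P.asIdeal) =
      Nat.card (𝓞 K ⧸ v.asIdeal) ^ 2 := by
  obtain ⟨c, a', b', y, hc, ha', hb', hy1, hy2⟩ := q1_quad_reduce K L a b η hη v ha hb
  have hcv : v.valuation K (algebraMap (𝓞 K) K c) = 1 := v.valuation_eq_one_iff_notMem.2 hc
  have hc0 : algebraMap (𝓞 K) K c ≠ 0 := by
    intro h0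
    rw [h0, map_zero] at hcv
    exact zero_ne_one hcv
  refine q1_quad_inert_int K L h2 a' b' y hy2 v ?_
  rintro ⟨s', hs'⟩
  apply hs
  refine ⟨(algebraMap (𝓞 K) K c)⁻¹ * algebraMap (𝓞 K) K s', ?_⟩
  have e : algebraMap (𝓞 K) K (s' ^ 2 + a' * s' + b') = algebraMap (𝓞 K) K c ^ 2 *
      (((algebraMap (𝓞 K) K c)⁻¹ * algebraMap (𝓞 K) K s') ^ 2 +
        a * ((algebraMap (𝓞 K) K c)⁻¹ * algebraMap (𝓞 K) K s') + b) := by
    rw [map_add, map_add, map_mul, map_pow, ha', hb']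
    field_simp
  rw [← v.valuation_lt_one_iff_mem (K := K)] at hs'
  change v.valuation K (algebraMap (𝓞 K) K (s' ^ 2 + a' * s' + b')) < 1 at hs'
  rw [e, map_mul, map_pow, hcv, one_pow, one_mul] at hs'
  exact hs'

/-- `L = K(√d)` and the valuation of `d` at `v` is odd: `v` is ramified. Sketch: `2 w(√d) = e v(d)`, so
`e = 2`, and `∑ e f = 2`. -/
theorem quad_ram (h2 : Module.finrank K L = 2) (d : K) (δ : L) (hδ : δ ^ 2 = algebraMap K L d)
    (hd : d ≠ 0) (v : HeightOneSpectrum (𝓞 K)) (hv : ¬ IsSquare (v.valuation K d)) :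
    (plab K L v).ncard = 1 ∧ ∀ P ∈ plab K L v, Nat.card (𝓞 L ⧸ P.asIdeal) =
      Nat.card (𝓞 K ⧸ v.asIdeal) := by
  have he : ∀ P ∈ plab K L v, 2 ≤ Ideal.ramificationIdx' v.asIdeal P.asIdeal := by
    intro P hP
    by_contra hlt
    have h1 : Ideal.ramificationIdx' v.asIdeal P.asIdeal = 1 := by
      have := q1_plab_e_pos K L v P hP
      omega
    have hlo : P.asIdeal.LiesOver v.asIdeal := hP
    have h3 := HeightOneSpectrum.valuation_liesOver (K := K) L v P d
    rw [h1, pow_one, ← hδ, map_pow, pow_two] at h3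
    exact hv ⟨_, h3⟩
  have hef : ∀ P ∈ plab K L v, 2 ≤ Ideal.ramificationIdx' v.asIdeal P.asIdeal *
      Ideal.inertiaDeg' v.asIdeal P.asIdeal := by
    intro P hP
    nlinarith [he P hP, q1_plab_f_pos K L v P hP]
  obtain ⟨h3, h4⟩ := q1_plab_one K L h2 v hef
  refine ⟨h3, fun P hP => ?_⟩
  rw [q1_plab_card K L v P hP]
  have h5 := he P hP
  have h6 := q1_plab_f_pos K L v P hP
  have h7 := h4 P hP
  have h8 : Ideal.inertiaDeg' v.asIdeal P.asIdeal = 1 := by nlinarith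
  rw [h8, pow_one]

end

end CF
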