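import Pool.Agent.MP_dfae13_nt.T.TB1
import Pool.Agent.MP_dfae13_nt.T.TB2

set_option autoImplicit false

open CM27
open scoped Classical

namespace CMT

/-! ## [CF3-W3] points of `y² + y = x³ + e` over a finite field of characteristic two
(file CF3/W3.lean) -/

/-- the additive map `t ↦ t² + t` in characteristic two -/
def w3_hom (k : Type) [Field k] (h2 : (2 : k) = 0) : k →+ k where
  toFun t := t ^ 2 + t
  map_zero' := by ring
  map_add' s t := by linear_combination (s * t) * h2

theorem w3_index (k : Type) [Field k] [Finite k] (h2 : (2 : k) = 0) :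
    (w3_hom k h2).range.index = 2 := by
  have hker : Nat.card (w3_hom k h2).ker = 2 := by
    have h1 : ((w3_hom k h2).ker : Set k) = {0, 1} := by
      ext t
      simp only [SetLike.mem_coe, AddMonoidHom.mem_ker, Set.mem_insert_iff, Set.mem_singleton_iff]
      show t ^ 2 + t = 0 ↔ _
      constructor
      · intro h
        have h3 : t * (t - 1) = 0 := by linear_combination h - t * h2
        rcases mul_eq_zero.1 h3 with h4 | h4
        · exact Or.inl h4
        · exact Or.inr (sub_eq_zero.1 h4)
      · rintro (rfl | rfl)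
        · ring
        · linear_combination h2
    have h3 : Nat.card (w3_hom k h2).ker = ((w3_hom k h2).ker : Set k).ncard := rfl
    rw [h3, h1, Set.ncard_pair zero_ne_one]
  have h1 := (w3_hom k h2).ker.card_mul_index
  have h3 := (w3_hom k h2).range.card_mul_index
  rw [AddSubgroup.index_ker, hker] at h1
  have h4 : 0 < Nat.card (w3_hom k h2).range := Nat.card_pos
  rw [← h1, mul_comm 2] at h3
  exact Nat.eq_of_mul_eq_mul_left h4 h3

theorem w3_fib (k : Type) [Field k] [Finite k] (h2 : (2 : k) = 0) (a : k) :
    Nat.card {y : k // y ^ 2 + y = a} = if a ∈ (w3_hom k h2).range then 2 else 0 := by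
  split_ifs with h
  · obtain ⟨t, ht⟩ := h
    have ht' : t ^ 2 + t = a := ht
    have h1 : {y : k | y ^ 2 + y = a} = {t, t + 1} := by
      ext y
      simp only [Set.mem_ofPred_eq, Set.mem_insert_iff, Set.mem_singleton_iff]
      constructor
      · intro hy
        have h3 : (y - t) * (y - (t + 1)) = 0 := by
          linear_combination hy - ht' + (t + t ^ 2 - y - y * t) * h2
        rcases mul_eq_zero.1 h3 with h4 | h4
        · exact Or.inl (sub_eq_zero.1 h4)
        · exact Or.inr (sub_eq_zero.1 h4)
      · rintro (rfl | rfl)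
        · exact ht'
        · linear_combination ht' + (t + 1) * h2
    have h3 : Nat.card {y : k // y ^ 2 + y = a} = ({y : k | y ^ 2 + y = a} : Set k).ncard := rfl
    rw [h3, h1, Set.ncard_pair]
    intro h4
    have : (1 : k) = 0 := by linear_combination -h4
    exact one_ne_zero this
  · have : IsEmpty {y : k // y ^ 2 + y = a} := ⟨fun y => h ⟨y.1, y.2⟩⟩
    exact Nat.card_of_isEmpty

theorem w3_card (k : Type) [Field k] [Fintype k] (h2 : (2 : k) = 0) (e : k) :
    Nat.card (Wt e).toAffine.Point =
      (∑ x : k, if x ^ 3 + e ∈ (w3_hom k h2).range then 2 else 0) + 1 := by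
  have e1 : {xy : k × k // (Wt e).toAffine.Nonsingular xy.1 xy.2} ≃
      Σ x : k, {y : k // y ^ 2 + y = x ^ 3 + e} := by
    refine
      { toFun := fun p => ⟨p.1.1, p.1.2, (tb2_nonsingular_iff k h2 e _ _).1 p.2⟩
        invFun := fun q => ⟨(q.1, q.2.1), (tb2_nonsingular_iff k h2 e _ _).2 q.2.2⟩
        left_inv := fun p => rfl
        right_inv := fun q => rfl }
  have h1 : Nat.card (Wt e).toAffine.Point =
      Nat.card (Option (Σ x : k, {y : k // y ^ 2 + y = x ^ 3 + e})) :=
    Nat.card_congr ((WeierstrassCurve.Affine.nonsingularPointEquiv (Wt e).toAffine).trans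
      (Equiv.optionCongr e1))
  rw [h1, Finite.card_option, Nat.card_sigma]
  congr 1
  refine Finset.sum_congr rfl fun x _ => ?_
  rw [w3_fib k h2]
  congr

/-- Sketch: if `e = t² + t` then `y ↦ y + t` is a bijection. Otherwise `e` represents the nontrivial
class of `k / {t² + t}` (a subgroup of index `2`), and for each `x` exactly one of the two equations
`y² + y = x³`, `y² + y = x³ + e` has two solutions, the other none: the sum of the numbers of affine
points is `2 q`. (All solutions are nonsingular, see `tb2_nonsingular_iff`.) -/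
theorem card_twist_two (k : Type) [Field k] [Finite k] (h2 : (2 : k) = 0) (e : k) :
    ((Nat.card (Wt e).toAffine.Point : ℕ) : ℤ) =
      if ∃ t : k, t ^ 2 + t = e then (Nat.card (E k).toAffine.Point : ℤ)
      else 2 * (Nat.card k + 1) - Nat.card (E k).toAffine.Point := by
  have : Fintype k := Fintype.ofFinite k
  have hE : E k = Wt 0 := rfl
  rw [w3_card k h2 e, hE, w3_card k h2 0]
  have hidx := w3_index k h2
  by_cases h : ∃ t : k, t ^ 2 + t = e
  · rw [if_pos h]
    have he : e ∈ (w3_hom k h2).range := h
    congr 2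
    refine Finset.sum_congr rfl fun x _ => ?_
    have : x ^ 3 + e ∈ (w3_hom k h2).range ↔ x ^ 3 + 0 ∈ (w3_hom k h2).range := by
      rw [add_zero, AddSubgroup.add_mem_iff_of_index_two hidx]
      simp [he]
    simp only [this]
  · rw [if_neg h]
    have he : e ∉ (w3_hom k h2).range := h
    have hx : ∀ x : k, ((if x ^ 3 + e ∈ (w3_hom k h2).range then 2 else 0 : ℕ) : ℤ) +
        ((if x ^ 3 + 0 ∈ (w3_hom k h2).range then 2 else 0 : ℕ) : ℤ) = 2 := by
      intro x
      have : x ^ 3 + e ∈ (w3_hom k h2).range ↔ ¬ (x ^ 3 + 0 ∈ (w3_hom k h2).range) := by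
        rw [add_zero, AddSubgroup.add_mem_iff_of_index_two hidx]
        simp [he]
      by_cases h3 : x ^ 3 + 0 ∈ (w3_hom k h2).range
      · rw [if_neg (fun h4 => this.1 h4 h3), if_pos h3]; norm_num
      · rw [if_pos (this.2 h3), if_neg h3]; norm_num
    have hsum := Finset.sum_congr (rfl : (Finset.univ : Finset k) = Finset.univ) fun x _ => hx x
    rw [Finset.sum_add_distrib, Finset.sum_const, Finset.card_univ, ← Nat.card_eq_fintype_card,
      nsmul_eq_mul] at hsum
    push_cast at hsum ⊢
    linarith

end CMT
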