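import Pool.Agent.MP_9ab903_nt.CF3.W1
import Pool.Agent.MP_9ab903_nt.CF3.W3
import Pool.Agent.MP_9ab903_nt.CF3.Q1
import Pool.Agent.MP_dfae13_nt.T.TE2
import Pool.Agent.MP_dfae13_nt.T.TC3

set_option autoImplicit false

open NumberField IsDedekindDomain ArithmeticFunction
open CM27
open scoped ComplexConjugate Classical

namespace CF

open CMT

/-! ## [CF3-PL] the Euler factors of the twist by `d` and the places of `K(√d)` (file CF3/PL.lean;
uses W1, W3, Q1) -/

section PLaux

variable (K : Type) [Field K] [NumberField K] (v : HeightOneSpectrum (𝓞 K))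

theorem PL_val (x : K) : Valued.v (algebraMap K (v.adicCompletion K) x) = v.valuation K x :=
  HeightOneSpectrum.valuedAdicCompletion_eq_valuation' v x

/-- an element of `K` integral at `v`, in the completion -/
noncomputable def PL_toO (x : K) (hx : v.valuation K x ≤ 1) : v.adicCompletionIntegers K :=
  ⟨algebraMap K (v.adicCompletion K) x, by
    change Valued.v (algebraMap K (v.adicCompletion K) x) ≤ 1
    rw [PL_val]; exact hx⟩

theorem PL_coe_toO (x : K) (hx : v.valuation K x ≤ 1) :
    ((PL_toO K v x hx : v.adicCompletionIntegers K) : v.adicCompletion K) =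
      algebraMap K (v.adicCompletion K) x := rfl

theorem PL_algebraMap_toO (x : K) (hx : v.valuation K x ≤ 1) :
    algebraMap (v.adicCompletionIntegers K) (v.adicCompletion K) (PL_toO K v x hx) =
      algebraMap K (v.adicCompletion K) x := rfl

theorem PL_int (r : 𝓞 K) : v.valuation K (r : K) ≤ 1 := v.valuation_le_one r

theorem PL_toO_int (r : 𝓞 K) : PL_toO K v (r : K) (PL_int K v r) =
    algebraMap (𝓞 K) (v.adicCompletionIntegers K) r := rfl

theorem PL_res_eq_zero (x : K) (hx : v.valuation K x ≤ 1) :
    IsLocalRing.residue (v.adicCompletionIntegers K) (PL_toO K v x hx) = 0 ↔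
      v.valuation K x < 1 := by
  rw [IsLocalRing.residue_eq_zero_iff, c3_mem_max, PL_coe_toO, PL_val]

theorem PL_isUnit (x : K) (hx : v.valuation K x = 1) :
    IsUnit (PL_toO K v x hx.le) := by
  rw [HeightOneSpectrum.adicCompletionIntegers.isUnit_iff_valued_eq_one, PL_coe_toO, PL_val, hx]

theorem PL_irreducible (x : v.adicCompletionIntegers K)
    (hx : Valued.v (x : v.adicCompletion K) = WithZero.exp (-1 : ℤ)) : Irreducible x := by
  have hlt : ∀ x : WithZero (Multiplicative ℤ), x < 1 → x ≤ WithZero.exp (-1 : ℤ) := by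
    intro x hx
    rcases eq_or_ne x 0 with h0 | h0
    · rw [h0]; exact zero_le
    · rw [← WithZero.exp_zero] at hx
      rw [← WithZero.log_le_iff_le_exp h0]
      have h1 := (WithZero.log_lt_iff_lt_exp h0).2 hx
      omega
  refine ⟨?_, ?_⟩
  · rw [HeightOneSpectrum.adicCompletionIntegers.isUnit_iff_valued_eq_one, hx]
    intro h1
    rw [WithZero.exp_eq_one] at h1
    norm_num at h1
  · intro a b hab
    by_contra hcon
    push Not at hcon
    obtain ⟨ha, hb⟩ := hcon
    rw [← mem_nonunits_iff, ← IsLocalRing.mem_maximalIdeal, c3_mem_max] at ha hb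
    have h4 : Valued.v ((a * b : v.adicCompletionIntegers K) : v.adicCompletion K) =
        Valued.v (a : v.adicCompletion K) * Valued.v (b : v.adicCompletion K) := by
      rw [← map_mul]; rfl
    have h6 := mul_le_mul' (hlt _ ha) (hlt _ hb)
    rw [← h4, ← hab, hx, ← WithZero.exp_add, WithZero.exp_le_exp] at h6
    norm_num at h6

/-- elements of every valuation -/
theorem PL_exists_val (n : ℤ) : ∃ c : K, c ≠ 0 ∧ v.valuation K c = WithZero.exp n := by
  obtain ⟨π, hπ⟩ := v.valuation_exists_uniformizer K
  have hπ' : v.valuation K π = WithZero.exp (-1 : ℤ) := hπ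
  have h0 : π ≠ 0 := by
    rintro rfl
    rw [_root_.map_zero] at hπ'
    exact WithZero.exp_ne_zero hπ'.symm
  refine ⟨π ^ (-n), zpow_ne_zero _ h0, ?_⟩
  rw [map_zpow₀, hπ', ← WithZero.exp_zsmul]
  simp

theorem PL_exists_log {x : K} (hx : x ≠ 0) : ∃ n : ℤ, v.valuation K x = WithZero.exp n :=
  ⟨_, (WithZero.exp_log ((Valuation.ne_zero_iff _).2 hx)).symm⟩

/-- roots modulo `v` are integral at `v` -/
theorem PL_root_le {a b s : K} (ha : v.valuation K a ≤ 1) (hb : v.valuation K b ≤ 1)
    (hs : v.valuation K (s ^ 2 + a * s + b) < 1) : v.valuation K s ≤ 1 := by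
  by_contra hcon
  push Not at hcon
  have h0 : v.valuation K s ≠ 0 := fun h => by rw [h] at hcon; exact absurd hcon (by simp)
  have h1 : v.valuation K s < v.valuation K (s ^ 2) := by
    rw [map_pow, sq]
    calc v.valuation K s = v.valuation K s * 1 := (mul_one _).symm
      _ < v.valuation K s * v.valuation K s := by
        exact mul_lt_mul_of_pos_left hcon (zero_lt_iff.2 h0)
  have h2 : v.valuation K (a * s + b) < v.valuation K (s ^ 2) := by
    refine lt_of_le_of_lt (Valuation.map_add _ _ _) (max_lt ?_ ?_)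
    · refine lt_of_le_of_lt ?_ h1
      rw [map_mul]
      exact mul_le_of_le_one_left' ha
    · exact hb.trans_lt (hcon.trans h1)
  have h3 : v.valuation K (s ^ 2 + (a * s + b)) = v.valuation K (s ^ 2) :=
    Valuation.map_add_eq_of_lt_left _ h2
  rw [add_assoc, h3] at hs
  exact absurd (hcon.trans h1) (not_lt.2 hs.le)

/-- roots in the residue field -/
theorem PL_root {a b : K} (ha : v.valuation K a ≤ 1) (hb : v.valuation K b ≤ 1) :
    (∃ t : IsLocalRing.ResidueField (v.adicCompletionIntegers K),
      t ^ 2 + IsLocalRing.residue (v.adicCompletionIntegers K) (PL_toO K v a ha) * t +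
        IsLocalRing.residue (v.adicCompletionIntegers K) (PL_toO K v b hb) = 0) ↔
      ∃ s : K, v.valuation K (s ^ 2 + a * s + b) < 1 := by
  have key : ∀ (s : K) (hs : v.valuation K s ≤ 1),
      ((IsLocalRing.residue (v.adicCompletionIntegers K) (PL_toO K v s hs)) ^ 2 +
        IsLocalRing.residue (v.adicCompletionIntegers K) (PL_toO K v a ha) *
          IsLocalRing.residue (v.adicCompletionIntegers K) (PL_toO K v s hs) +
        IsLocalRing.residue (v.adicCompletionIntegers K) (PL_toO K v b hb) = 0) ↔
      v.valuation K (s ^ 2 + a * s + b) < 1 := by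
    intro s hs
    have h1 : v.valuation K (s ^ 2 + a * s + b) ≤ 1 := by
      refine (Valuation.map_add _ _ _).trans (max_le ((Valuation.map_add _ _ _).trans
        (max_le ?_ ?_)) hb)
      · rw [map_pow]; exact pow_le_one' hs 2
      · rw [map_mul]; exact mul_le_one' ha hs
    rw [← PL_res_eq_zero K v _ h1, ← map_pow, ← map_mul, ← map_add, ← map_add]
    have h2 : PL_toO K v s hs ^ 2 + PL_toO K v a ha * PL_toO K v s hs + PL_toO K v b hb =
        PL_toO K v (s ^ 2 + a * s + b) h1 := by
      apply Subtype.ext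
      change (algebraMap K (v.adicCompletion K) s) ^ 2 + algebraMap K (v.adicCompletion K) a *
        algebraMap K (v.adicCompletion K) s + algebraMap K (v.adicCompletion K) b =
        algebraMap K (v.adicCompletion K) (s ^ 2 + a * s + b)
      simp only [map_add, map_mul, map_pow]
    rw [h2]
  constructor
  · rintro ⟨t, ht⟩
    obtain ⟨r, rfl⟩ := (residue_completion K v).1 t
    exact ⟨(r : K), (key (r : K) (PL_int K v r)).1 ht⟩
  · rintro ⟨s, hs⟩
    have h1 := PL_root_le K v ha hb hs
    exact ⟨_, (key s h1).2 hs⟩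

theorem PL_baseChange (e : K) :
    (Wt e).baseChange (v.adicCompletion K) = Wt (algebraMap K (v.adicCompletion K) e) := by
  unfold WeierstrassCurve.baseChange WeierstrassCurve.map Wt
  simp

end PLaux

/-- the case of good reduction -/
theorem PL_good (K L : Type) [Field K] [NumberField K] [Field L] [NumberField L]
    [Algebra K L] (h2 : Module.finrank K L = 2) (e : K)
    (v : HeightOneSpectrum (𝓞 K)) (h3 : (3 : 𝓞 K) ∉ v.asIdeal)
    (p f : ℕ) (hp : p.Prime) (hf : 0 < f) (hq : Nat.card (𝓞 K ⧸ v.asIdeal) = p ^ f) (α β : ℂ)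
    (hαβ : α * β = p)
    (hpts : ∀ (k : Type) [Field k] [Finite k], Nat.card k = p ^ f →
      (Nat.card (E k).toAffine.Point : ℂ) = p ^ f + 1 - (α ^ f + β ^ f))
    (C : WeierstrassCurve.VariableChange (v.adicCompletion K))
    (e' : v.adicCompletionIntegers K)
    (hW : (Wt e).baseChange (v.adicCompletion K) =
      C • Wt (algebraMap (v.adicCompletionIntegers K) (v.adicCompletion K) e'))
    (he' : IsUnit (4 * e' + 1)) (a b : K) (η : L)
    (hη : η ^ 2 + algebraMap K L a * η + algebraMap K L b = 0)
    (hηK : η ∉ Set.range (algebraMap K L))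
    (ha : v.valuation K a ≤ 1) (hb : v.valuation K b ≤ 1)
    (hD : v.valuation K (a ^ 2 - 4 * b) = 1)
    (hcard : ((Nat.card (Wt (IsLocalRing.residue (v.adicCompletionIntegers K)
        e')).toAffine.Point : ℕ) : ℤ) =
      if ∃ t : IsLocalRing.ResidueField (v.adicCompletionIntegers K),
        t ^ 2 + IsLocalRing.residue (v.adicCompletionIntegers K) (PL_toO K v a ha) * t +
          IsLocalRing.residue (v.adicCompletionIntegers K) (PL_toO K v b hb) = 0
      then (Nat.card (E (IsLocalRing.ResidueField
        (v.adicCompletionIntegers K))).toAffine.Point : ℤ)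
      else 2 * (Nat.card (IsLocalRing.ResidueField (v.adicCompletionIntegers K)) + 1) -
        Nat.card (E (IsLocalRing.ResidueField (v.adicCompletionIntegers K))).toAffine.Point) :
    ((plab K L v).ncard = 2 ∧ (∀ P ∈ plab K L v, Nat.card (𝓞 L ⧸ P.asIdeal) = p ^ f) ∧
      PowerSeries.map (Int.castRingHom ℂ) (loc p (fW K (Wt e) v)) *
        ((1 - (PowerSeries.C α * PowerSeries.X) ^ f) *
          (1 - (PowerSeries.C β * PowerSeries.X) ^ f)) = 1) ∨
    ((plab K L v).ncard = 1 ∧ (∀ P ∈ plab K L v, Nat.card (𝓞 L ⧸ P.asIdeal) = (p ^ f) ^ 2) ∧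
      PowerSeries.map (Int.castRingHom ℂ) (loc p (fW K (Wt e) v)) *
        ((1 + (PowerSeries.C α * PowerSeries.X) ^ f) *
          (1 + (PowerSeries.C β * PowerSeries.X) ^ f)) = 1) := by
  obtain ⟨hc, hfin⟩ := card_residue K v
  set k := IsLocalRing.ResidueField (v.adicCompletionIntegers K) with hk
  have hkq : Nat.card k = p ^ f := by rw [hc, hq]
  have h3A : IsUnit (3 : v.adicCompletionIntegers K) := by
    have h5 := isUnit_completion' K v 3 h3
    rwa [map_ofNat] at h5
  have hpoly := localPoly_twist' (v.adicCompletionIntegers K) (v.adicCompletion K) h3A e' he' C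
  rw [← hW] at hpoly
  have h7 := loc_fW K (Wt e) v hp hf _ _ hkq hpoly
  have hE : (Nat.card (E k).toAffine.Point : ℂ) = p ^ f + 1 - (α ^ f + β ^ f) := hpts k hkq
  have hbb : (((Nat.card k : ℕ) : ℤ) : ℂ) = α ^ f * β ^ f := by
    rw [hkq, ← mul_pow, hαβ]
    push_cast
    rfl
  by_cases hs : ∃ s : K, v.valuation K (s ^ 2 + a * s + b) < 1
  · left
    obtain ⟨h8, h9⟩ := quad_split K L h2 a b η hη hηK v ha hb hD hs
    refine ⟨h8, fun P hP => (h9 P hP).trans hq, ?_⟩
    rw [if_pos ((PL_root K v ha hb).2 hs)] at hcard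
    have haa : (((Nat.card k : ℤ) + 1 - (Nat.card (Wt (IsLocalRing.residue
        (v.adicCompletionIntegers K) e')).toAffine.Point : ℕ) : ℤ) : ℂ) = α ^ f + β ^ f := by
      rw [hcard]
      push_cast
      rw [hE, hkq]
      push_cast
      ring
    rw [haa, hbb] at h7
    refine Eq.trans ?_ h7
    congr 1
    simp only [mul_pow, map_pow, map_add, map_mul]
    ring
  · right
    obtain ⟨h8, h9⟩ := quad_inert K L h2 a b η hη v ha hb hs
    refine ⟨h8, fun P hP => (h9 P hP).trans (by rw [hq]), ?_⟩
    rw [if_neg (fun h => hs ((PL_root K v ha hb).1 h))] at hcard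
    have haa : (((Nat.card k : ℤ) + 1 - (Nat.card (Wt (IsLocalRing.residue
        (v.adicCompletionIntegers K) e')).toAffine.Point : ℕ) : ℤ) : ℂ) = -(α ^ f + β ^ f) := by
      rw [hcard]
      push_cast
      rw [hE, hkq]
      push_cast
      ring
    rw [haa, hbb] at h7
    refine Eq.trans ?_ h7
    congr 1
    simp only [mul_pow, map_pow, map_add, map_mul, map_neg]
    ring

/-- `W : y² + y = x³ + e`, `4 e + 1 = d³`, `d ≡ 1 mod 4`, `L = K(√d)`, `v` a place not above `3`, with
residue field of `p ^ f` elements; `α, β` the Frobenius eigenvalues of `E : y² + y = x³` over `𝔽_p` (in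
the sense of `hpts`). Either `v` is ramified in `L` and the Euler factor of `W` is `1`, or `v` splits and
`W` has the same factor as `E`, or `v` is inert and the factor is the twisted one.
Sketch. `p` odd: if `v(d)` is odd, `d = c² d'` with `v(d') = 1`: `quad_ram`; `Wt_scale` over the
completion, `e' = (d'³ - 1)/4`, `localPoly_twist_bad'`, `fW_one`. If `v(d) = 2 v(c)`: `d = c² u`, `u` a
unit: `η = √d / c`, `a = 0`, `b = -u` in `quad_split`, `quad_inert`; `Wt_scale`, `e' = (u³ - 1)/4`,
`localPoly_twist'`, `card_twist` (T/TB1), `loc_fW` (T/TE2). `p = 2`: `d = 1 + 4 f₀`, `η = (√d - 1)/2`,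
`η² + η - f₀ = 0`; `e = 3 f₀ + 12 f₀² + 16 f₀³ ≡ f₀ mod 2`, `localPoly_twist'` with `C = 1`,
`card_twist_two`. Compare `loc_place` in T/TE3. (`residue_completion` in T/TC3: the residue field of the
completion is `𝓞 K / v`; `CM27.loc_fv` in CM/F3 is the case `ε = 1`.) -/
theorem local_places (K L : Type) [Field K] [NumberField K] [Field L] [NumberField L]
    [Algebra K L] (h2 : Module.finrank K L = 2) (d : 𝓞 K) (h4 : (4 : 𝓞 K) ∣ d - 1) (δ : L)
    (hδ : δ ^ 2 = algebraMap K L d) (hδK : δ ∉ Set.range (algebraMap K L)) (e : K)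
    (he : 4 * e + 1 = (d : K) ^ 3) (v : HeightOneSpectrum (𝓞 K)) (h3 : (3 : 𝓞 K) ∉ v.asIdeal)
    (p f : ℕ) (hp : p.Prime) (hf : 0 < f) (hq : Nat.card (𝓞 K ⧸ v.asIdeal) = p ^ f) (α β : ℂ)
    (hαβ : α * β = p)
    (hpts : ∀ (k : Type) [Field k] [Finite k], Nat.card k = p ^ f →
      (Nat.card (E k).toAffine.Point : ℂ) = p ^ f + 1 - (α ^ f + β ^ f)) :
    ((plab K L v).ncard = 1 ∧ (∀ P ∈ plab K L v, Nat.card (𝓞 L ⧸ P.asIdeal) = p ^ f) ∧
      ¬ IsSquare (v.valuation K (d : K)) ∧ fW K (Wt e) v = 1) ∨
    ((plab K L v).ncard = 2 ∧ (∀ P ∈ plab K L v, Nat.card (𝓞 L ⧸ P.asIdeal) = p ^ f) ∧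
      PowerSeries.map (Int.castRingHom ℂ) (loc p (fW K (Wt e) v)) *
        ((1 - (PowerSeries.C α * PowerSeries.X) ^ f) *
          (1 - (PowerSeries.C β * PowerSeries.X) ^ f)) = 1) ∨
    ((plab K L v).ncard = 1 ∧ (∀ P ∈ plab K L v, Nat.card (𝓞 L ⧸ P.asIdeal) = (p ^ f) ^ 2) ∧
      PowerSeries.map (Int.castRingHom ℂ) (loc p (fW K (Wt e) v)) *
        ((1 + (PowerSeries.C α * PowerSeries.X) ^ f) *
          (1 + (PowerSeries.C β * PowerSeries.X) ^ f)) = 1) := by
  obtain ⟨hc, hfin⟩ := card_residue K v
  have hd0 : (d : K) ≠ 0 := by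
    intro h0
    apply hδK
    refine ⟨0, ?_⟩
    rw [h0, _root_.map_zero] at hδ
    rw [_root_.map_zero, eq_comm]
    exact pow_eq_zero_iff (two_ne_zero) |>.1 hδ
  have h2Kv : (2 : v.adicCompletion K) ≠ 0 := by
    have h5 : (algebraMap K (v.adicCompletion K)) 2 ≠ 0 := by
      rw [Ne.eq_def, map_eq_zero]
      exact two_ne_zero
    rwa [map_ofNat] at h5
  have h3A : IsUnit (3 : v.adicCompletionIntegers K) := by
    have h5 := isUnit_completion' K v 3 h3
    rwa [map_ofNat] at h5
  have hval4 : (2 : 𝓞 K) ∉ v.asIdeal → v.valuation K (4 : K) = 1 := by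
    intro h5
    have h6 : v.valuation K ((2 : 𝓞 K) : K) = 1 := by
      refine le_antisymm (PL_int K v 2) (not_lt.1 fun h7 => h5 ?_)
      exact (v.valuation_lt_one_iff_mem 2).1 h7
    have h7 : (4 : K) = ((2 : 𝓞 K) : K) * ((2 : 𝓞 K) : K) := by
      have h8 : ((2 : 𝓞 K) : K) = 2 := map_ofNat (algebraMap (𝓞 K) K) 2
      rw [h8]
      norm_num
    rw [h7, map_mul, h6, one_mul]
  by_cases h2v : (2 : 𝓞 K) ∈ v.asIdeal
  · -- the places above `2`
    right
    obtain ⟨f₀, hf₀⟩ := h4
    have hd : d = 1 + 4 * f₀ := by rw [← hf₀]; ring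
    have hdK : (d : K) = 1 + 4 * (f₀ : K) := by
      rw [hd]
      simp only [map_add, map_mul, map_one, map_ofNat]
    have hdv : d ∉ v.asIdeal := by
      intro h5
      apply v.isPrime.ne_top
      rw [Ideal.eq_top_iff_one]
      have h6 : (1 : 𝓞 K) = d - 2 * (2 * f₀) := by rw [hd]; ring
      rw [h6]
      exact v.asIdeal.sub_mem h5 (v.asIdeal.mul_mem_right _ h2v)
    have hvd : v.valuation K (d : K) = 1 := by
      refine le_antisymm (PL_int K v d) (not_lt.1 fun h7 => hdv ?_)
      exact (v.valuation_lt_one_iff_mem d).1 h7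
    have hbv : v.valuation K (-(f₀ : K)) ≤ 1 := by
      rw [Valuation.map_neg]; exact PL_int K v f₀
    have hav : v.valuation K (1 : K) ≤ 1 := by rw [map_one]
    have h4K : (4 : K) ≠ 0 := by norm_num
    have heK : e = ((3 * f₀ + 12 * f₀ ^ 2 + 16 * f₀ ^ 3 : 𝓞 K) : K) := by
      have h5 : (4 : K) * e = 4 * ((3 * f₀ + 12 * f₀ ^ 2 + 16 * f₀ ^ 3 : 𝓞 K) : K) := by
        rw [hdK] at he
        simp only [map_add, map_mul, map_pow, map_ofNat]
        linear_combination he
      exact mul_left_cancel₀ h4K h5
    set e₀ : 𝓞 K := 3 * f₀ + 12 * f₀ ^ 2 + 16 * f₀ ^ 3 with he₀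
    set e' : v.adicCompletionIntegers K := algebraMap (𝓞 K) (v.adicCompletionIntegers K) e₀
      with he'
    have hunit : IsUnit (4 * e' + 1) := by
      have h5 : 4 * e' + 1 = algebraMap (𝓞 K) (v.adicCompletionIntegers K) (d ^ 3) := by
        rw [he', hd, he₀]
        simp only [map_add, map_mul, map_pow, map_one, map_ofNat]
        ring
      rw [h5]
      refine isUnit_completion' K v _ fun h6 => hdv ?_
      exact v.isPrime.mem_of_pow_mem _ h6
    have hres2 : (2 : IsLocalRing.ResidueField (v.adicCompletionIntegers K)) = 0 := by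
      have h5 : (2 : 𝓞 K) ∈ RingHom.ker ((IsLocalRing.residue (v.adicCompletionIntegers K)).comp
          (algebraMap (𝓞 K) (v.adicCompletionIntegers K))) := by
        rw [(residue_completion K v).2]; exact h2v
      rw [RingHom.mem_ker, map_ofNat] at h5
      exact h5
    have hrese : IsLocalRing.residue (v.adicCompletionIntegers K) e' =
        - IsLocalRing.residue (v.adicCompletionIntegers K) (PL_toO K v (-(f₀ : K)) hbv) := by
      have h5 : PL_toO K v (-(f₀ : K)) hbv =
          - algebraMap (𝓞 K) (v.adicCompletionIntegers K) f₀ := by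
        apply Subtype.ext
        change algebraMap K (v.adicCompletion K) (-(f₀ : K)) =
          - algebraMap K (v.adicCompletion K) (f₀ : K)
        rw [map_neg]
      rw [h5, map_neg, neg_neg, he', he₀]
      simp only [map_add, map_mul, map_pow, map_ofNat]
      linear_combination (IsLocalRing.residue (v.adicCompletionIntegers K)
        (algebraMap (𝓞 K) (v.adicCompletionIntegers K) f₀) + 6 *
        (IsLocalRing.residue (v.adicCompletionIntegers K)
        (algebraMap (𝓞 K) (v.adicCompletionIntegers K) f₀)) ^ 2 + 8 *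
        (IsLocalRing.residue (v.adicCompletionIntegers K)
        (algebraMap (𝓞 K) (v.adicCompletionIntegers K) f₀)) ^ 3) * hres2
    have h2L : (2 : L) ≠ 0 := two_ne_zero
    have hdL : δ ^ 2 = 1 + 4 * algebraMap K L (f₀ : K) := by
      rw [hδ, hdK, map_add, map_mul, map_one, map_ofNat]
    refine PL_good K L h2 e v h3 p f hp hf hq α β hαβ hpts 1 e' ?_ hunit 1 (-(f₀ : K))
      ((δ - 1) / 2) ?_ ?_ hav hbv ?_ ?_
    · rw [PL_baseChange, one_smul, heK]
      rfl
    · rw [map_one, map_neg]
      field_simp
      linear_combination hdL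
    · rintro ⟨x, hx⟩
      apply hδK
      refine ⟨2 * x + 1, ?_⟩
      rw [map_add, map_mul, map_one, map_ofNat, hx]
      field_simp
      ring
    · have h5 : (1 : K) ^ 2 - 4 * -(f₀ : K) = (d : K) := by rw [hdK]; ring
      rw [h5, hvd]
    · have h5 := card_twist_two (IsLocalRing.ResidueField (v.adicCompletionIntegers K)) hres2
        (IsLocalRing.residue (v.adicCompletionIntegers K) e')
      rw [h5]
      have h6 : (∃ t : IsLocalRing.ResidueField (v.adicCompletionIntegers K), t ^ 2 + t =
          IsLocalRing.residue (v.adicCompletionIntegers K) e') ↔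
        ∃ t : IsLocalRing.ResidueField (v.adicCompletionIntegers K),
        t ^ 2 + IsLocalRing.residue (v.adicCompletionIntegers K) (PL_toO K v 1 hav) * t +
          IsLocalRing.residue (v.adicCompletionIntegers K) (PL_toO K v (-(f₀ : K)) hbv) = 0 := by
        have h7 : PL_toO K v 1 hav = 1 := by
          apply Subtype.ext
          change algebraMap K (v.adicCompletion K) 1 = 1
          rw [map_one]
        rw [h7, map_one, hrese]
        refine exists_congr fun t => ?_
        rw [one_mul, eq_neg_iff_add_eq_zero]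
      by_cases h7 : ∃ t : IsLocalRing.ResidueField (v.adicCompletionIntegers K), t ^ 2 + t =
          IsLocalRing.residue (v.adicCompletionIntegers K) e'
      · rw [if_pos h7, if_pos (h6.1 h7)]
      · rw [if_neg h7, if_neg (fun h8 => h7 (h6.2 h8))]
  · have hv4 := hval4 h2v
    have h4K : (4 : K) ≠ 0 := by norm_num
    by_cases hsq : IsSquare (v.valuation K (d : K))
    · -- good reduction
      right
      obtain ⟨c, u, hc0, hdcu, hu⟩ : ∃ c u : K, c ≠ 0 ∧ (d : K) = c ^ 2 * u ∧
          v.valuation K u = 1 := by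
        obtain ⟨x, hx⟩ := hsq
        have hx0 : x ≠ 0 := by
          rintro rfl
          rw [mul_zero] at hx
          exact hd0 ((Valuation.zero_iff _).1 hx)
        obtain ⟨c, hc0, hc1⟩ := PL_exists_val K v (WithZero.log x)
        rw [WithZero.exp_log hx0] at hc1
        refine ⟨c, (d : K) / c ^ 2, hc0, by field_simp, ?_⟩
        rw [map_div₀, map_pow, hc1, hx, sq]
        exact div_self (mul_ne_zero hx0 hx0)
      have hu0 : u ≠ 0 := by
        rintro rfl
        rw [_root_.map_zero] at hu
        exact zero_ne_one hu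
      have hev : v.valuation K ((u ^ 3 - 1) / 4) ≤ 1 := by
        rw [map_div₀, hv4, div_one]
        refine (Valuation.map_sub _ _ _).trans (max_le ?_ ?_)
        · rw [map_pow, hu, one_pow]
        · rw [map_one]
      have hbv : v.valuation K (-u) ≤ 1 := by rw [Valuation.map_neg, hu]
      have hav : v.valuation K (0 : K) ≤ 1 := by rw [_root_.map_zero]; exact zero_le_one
      have he'u : 4 * PL_toO K v ((u ^ 3 - 1) / 4) hev + 1 = PL_toO K v u hu.le ^ 3 := by
        apply Subtype.ext
        change 4 * algebraMap K (v.adicCompletion K) ((u ^ 3 - 1) / 4) + 1 =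
          (algebraMap K (v.adicCompletion K) u) ^ 3
        have h5 : (4 : K) * ((u ^ 3 - 1) / 4) + 1 = u ^ 3 := by field_simp; ring
        have h6 := congrArg (algebraMap K (v.adicCompletion K)) h5
        simpa only [map_add, map_mul, map_pow, map_one, map_ofNat] using h6
      obtain ⟨C, hC⟩ := Wt_scale (v.adicCompletion K) h2Kv
        (algebraMap K (v.adicCompletion K) c) (algebraMap K (v.adicCompletion K) (d : K))
        (algebraMap K (v.adicCompletion K) u) (algebraMap K (v.adicCompletion K) e)
        (algebraMap K (v.adicCompletion K) ((u ^ 3 - 1) / 4))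
        (by rw [Ne.eq_def, map_eq_zero]; exact hc0)
        (by
          have h6 := congrArg (algebraMap K (v.adicCompletion K)) he
          simpa only [map_add, map_mul, map_pow, map_one, map_ofNat] using h6)
        (by
          have h5 : (4 : K) * ((u ^ 3 - 1) / 4) + 1 = u ^ 3 := by field_simp; ring
          have h6 := congrArg (algebraMap K (v.adicCompletion K)) h5
          simpa only [map_add, map_mul, map_pow, map_one, map_ofNat] using h6)
        (by rw [hdcu, map_mul, map_pow])
      refine PL_good K L h2 e v h3 p f hp hf hq α β hαβ hpts C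
        (PL_toO K v ((u ^ 3 - 1) / 4) hev) ?_ ?_ 0 (-u)
        (δ / algebraMap K L c) ?_ ?_ hav hbv ?_ ?_
      · rw [PL_baseChange, hC]
        rfl
      · rw [he'u]
        exact (PL_isUnit K v u hu).pow 3
      · have hcL : algebraMap K L c ≠ 0 := by rw [Ne.eq_def, map_eq_zero]; exact hc0
        rw [_root_.map_zero, zero_mul, add_zero, map_neg, div_pow, hδ, hdcu, map_mul, map_pow]
        field_simp
        ring
      · rintro ⟨x, hx⟩
        apply hδK
        have hcL : algebraMap K L c ≠ 0 := by rw [Ne.eq_def, map_eq_zero]; exact hc0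
        refine ⟨x * c, ?_⟩
        rw [map_mul, hx]
        field_simp
      · have h5 : (0 : K) ^ 2 - 4 * -u = 4 * u := by ring
        rw [h5, map_mul, hv4, hu, one_mul]
      · have hu' : IsLocalRing.residue (v.adicCompletionIntegers K) (PL_toO K v u hu.le) ≠ 0 := by
          rw [Ne.eq_def, PL_res_eq_zero, hu]
          exact lt_irrefl _
        have h2k : (2 : IsLocalRing.ResidueField (v.adicCompletionIntegers K)) ≠ 0 := by
          intro h5
          apply h2v
          rw [← (residue_completion K v).2, RingHom.mem_ker, map_ofNat]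
          exact h5
        have h3k : (3 : IsLocalRing.ResidueField (v.adicCompletionIntegers K)) ≠ 0 := by
          intro h5
          apply h3
          rw [← (residue_completion K v).2, RingHom.mem_ker, map_ofNat]
          exact h5
        have hek : 4 * IsLocalRing.residue (v.adicCompletionIntegers K)
            (PL_toO K v ((u ^ 3 - 1) / 4) hev) + 1 =
            (IsLocalRing.residue (v.adicCompletionIntegers K) (PL_toO K v u hu.le)) ^ 3 := by
          have h5 := congrArg (IsLocalRing.residue (v.adicCompletionIntegers K)) he'u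
          simpa only [map_add, map_mul, map_pow, map_one, map_ofNat] using h5
        have h5 := card_twist (IsLocalRing.ResidueField (v.adicCompletionIntegers K)) h2k h3k
          _ _ hu' hek
        rw [h5]
        have h6 : IsSquare (IsLocalRing.residue (v.adicCompletionIntegers K)
            (PL_toO K v u hu.le)) ↔
          ∃ t : IsLocalRing.ResidueField (v.adicCompletionIntegers K),
          t ^ 2 + IsLocalRing.residue (v.adicCompletionIntegers K) (PL_toO K v 0 hav) * t +
            IsLocalRing.residue (v.adicCompletionIntegers K) (PL_toO K v (-u) hbv) = 0 := by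
          have h7 : PL_toO K v 0 hav = 0 := by
            apply Subtype.ext
            change algebraMap K (v.adicCompletion K) 0 = 0
            rw [_root_.map_zero]
          have h8 : PL_toO K v (-u) hbv = - PL_toO K v u hu.le := by
            apply Subtype.ext
            change algebraMap K (v.adicCompletion K) (-u) = - algebraMap K (v.adicCompletion K) u
            rw [map_neg]
          rw [h7, h8, _root_.map_zero, map_neg]
          constructor
          · rintro ⟨t, ht⟩
            exact ⟨t, by rw [ht]; ring⟩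
          · rintro ⟨t, ht⟩
            exact ⟨t, by linear_combination -ht⟩
        by_cases h7 : IsSquare (IsLocalRing.residue (v.adicCompletionIntegers K)
            (PL_toO K v u hu.le))
        · rw [if_pos h7, if_pos (h6.1 h7)]
        · rw [if_neg h7, if_neg (fun h8 => h7 (h6.2 h8))]
    · -- bad reduction
      left
      obtain ⟨h8, h9⟩ := quad_ram K L h2 (d : K) δ hδ hd0 v hsq
      refine ⟨h8, fun P hP => (h9 P hP).trans hq, hsq, ?_⟩
      obtain ⟨c, u, hc0, hdcu, hu⟩ : ∃ c u : K, c ≠ 0 ∧ (d : K) = c ^ 2 * u ∧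
          v.valuation K u = WithZero.exp (-1 : ℤ) := by
        obtain ⟨n, hn⟩ := PL_exists_log K v hd0
        have hodd : ¬ Even n := by
          rintro ⟨m, rfl⟩
          apply hsq
          rw [hn, WithZero.exp_add]
          exact ⟨_, rfl⟩
        rw [Int.not_even_iff_odd] at hodd
        obtain ⟨m, rfl⟩ := hodd
        obtain ⟨c, hc0, hc1⟩ := PL_exists_val K v (m + 1)
        refine ⟨c, (d : K) / c ^ 2, hc0, by field_simp, ?_⟩
        rw [map_div₀, map_pow, hc1, hn, ← WithZero.exp_nsmul, ← WithZero.exp_sub]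
        congr 1
        simp only [smul_eq_mul, Nat.cast_ofNat, nsmul_eq_mul]
        ring
      have hu1 : v.valuation K u ≤ 1 := by
        rw [hu, ← WithZero.exp_zero, WithZero.exp_le_exp]
        norm_num
      have hev : v.valuation K ((u ^ 3 - 1) / 4) ≤ 1 := by
        rw [map_div₀, hv4, div_one]
        refine (Valuation.map_sub _ _ _).trans (max_le ?_ ?_)
        · rw [map_pow]; exact pow_le_one' hu1 3
        · rw [map_one]
      have he'u : 4 * PL_toO K v ((u ^ 3 - 1) / 4) hev + 1 = PL_toO K v u hu1 ^ 3 := by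
        apply Subtype.ext
        change 4 * algebraMap K (v.adicCompletion K) ((u ^ 3 - 1) / 4) + 1 =
          (algebraMap K (v.adicCompletion K) u) ^ 3
        have h5 : (4 : K) * ((u ^ 3 - 1) / 4) + 1 = u ^ 3 := by field_simp; ring
        have h6 := congrArg (algebraMap K (v.adicCompletion K)) h5
        simpa only [map_add, map_mul, map_pow, map_one, map_ofNat] using h6
      obtain ⟨C, hC⟩ := Wt_scale (v.adicCompletion K) h2Kv
        (algebraMap K (v.adicCompletion K) c) (algebraMap K (v.adicCompletion K) (d : K))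
        (algebraMap K (v.adicCompletion K) u) (algebraMap K (v.adicCompletion K) e)
        (algebraMap K (v.adicCompletion K) ((u ^ 3 - 1) / 4))
        (by rw [Ne.eq_def, map_eq_zero]; exact hc0)
        (by
          have h6 := congrArg (algebraMap K (v.adicCompletion K)) he
          simpa only [map_add, map_mul, map_pow, map_one, map_ofNat] using h6)
        (by
          have h5 : (4 : K) * ((u ^ 3 - 1) / 4) + 1 = u ^ 3 := by field_simp; ring
          have h6 := congrArg (algebraMap K (v.adicCompletion K)) h5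
          simpa only [map_add, map_mul, map_pow, map_one, map_ofNat] using h6)
        (by rw [hdcu, map_mul, map_pow])
      refine fW_one K _ v ?_
      have h27 : IsUnit (27 : v.adicCompletionIntegers K) := by
        have h5 : (27 : v.adicCompletionIntegers K) = 3 ^ 3 := by norm_num
        rw [h5]
        exact h3A.pow 3
      have hirr : Irreducible (PL_toO K v u hu1) := by
        apply PL_irreducible
        rw [PL_coe_toO, PL_val, hu]
      have h10 := localPoly_twist_bad' (v.adicCompletionIntegers K) (v.adicCompletion K)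
        (PL_toO K v ((u ^ 3 - 1) / 4) hev) (PL_toO K v u hu1) 27 hirr h27 (by rw [he'u]; ring) C
      rw [PL_baseChange, hC]
      exact h10

end CF
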