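import Pool.Agent.MP_9ab903_nt.CF3.PL
import Pool.Agent.MP_9ab903_nt.CF.L2

set_option autoImplicit false

open NumberField IsDedekindDomain ArithmeticFunction
open CM27 CMT
open scoped ComplexConjugate Classical

namespace CF

/-! ## [CF3-AR] `L(E/K(√d), s) = L(E/K, s) L(E_d/K, s)` (file CF3/AR.lean; uses PL) -/

theorem ar_uniq {R : Type*} [CommRing R] {a b d : R} (ha : a * d = 1) (hb : b * d = 1) : a = b := by
  linear_combination b * ha - a * hb

/-- the cardinality of the residue field -/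
theorem ar_card (K : Type) [Field K] [NumberField K] (v : HeightOneSpectrum (𝓞 K)) (p : ℕ)
    (hp : p.Prime) (hpv : (p : 𝓞 K) ∈ v.asIdeal) :
    ∃ f : ℕ, 0 < f ∧ Nat.card (𝓞 K ⧸ v.asIdeal) = p ^ f := by
  obtain ⟨ℓ, k, hℓ, hk, hq⟩ := isPrimePow_qv K v
  have hℓ' : ℓ.Prime := Nat.prime_iff.2 hℓ
  have h1 : qv K v = Nat.card (𝓞 K ⧸ v.asIdeal) := (card_residue K v).1
  by_cases h : p = ℓ
  · exact ⟨k, hk, by rw [← h1, ← hq, h]⟩
  · exfalso
    have h2 : IsCoprime (p : ℤ) ((qv K v : ℕ) : ℤ) := by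
      rw [Nat.isCoprime_iff_coprime, ← hq]
      exact Nat.Coprime.pow_right _ ((Nat.coprime_primes hp hℓ').2 h)
    have h3 : ((qv K v : ℕ) : 𝓞 K) ∈ v.asIdeal := by
      rw [qv_eq]
      exact Ideal.absNorm_mem v.asIdeal
    obtain ⟨a, b, hab⟩ := h2
    have h4 : ((a : 𝓞 K)) * p + b * ((qv K v : ℕ) : 𝓞 K) = 1 := by
      exact_mod_cast congrArg (Int.cast : ℤ → 𝓞 K) hab
    have h5 : (1 : 𝓞 K) ∈ v.asIdeal := by
      rw [← h4]
      exact Ideal.add_mem _ (Ideal.mul_mem_left _ _ hpv) (Ideal.mul_mem_left _ _ h3)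
    exact v.isPrime.ne_top ((Ideal.eq_top_iff_one _).2 h5)

theorem ar_mem_above (K L : Type) [Field K] [NumberField K] [Field L] [NumberField L]
    [Algebra K L] (v : HeightOneSpectrum (𝓞 K)) (P : HeightOneSpectrum (𝓞 L))
    (hP : P ∈ plab K L v) (n : ℕ) : (n : 𝓞 L) ∈ P.asIdeal ↔ (n : 𝓞 K) ∈ v.asIdeal := by
  have h1 : P.asIdeal.LiesOver v.asIdeal := hP
  rw [h1.over, Ideal.under_def, Ideal.mem_comap, map_natCast]

section
variable (K L : Type) [Field K] [NumberField K] [Field L] [NumberField L] [Algebra K L]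
  (h2 : Module.finrank K L = 2) (d : 𝓞 K) (h4 : (4 : 𝓞 K) ∣ d - 1) (δ : L)
  (hδ : δ ^ 2 = algebraMap K L d) (hδK : δ ∉ Set.range (algebraMap K L)) (e : K)
  (he : 4 * e + 1 = (d : K) ^ 3)
include h2 h4 hδ hδK he

/-- one place `v ∤ 3` of `K`: `local_places` (PL) with the eigenvalues `α, β` of `local_data p` (CM) and
`loc_fv` (CM/F3: the Euler factor of `E` at a place `v` with residue field `𝔽_{p^f}` is the inverse of
`(1 - (α X)^f) (1 - (β X)^f)`). -/
theorem artin_place (v : HeightOneSpectrum (𝓞 K)) (h3 : (3 : 𝓞 K) ∉ v.asIdeal) (p : ℕ)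
    (hp : p.Prime) (hpv : (p : 𝓞 K) ∈ v.asIdeal) :
    (∏ P ∈ (plab_finite K L v).toFinset,
      PowerSeries.map (Int.castRingHom ℂ) (loc p (fv L P))) =
      PowerSeries.map (Int.castRingHom ℂ) (loc p (fv K v)) *
        PowerSeries.map (Int.castRingHom ℂ) (loc p (fW K (Wt e) v)) := by
  have hp3 : p ≠ 3 := by
    rintro rfl
    exact h3 (by exact_mod_cast hpv)
  obtain ⟨f, hf, hq⟩ := ar_card K v p hp hpv
  obtain ⟨α, β, hαβ, -, hpts⟩ := local_data p hp hp3
  have hA := loc_fv K v hp hf h3 hq α β hαβ (fun k _ _ hk => hpts f k hf hk)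
  have h3L : ∀ P ∈ plab K L v, (3 : 𝓞 L) ∉ P.asIdeal := by
    intro P hP h
    have h5 := (ar_mem_above K L v P hP 3).1 (by exact_mod_cast h)
    exact h3 (by exact_mod_cast h5)
  have hcard : ∀ n : ℕ, (plab K L v).ncard = n → (plab_finite K L v).toFinset.card = n := by
    intro n hn
    rw [← hn, Set.ncard_eq_toFinset_card _ (plab_finite K L v)]
  rcases local_places K L h2 d h4 δ hδ hδK e he v h3 p f hp hf hq α β hαβ
    (fun k _ _ hk => hpts f k hf hk) with ⟨hc, hr, -, hW⟩ | ⟨hc, hr, hW⟩ | ⟨hc, hr, hW⟩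
  · have hP : ∀ P ∈ (plab_finite K L v).toFinset,
        PowerSeries.map (Int.castRingHom ℂ) (loc p (fv L P)) =
          PowerSeries.map (Int.castRingHom ℂ) (loc p (fv K v)) := by
      intro P hP
      rw [Set.Finite.mem_toFinset] at hP
      exact ar_uniq (loc_fv L P hp hf (h3L P hP) (hr P hP) α β hαβ
        (fun k _ _ hk => hpts f k hf hk)) hA
    rw [Finset.prod_congr rfl hP, Finset.prod_const, hcard 1 hc, pow_one, hW, loc_one hp, map_one,
      mul_one]
  · have hP : ∀ P ∈ (plab_finite K L v).toFinset,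
        PowerSeries.map (Int.castRingHom ℂ) (loc p (fv L P)) =
          PowerSeries.map (Int.castRingHom ℂ) (loc p (fv K v)) := by
      intro P hP
      rw [Set.Finite.mem_toFinset] at hP
      exact ar_uniq (loc_fv L P hp hf (h3L P hP) (hr P hP) α β hαβ
        (fun k _ _ hk => hpts f k hf hk)) hA
    rw [Finset.prod_congr rfl hP, Finset.prod_const, hcard 2 hc, ar_uniq hW hA, sq]
  · have hP : ∀ P ∈ (plab_finite K L v).toFinset,
        PowerSeries.map (Int.castRingHom ℂ) (loc p (fv L P)) =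
          PowerSeries.map (Int.castRingHom ℂ) (loc p (fv K v)) *
            PowerSeries.map (Int.castRingHom ℂ) (loc p (fW K (Wt e) v)) := by
      intro P hP
      rw [Set.Finite.mem_toFinset] at hP
      have h5 := loc_fv L P hp (Nat.mul_pos hf two_pos) (h3L P hP) ((hr P hP).trans
        (pow_mul p f 2).symm) α β hαβ (fun k _ _ hk => hpts (f * 2) k (Nat.mul_pos hf two_pos) hk)
      refine ar_uniq h5 ?_
      rw [pow_mul, pow_mul]
      linear_combination (PowerSeries.map (Int.castRingHom ℂ) (loc p (fW K (Wt e) v)) *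
        ((1 + (PowerSeries.C α * PowerSeries.X) ^ f) *
          (1 + (PowerSeries.C β * PowerSeries.X) ^ f))) * hA + hW
    rw [Finset.prod_congr rfl hP, Finset.prod_const, hcard 1 hc, pow_one]

/-- Sketch. Both sides are multiplicative (`isMultiplicative_LC`, `isMultiplicative_LCW`), so compare the
power series `loc p` (as in `LF_eq`, CF/L2.lean): `loc_LC`, `loc_LFunction`, `loc_LCW`,
`loc_LFunctionW`; the places of `L` above `p` are the disjoint union of the `plab K L v`, `v` above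
`p`. At `p = 3` all factors are `1` (`h3K`, `h3W`, `h3L`). -/
theorem artin_quad (h3K : ∀ v : HeightOneSpectrum (𝓞 K), (3 : 𝓞 K) ∈ v.asIdeal → fv K v = 1)
    (h3W : ∀ v : HeightOneSpectrum (𝓞 K), (3 : 𝓞 K) ∈ v.asIdeal → fW K (Wt e) v = 1)
    (h3L : ∀ P : HeightOneSpectrum (𝓞 L), (3 : 𝓞 L) ∈ P.asIdeal → fv L P = 1) :
    LC L = LC K * LCW K (Wt e) := by
  rw [ArithmeticFunction.IsMultiplicative.eq_iff_eq_on_prime_powers _ (isMultiplicative_LC L) _
    ((isMultiplicative_LC K).mul (isMultiplicative_LCW K (Wt e)))]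
  intro p i hp
  rw [← coeff_loc, ← coeff_loc]
  congr 1
  have hfin : {v : HeightOneSpectrum (𝓞 K) | (p : 𝓞 K) ∈ v.asIdeal}.Finite := by
    have h30 : Ideal.span {(p : 𝓞 K)} ≠ 0 := by
      rw [Ne, Ideal.zero_eq_bot, Ideal.span_singleton_eq_bot]
      exact_mod_cast hp.ne_zero
    refine (Ideal.finite_factors h30).subset ?_
    intro v hv
    exact Ideal.dvd_span_singleton.2 hv
  rw [loc_mul hp, loc_LC, loc_LC, loc_LCW,
    loc_LFunction K hp hfin.toFinset (fun v hv => (Set.Finite.mem_toFinset _).2 hv),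
    loc_LFunctionW K (Wt e) hp hfin.toFinset (fun v hv => (Set.Finite.mem_toFinset _).2 hv),
    loc_LFunction L hp (hfin.toFinset.biUnion fun v => (plab_finite K L v).toFinset)
      (fun P hP => ?_), map_prod, map_prod, map_prod, Finset.prod_biUnion, ←
    Finset.prod_mul_distrib]
  · refine Finset.prod_congr rfl fun v hv => ?_
    have hpv : (p : 𝓞 K) ∈ v.asIdeal := hfin.mem_toFinset.1 hv
    by_cases hp3 : p = 3
    · subst hp3
      have hv3 : (3 : 𝓞 K) ∈ v.asIdeal := by exact_mod_cast hpv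
      rw [h3K v hv3, h3W v hv3, loc_one hp, map_one, mul_one]
      refine Finset.prod_eq_one fun P hP => ?_
      rw [Set.Finite.mem_toFinset] at hP
      have h5 := (ar_mem_above K L v P hP 3).2 hpv
      rw [h3L P (by exact_mod_cast h5), loc_one hp, map_one]
    · exact artin_place K L h2 d h4 δ hδ hδK e he v (not_mem_of_prime v hp hp3 hpv) p hp hpv
  · intro v _ v' _ hvv'
    rw [Function.onFun, Finset.disjoint_left]
    intro P h1 h5
    rw [Set.Finite.mem_toFinset] at h1 h5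
    apply hvv'
    have h6 : P.asIdeal.LiesOver v.asIdeal := h1
    have h7 : P.asIdeal.LiesOver v'.asIdeal := h5
    exact HeightOneSpectrum.ext (h6.over.trans h7.over.symm)
  · have hne : P.asIdeal.under (𝓞 K) ≠ ⊥ := Ideal.under_ne_bot _ P.ne_bot
    let v : HeightOneSpectrum (𝓞 K) := ⟨P.asIdeal.under (𝓞 K), inferInstance, hne⟩
    have hv : P ∈ plab K L v := (⟨rfl⟩ : P.asIdeal.LiesOver v.asIdeal)
    rw [Finset.mem_biUnion]
    exact ⟨v, (Set.Finite.mem_toFinset _).2 ((ar_mem_above K L v P hv p).1 hP),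
      (Set.Finite.mem_toFinset _).2 hv⟩

end

end CF
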