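import Pool.Agent.MP_9ab903_nt.CF3.K4
import Pool.Agent.MP_9ab903_nt.CF.FinalCF
import Pool.Agent.MP_dfae13_nt.T.J8
import Pool.Agent.MP_dfae13_nt.T.Q1

set_option autoImplicit false

open NumberField IsDedekindDomain
open CM27 CMT
open scoped Classical

namespace CF

/-! ## the primes of bad reduction of `Res_{F/ℚ} E_d` (file CF3/Bad.lean) -/

/-- good reduction -/
theorem good_red (F : Type) [Field F] [NumberField F] (d : 𝓞 F) (h4 : (4 : 𝓞 F) ∣ d - 1) (e : F)
    (he : 4 * e + 1 = (d : F) ^ 3) (v : HeightOneSpectrum (𝓞 F)) (hv3 : (3 : 𝓞 F) ∉ v.asIdeal)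
    (hvd : d ∉ v.asIdeal) :
    (((Wt e).baseChange (v.adicCompletion F)).minimal (v.adicCompletionIntegers F)).HasGoodReduction
      (v.adicCompletionIntegers F) := by
  obtain ⟨c, hc⟩ := h4
  have hd1 : d = 1 + 4 * c := by linear_combination hc
  obtain ⟨e₀, he₀⟩ : ∃ e₀ : 𝓞 F, (e₀ : F) = e := by
    refine ⟨3 * c + 12 * c ^ 2 + 16 * c ^ 3, ?_⟩
    have h5 : (4 : F) ≠ 0 := by norm_num
    apply mul_left_cancel₀ h5
    rw [hd1] at he
    simp only [map_add, map_mul, map_pow, map_one, map_ofNat] at he ⊢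
    linear_combination -he
  have he1 : 4 * e₀ + 1 = d ^ 3 := by
    apply RingOfIntegers.coe_injective
    simp only [map_add, map_mul, map_pow, map_one, map_ofNat]
    have h5 := he
    rw [← he₀] at h5
    exact h5
  rw [k4_baseChange, ← he₀, ← k4_res]
  refine hasGoodReduction_Wt _ ?_ _ ?_
  · have := isUnit_completion F v 3 (by exact_mod_cast hv3)
    exact_mod_cast this
  · have h1 : 1 + 4 * algebraMap (𝓞 F) (v.adicCompletionIntegers F) e₀ =
        algebraMap (𝓞 F) (v.adicCompletionIntegers F) d ^ 3 := by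
      rw [← map_pow, ← he1, map_add, map_mul, map_one, map_ofNat]
      ring
    rw [h1]
    exact (isUnit_completion' F v d hvd).pow 3

section
variable (S : Finset Eis) (hS : ∀ b ∈ S, GoodEis b) (F : IntermediateField ℚ ℂ) [NumberField F]
  (hw : w ∈ F) (hF : F ≤ LS S)
include hS hw hF

/-- `p` is not ramified in `F` -/
theorem not_ram (p : ℕ) (hp : p.Prime) (hp3 : p ≠ 3) (hpS : ∀ b ∈ S, ¬ b ∣ (p : Eis))
    (v : HeightOneSpectrum (𝓞 F)) (hv : (p : 𝓞 F) ∈ v.asIdeal) : (p : 𝓞 F) ∉ v.asIdeal ^ 2 := by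
  letI := algK F hw
  obtain ⟨φ, hφ⟩ := exists_KK
  set v₀ : HeightOneSpectrum (𝓞 KK) := ⟨v.asIdeal.under (𝓞 KK), inferInstance,
    Ideal.under_ne_bot _ v.ne_bot⟩ with hv₀
  have hlies : v.asIdeal.LiesOver v₀.asIdeal := ⟨rfl⟩
  have hpv₀ : (p : 𝓞 KK) ∈ v₀.asIdeal := by
    change (p : 𝓞 KK) ∈ v.asIdeal.under (𝓞 KK)
    rw [Ideal.under_def, Ideal.mem_comap, map_natCast]
    exact hv
  have hcop : ∀ k : ℕ, Nat.Coprime k p → (k : 𝓞 KK) ∉ v₀.asIdeal := by
    intro k hk hkv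
    apply v₀.isPrime.ne_top
    rw [Ideal.eq_top_iff_one]
    have h5 : (1 : 𝓞 KK) = ((k.gcdA p : ℤ) : 𝓞 KK) * (k : 𝓞 KK) +
        ((k.gcdB p : ℤ) : 𝓞 KK) * (p : 𝓞 KK) := by
      have h6 := Nat.gcd_eq_gcd_ab k p
      rw [hk] at h6
      have h7 := congrArg (fun z : ℤ => (z : 𝓞 KK)) h6
      push_cast at h7
      rw [h7]
      ring
    rw [h5]
    exact Ideal.add_mem _ (Ideal.mul_mem_left _ _ hkv) (Ideal.mul_mem_left _ _ hpv₀)
  have h3 : (3 : 𝓞 KK) ∉ v₀.asIdeal := by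
    have := hcop 3 (by
      rw [Nat.Prime.coprime_iff_not_dvd Nat.prime_three]
      intro h
      exact hp3 ((Nat.prime_dvd_prime_iff_eq Nat.prime_three hp).1 h).symm)
    exact_mod_cast this
  have hram : v.asIdeal.ramificationIdx (𝓞 KK) = 1 := by
    refine unram_F S hS F hw hF v₀ v hlies h3 ?_
    intro b hb x hx hxv
    have h1 : x = φ b := by
      ext
      rw [hφ, hx]
    -- `b` and `p` are coprime
    have hbp := hpS b hb
    have hbprime := (hS b hb).prime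
    have := eis_isDomain
    have := eis_pid
    have hc : IsCoprime b (p : Eis) := (hbprime.irreducible.coprime_iff_not_dvd).2 hbp
    obtain ⟨x', y', hxy⟩ := hc
    apply v₀.isPrime.ne_top
    rw [Ideal.eq_top_iff_one]
    have h6 := congrArg φ hxy
    rw [map_add, map_mul, map_mul, map_natCast, map_one] at h6
    rw [← h6, ← h1]
    exact Ideal.add_mem _ (Ideal.mul_mem_left _ _ hxv) (Ideal.mul_mem_left _ _ hpv₀)
  have hram' : v₀.asIdeal.ramificationIdx' v.asIdeal = 1 := by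
    rw [Ideal.ramificationIdx'_eq_ramificationIdx _ _ v₀.ne_bot, hram]
  -- `p` is not ramified in `KK`
  have hw' : (⟨w, d2_w_mem⟩ : KK) ^ 2 + ⟨w, d2_w_mem⟩ + 1 = 0 := by
    ext
    change w ^ 2 + w + 1 = 0
    linear_combination w_sq
  have hg : (p : 𝓞 KK) ∉ v₀.asIdeal ^ 2 := by
    have h1 := goodAt_Wt KK ⟨w, d2_w_mem⟩ hw' φ (by
      intro a
      apply Subtype.ext
      rw [hφ, emb_apply]
      rfl) 1 0 (by ring) p hp hp3 (by
        rw [show (1 : Eis).norm = 1 by simp]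
        intro h5
        exact hp.one_lt.ne' (by exact_mod_cast Int.eq_one_of_dvd_one (by positivity) h5))
    exact (h1 v₀ hpv₀).1
  have hval : v.valuation F (p : F) = v₀.valuation KK (p : KK) := by
    have h5 := HeightOneSpectrum.valuation_liesOver (K := KK) F v₀ v (p : KK)
    rw [hram', pow_one, map_natCast (algebraMap KK F)] at h5
    exact h5.symm
  have hc1 : algebraMap (𝓞 F) F (p : 𝓞 F) = (p : F) := map_natCast _ _
  have hc2 : algebraMap (𝓞 KK) KK (p : 𝓞 KK) = (p : KK) := map_natCast _ _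
  have e1 : v.valuation F (p : F) = v.intValuation (p : 𝓞 F) := by
    rw [← hc1]
    exact v.valuation_of_algebraMap _
  have e2 : v₀.valuation KK (p : KK) = v₀.intValuation (p : 𝓞 KK) := by
    rw [← hc2]
    exact v₀.valuation_of_algebraMap _
  rw [← v.intValuation_le_pow_iff_mem, ← e1, hval, e2, v₀.intValuation_le_pow_iff_mem]
  exact hg

end

/-- the set of bad primes -/
theorem badSet_tw (m : ℕ) (hm : GoodLevel m) (F : IntermediateField ℚ ℂ) [NumberField F]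
    (hw : w ∈ F) (hF : F ≤ torsionField (E ℂ) m) (d : 𝓞 F) (hd : d ≠ 0)
    (h4 : (4 : 𝓞 F) ∣ d - 1) (e : F) (he : 4 * e + 1 = (d : F) ^ 3) :
    WR.IsBadSet (Wt e) (3 * m * (Algebra.norm ℤ d).natAbs).primeFactors := by
  obtain ⟨S, hS, hSm', hSm⟩ := exists_S m hm
  have hle := torsionField_le m hm S hS hSm
  have hN0 : (Algebra.norm ℤ d).natAbs ≠ 0 := by
    rw [Int.natAbs_ne_zero, Algebra.norm_ne_zero_iff]
    exact hd
  have hm0 : m ≠ 0 := hm.1.ne_zero
  refine ⟨fun p hp => Nat.prime_of_mem_primeFactors hp, ?_⟩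
  intro p hp hpS v hv
  have hv' : (p : 𝓞 F) ∈ v.asIdeal := hv
  have hndvd : ¬ p ∣ 3 * m * (Algebra.norm ℤ d).natAbs := by
    intro h1
    exact hpS (Nat.mem_primeFactors.2 ⟨hp, h1, mul_ne_zero (mul_ne_zero (by norm_num) hm0) hN0⟩)
  have hp3 : p ≠ 3 := by
    rintro rfl
    exact hndvd (Dvd.dvd.mul_right (dvd_mul_right _ _) _)
  have hpm : ¬ p ∣ m := fun h => hndvd (Dvd.dvd.mul_right (Dvd.dvd.mul_left h _) _)
  have hpN : ¬ p ∣ (Algebra.norm ℤ d).natAbs := fun h => hndvd (Dvd.dvd.mul_left h _)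
  have hcop : ∀ k : ℕ, Nat.Coprime k p → (k : 𝓞 F) ∉ v.asIdeal := by
    intro k hk hkv
    apply v.isPrime.ne_top
    rw [Ideal.eq_top_iff_one]
    have h5 : (1 : 𝓞 F) = ((k.gcdA p : ℤ) : 𝓞 F) * (k : 𝓞 F) +
        ((k.gcdB p : ℤ) : 𝓞 F) * (p : 𝓞 F) := by
      have h6 := Nat.gcd_eq_gcd_ab k p
      rw [hk] at h6
      have h7 := congrArg (fun z : ℤ => (z : 𝓞 F)) h6
      push_cast at h7
      rw [h7]
      ring
    rw [h5]
    exact Ideal.add_mem _ (Ideal.mul_mem_left _ _ hkv) (Ideal.mul_mem_left _ _ hv')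
  refine ⟨not_ram S hS F hw (hF.trans hle) p hp hp3 ?_ v hv', ?_⟩
  · intro b hb hbp
    obtain ⟨hprim, q, hq, hn⟩ := hS b hb
    have hbm := ((hSm' b).1 hb).2.2
    -- `q = p` and `p ∣ m`
    have hdvd : ∀ k : ℕ, b ∣ (k : Eis) → q ∣ k := by
      rintro k ⟨c, hc⟩
      have h1 := congrArg QuadraticAlgebra.norm hc
      have h2 : ((k : Eis)).norm = (k : ℤ) ^ 2 := by rw [norm_eq]; simp
      rw [h2, map_mul, hn] at h1
      have h3 : (q : ℤ) ∣ (k : ℤ) ^ 2 := ⟨_, h1⟩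
      have h4 : q ∣ k ^ 2 := by exact_mod_cast h3
      exact hq.1.dvd_of_dvd_pow h4
    have h1 : q = p := (Nat.prime_dvd_prime_iff_eq hq.1 hp).1 (hdvd p hbp)
    exact hpm (h1 ▸ hdvd m hbm)
  · refine good_red F d h4 e he v ?_ ?_
    · have := hcop 3 (by
        rw [Nat.Prime.coprime_iff_not_dvd Nat.prime_three]
        intro h
        exact hp3 ((Nat.prime_dvd_prime_iff_eq Nat.prime_three hp).1 h).symm)
      exact_mod_cast this
    · intro hdv
      have h2 : (((Algebra.norm ℤ d).natAbs : ℕ) : 𝓞 F) ∈ v.asIdeal := by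
        have h1 := Ideal.absNorm_mem (Ideal.span {d})
        rw [Ideal.absNorm_span_singleton] at h1
        exact (Ideal.span_singleton_le_iff_mem _).2 hdv h1
      exact hcop _ (Nat.Coprime.symm ((Nat.Prime.coprime_iff_not_dvd hp).2 hpN)) h2

end CF
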