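import Pool.Agent.MP_9ab903_nt.CF3.K0

set_option autoImplicit false

open IsDedekindDomain
open CM27
open scoped Classical

namespace CF

/-! ## [CF3-K2] the group of points of nonsingular reduction has finite index (file CF3/K2.lean) -/

section
variable (A : Type) [CommRing A] [IsDomain A] [IsDiscreteValuationRing A]
  {K : Type} [Field K] [Algebra A K] [IsFractionRing A K]

variable {A} in
theorem k2_vl_two (h2 : IsUnit (2 : A)) : vl A (2 : K) = 1 := by
  have h := (IsDiscreteValuationRing.maximalIdeal A).valuation_eq_one_iff_notMem (K := K) (r := (2 : A))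
  have h3 : algebraMap A K 2 = 2 := map_ofNat _ 2
  rw [h3] at h
  refine h.2 ?_
  intro hm
  exact (IsLocalRing.mem_maximalIdeal _).1 hm h2

variable {A} in
theorem k2_mem_pow (n : ℕ) (r : A) :
    vl A (algebraMap A K r) ≤ WithZero.exp (-(n : ℤ)) ↔ r ∈ IsLocalRing.maximalIdeal A ^ n := by
  rw [vl, HeightOneSpectrum.valuation_of_algebraMap]
  exact (IsDiscreteValuationRing.maximalIdeal A).intValuation_le_pow_iff_mem r n

variable {A} in
theorem k2_aff {W : WeierstrassCurve K} {x y : K} (h : W.toAffine.Nonsingular x y) :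
    SBSD.cubic W x = (2 * y + W.a₁ * x + W.a₃) ^ 2 := by
  have h1 := (WeierstrassCurve.Affine.equation_iff _ _).1 h.1
  simp only [SBSD.cubic, WeierstrassCurve.b₂, WeierstrassCurve.b₄, WeierstrassCurve.b₆]
  linear_combination (-4) * h1

variable {A} in
/-- the difference of two congruent points which are not `Big` is `Big` -/
theorem k2_sub (h2 : IsUnit (2 : A)) (W : WeierstrassCurve K) (s a b c : A) (hc : Cusp A W s a b c)
    (δ : WithZero (Multiplicative ℤ)) {x₁ y₁ x₂ y₂ : K}
    (h₁ : W.toAffine.Nonsingular x₁ y₁)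
    (h₂ : W.toAffine.Nonsingular x₂ y₂)
    (hx₁ : vl A (x₁ - algebraMap A K s) ≤ 1) (hx₂ : vl A (x₂ - algebraMap A K s) ≤ 1)
    (hη₁ : δ < vl A (2 * y₁ + W.a₁ * x₁ + W.a₃))
    (hT : vl A (x₁ - x₂) ≤ δ)
    (hη : vl A ((2 * y₁ + W.a₁ * x₁ + W.a₃) - (2 * y₂ + W.a₁ * x₂ + W.a₃)) ≤ δ) :
    Big A s ((WeierstrassCurve.Affine.Point.some x₁ y₁ h₁ : W.toAffine.Point)
      - WeierstrassCurve.Affine.Point.some x₂ y₂ h₂) := by
  have v2 : vl A (2 : K) = 1 := k2_vl_two h2
  have h20 : (2 : K) ≠ 0 := by
    intro h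
    rw [h, map_zero] at v2
    exact zero_ne_one v2
  have e1 := k2_aff h₁
  have e2 := k2_aff h₂
  set η₁ : K := 2 * y₁ + W.a₁ * x₁ + W.a₃ with hη₁d
  set η₂ : K := 2 * y₂ + W.a₁ * x₂ + W.a₃ with hη₂d
  have hsum : δ < vl A (η₁ + η₂) := by
    have h3 : η₁ + η₂ = 2 * η₁ + (-(η₁ - η₂)) := by ring
    have h4 : vl A (-(η₁ - η₂)) < vl A (2 * η₁) := by
      rw [Valuation.map_neg, map_mul, v2, one_mul]
      exact lt_of_le_of_lt hη hη₁
    rw [h3, Valuation.map_add_eq_of_lt_left _ h4, map_mul, v2, one_mul]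
    exact hη₁
  rw [sub_eq_add_neg, WeierstrassCurve.Affine.Point.neg_some]
  by_cases hx : x₁ = x₂
  · subst hx
    have h5 : (η₁ - η₂) * (η₁ + η₂) = 0 := by
      linear_combination e2 - e1
    have h6 : η₁ + η₂ ≠ 0 := by
      intro h
      rw [h, map_zero] at hsum
      exact not_lt_zero hsum
    have h7 : η₁ = η₂ := by
      rcases mul_eq_zero.1 h5 with h | h
      · exact sub_eq_zero.1 h
      · exact absurd h h6
    have h8 : y₁ = y₂ := by
      have : (2 : K) * (y₁ - y₂) = 0 := by linear_combination h7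
      rcases mul_eq_zero.1 this with h | h
      · exact absurd h h20
      · exact sub_eq_zero.1 h
    subst h8
    rw [← WeierstrassCurve.Affine.Point.neg_some h₁, add_neg_cancel]
    trivial
  · rw [WeierstrassCurve.Affine.Point.add_some (fun h => hx h.1)]
    show 1 ≤ vl A (_ - algebraMap A K s)
    rw [WeierstrassCurve.Affine.slope_of_X_ne hx]
    have hx0 : x₁ - x₂ ≠ 0 := sub_ne_zero.2 hx
    set Λ : K := (η₁ + η₂) / (2 * (x₁ - x₂)) with hΛ
    obtain ⟨u, hu⟩ : ∃ u : K, 2 * u = W.a₁ := ⟨W.a₁ / 2, mul_div_cancel₀ _ h20⟩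
    have hΛ1 : (y₁ - W.toAffine.negY x₂ y₂) / (x₁ - x₂) = Λ - u := by
      rw [hΛ, WeierstrassCurve.Affine.negY, hη₁d, hη₂d, ← hu]
      field_simp
      ring
    have h4a := hc.h2
    have hkey : W.toAffine.addX x₁ x₂ ((y₁ - W.toAffine.negY x₂ y₂) / (x₁ - x₂)) - algebraMap A K s
        = Λ ^ 2 - (algebraMap A K a + (x₁ - algebraMap A K s) + (x₂ - algebraMap A K s)) := by
      rw [hΛ1, WeierstrassCurve.Affine.addX]
      have h9 : (4 : K) * (W.a₂ + u ^ 2) + 12 * algebraMap A K s = 4 * algebraMap A K a := by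
        rw [← h4a, WeierstrassCurve.b₂, ← hu]
        ring
      have h40 : (4 : K) ≠ 0 := by
        have : (4 : K) = 2 * 2 := by norm_num
        rw [this]
        exact mul_ne_zero h20 h20
      apply mul_left_cancel₀ h40
      linear_combination (-1) * h9 + (-4) * (Λ - u) * hu
    rw [hkey]
    have hΛv : 1 < vl A Λ := by
      rw [hΛ, map_div₀, map_mul, v2, one_mul]
      have h12 : 0 < vl A (x₁ - x₂) := by
        rw [zero_lt_iff]
        exact (Valuation.ne_zero_iff _).2 hx0
      rw [one_lt_div₀ h12]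
      exact lt_of_le_of_lt hT hsum
    have hΛ2 : 1 < vl A (Λ ^ 2) := by
      rw [map_pow]
      exact one_lt_pow₀ hΛv two_ne_zero
    have hr : vl A (algebraMap A K a + (x₁ - algebraMap A K s) + (x₂ - algebraMap A K s)) ≤ 1 := by
      refine Valuation.map_add_le _ (Valuation.map_add_le _ ?_ hx₁) hx₂
      exact HeightOneSpectrum.valuation_le_one _ a
    rw [Valuation.map_sub_eq_of_lt_left _ (lt_of_le_of_lt hr hΛ2)]
    exact hΛ2.le

/-- Sketch. `η = (2 y + a₁ x + a₃) / 2`, `T = x - s`, `η² = T³ + a T² + b T + c`. If `P` is not `Big` then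
`T(P), η(P) ∈ A` and `ε ≤ |4 η(P)²|`. Let `N` be so large that `|π ^ (2 N)| < ε`. If `P`, `Q` are not
`Big` and `T(P) ≡ T(Q)`, `η(P) ≡ η(Q) mod π ^ N`, then `P - Q` is `Big`: `- Q = (T(Q), - η(Q))`. If
`T(P) ≠ T(Q)`: the slope is `(η(P) + η(Q)) / (T(P) - T(Q))`, the numerator is `≡ 2 η(P) mod π ^ N` and
`|2 η(P)| > |π ^ N|`, so `1 < |slope|` and `T(P - Q) = slope² - a - T(P) - T(Q)` is not in `A`. If
`T(P) = T(Q)`: `η(P) = ± η(Q)`, and `η(P) = - η(Q)` is impossible, so `P = Q`. The pairs of residues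
modulo `π ^ N` are finitely many. -/
theorem index_ne_zero (h2 : IsUnit (2 : A)) [Finite (IsLocalRing.ResidueField A)]
    (W : WeierstrassCurve K) [W.IsMinimal A] (s a b c : A) (hc : Cusp A W s a b c)
    (ε : WithZero (Multiplicative ℤ)) (hε : ε ≠ 0) (hb : ∀ x : K, ε ≤ vl A (SBSD.cubic W x)) :
    (AddSubgroup.closure {P : W.toAffine.Point | Big A s P}).index ≠ 0 := by
  set H := AddSubgroup.closure {P : W.toAffine.Point | Big A s P} with hH
  have v2 : vl A (2 : K) = 1 := k2_vl_two h2
  -- the choice of `N`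
  obtain ⟨N, hN⟩ : ∃ N : ℕ, WithZero.exp (-(N : ℤ)) ^ 2 < ε := by
    have h1 : ε = WithZero.exp (WithZero.log ε) := (WithZero.exp_log hε).symm
    refine ⟨(WithZero.log ε).natAbs + 1, ?_⟩
    rw [h1, ← WithZero.exp_nsmul, WithZero.exp_lt_exp, WithZero.log_exp]
    push_cast
    rw [nsmul_eq_mul]
    push_cast
    have := abs_nonneg (WithZero.log ε)
    have := neg_abs_le (WithZero.log ε)
    linarith
  set δ : WithZero (Multiplicative ℤ) := WithZero.exp (-(N : ℤ)) with hδ
  -- coordinates of points which are not `Big`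
  have hint : ∀ (x y : K) (h : W.toAffine.Nonsingular x y),
      ¬ Big A s (WeierstrassCurve.Affine.Point.some x y h : W.toAffine.Point) →
      vl A (x - algebraMap A K s) ≤ 1 ∧ vl A (2 * y + W.a₁ * x + W.a₃) ≤ 1 ∧
        δ < vl A (2 * y + W.a₁ * x + W.a₃) := by
    intro x y h hn
    have hx : vl A (x - algebraMap A K s) < 1 := not_le.1 hn
    have e1 := k2_aff h
    refine ⟨hx.le, ?_, ?_⟩
    · have h3 : vl A ((2 * y + W.a₁ * x + W.a₃) ^ 2) ≤ 1 := by
        rw [← e1, hc.cubic]
        have h4 : ∀ r : A, vl A (algebraMap A K r) ≤ 1 :=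
          fun r => HeightOneSpectrum.valuation_le_one _ r
        have h5 : vl A (4 : K) ≤ 1 := by
          have := h4 4
          rwa [map_ofNat] at this
        rw [map_mul]
        refine mul_le_one' h5 ?_
        refine Valuation.map_add_le _ (Valuation.map_add_le _ (Valuation.map_add_le _ ?_ ?_) ?_) (h4 c)
        · rw [map_pow]; exact pow_le_one' hx.le 3
        · rw [map_mul, map_pow]; exact mul_le_one' (h4 a) (pow_le_one' hx.le 2)
        · rw [map_mul]; exact mul_le_one' (h4 b) hx.le
      rw [map_pow] at h3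
      exact (pow_le_one_iff two_ne_zero).1 h3
    · have h3 : δ ^ 2 < (vl A (2 * y + W.a₁ * x + W.a₃)) ^ 2 := by
        rw [← map_pow, ← e1]
        exact lt_of_lt_of_le hN (hb x)
      exact lt_of_pow_lt_pow_left₀ 2 zero_le h3
  have hex : ∀ r : K, vl A r ≤ 1 → ∃ q : A, algebraMap A K q = r := fun r hr =>
    IsDiscreteValuationRing.exists_lift_of_le_one hr
  -- the residue map
  haveI : Finite (A ⧸ IsLocalRing.maximalIdeal A ^ N) := by
    haveI : Finite (A ⧸ IsLocalRing.maximalIdeal A) :=
      inferInstanceAs (Finite (IsLocalRing.ResidueField A))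
    exact Ideal.finite_quotient_pow (IsNoetherian.noetherian _) N
  let R : K → A ⧸ IsLocalRing.maximalIdeal A ^ N := fun r =>
    if h : vl A r ≤ 1 then Ideal.Quotient.mk _ (hex r h).choose else 0
  have hR : ∀ r r' : K, vl A r ≤ 1 → vl A r' ≤ 1 → R r = R r' → vl A (r - r') ≤ δ := by
    intro r r' h h' he
    simp only [R, dif_pos h, dif_pos h'] at he
    rw [Ideal.Quotient.eq] at he
    have h3 := (k2_mem_pow (K := K) N _).2 he
    rw [map_sub, (hex r h).choose_spec, (hex r' h').choose_spec] at h3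
    exact h3
  let F : W.toAffine.Point →
      Option ((A ⧸ IsLocalRing.maximalIdeal A ^ N) × (A ⧸ IsLocalRing.maximalIdeal A ^ N)) := fun P =>
    if Big A s P then none else
      match P with
      | .zero => none
      | .some x y _ => some (R (x - algebraMap A K s), R (2 * y + W.a₁ * x + W.a₃))
  have hF : ∀ P Q : W.toAffine.Point, F P = F Q → P - Q ∈ H := by
    intro P Q he
    by_cases hP : Big A s P
    · by_cases hQ : Big A s Q
      · exact H.sub_mem (AddSubgroup.subset_closure hP) (AddSubgroup.subset_closure hQ)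
      · exfalso
        simp only [F, if_pos hP, if_neg hQ] at he
        cases Q with
        | zero => exact hQ trivial
        | some x y h => simp at he
    · by_cases hQ : Big A s Q
      · exfalso
        simp only [F, if_neg hP, if_pos hQ] at he
        cases P with
        | zero => exact hP trivial
        | some x y h => simp at he
      · cases P with
        | zero => exact absurd trivial hP
        | some x₁ y₁ h₁ =>
          cases Q with
          | zero => exact absurd trivial hQ
          | some x₂ y₂ h₂ =>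
            simp only [F, if_neg hP, if_neg hQ, Option.some.injEq, Prod.mk.injEq] at he
            obtain ⟨i1, i2, i3⟩ := hint x₁ y₁ h₁ hP
            obtain ⟨j1, j2, j3⟩ := hint x₂ y₂ h₂ hQ
            refine AddSubgroup.subset_closure ?_
            have k1 := hR _ _ i1 j1 he.1
            have k2 := hR _ _ i2 j2 he.2
            refine k2_sub h2 W s a b c hc δ h₁ h₂ i1 j1 i3 ?_ k2
            have : x₁ - x₂ = (x₁ - algebraMap A K s) - (x₂ - algebraMap A K s) := by ring
            rw [this]
            exact k1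
  have hfin : Finite (W.toAffine.Point ⧸ H) := by
    refine Finite.of_injective (fun q : W.toAffine.Point ⧸ H => F q.out) ?_
    intro q q' he
    have h3 := hF _ _ he
    have h4 : ((q.out : W.toAffine.Point) : W.toAffine.Point ⧸ H) = ((q'.out : W.toAffine.Point) : W.toAffine.Point ⧸ H) := by
      rw [QuotientAddGroup.eq]
      have : -q.out + q'.out = -(q.out - q'.out) := by abel
      rw [this]
      exact H.neg_mem h3
    rwa [QuotientAddGroup.out_eq', QuotientAddGroup.out_eq'] at h4
  exact AddSubgroup.index_ne_zero_of_finite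

end

end CF
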