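import Pool.Agent.MP_9ab903_nt.CF3.K1
import Pool.Agent.MP_9ab903_nt.CF3.K2

set_option autoImplicit false

open IsDedekindDomain NumberField
open CM27
open scoped Classical

namespace CF

/-! ## [CF3-K3] the Tamagawa number is odd (file CF3/K3.lean; uses K0, K1, K2) -/

section
variable (A : Type) [CommRing A] [IsDomain A] [IsDiscreteValuationRing A]
  {K : Type} [Field K] [Algebra A K] [IsFractionRing A K]

/-- A curve with an integral equation whose discriminant is a unit has Tamagawa number `1` (the minimal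
equation has good reduction; compare `unit_of_lt`, `tamagawa_Wt_good` in T/J2, T/J3). -/
theorem tamagawa_of_unit (W : WeierstrassCurve K) (C : WeierstrassCurve.VariableChange K)
    (hC : WeierstrassCurve.IsIntegral A (C • W)) (hΔ : vl A (C • W).Δ = 1) :
    SBSD.tamagawa A W = 1 := by
  obtain ⟨T, hT, hTm, -⟩ := CMT.exists_minimal_T A W
  have e1 : (T * C⁻¹) • (C • W) = T • W := by
    rw [mul_smul, inv_smul_smul]
  have hu := CMT.unit_of_lt A (C • W) 0 (by norm_num) (by rw [hΔ]; simp) (T * C⁻¹)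
    (by rw [e1]; exact hTm)
  have hgood : WeierstrassCurve.HasGoodReduction A (W.minimal A) := by
    refine ⟨?_⟩
    rw [hT, ← e1, WeierstrassCurve.variableChange_Δ, map_mul, hΔ, map_pow,
      Units.val_inv_eq_inv_val, map_inv₀, hu]
    simp
  exact SBSD.tamagawa_eq_one A _ (SBSD.nonsingular_of_good A _ hgood)

/-- the cubic after a change of variables -/
theorem k3_cubic (W : WeierstrassCurve K) (T : WeierstrassCurve.VariableChange K) (x : K) :
    SBSD.cubic (T • W) x = ((T.u⁻¹ : Kˣ) : K) ^ 6 *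
      SBSD.cubic W ((T.u : K) ^ 2 * x + T.r) := by
  have huu : (T.u : K) * ((T.u⁻¹ : Kˣ) : K) = 1 := by simp
  simp only [SBSD.cubic, WeierstrassCurve.variableChange_b₂, WeierstrassCurve.variableChange_b₄,
    WeierstrassCurve.variableChange_b₆]
  generalize (T.u : K) = u at huu ⊢
  generalize ((T.u⁻¹ : Kˣ) : K) = w at huu ⊢
  have h2 : w ^ 2 * u ^ 2 = 1 := by rw [← mul_pow, mul_comm, huu, one_pow]
  have h4 : w ^ 4 * u ^ 4 = 1 := by rw [← mul_pow, mul_comm, huu, one_pow]
  have h6 : w ^ 6 * u ^ 6 = 1 := by rw [← mul_pow, mul_comm, huu, one_pow]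
  linear_combination (-(4 * x ^ 3)) * h6 - (w ^ 2 * (W.b₂ + 12 * T.r) * x ^ 2) * h4 -
    (w ^ 4 * 2 * (W.b₄ + T.r * W.b₂ + 6 * T.r ^ 2) * x) * h2

/-- a point of order `2` is a zero of the cubic -/
theorem k3_two_torsion (W : WeierstrassCurve K) (hW : ∀ x : K, SBSD.cubic W x ≠ 0)
    (P : W.toAffine.Point) (hP : P + P = 0) : P = 0 := by
  rcases P with _ | ⟨x, y, hxy⟩
  · rfl
  · exfalso
    have h1 : (WeierstrassCurve.Affine.Point.some x y hxy : W.toAffine.Point) =
        -(.some x y hxy) := eq_neg_of_add_eq_zero_left hP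
    rw [WeierstrassCurve.Affine.Point.neg_some] at h1
    simp only [WeierstrassCurve.Affine.Point.some.injEq, true_and] at h1
    have h2 : W.toAffine.negY x y = -y - W.a₁ * x - W.a₃ := rfl
    rw [h2] at h1
    have h3 : 2 * y + W.a₁ * x + W.a₃ = 0 := by linear_combination h1
    apply hW x
    have h4 := (WeierstrassCurve.Affine.equation_iff _ _).1 hxy.1
    simp only [SBSD.cubic, WeierstrassCurve.b₂, WeierstrassCurve.b₄, WeierstrassCurve.b₆]
    simp only [WeierstrassCurve.toAffine] at h4
    linear_combination (2 * y + W.a₁ * x + W.a₃) * h3 - 4 * h4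

/-- group theory: a `2`-divisible subgroup of finite index of a group without elements of order `2`
has odd index -/
theorem k3_index {G : Type*} [AddCommGroup G] (S : Set G) (h0 : ∀ P : G, P + P = 0 → P = 0)
    (hS : ∀ P ∈ S, ∃ Q ∈ S, P = 2 • Q) (hi : (AddSubgroup.closure S).index ≠ 0) :
    Odd (AddSubgroup.closure S).index := by
  set H := AddSubgroup.closure S with hH
  have hdiv : ∀ P ∈ H, ∃ Q ∈ H, P = 2 • Q := by
    intro P hP
    refine AddSubgroup.closure_induction (p := fun P _ => ∃ Q ∈ H, P = 2 • Q) ?_ ?_ ?_ ?_ hP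
    · intro x hx
      obtain ⟨Q, hQ, hQx⟩ := hS x hx
      exact ⟨Q, AddSubgroup.subset_closure hQ, hQx⟩
    · exact ⟨0, H.zero_mem, by simp⟩
    · rintro x y _ _ ⟨Q, hQ, rfl⟩ ⟨Q', hQ', rfl⟩
      exact ⟨Q + Q', H.add_mem hQ hQ', by rw [smul_add]⟩
    · rintro x _ ⟨Q, hQ, rfl⟩
      exact ⟨-Q, H.neg_mem hQ, by rw [smul_neg]⟩
  rw [← Nat.not_even_iff_odd]
  intro hev
  have hfin : H.FiniteIndex := ⟨hi⟩
  haveI : Finite (G ⧸ H) := AddSubgroup.finite_quotient_of_finiteIndex
  haveI : Fact (Nat.Prime 2) := ⟨Nat.prime_two⟩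
  obtain ⟨x, hx⟩ := exists_prime_addOrderOf_dvd_card' (G := G ⧸ H) 2
    (by rw [← AddSubgroup.index_eq_card]; exact hev.two_dvd)
  obtain ⟨P, rfl⟩ := QuotientAddGroup.mk_surjective x
  have h2 : (QuotientAddGroup.mk (2 • P) : G ⧸ H) = 0 := by
    have := addOrderOf_nsmul_eq_zero (QuotientAddGroup.mk P : G ⧸ H)
    rw [hx] at this
    rw [QuotientAddGroup.mk_nsmul]
    exact this
  rw [QuotientAddGroup.eq_zero_iff] at h2
  obtain ⟨Q, hQ, hPQ⟩ := hdiv _ h2
  have h3 : P - Q = 0 := by
    apply h0
    rw [two_nsmul, two_nsmul] at hPQ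
    have : P - Q + (P - Q) = (P + P) - (Q + Q) := by abel
    rw [this, hPQ, sub_self]
  have h4 : P ∈ H := by rw [sub_eq_zero.1 h3]; exact hQ
  have h5 : (QuotientAddGroup.mk P : G ⧸ H) = 0 := (QuotientAddGroup.eq_zero_iff _).2 h4
  rw [h5, addOrderOf_zero] at hx
  exact absurd hx (by norm_num)

/-- Sketch. `W.minimal A = C • W`, `cubic (C • W) x = u⁻⁶ cubic W (u² x + r)`, so the hypothesis `hb` holds
for the minimal equation with another `ε`. Good reduction: `tamagawa_of_unit`. Otherwise
`v(Δ) > 0`, `c₄ = 0`: `exists_cusp`. `H` = closure of the `Big` points: every element of `H` is `2 Q`,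
`Q ∈ H` (`halving`, `AddSubgroup.closure_induction`). There is no point of order `2` (`cubic W x ≠ 0`), so
`W / H` has no element of order `2` and is finite (`index_ne_zero`): the order is odd. -/
theorem tamagawa_odd (h2 : IsUnit (2 : A)) [Finite (IsLocalRing.ResidueField A)]
    [HenselianLocalRing A] (W : WeierstrassCurve K) (h4 : W.c₄ = 0)
    (ε : WithZero (Multiplicative ℤ)) (hε : ε ≠ 0) (hb : ∀ x : K, ε ≤ vl A (SBSD.cubic W x)) :
    Odd (SBSD.tamagawa A W) := by
  obtain ⟨T, hT, hTm, -⟩ := CMT.exists_minimal_T A W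
  have hw : vl A ((T.u⁻¹ : Kˣ) : K) ≠ 0 := by
    rw [Valuation.ne_zero_iff]
    exact Units.ne_zero _
  have hb' : ∀ x : K, vl A ((T.u⁻¹ : Kˣ) : K) ^ 6 * ε ≤ vl A (SBSD.cubic (W.minimal A) x) := by
    intro x
    rw [hT, k3_cubic, map_mul, map_pow]
    exact mul_le_mul_right (hb _) _
  have hε' : vl A ((T.u⁻¹ : Kˣ) : K) ^ 6 * ε ≠ 0 := mul_ne_zero (pow_ne_zero _ hw) hε
  have h4' : (W.minimal A).c₄ = 0 := by
    rw [hT, WeierstrassCurve.variableChange_c₄, h4, mul_zero]
  have hle : vl A (W.minimal A).Δ ≤ 1 := by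
    have h5 := WeierstrassCurve.integralModel_Δ_eq A (W.minimal A)
    rw [← h5]
    exact HeightOneSpectrum.valuation_le_one _ _
  rcases hle.lt_or_eq with hlt | heq
  · obtain ⟨s, a, b, c, hc, hNS⟩ := exists_cusp A h2 (W.minimal A) hlt
      (by rw [h4', map_zero]; exact zero_lt_one)
    have hset : {P : (W.minimal A).toAffine.Point | SBSD.NonsingularReduction A (W.minimal A) P} =
        {P : (W.minimal A).toAffine.Point | Big A s P} := by
      ext P
      exact hNS P
    unfold SBSD.tamagawa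
    rw [hset]
    refine k3_index _ ?_ ?_ ?_
    · intro P hP
      refine k3_two_torsion (W.minimal A) (fun x hx => ?_) P hP
      have h5 := hb' x
      rw [hx, map_zero] at h5
      exact hε' (le_zero_iff.1 h5)
    · intro P hP
      exact halving A h2 (W.minimal A) s a b c hc P hP
    · exact index_ne_zero A h2 (W.minimal A) s a b c hc _ hε' hb'
  · rw [tamagawa_of_unit A W T (by rw [← hT]; infer_instance) (by rw [← hT]; exact heq)]
    exact odd_one

end

section
variable (F : Type) [Field F] [NumberField F] (v : HeightOneSpectrum (𝓞 F))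

theorem k3_isAdic : IsAdic (IsLocalRing.maximalIdeal (v.adicCompletionIntegers F)) := by
  set O := v.adicCompletionIntegers F with hO
  have hint : (Valued.v : Valuation (v.adicCompletion F) _).Integers O :=
    Valuation.valuationSubring.integers _
  obtain ⟨ϖ, hϖ⟩ := IsDiscreteValuationRing.exists_irreducible O
  have hm : IsLocalRing.maximalIdeal O = Ideal.span {ϖ} := hϖ.maximalIdeal_eq
  have hpow : ∀ n, (IsLocalRing.maximalIdeal O) ^ n = Ideal.span {ϖ ^ n} := by
    intro n
    rw [hm, Ideal.span_singleton_pow]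
  have hϖ0 : (Valued.v ((ϖ : O) : v.adicCompletion F)) ≠ 0 := by
    rw [Valuation.ne_zero_iff]
    intro h
    exact hϖ.ne_zero (Subtype.ext h)
  rw [isAdic_iff]
  constructor
  · intro n
    have h0 : ((IsLocalRing.maximalIdeal O ^ n : Ideal O) : Set O) ∈ nhds (0 : O) := by
      rw [nhds_subtype_eq_comap]
      refine Filter.mem_comap.2 ⟨{x | Valued.v x < Valued.v (((ϖ ^ n : O)) : v.adicCompletion F)},
        ?_, ?_⟩
      · rw [ZeroMemClass.coe_zero, Valued.mem_nhds_zero]
        refine ⟨Units.mk0 (Valued.v.restrict (((ϖ ^ n : O)) : v.adicCompletion F)) ?_, ?_⟩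
        · rw [Ne, Valuation.restrict_eq_zero_iff]
          have : (((ϖ ^ n : O)) : v.adicCompletion F) = ((ϖ : O) : v.adicCompletion F) ^ n := rfl
          rw [this, map_pow]
          exact pow_ne_zero _ hϖ0
        · intro x hx
          exact (Valuation.restrict_lt_iff _).1 hx
      · intro x hx
        rw [hpow, SetLike.mem_coe, Ideal.mem_span_singleton]
        exact (hint.dvd_iff_le).2 (le_of_lt hx)
    exact ((IsLocalRing.maximalIdeal O ^ n : Ideal O).toAddSubgroup).isOpen_of_mem_nhds h0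
  · intro s hs
    rw [nhds_subtype_eq_comap] at hs
    obtain ⟨t, ht, hts⟩ := Filter.mem_comap.1 hs
    rw [ZeroMemClass.coe_zero, Valued.mem_nhds_zero] at ht
    obtain ⟨γ, hγ⟩ := ht
    have hϖ1 : Valued.v ((ϖ : O) : v.adicCompletion F) < 1 := by
      have h1 : ϖ ∈ IsLocalRing.maximalIdeal O := by
        rw [hm]; exact Ideal.mem_span_singleton_self ϖ
      exact (Valuation.mem_maximalIdeal_iff _ _).1 h1
    obtain ⟨n, hn⟩ := exists_pow_lt₀ hϖ1
      (Units.mk0 (MonoidWithZeroHom.ValueGroup₀.embedding γ.1)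
        (by
          intro h
          exact γ.ne_zero (MonoidWithZeroHom.ValueGroup₀.embedding_injective
            (h.trans (map_zero _).symm))))
    refine ⟨n, fun y hy => hts (hγ ?_)⟩
    rw [hpow, SetLike.mem_coe, Ideal.mem_span_singleton] at hy
    show Valued.v.restrict ((y : O) : v.adicCompletion F) < γ.1
    rw [Valuation.restrict_lt_iff_lt_embedding]
    refine lt_of_le_of_lt ((hint.dvd_iff_le).1 hy) ?_
    have : ((algebraMap O (v.adicCompletion F)) (ϖ ^ n)) = ((ϖ : O) : v.adicCompletion F) ^ n := rfl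
    rw [this, map_pow]
    exact hn

end

/-- The completion at a place is henselian (complete: `IsAdicComplete.henselianRing`,
`IsAdic.isAdicComplete_iff`, or Newton approximation). -/
theorem henselian_completion (F : Type) [Field F] [NumberField F] (v : HeightOneSpectrum (𝓞 F)) :
    HenselianLocalRing (v.adicCompletionIntegers F) := by
  have h1 : CompleteSpace (v.adicCompletionIntegers F) := by
    have : IsClosed ((v.adicCompletionIntegers F : Set (v.adicCompletion F))) :=
      Valued.isClosed_valuationSubring _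
    exact this.completeSpace_coe
  haveI : IsAdicComplete (IsLocalRing.maximalIdeal (v.adicCompletionIntegers F))
      (v.adicCompletionIntegers F) :=
    (k3_isAdic F v).isAdicComplete_iff.2 ⟨h1, inferInstance⟩
  have h2 : HenselianRing (v.adicCompletionIntegers F)
    (IsLocalRing.maximalIdeal (v.adicCompletionIntegers F)) := inferInstance
  refine ⟨fun f hf a₀ h₁ h₂ => h2.is_henselian f hf a₀ h₁ ?_⟩
  exact h₂.map _

end CF
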