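import Pool.Agent.MP_9ab903_nt.CF3.RDefs

set_option autoImplicit false

open NumberField IsDedekindDomain
open scoped Classical

namespace CF

/-! ## [CF3-RD] the discriminant of a quadratic extension (file CF3/RD.lean; `discr_basis` is in
RDefs.lean) -/

theorem rd_basis (F F' : Type) [Field F] [Field F'] [Algebra F F']
    (h2 : Module.finrank F F' = 2) (d : F) (δ : F') (hδ : δ ^ 2 = algebraMap F F' d)
    (hδF : δ ∉ Set.range (algebraMap F F')) :
    ∃ B : Module.Basis (Fin 2) F F', B 0 = 1 ∧ B 1 = δ ∧ Algebra.trace F F' δ = 0 := by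
  have hli : LinearIndependent F ![(1 : F'), δ] := by
    rw [LinearIndependent.pair_iff]
    intro s t hst
    have ht : t = 0 := by
      by_contra ht
      apply hδF
      refine ⟨-(s / t), ?_⟩
      have h1 : algebraMap F F' t ≠ 0 := by simpa using ht
      rw [Algebra.smul_def, Algebra.smul_def, mul_one] at hst
      rw [map_neg, map_div₀]
      field_simp
      linear_combination (-1 : F') * hst
    refine ⟨?_, ht⟩
    rw [ht, zero_smul, add_zero] at hst
    have := smul_eq_zero.1 hst
    simpa using this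
  let B := basisOfLinearIndependentOfCardEqFinrank hli (by rw [h2]; rfl)
  have hB : ⇑B = ![(1 : F'), δ] := coe_basisOfLinearIndependentOfCardEqFinrank _ _
  have hB0 : B 0 = 1 := by rw [hB]; rfl
  have hB1 : B 1 = δ := by rw [hB]; rfl
  refine ⟨B, hB0, hB1, ?_⟩
  rw [Algebra.trace_eq_matrix_trace B, Matrix.trace_fin_two, Algebra.leftMulMatrix_eq_repr_mul,
    Algebra.leftMulMatrix_eq_repr_mul, hB0, mul_one]
  have e1 : B.repr δ 0 = 0 := by
    conv_lhs => rw [← hB1, B.repr_self]
    simp
  have e2 : B.repr (δ * B 1) 1 = 0 := by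
    have : δ * B 1 = d • B 0 := by
      rw [hB1, hB0, ← pow_two, hδ, Algebra.smul_def, mul_one]
    rw [this, map_smul, B.repr_self]
    simp
  rw [e1, e2, add_zero]

/-- The discriminant of `F' = F(√d)` is `discr F ^ 2 * N(d)` up to the square of a rational number.
Proof: let `b_i` be a `ℚ`-basis of `F`, `N = [F : ℚ]`; `c (i, 0) = b_i`, `c (i, 1) = b_i δ` is a
`ℚ`-basis of `F'` (`1, δ` is an `F`-basis of `F'`: `δ ∉ F`, degree 2; `Module.Basis.smulTower`, or linear
independence and the dimension). `Tr_{F'/ℚ} = Tr_{F/ℚ} ∘ Tr_{F'/F}` (`Algebra.trace_trace`),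
`Tr_{F'/F} (x) = 2 x` for `x ∈ F` (`Algebra.trace_algebraMap`), `Tr_{F'/F} (x δ) = 0` (the automorphism
`δ ↦ -δ`, or the matrix of multiplication by `x δ` in the basis `1, δ`). So the trace matrix of `c` is
block diagonal with blocks `2 Tr (b_i b_j)` and `2 Tr (d b_i b_j)`, the latter is
`2 (Tr (b_i b_k)) * (matrix of multiplication by d)`: its determinant is
`2 ^ N * discr b * norm ℚ d` (`Algebra.leftMulMatrix`, `Algebra.norm_eq_matrix_det`; or use
`Algebra.discr_of_matrix_vecMul`-like lemma `Algebra.traceMatrix_of_matrix_vecMul`). So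
`discr c = 2 ^ (2 N) * (discr b) ^ 2 * norm ℚ d`. With `discr_basis` for `c` and for `b`
(`discr b = t ^ 2 discr F`, `discr c = u ^ 2 discr F'`):
`u ^ 2 discr F' = (2 ^ N t ^ 2) ^ 2 (discr F) ^ 2 norm d`; take absolute values, `r = |u| / (2 ^ N t ^ 2)`. -/
theorem discr_quad (F F' : Type) [Field F] [NumberField F] [Field F'] [NumberField F'] [Algebra F F']
    (h2 : Module.finrank F F' = 2) (d : F) (δ : F') (hδ : δ ^ 2 = algebraMap F F' d)
    (hδF : δ ∉ Set.range (algebraMap F F')) :
    ∃ r : ℚ, 0 < r ∧ |(discr F' : ℚ)| * r ^ 2 = (discr F : ℚ) ^ 2 * |Algebra.norm ℚ d| := by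
  obtain ⟨B, hB0, hB1, htr⟩ := rd_basis F F' h2 d δ hδ hδF
  have : IsScalarTower ℚ F F' := inferInstance
  set N := Module.finrank ℚ F with hN
  let b : Module.Basis (Fin N) ℚ F := Module.finBasis ℚ F
  let c : Module.Basis (Fin N × Fin 2) ℚ F' := b.smulTower B
  let T : Matrix (Fin N) (Fin N) ℚ := Algebra.traceMatrix ℚ b
  let M : Matrix (Fin N) (Fin N) ℚ := Algebra.leftMulMatrix b d
  have key : Algebra.traceMatrix ℚ c =
      Matrix.blockDiagonal (![(2 : ℚ) • T, (2 : ℚ) • (T * M)] : Fin 2 → Matrix _ _ ℚ) := by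
    have hc : ∀ i a, c (i, a) = b i • B a := fun i a => Module.Basis.smulTower_apply b B (i, a)
    have hTM : ∀ i j, (T * M) i j = Algebra.trace ℚ F (b i * b j * d) := by
      intro i j
      have h1 : ∑ k, M k j • b k = d * b j := by
        simp only [M, Algebra.leftMulMatrix_eq_repr_mul]
        exact b.sum_repr _
      rw [mul_assoc, mul_comm (b j) d, ← h1, Finset.mul_sum, map_sum, Matrix.mul_apply]
      refine Finset.sum_congr rfl fun k _ => ?_
      rw [mul_smul_comm, map_smul, smul_eq_mul, mul_comm]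
      rfl
    have hT : ∀ i j, T i j = Algebra.trace ℚ F (b i * b j) := fun i j => rfl
    have htwo : ∀ x : F, Algebra.trace F F' (algebraMap F F' x) = 2 * x := by
      intro x
      rw [Algebra.trace_algebraMap, h2, nsmul_eq_mul]
      norm_num
    ext ⟨i, a⟩ ⟨j, a'⟩
    rw [Algebra.traceMatrix_apply, Algebra.traceForm_apply, hc, hc, smul_mul_smul_comm,
      ← Algebra.trace_trace (S := F), map_smul, Matrix.blockDiagonal_apply, smul_eq_mul]
    have e00 : Algebra.trace F F' (B 0 * B 0) = 2 := by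
      have := htwo 1
      rw [map_one] at this
      rw [hB0, one_mul, this, mul_one]
    have e01 : Algebra.trace F F' (B 0 * B 1) = 0 := by rw [hB0, hB1, one_mul, htr]
    have e10 : Algebra.trace F F' (B 1 * B 0) = 0 := by rw [hB0, hB1, mul_one, htr]
    have e11 : Algebra.trace F F' (B 1 * B 1) = 2 * d := by rw [hB1, ← pow_two, hδ, htwo]
    have hl : ∀ x : F, Algebra.trace ℚ F (2 * x) = 2 * Algebra.trace ℚ F x := by
      intro x
      have : (2 : F) * x = (2 : ℚ) • x := by rw [Algebra.smul_def]; simp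
      rw [this, map_smul, smul_eq_mul]
    have ha : a = 0 ∨ a = 1 := by omega
    have ha' : a' = 0 ∨ a' = 1 := by omega
    rcases ha with rfl | rfl <;> rcases ha' with rfl | rfl
    · rw [e00, if_pos rfl, mul_comm, hl]
      simp only [Matrix.cons_val_zero, Matrix.smul_apply, hT, smul_eq_mul]
    · rw [e01, if_neg (show ¬ ((0 : Fin 2) = 1) by decide), mul_zero, map_zero]
    · rw [e10, if_neg (show ¬ ((1 : Fin 2) = 0) by decide), mul_zero, map_zero]
    · rw [e11, if_pos rfl, mul_left_comm, hl]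
      simp only [Matrix.cons_val_one, Matrix.smul_apply, hTM, smul_eq_mul, Matrix.cons_val_fin_one]
  have hdet : Algebra.discr ℚ c =
      (2 ^ N) ^ 2 * (Algebra.discr ℚ b) ^ 2 * Algebra.norm ℚ d := by
    rw [Algebra.discr_def, key, Matrix.det_blockDiagonal, Fin.prod_univ_two]
    simp only [Matrix.cons_val_zero, Matrix.cons_val_one, Matrix.det_smul, Matrix.det_mul,
      Fintype.card_fin]
    rw [Algebra.norm_eq_matrix_det b d, Algebra.discr_def]
    ring
  obtain ⟨t, ht0, ht⟩ := discr_basis F b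
  obtain ⟨u, hu0, hu⟩ := discr_basis F' c
  have hu' : Algebra.discr ℚ c = u ^ 2 * (discr F' : ℚ) := hu
  have ht' : Algebra.discr ℚ b = t ^ 2 * (discr F : ℚ) := ht
  rw [hu', ht'] at hdet
  refine ⟨|u| / (2 ^ N * t ^ 2), by positivity, ?_⟩
  have h3 := congrArg abs hdet
  rw [abs_mul, abs_mul, abs_of_nonneg (sq_nonneg u),
    abs_of_nonneg (show (0 : ℚ) ≤ (2 ^ N) ^ 2 * (t ^ 2 * (discr F : ℚ)) ^ 2 by positivity)] at h3
  rw [div_pow, sq_abs]
  field_simp
  linear_combination h3

end CF
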