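import Pool.Agent.MP_9ab903_nt.CF.D2
import Pool.Agent.MP_9ab903_nt.CF.G5

set_option autoImplicit false

open NumberField IsDedekindDomain
open CM27 CMT
open scoped ComplexConjugate Classical

namespace CF

/-! ## [CF3-U1] quadratic extensions of `F` inside `LS S` (file CF3/U1.lean) -/

theorem u1_val (K F F' : Type) [Field K] [NumberField K] [Field F] [NumberField F] [Field F']
    [NumberField F'] [Algebra K F] [Algebra K F'] [Algebra F F'] [IsScalarTower K F F']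
    (v : HeightOneSpectrum (𝓞 F))
    (h : ∀ (v0 : HeightOneSpectrum (𝓞 K)) (P : HeightOneSpectrum (𝓞 F')),
      P.asIdeal.LiesOver v0.asIdeal → P.asIdeal.LiesOver v.asIdeal →
        P.asIdeal.ramificationIdx (𝓞 K) = 1)
    (d : F) (δ : F') (hδ : δ ^ 2 = algebraMap F F' d) : IsSquare (v.valuation F d) := by
  have : v.asIdeal.IsMaximal := v.isMaximal
  obtain ⟨Q, hQ, hQv⟩ := Ideal.exists_maximal_ideal_liesOver_of_isIntegral (S := 𝓞 F') v.asIdeal
  have hQ0 : Q ≠ ⊥ := Ideal.ne_bot_of_liesOver_of_ne_bot v.ne_bot Q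
  let P : HeightOneSpectrum (𝓞 F') := ⟨Q, hQ.isPrime, hQ0⟩
  have hPv : P.asIdeal.LiesOver v.asIdeal := hQv
  let v0 : HeightOneSpectrum (𝓞 K) := ⟨Q.under (𝓞 K), inferInstance,
    fun h0 => hQ0 (Ideal.eq_bot_of_comap_eq_bot h0)⟩
  have hP0 : P.asIdeal.LiesOver v0.asIdeal := ⟨rfl⟩
  have h1 := h v0 P hP0 hPv
  have h2 : P.asIdeal.ramificationIdx (𝓞 F) = 1 := by
    have := Ideal.ramificationIdx_above_dvd (R := 𝓞 K) v.asIdeal P.asIdeal
    rw [h1] at this
    exact Nat.dvd_one.1 this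
  have h3 : v.asIdeal.ramificationIdx' P.asIdeal = 1 := by
    rw [Ideal.ramificationIdx'_eq_ramificationIdx v.asIdeal P.asIdeal v.ne_bot, h2]
  have h4 := HeightOneSpectrum.valuation_liesOver F' v P d
  rw [h3, pow_one, ← hδ, map_pow, pow_two] at h4
  exact ⟨_, h4⟩

theorem u1_cube (k : Type) [Field k] (p f : ℕ) (hp : p.Prime) (hp2 : p ≠ 2)
    (hc : ¬ ∃ x : ZMod p, x ^ 3 = 2) (hf : ¬ 3 ∣ f) (hf0 : 0 < f)
    (hk : Nat.card k = p ^ f) (y : k) : y ^ 3 ≠ 2 := by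
  intro hy
  have hfp : Fact p.Prime := ⟨hp⟩
  have hfin : Finite k := Nat.finite_of_card_ne_zero (by rw [hk]; exact pow_ne_zero _ hp.ne_zero)
  let _ : Fintype k := Fintype.ofFinite k
  have h0 : (p : k) = 0 := by
    have h1 := Nat.cast_card_eq_zero k
    rw [← Nat.card_eq_fintype_card, hk, Nat.cast_pow] at h1
    exact (pow_eq_zero_iff hf0.ne').1 h1
  have hchar : CharP k p := (CharP.charP_iff_prime_eq_zero hp).2 h0
  let _ : Algebra (ZMod p) k := ZMod.algebra k p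
  have hfr : Module.finrank (ZMod p) k = f := by
    have h1 : Nat.card k = Nat.card (ZMod p) ^ Module.finrank (ZMod p) k :=
      Module.natCard_eq_pow_finrank
    rw [hk, Nat.card_zmod] at h1
    exact (Nat.pow_right_injective hp.two_le h1).symm
  have h20 : (2 : ZMod p) ≠ 0 := by
    intro h
    have h1 : ((2 : ℕ) : ZMod p) = 0 := by exact_mod_cast h
    rw [ZMod.natCast_eq_zero_iff] at h1
    exact hp2 ((Nat.prime_dvd_prime_iff_eq hp Nat.prime_two).1 h1)
  set N := Algebra.norm (ZMod p) y with hN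
  have h1 : N ^ 3 = 2 ^ f := by
    rw [hN, ← map_pow, hy, ← hfr]
    have := Algebra.norm_algebraMap (R := ZMod p) (S := k) (2 : ZMod p)
    rwa [map_ofNat] at this
  apply hc
  obtain ⟨a, ha | ha⟩ : ∃ a, f = 3 * a + 1 ∨ f = 3 * a + 2 := ⟨f / 3, by omega⟩
  · refine ⟨N / 2 ^ a, ?_⟩
    rw [div_pow, h1, ha, div_eq_iff (pow_ne_zero _ (pow_ne_zero _ h20))]
    ring
  · refine ⟨N ^ 2 / 2 ^ (2 * a + 1), ?_⟩
    have h2 : (N ^ 2) ^ 3 = (2 ^ f) ^ 2 := by rw [← h1]; ring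
    rw [div_pow, h2, ha, div_eq_iff (pow_ne_zero _ (pow_ne_zero _ h20))]
    ring

theorem u1_span (F F' : Type) [Field F] [Field F'] [Algebra F F']
    (h : Module.finrank F F' = 2) (δ : F') (hδ : δ ∉ Set.range (algebraMap F F')) (z : F') :
    ∃ a b : F, z = algebraMap F F' a + algebraMap F F' b * δ := by
  have hli : LinearIndependent F ![(1 : F'), δ] := by
    rw [LinearIndependent.pair_iff]
    intro s t hst
    rw [Algebra.smul_def, Algebra.smul_def, mul_one] at hst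
    by_cases ht : t = 0
    · subst ht
      rw [map_zero, zero_mul, add_zero, map_eq_zero] at hst
      exact ⟨hst, rfl⟩
    · exfalso
      apply hδ
      refine ⟨-s / t, ?_⟩
      rw [map_div₀, map_neg]
      have : algebraMap F F' t ≠ 0 := by rwa [ne_eq, map_eq_zero]
      field_simp
      linear_combination -hst
  have hspan := hli.span_eq_top_of_card_eq_finrank (by rw [h]; rfl)
  have hz : z ∈ Submodule.span F (Set.range ![(1 : F'), δ]) := by
    rw [hspan]; trivial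
  rw [Matrix.range_cons, Matrix.range_cons, Matrix.range_empty, Set.union_empty,
    Set.singleton_union, Submodule.mem_span_pair] at hz
  obtain ⟨a, b, hab⟩ := hz
  refine ⟨a, b, ?_⟩
  rw [← hab, Algebra.smul_def, Algebra.smul_def, mul_one]

section
variable (S : Finset Eis) (hS : ∀ b ∈ S, GoodEis b) (F : IntermediateField ℚ ℂ) [NumberField F]
  (hw : w ∈ F) (hF : F ≤ LS S)
include hS hw hF

/-- `2` is not a cube in the residue field of a place `v` above `b ∈ S`: the residue field has `p ^ f`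
elements, `p = N b` (`split_LS`); by `decomp` (or Galois theory) `f` divides `[F : ℚ(ω)] = 2 ^ n`, so
`f` is prime to `3` and `2 ^ ((p ^ f - 1) / 3) = (2 ^ ((p - 1) / 3)) ^ (1 + p + … + p ^ (f - 1))` is not
`1` mod `p` (the exponent is `≡ f mod 3`). -/
theorem two_not_cube_F (n : ℕ) (h : Module.finrank ℚ F = 2 ^ (n + 1)) (b : Eis) (hb : b ∈ S)
    (v : HeightOneSpectrum (𝓞 F)) (hv : v ∈ above F b) (x : 𝓞 F) : x ^ 3 - 2 ∉ v.asIdeal := by
  intro hx
  obtain ⟨_, _, _, _, hbp⟩ := g3_good (hS b hb)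
  obtain ⟨hprim, p, ⟨hp, hp3, hc⟩, hnorm⟩ := hS b hb
  obtain ⟨φ, -, hdec⟩ := decomp S hS b hprim hbp
  obtain ⟨f, g, hf, -, -, hcard, -, hidx⟩ := hdec F hw hF
  have hidx2 : ((fixer F).map (th S)).index = 2 ^ n := by
    have h1 := index_fixer F hw
    rw [h, ← g5_index S hS F hF, pow_succ, mul_comm] at h1
    exact Nat.eq_of_mul_eq_mul_right two_pos h1
  have hf2 : f ∣ 2 ^ n := by
    rw [← hidx2]
    refine (Dvd.intro_left g rfl).trans ?_
    rw [← hidx]
    exact Subgroup.index_dvd_of_le le_sup_left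
  have hf3 : ¬ 3 ∣ f := by
    intro h3
    have h4 := Nat.prime_three.dvd_of_dvd_pow (h3.trans hf2)
    omega
  have hvmax : v.asIdeal.IsMaximal := v.isMaximal
  let _ : Field (𝓞 F ⧸ v.asIdeal) := Ideal.Quotient.field v.asIdeal
  refine u1_cube (𝓞 F ⧸ v.asIdeal) p f hp (by rintro rfl; omega) hc hf3 hf ?_
    (Ideal.Quotient.mk _ x) ?_
  · rw [hcard v hv, hnorm, Int.natAbs_natCast]
  · have h1 := Ideal.Quotient.eq_zero_iff_mem.2 hx
    rw [map_sub, map_pow, sub_eq_zero] at h1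
    rw [h1, map_ofNat]

variable (F' : IntermediateField ℚ ℂ) [NumberField F'] (hFF : F ≤ F') (hF' : F' ≤ LS S)
  (h2 : Module.finrank ℚ F' = 2 * Module.finrank ℚ F) (d : F) (δ : ℂ) (hδ : δ ^ 2 = (d : ℂ))
  (hδF : δ ∉ F) (hδF' : δ ∈ F')
include hFF hF' hδ hδF'

/-- `F' / ℚ(ω)` is unramified outside of `3` and `S` (`unram_F`), so `v` is not ramified in `F'`: for a
place `P` of `F'` above `v` (`e(P | ℚ(ω)) = e(P | v) e(v | ℚ(ω))`) the valuation of `F'` at `P` extends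
the one of `F` at `v`, so `v(d) = 2 P(δ)`. -/
theorem even_val (v : HeightOneSpectrum (𝓞 F)) (h3 : (3 : 𝓞 F) ∉ v.asIdeal)
    (hv : ∀ b ∈ S, v ∉ above F b) : IsSquare (v.valuation F d) := by
  have hw' : w ∈ F' := hFF hw
  letI := algK F hw
  letI := algK F' hw'
  letI : Algebra F F' := (IntermediateField.inclusion hFF).toRingHom.toAlgebra
  haveI : IsScalarTower KK F F' := IsScalarTower.of_algebraMap_eq fun _ => rfl
  refine u1_val KK F F' v ?_ d ⟨δ, hδF'⟩ (Subtype.ext hδ)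
  intro v0 P hP0 hPv
  refine unram_F S hS F' hw' hF' v0 P hP0 ?_ ?_
  · intro h
    apply h3
    rw [Ideal.mem_of_liesOver P.asIdeal v.asIdeal, map_ofNat]
    rw [Ideal.mem_of_liesOver P.asIdeal v0.asIdeal, map_ofNat] at h
    exact h
  · intro b hb x hx hxv
    refine hv b hb ⟨algebraMap (𝓞 KK) (𝓞 F) x, ?_, hx⟩
    rw [Ideal.mem_of_liesOver P.asIdeal v.asIdeal, ← IsScalarTower.algebraMap_apply]
    rwa [Ideal.mem_of_liesOver P.asIdeal v0.asIdeal] at hxv

include h2 hδF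

/-- `F'` is stable under all `σ ∈ AutK` (`d2_stable`): `σ δ ∈ F' = F + F δ`, `(σ δ)² = σ d ∈ F`, so
`σ δ ∈ F` (impossible, then `δ ∈ F` as `F` is stable) or `σ δ = s δ` with `s ∈ F`. Every automorphism of
`F / ℚ(ω)` is the restriction of some `σ ∈ AutK` (`extend_aut`, `d2_res`). -/
theorem gal_sq : letI := algK F hw; ∀ σ : F ≃ₐ[KK] F, ∃ s : F, σ d = d * s ^ 2 := by
  letI := algK F hw
  intro σ
  have hw' : w ∈ F' := hFF hw
  obtain ⟨τ, hτ⟩ := extend_aut F hw σ.toRingEquiv (σ.commutes ⟨w, d2_w_mem⟩)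
  have hτδ : (τ : ℂ ≃+* ℂ) δ ∈ F' := d2_stable S hS F' hw' hF' τ δ hδF'
  letI : Algebra F F' := (IntermediateField.inclusion hFF).toRingHom.toAlgebra
  haveI : IsScalarTower ℚ F F' := IsScalarTower.of_algebraMap_eq fun _ => rfl
  have hfr : Module.finrank F F' = 2 := by
    haveI : FiniteDimensional F F' := Module.Finite.of_restrictScalars_finite ℚ F F'
    have h1 := Module.finrank_mul_finrank ℚ F F'
    rw [h2, mul_comm 2] at h1
    exact Nat.eq_of_mul_eq_mul_left Module.finrank_pos h1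
  obtain ⟨a, b, hab⟩ := u1_span F F' hfr ⟨δ, hδF'⟩ (by
    rintro ⟨y, hy⟩
    apply hδF
    have h1 : (y : ℂ) = δ := congrArg Subtype.val hy
    rw [← h1]
    exact y.2) ⟨(τ : ℂ ≃+* ℂ) δ, hτδ⟩
  have hab' : (τ : ℂ ≃+* ℂ) δ = (a : ℂ) + b * δ := congrArg Subtype.val hab
  have hsq : ((σ d : F) : ℂ) = ((a : ℂ) + b * δ) ^ 2 := by
    rw [← hab', ← map_pow, hδ, hτ]
    rfl
  have hab0 : a * b = 0 := by
    by_contra hne
    apply hδF
    have hne' : (a : ℂ) * b ≠ 0 := by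
      intro h
      exact hne (Subtype.ext h)
    have h1 : δ = (((σ d - a ^ 2 - b ^ 2 * d) / (2 * (a * b)) : F) : ℂ) := by
      have h3 : (((σ d - a ^ 2 - b ^ 2 * d) / (2 * (a * b)) : F) : ℂ) =
          (((σ d : F) : ℂ) - (a : ℂ) ^ 2 - (b : ℂ) ^ 2 * d) / (2 * ((a : ℂ) * b)) := rfl
      rw [h3, eq_div_iff (mul_ne_zero two_ne_zero hne'), hsq, ← hδ]
      ring
    rw [h1]
    exact SetLike.coe_mem _
  rcases mul_eq_zero.1 hab0 with h0 | h0
  · refine ⟨b, Subtype.ext ?_⟩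
    change ((σ d : F) : ℂ) = (d : ℂ) * (b : ℂ) ^ 2
    rw [hsq, h0, ← hδ]
    change ((0 : ℂ) + b * δ) ^ 2 = _
    ring
  · exfalso
    apply hδF
    have h1 : (τ : ℂ ≃+* ℂ) δ = a := by
      rw [hab', h0]
      change (a : ℂ) + 0 * δ = a
      ring
    have h3 := d2_stable S hS F hw hF τ⁻¹ a a.2
    rw [← h1] at h3
    have h4 : ((τ⁻¹ : AutK) : ℂ ≃+* ℂ) ((τ : ℂ ≃+* ℂ) δ) = δ :=
      RingEquiv.symm_apply_apply (τ : ℂ ≃+* ℂ) δ
    rwa [h4] at h3

end

end CF
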