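import Pool.Agent.MP_dfae13_nt.T.TC2
import Pool.Agent.MP_9ab903_nt.CF.L1

set_option autoImplicit false

open NumberField IsDedekindDomain
open CM27

namespace CMT

/-! ## [CF3-W2] the twists have bad additive reduction above `3` (file CF3/W2.lean) -/

/-- As `CF.localPoly_three'` (CF/L1.lean): `c₄ = 0`, so no multiplicative reduction. Good reduction
after the change of variables `(u, r, s, t)` would give `12 v(u) = 3 k + 6 v(d)` and
`u⁶ b₆' = d³ + 4 r³`, so with `r = d r'`: `v(1 + 4 r'³) ≥ 3 k / 2 > k`; hence `r'` is integral,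
`r' ≡ - 1`, `r' = -1 + s`, `1 + 4 r'³ = -3 + 12 s - 12 s² + 4 s³`, `3 v(s) = k`, a contradiction.
(`d ∈ K` arbitrary, also not integral.) -/
theorem localPoly_three_tw (A : Type) [CommRing A] [IsDomain A] [IsDiscreteValuationRing A]
    (K : Type) [Field K] [Algebra A K] [IsFractionRing A K] [CharZero K] (k : ℕ) (hk : ¬ 3 ∣ k)
    (ϖ u : A) (hϖ : Irreducible ϖ) (hu : IsUnit u) (h : (3 : A) = u * ϖ ^ k) (d e : K)
    (hd : d ≠ 0) (he : 4 * e + 1 = d ^ 3) : (Wt e).localPolynomial A = 1 := by
  obtain ⟨C, hC⟩ : ∃ C : WeierstrassCurve.VariableChange K, (Wt e).minimal A = C • (Wt e) :=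
    ⟨_, rfl⟩
  have hb60 : (Wt e).b₆ = d ^ 3 := by
    rw [← he]; simp [Wt, WeierstrassCurve.b₆]; ring
  have hΔ0 : (Wt e).Δ = -27 * d ^ 6 := by
    have h1 : (Wt e).Δ = -27 * (Wt e).b₆ ^ 2 := by
      simp [Wt, WeierstrassCurve.Δ, WeierstrassCurve.b₂, WeierstrassCurve.b₄,
        WeierstrassCurve.b₈]
    rw [h1, hb60]; ring
  have hc0 : (Wt e).c₄ = 0 := by
    simp [Wt, WeierstrassCurve.c₄, WeierstrassCurve.b₂, WeierstrassCurve.b₄]
  have hb20 : (Wt e).b₂ = 0 := by simp [Wt, WeierstrassCurve.b₂]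
  have hb40 : (Wt e).b₄ = 0 := by simp [Wt, WeierstrassCurve.b₄]
  have hΔ : ((Wt e).minimal A).Δ = (C.u⁻¹ : Kˣ) ^ 12 * (-27 * d ^ 6) := by
    rw [hC, WeierstrassCurve.variableChange_Δ, hΔ0]
  have hb6 : ((Wt e).minimal A).b₆ =
      (C.u⁻¹ : Kˣ) ^ 6 * (d ^ 3 * (1 + 4 * (C.r / d) ^ 3)) := by
    rw [hC, WeierstrassCurve.variableChange_b₆, hb20, hb40, hb60]
    field_simp
    ring
  have hc4 : ((Wt e).minimal A).c₄ = 0 := by
    rw [hC, WeierstrassCurve.variableChange_c₄, hc0, mul_zero]
  have hmult : ¬ ((Wt e).minimal A).HasMultiplicativeReduction A := by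
    intro h
    have h1 := h.multiplicativeReduction
    rw [hc4, map_zero] at h1
    exact zero_ne_one h1
  have hgood : ¬ ((Wt e).minimal A).HasGoodReduction A := by
    intro hg
    have h1 := hg.goodReduction
    rw [hΔ] at h1
    set v := (IsDiscreteValuationRing.maximalIdeal A).valuation K with hv
    have hle : ∀ a : A, v (algebraMap A K a) ≤ 1 := fun a =>
      HeightOneSpectrum.valuation_le_one _ a
    have hm : (IsDiscreteValuationRing.maximalIdeal A).asIdeal = Ideal.span {ϖ} :=
      (IsDiscreteValuationRing.irreducible_iff_uniformizer ϖ).1 hϖ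
    have hvϖ : v (algebraMap A K ϖ) = WithZero.exp (-1 : ℤ) := by
      have h4 := HeightOneSpectrum.valuation_of_algebraMap
        (K := K) (IsDiscreteValuationRing.maximalIdeal A) ϖ
      rw [HeightOneSpectrum.intValuation_singleton _ hϖ.ne_zero hm] at h4
      exact h4
    have hvu : v (algebraMap A K u) = 1 := by
      obtain ⟨w, hw⟩ := hu.exists_right_inv
      have h5 : v (algebraMap A K u) * v (algebraMap A K w) = 1 := by
        rw [← map_mul, ← map_mul, hw, map_one, map_one]
      have h6 := hle u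
      have h7 := hle w
      apply le_antisymm h6
      by_contra hcon
      push Not at hcon
      have h8 : v (algebraMap A K u) * v (algebraMap A K w) < 1 := by
        calc v (algebraMap A K u) * v (algebraMap A K w) ≤ v (algebraMap A K u) * 1 :=
              mul_le_mul_right h7 _
          _ < 1 := by rw [mul_one]; exact hcon
      rw [h5] at h8
      exact lt_irrefl _ h8
    have hv3 : v (3 : K) = WithZero.exp (-(k : ℤ)) := by
      have h5 : (3 : K) = algebraMap A K u * (algebraMap A K ϖ) ^ k := by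
        rw [← map_pow, ← map_mul, ← h, map_ofNat]
      rw [h5, map_mul, map_pow, hvu, hvϖ, one_mul, ← WithZero.exp_nsmul]
      congr 1
      simp
    have hk1 : 1 ≤ k := by
      rcases Nat.eq_zero_or_pos k with h0 | h0
      · exact absurd (h0 ▸ dvd_zero 3) hk
      · exact h0
    have h27 : (-27 : K) = -(3 ^ 3) := by norm_num
    have hd0 : v d ≠ 0 := by
      rw [Valuation.ne_zero_iff]; exact hd
    obtain ⟨D, hD⟩ : ∃ D : ℤ, v d = WithZero.exp D :=
      ⟨WithZero.log (v d), (WithZero.exp_log hd0).symm⟩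
    rw [map_mul, map_pow, map_mul, h27, Valuation.map_neg, map_pow, hv3, map_pow, hD] at h1
    have hu0 : v ((C.u⁻¹ : Kˣ) : K) ≠ 0 := by
      rw [Valuation.ne_zero_iff]
      exact Units.ne_zero _
    obtain ⟨m, hm'⟩ : ∃ m : ℤ, v ((C.u⁻¹ : Kˣ) : K) = WithZero.exp m :=
      ⟨WithZero.log (v ((C.u⁻¹ : Kˣ) : K)), (WithZero.exp_log hu0).symm⟩
    have hmk : 12 * m + 6 * D = 3 * k := by
      rw [hm', ← WithZero.exp_nsmul, ← WithZero.exp_nsmul, ← WithZero.exp_nsmul,
        ← WithZero.exp_add, ← WithZero.exp_add] at h1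
      have h6 := congrArg WithZero.log h1
      rw [WithZero.log_exp, WithZero.log_one] at h6
      simp only [nsmul_eq_mul, Nat.cast_ofNat] at h6
      linarith
    -- integrality of `b₆`
    have hint : v (((Wt e).minimal A).b₆) ≤ 1 := by
      rw [← WeierstrassCurve.integralModel_b₆_eq A ((Wt e).minimal A)]
      exact hle _
    rw [hb6, map_mul, map_pow, hm', map_mul, map_pow, hD, ← WithZero.exp_nsmul,
      ← WithZero.exp_nsmul, ← mul_assoc, ← WithZero.exp_add] at hint
    set r := C.r / d with hr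
    have hB : v (1 + 4 * r ^ 3) ≤ WithZero.exp (-(6 * m + 3 * D)) := by
      have h5 : WithZero.exp (-(6 * m + 3 * D)) *
          (WithZero.exp (6 • m + 3 • D) * v (1 + 4 * r ^ 3)) ≤
          WithZero.exp (-(6 * m + 3 * D)) * 1 := mul_le_mul_right hint _
      rw [← mul_assoc, ← WithZero.exp_add, mul_one] at h5
      have h6 : -(6 * m + 3 * D) + (6 • m + 3 • D) = 0 := by
        simp only [nsmul_eq_mul, Nat.cast_ofNat]; ring
      rw [h6, WithZero.exp_zero, one_mul] at h5
      exact h5
    have hexp : ∀ a b : ℤ, a < b → (WithZero.exp a : WithZero (Multiplicative ℤ)) < WithZero.exp b :=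
      fun a b hab => WithZero.exp_lt_exp.2 hab
    have hone : (1 : WithZero (Multiplicative ℤ)) = WithZero.exp (0 : ℤ) := by simp
    have hBlt : v (1 + 4 * r ^ 3) < 1 := by
      refine lt_of_le_of_lt hB ?_
      rw [hone]; exact hexp _ _ (by omega)
    have h3lt : v (3 : K) < 1 := by
      rw [hv3, hone]; exact hexp _ _ (by omega)
    have h4 : v (4 : K) = 1 := by
      have : (4 : K) = 1 + 3 := by norm_num
      rw [this]; exact v.map_one_add_of_lt h3lt
    have hvr3 : v (4 * r ^ 3) = 1 := by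
      have h5 : 4 * r ^ 3 = -(1 + -(1 + 4 * r ^ 3)) := by ring
      rw [h5, Valuation.map_neg]
      apply v.map_one_add_of_lt
      rw [Valuation.map_neg]; exact hBlt
    have hvr3' : v r ^ 3 = 1 := by
      rw [map_mul, map_pow, h4, one_mul] at hvr3
      exact hvr3
    have hvr : v r = 1 := by
      rcases lt_trichotomy (v r) 1 with h5 | h5 | h5
      · exact absurd hvr3' (ne_of_lt (pow_lt_one₀ zero_le h5 (by norm_num)))
      · exact h5
      · exact absurd hvr3' (ne_of_gt (one_lt_pow₀ h5 (by norm_num)))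
    -- `s = 1 + r`
    have hs3 : v ((1 + r) ^ 3) < 1 := by
      have h5 : (1 + r) ^ 3 = (1 + 4 * r ^ 3) + 3 * (r + r ^ 2 - r ^ 3) := by ring
      rw [h5]
      refine lt_of_le_of_lt (v.map_add _ _) (max_lt hBlt ?_)
      rw [map_mul]
      have h6 : v (r + r ^ 2 - r ^ 3) ≤ 1 := by
        refine (v.map_sub _ _).trans (max_le ((v.map_add _ _).trans (max_le hvr.le ?_)) ?_)
        · rw [map_pow, hvr, one_pow]
        · rw [map_pow, hvr, one_pow]
      calc v 3 * v (r + r ^ 2 - r ^ 3) ≤ v 3 * 1 := mul_le_mul_right h6 _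
        _ < 1 := by rw [mul_one]; exact h3lt
    set s := 1 + r with hs
    have hslt : v s < 1 := by
      rw [map_pow] at hs3
      by_contra hcon
      push Not at hcon
      exact absurd hs3 (not_lt.2 (one_le_pow₀ hcon))
    have hsle : v s ≤ WithZero.exp (-1 : ℤ) := by
      rcases eq_or_ne (v s) 0 with h0 | h0
      · rw [h0]; exact zero_le
      · rw [← WithZero.exp_log h0] at hslt ⊢
        rw [hone, WithZero.exp_lt_exp] at hslt
        rw [WithZero.exp_le_exp]; omega
    have h43 : v (4 * s ^ 3 - 3) < v 3 := by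
      have h5 : 4 * s ^ 3 - 3 = (1 + 4 * r ^ 3) + 3 * (4 * s * (s - 1)) := by rw [hs]; ring
      rw [h5]
      refine lt_of_le_of_lt (v.map_add _ _) (max_lt ?_ ?_)
      · refine lt_of_le_of_lt hB ?_
        rw [hv3]; exact hexp _ _ (by omega)
      · have h6 : v (s - 1) ≤ 1 := (v.map_sub _ _).trans (max_le hslt.le (by rw [map_one]))
        rw [map_mul, map_mul, map_mul, h4, one_mul]
        have h7 : v s * v (s - 1) < 1 := by
          calc v s * v (s - 1) ≤ v s * 1 := mul_le_mul_right h6 _
            _ < 1 := by rw [mul_one]; exact hslt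
        have h8 : v (3 : K) ≠ 0 := by rw [hv3]; exact WithZero.exp_ne_zero
        calc v 3 * (v s * v (s - 1)) < v 3 * 1 := by
              rw [mul_lt_mul_iff_right₀ (zero_lt_iff.2 h8)]; exact h7
          _ = v 3 := mul_one _
    have h44 : v (4 * s ^ 3) = v 3 := by
      have h5 : 4 * s ^ 3 = (4 * s ^ 3 - 3) + 3 := by ring
      rw [h5]
      exact v.map_add_eq_of_lt_right h43
    rw [map_mul, map_pow, h4, one_mul, hv3] at h44
    have hs0 : v s ≠ 0 := by
      intro h0
      rw [h0, zero_pow (by norm_num)] at h44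
      exact WithZero.exp_ne_zero h44.symm
    have h45 := congrArg WithZero.log h44
    rw [WithZero.log_pow, WithZero.log_exp] at h45
    simp only [nsmul_eq_mul, Nat.cast_ofNat] at h45
    apply hk
    have : (3 : ℤ) ∣ k := ⟨-WithZero.log (v s), by linarith⟩
    exact_mod_cast this
  unfold WeierstrassCurve.localPolynomial
  rw [if_neg hgood, if_neg (fun h => hmult h.toHasMultiplicativeReduction), if_neg hmult]

end CMT
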