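import Pool.Agent.MP_9ab903_nt.CF3.AR
import Pool.Agent.MP_9ab903_nt.CF3.W2
import Pool.Agent.MP_9ab903_nt.CF3.U1
import Pool.Agent.MP_9ab903_nt.CF.AF

set_option autoImplicit false

open NumberField IsDedekindDomain ArithmeticFunction
open CM27 CMT
open scoped ComplexConjugate Classical

namespace CF

/-! ## the `L`-series of the twist by `d` of `E` over `F` (file CF3/A3.lean) -/

theorem baseChange_Wt' (K : Type) [Field K] [NumberField K] (e : K)
    (v : HeightOneSpectrum (𝓞 K)) :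
    (Wt e).baseChange (v.adicCompletion K) = Wt (algebraMap K (v.adicCompletion K) e) := by
  unfold WeierstrassCurve.baseChange WeierstrassCurve.map Wt
  simp

/-- cancellation -/
theorem mul_cancel_af {f g h : ArithmeticFunction ℂ} (hf : f.IsMultiplicative)
    (hg : g.IsMultiplicative) (hh : h.IsMultiplicative) (H : f * g = f * h) : g = h := by
  rw [ArithmeticFunction.IsMultiplicative.eq_iff_eq_on_prime_powers _ hg _ hh]
  intro p i hp
  have h1 : loc p (f * g) = loc p (f * h) := by rw [H]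
  rw [loc_mul hp, loc_mul hp] at h1
  have h2 : loc p f ≠ 0 := by
    intro h0
    have h3 := congrArg (PowerSeries.coeff 0) h0
    rw [coeff_loc, pow_zero, hf.1] at h3
    simp at h3
  have h3 := mul_left_cancel₀ h2 h1
  rw [← coeff_loc, ← coeff_loc, h3]

section
variable (S : Finset Eis) (hS : ∀ b ∈ S, GoodEis b) (F : IntermediateField ℚ ℂ) [NumberField F]
  (hw : w ∈ F) (hF : F ≤ LS S) (n : ℕ) (h : Module.finrank ℚ F = 2 ^ (n + 1))
  (F' : IntermediateField ℚ ℂ) [NumberField F'] (hFF : F ≤ F') (hF' : F' ≤ LS S)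
  (h' : Module.finrank ℚ F' = 2 ^ (n + 1 + 1)) (d : 𝓞 F) (h4 : (4 : 𝓞 F) ∣ d - 1) (δ : ℂ)
  (hδ : δ ^ 2 = ((d : F) : ℂ)) (hδF : δ ∉ F) (hδF' : δ ∈ F') (e : F)
  (he : 4 * e + 1 = (d : F) ^ 3)
include hS hw hF h hFF hF' h' h4 hδ hδF hδF' he

omit hw hF h hF' h' h4 hδ hδF hδF' he [NumberField F] [NumberField F'] in
theorem chF_mono : chF S F ⊆ chF S F' := by
  intro X hX
  rw [mem_chF S hS] at hX ⊢
  intro σ hσ
  exact hX σ fun x hx => hσ x (hFF hx)

omit hF hF' h4 hδ hδF hδF' hw he hS in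
theorem finrank_FF : letI := (IntermediateField.inclusion hFF).toRingHom.toAlgebra
    Module.finrank F F' = 2 := by
  letI : Algebra F F' := (IntermediateField.inclusion hFF).toRingHom.toAlgebra
  have : IsScalarTower ℚ F F' := IsScalarTower.of_algebraMap_eq' (Subsingleton.elim _ _)
  have h1 := Module.finrank_mul_finrank ℚ F F'
  rw [h, h', pow_succ 2 (n + 1)] at h1
  exact Nat.eq_of_mul_eq_mul_left (by positivity) h1

theorem LC_F' : LC F' = LC F * LCW F (Wt e) := by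
  letI : Algebra F F' := (IntermediateField.inclusion hFF).toRingHom.toAlgebra
  have hd0 : (d : F) ≠ 0 := by
    intro h0
    apply hδF
    rw [h0] at hδ
    have : δ = 0 := by
      have h1 : δ ^ 2 = 0 := by rw [hδ]; rfl
      exact (pow_eq_zero_iff two_ne_zero).1 h1
    rw [this]
    exact zero_mem _
  refine artin_quad F F' (finrank_FF F n h F' hFF h') d h4 ⟨δ, hδF'⟩ ?_ ?_ e he ?_ ?_ ?_
  · ext
    exact hδ
  · rintro ⟨x, hx⟩
    apply hδF
    have h1 : ((algebraMap F F' x : F') : ℂ) = δ := by rw [hx]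
    rw [← h1]
    exact x.2
  · intro v hv
    exact fv_three' S hS F hw hF n h v hv
  · intro v hv
    obtain ⟨k, ϖ, u, hk, hϖ, hu, h3⟩ := three_ram S hS F hw hF n h v hv
    have : CharZero (v.adicCompletion F) :=
      charZero_of_injective_algebraMap (algebraMap F (v.adicCompletion F)).injective
    apply fW_one F (Wt e) v
    rw [baseChange_Wt']
    refine localPoly_three_tw _ _ k hk ϖ u hϖ hu h3 (algebraMap F (v.adicCompletion F) (d : F)) _
      ?_ ?_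
    · exact (map_ne_zero_iff _ (algebraMap F (v.adicCompletion F)).injective).2 hd0
    · have h9 := congrArg (algebraMap F (v.adicCompletion F)) he
      rw [map_add, map_mul, map_pow, map_one, map_ofNat] at h9
      exact h9
  · intro v hv
    exact fv_three' S hS F' (hFF hw) hF' (n + 1) h' v hv

theorem LW_eq : LCW F (Wt e) = ∏ X ∈ chF S F' \ chF S F, (Dg (gx S X) * Dg (gy S X)) := by
  have h1 := LC_F' S hS F hw hF n h F' hFF hF' h' d h4 δ hδ hδF hδF' e he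
  have hsub := chF_mono S hS F F' hFF
  have h2 : LC F' = LC F * ∏ X ∈ chF S F' \ chF S F, (Dg (gx S X) * Dg (gy S X)) := by
    rw [LF_eq S hS F' (hFF hw) hF' (n + 1) h', LF_eq S hS F hw hF n h, DF, DF, mul_comm,
      Finset.prod_sdiff hsub]
  refine mul_cancel_af (isMultiplicative_LC F) (isMultiplicative_LCW F (Wt e)) ?_
    (h1.symm.trans h2)
  exact isMultiplicative_finsetProd _ _ fun X _ => (isMultiplicative_Dg _ (gx_one S hS X)
    (gx_mul S hS X)).mul (isMultiplicative_Dg _ (gy_one S hS X) (gy_mul S hS X))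

/-- **The analytic half for the twist.** -/
theorem analytic_tw : ∃ L : ℂ → ℂ, Differentiable ℂ L ∧
    (∀ s : ℂ, 3 / 2 < s.re → LSeriesSummable (fun k => ((Wt e).LFunction k : ℂ)) s ∧
      L s = (Wt e).LSeries s) ∧ L 1 ≠ 0 ∧
    ∃ q : ℚ, q ≠ 0 ∧ padicValRat 2 q = 0 ∧ L 1 ^ 2 = q * ((period F : ℝ) : ℂ) ^ 2 := by
  have key : ∀ X ∈ chF S F' \ chF S F, ∃ Φ : ℂ → ℂ, Differentiable ℂ Φ ∧
      (∀ s : ℂ, 3 / 2 < s.re → LSeriesSummable (fun k => (Dg (gx S X) * Dg (gy S X)) k) s ∧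
        Φ s = LSeries (fun k => (Dg (gx S X) * Dg (gy S X)) k) s) := by
    intro X hX
    have hX' := (Finset.mem_sdiff.1 hX).1
    obtain ⟨Φ₁, Φ₂, d1, d2, s1, s2, hv⟩ := value_X S hS (n + 1) X
      (pow_chF S hS F' (hFF hw) hF' (n + 1) h' X hX')
    refine ⟨fun s => Φ₁ s * Φ₂ s, d1.mul d2, ?_⟩
    intro s hs
    refine ⟨ArithmeticFunction.LSeriesSummable_mul (s1 s hs).1 (s2 s hs).1, ?_⟩
    rw [ArithmeticFunction.LSeries_mul' (s1 s hs).1 (s2 s hs).1, ← (s1 s hs).2, ← (s2 s hs).2]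
  choose! Φ hΦ1 hΦ2 using key
  have hLW : (fun k => ((Wt e).LFunction k : ℂ)) = fun k => (∏ X ∈ chF S F' \ chF S F,
      (Dg (gx S X) * Dg (gy S X))) k := by
    funext k
    rw [← LCW_apply, LW_eq S hS F hw hF n h F' hFF hF' h' d h4 δ hδ hδF hδF' e he]
  set L : ℂ → ℂ := fun s => ∏ X ∈ chF S F' \ chF S F, Φ X s with hL
  have hLd : Differentiable ℂ L := Differentiable.fun_finsetProd hΦ1
  have hLs : ∀ s : ℂ, 3 / 2 < s.re → LSeriesSummable (fun k => ((Wt e).LFunction k : ℂ)) s ∧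
      L s = (Wt e).LSeries s := by
    intro s hs
    obtain ⟨h1, h2⟩ := LSeries_prod (chF S F' \ chF S F) (fun X => Dg (gx S X) * Dg (gy S X)) s
      (fun X hX => (hΦ2 X hX s hs).1)
    rw [hLW]
    refine ⟨h1, ?_⟩
    have h3 : (Wt e).LSeries s = LSeries (fun k => ((Wt e).LFunction k : ℂ)) s := rfl
    rw [h3, hLW, h2]
    exact Finset.prod_congr rfl fun X hX => (hΦ2 X hX s hs).2
  obtain ⟨L₁, d1, s1, n1, q₁, hq₁, v₁, e₁⟩ := analytic_F S hS F hw hF n h
  obtain ⟨L₂, d2, s2, n2, q₂, hq₂, v₂, e₂⟩ := analytic_F S hS F' (hFF hw) hF' (n + 1) h'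
  -- the identity
  have hid : ∀ s : ℂ, 3 / 2 < s.re → L₂ s = L₁ s * L s := by
    intro s hs
    have h1 := LC_F' S hS F hw hF n h F' hFF hF' h' d h4 δ hδ hδF hδF' e he
    rw [(s1 s hs).2, (s2 s hs).2, (hLs s hs).2]
    have t1 : (E F').LSeries s = LSeries (fun k => LC F' k) s := rfl
    have t2 : (E F).LSeries s = LSeries (fun k => LC F k) s := rfl
    have t3 : (Wt e).LSeries s = LSeries (fun k => LCW F (Wt e) k) s := rfl
    rw [t1, t2, t3, h1]
    exact ArithmeticFunction.LSeries_mul' (s1 s hs).1 (hLs s hs).1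
  have hall : L₂ = fun s => L₁ s * L s := by
    have a1 : AnalyticOnNhd ℂ L₂ Set.univ := fun z _ => d2.analyticAt z
    have a2 : AnalyticOnNhd ℂ (fun s => L₁ s * L s) Set.univ := fun z _ =>
      (d1.mul hLd).analyticAt z
    refine a1.eq_of_eventuallyEq a2 (z₀ := 2) ?_
    have hopen : IsOpen {s : ℂ | 3 / 2 < s.re} := isOpen_lt continuous_const Complex.continuous_re
    exact Filter.eventually_of_mem (hopen.mem_nhds (by norm_num)) hid
  have h1 : L₂ 1 = L₁ 1 * L 1 := congrFun hall 1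
  have hL1 : L 1 ≠ 0 := by
    intro h0
    rw [h0, mul_zero] at h1
    exact n2 h1
  refine ⟨L, hLd, hLs, hL1, ?_⟩
  obtain ⟨r₁, hr₁⟩ := period_sq F
  obtain ⟨r₂, hr₂⟩ := period_sq F'
  rw [h] at hr₁
  rw [h'] at hr₂
  have hr₁C : ((period F : ℝ) : ℂ) ^ 2 = 3 ^ r₁ * (Om : ℂ) ^ (2 * 2 ^ (n + 1)) := by
    exact_mod_cast congrArg (fun t : ℝ => (t : ℂ)) hr₁
  have hr₂C : ((period F' : ℝ) : ℂ) ^ 2 = 3 ^ r₂ * (Om : ℂ) ^ (2 * 2 ^ (n + 1 + 1)) := by
    exact_mod_cast congrArg (fun t : ℝ => (t : ℂ)) hr₂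
  have h30 : ∀ r : ℕ, ((3 : ℚ) ^ r) ≠ 0 := fun r => pow_ne_zero _ (by norm_num)
  have h30C : ∀ r : ℕ, ((3 : ℂ) ^ r) ≠ 0 := fun r => pow_ne_zero _ (by norm_num)
  have v3 : ∀ r : ℕ, padicValRat 2 ((3 : ℚ) ^ r) = 0 := by
    intro r
    rw [padicValRat.pow]
    have : padicValRat 2 (3 : ℚ) = 0 := by
      have := padic_unit_odd (N := 3) (by decide)
      exact_mod_cast this
    rw [this]
    simp
  have v3' : ∀ r : ℕ, padicValRat 2 ((3 : ℚ) ^ r)⁻¹ = 0 := by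
    intro r
    rw [padicValRat.inv, v3]
    simp
  have vq1' : padicValRat 2 (q₁⁻¹) = 0 := by rw [padicValRat.inv, v₁]; simp
  have hOm : (Om : ℂ) ≠ 0 := by exact_mod_cast Om_pos.ne'
  have hq₁C : (q₁ : ℂ) ≠ 0 := by exact_mod_cast hq₁
  refine ⟨q₂ * q₁⁻¹ * (3 ^ r₂ * (3 ^ (2 * r₁))⁻¹), ?_, ?_, ?_⟩
  · exact mul_ne_zero (mul_ne_zero hq₂ (inv_ne_zero hq₁)) (mul_ne_zero (h30 _)
      (inv_ne_zero (h30 _)))
  · exact padic_unit_mul (mul_ne_zero hq₂ (inv_ne_zero hq₁)) (mul_ne_zero (h30 _)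
      (inv_ne_zero (h30 _))) (padic_unit_mul hq₂ (inv_ne_zero hq₁) v₂ vq1')
      (padic_unit_mul (h30 _) (inv_ne_zero (h30 _)) (v3 _) (v3' _))
  · have h5 : (L₁ 1 * L 1) ^ 2 = q₂ * ((period F' : ℝ) : ℂ) ^ 2 := by rw [← h1]; exact e₂
    rw [mul_pow, e₁, hr₂C, hr₁C] at h5
    rw [hr₁C]
    have hpow : (Om : ℂ) ^ (2 * 2 ^ (n + 1 + 1)) =
        (Om : ℂ) ^ (2 * 2 ^ (n + 1)) * (Om : ℂ) ^ (2 * 2 ^ (n + 1)) := by
      rw [← pow_add]
      congr 1
      ring
    rw [hpow] at h5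
    have hO : (Om : ℂ) ^ (2 * 2 ^ (n + 1)) ≠ 0 := pow_ne_zero _ hOm
    set O := (Om : ℂ) ^ (2 * 2 ^ (n + 1)) with hOdef
    push_cast
    rw [pow_mul']
    have h6 : (3 : ℂ) ^ r₁ ≠ 0 := h30C _
    field_simp
    apply mul_left_cancel₀ (mul_ne_zero hO hO)
    linear_combination (O) * h5
end

end CF
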