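import Pool.Agent.MP_dfae13_nt.T.TC1
import Pool.Agent.MP_dfae13_nt.T.TC2

set_option autoImplicit false

open NumberField IsDedekindDomain Polynomial
open CM27

namespace CMT

/-! ## [CF3-W1] local polynomials of the twists, independence of the model (file CF3/W1.lean) -/

/-- `Wt e : y² + y = x³ + e`, i.e. `(2 y + 1)² = 4 x³ + d³` with `4 e + 1 = d³`; replacing `d` by
`c² d` is the change of variables `x = c² x'`, `2 y + 1 = c³ (2 y' + 1)`. -/
theorem Wt_scale (K : Type) [Field K] (h2 : (2 : K) ≠ 0) (c d d' e e' : K) (hc : c ≠ 0)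
    (he : 4 * e + 1 = d ^ 3) (he' : 4 * e' + 1 = d' ^ 3) (hd : d = c ^ 2 * d') :
    ∃ C : WeierstrassCurve.VariableChange K, Wt e = C • Wt e' := by
  refine ⟨⟨Units.mk0 c⁻¹ (inv_ne_zero hc), 0, 0, ((c⁻¹) ^ 3 - 1) / 2⟩, ?_⟩
  have h4 : (4 : K) ≠ 0 := by
    have h : (4 : K) = 2 * 2 := by norm_num
    rw [h]
    exact mul_ne_zero h2 h2
  have hu : (((Units.mk0 c⁻¹ (inv_ne_zero hc))⁻¹ : Kˣ) : K) = c := by
    rw [Units.val_inv_eq_inv_val, Units.val_mk0, inv_inv]
  have ht : 2 * (((c⁻¹) ^ 3 - 1) / 2) = (c⁻¹) ^ 3 - 1 := by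
    field_simp
  have hcc : c ^ 3 * (c⁻¹) ^ 3 = 1 := by
    rw [← mul_pow, mul_inv_cancel₀ hc, one_pow]
  set t : K := ((c⁻¹) ^ 3 - 1) / 2 with htdef
  ext
  · rw [WeierstrassCurve.variableChange_a₁, hu]
    simp [Wt]
  · rw [WeierstrassCurve.variableChange_a₂, hu]
    simp [Wt]
  · rw [WeierstrassCurve.variableChange_a₃, hu]
    simp only [Wt]
    linear_combination (-c ^ 3) * ht - hcc
  · rw [WeierstrassCurve.variableChange_a₄, hu]
    simp [Wt]
  · rw [WeierstrassCurve.variableChange_a₆, hu]
    simp only [Wt]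
    have h5 : 4 * e = 4 * (c ^ 6 * (e' - t - t ^ 2)) := by
      have h6 : c ^ 6 * (c⁻¹) ^ 6 = 1 := by
        rw [← mul_pow, mul_inv_cancel₀ hc, one_pow]
      have h7 : 4 * (e' - t - t ^ 2) = d' ^ 3 - (c⁻¹) ^ 6 := by
        have h8 : 2 * t + 1 = (c⁻¹) ^ 3 := by rw [ht]; ring
        linear_combination he' - (2 * t + 1 + (c⁻¹) ^ 3) * h8
      have h9 : d ^ 3 = c ^ 6 * d' ^ 3 := by rw [hd]; ring
      linear_combination he - c ^ 6 * h7 + h9 + h6
    have h10 := mul_left_cancel₀ h4 h5
    linear_combination h10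

/-- `localPoly_twist` (T/TC1.lean) for any curve isomorphic to `Wt e`, `e ∈ A`, `4 e + 1` a unit: same
proof (`tc1_good` is applied to `T * C`). -/
theorem localPoly_twist' (A : Type) [CommRing A] [IsDomain A] [IsDiscreteValuationRing A]
    (K : Type) [Field K] [Algebra A K] [IsFractionRing A K]
    [Finite (IsLocalRing.ResidueField A)] (h3 : IsUnit (3 : A)) (e : A) (he : IsUnit (4 * e + 1))
    (C : WeierstrassCurve.VariableChange K) :
    (C • Wt (algebraMap A K e)).localPolynomial A =
      1 - Polynomial.C ((Nat.card (IsLocalRing.ResidueField A) : ℤ) + 1 -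
        Nat.card (Wt (IsLocalRing.residue A e)).toAffine.Point) * X
      + Polynomial.C (Nat.card (IsLocalRing.ResidueField A) : ℤ) * X ^ 2 := by
  obtain ⟨T, hT, hTm⟩ : ∃ T : WeierstrassCurve.VariableChange K,
      (C • Wt (algebraMap A K e)).minimal A = T • Wt (algebraMap A K e) ∧
        WeierstrassCurve.IsMinimal A (T • Wt (algebraMap A K e)) := by
    obtain ⟨T, hT, hTm⟩ : ∃ T : WeierstrassCurve.VariableChange K,
        (C • Wt (algebraMap A K e)).minimal A = T • (C • Wt (algebraMap A K e)) ∧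
          WeierstrassCurve.IsMinimal A (T • (C • Wt (algebraMap A K e))) :=
      ⟨_, rfl, ((C • Wt (algebraMap A K e)).exists_isMinimal A).choose_spec⟩
    refine ⟨T * C, ?_, ?_⟩
    · rw [mul_smul]
      exact hT
    · rw [mul_smul]
      exact hTm
  obtain ⟨hΔ, hu⟩ := tc1_good A K h3 e he T hTm
  have hgood : WeierstrassCurve.HasGoodReduction A ((C • Wt (algebraMap A K e)).minimal A) :=
    ⟨by rw [hT]; exact hΔ⟩
  have hI : T • Wt (algebraMap A K e) =
      (WeierstrassCurve.integralModel A ((C • Wt (algebraMap A K e)).minimal A)).map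
      (algebraMap A K) := by
    rw [← hT]
    exact (WeierstrassCurve.baseChange_integralModel_eq A
      ((C • Wt (algebraMap A K e)).minimal A)).symm
  obtain ⟨D, hD⟩ := tc1_lift A K h3 e T _ hI hu
  have hred : ((C • Wt (algebraMap A K e)).minimal A).reduction A =
      (D.map (IsLocalRing.residue A)) • Wt (IsLocalRing.residue A e) := by
    rw [WeierstrassCurve.reduction, ← hD, ← WeierstrassCurve.map_variableChange, tc1_map]
  have h3κ : (3 : IsLocalRing.ResidueField A) ≠ 0 := by
    have : IsUnit (3 : IsLocalRing.ResidueField A) := by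
      have h := h3.map (IsLocalRing.residue A)
      rwa [map_ofNat] at h
    exact this.ne_zero
  have heκ : (4 * IsLocalRing.residue A e + 1) ≠ 0 := by
    have : IsUnit (4 * IsLocalRing.residue A e + 1) := by
      have h := he.map (IsLocalRing.residue A)
      rwa [map_add, map_mul, map_ofNat, map_one] at h
    exact this.ne_zero
  have hΔκ : (Wt (IsLocalRing.residue A e)).Δ ≠ 0 := by
    rw [tc1_Δ]
    have : (-27 : IsLocalRing.ResidueField A) = -(3 ^ 3) := by norm_num
    rw [this]
    exact mul_ne_zero (neg_ne_zero.2 (pow_ne_zero _ h3κ)) (pow_ne_zero _ heκ)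
  have hcard1 : Nat.card (((C • Wt (algebraMap A K e)).minimal A).reduction A).toAffine.Point =
      Nat.card (Wt (IsLocalRing.residue A e)).toAffine.Point := by
    rw [hred]
    exact c1_card_variableChange _ _ hΔκ
  unfold WeierstrassCurve.localPolynomial
  rw [if_pos hgood, hcard1]

/-- `localPoly_twist_bad` (T/TC2.lean) for any curve isomorphic to `Wt e` -/
theorem localPoly_twist_bad' (A : Type) [CommRing A] [IsDomain A] [IsDiscreteValuationRing A]
    (K : Type) [Field K] [Algebra A K] [IsFractionRing A K] (e : A) (ϖ u : A)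
    (hϖ : Irreducible ϖ) (hu : IsUnit u) (h : 27 * (4 * e + 1) ^ 2 = u * ϖ ^ 6)
    (C : WeierstrassCurve.VariableChange K) :
    (C • Wt (algebraMap A K e)).localPolynomial A = 1 := by
  obtain ⟨T, hT⟩ : ∃ T : WeierstrassCurve.VariableChange K,
      (C • Wt (algebraMap A K e)).minimal A = T • (Wt (algebraMap A K e)) := by
    obtain ⟨T, hT⟩ : ∃ T : WeierstrassCurve.VariableChange K,
      (C • Wt (algebraMap A K e)).minimal A = T • (C • Wt (algebraMap A K e)) := ⟨_, rfl⟩
    exact ⟨T * C, by rw [mul_smul]; exact hT⟩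
  have hΔ0 : (Wt (algebraMap A K e)).Δ = -(algebraMap A K u * algebraMap A K ϖ ^ 6) := by
    have h1 : (Wt (algebraMap A K e)).Δ = -(27 * (4 * algebraMap A K e + 1) ^ 2) := by
      simp only [Wt, WeierstrassCurve.Δ, WeierstrassCurve.b₂, WeierstrassCurve.b₄,
        WeierstrassCurve.b₆, WeierstrassCurve.b₈]
      ring
    have h2 := congrArg (algebraMap A K) h
    rw [map_mul, map_pow, map_add, map_mul, map_mul, map_pow, map_one, map_ofNat,
      map_ofNat] at h2
    rw [h1, h2]
  have hc0 : (Wt (algebraMap A K e)).c₄ = 0 := by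
    simp [Wt, WeierstrassCurve.c₄, WeierstrassCurve.b₂, WeierstrassCurve.b₄]
  have hΔ : ((C • Wt (algebraMap A K e)).minimal A).Δ =
      (T.u⁻¹ : Kˣ) ^ 12 * (-(algebraMap A K u * algebraMap A K ϖ ^ 6)) := by
    rw [hT, WeierstrassCurve.variableChange_Δ, hΔ0]
  have hc4 : ((C • Wt (algebraMap A K e)).minimal A).c₄ = 0 := by
    rw [hT, WeierstrassCurve.variableChange_c₄, hc0, mul_zero]
  have hmult : ¬ ((C • Wt (algebraMap A K e)).minimal A).HasMultiplicativeReduction A := by
    intro h
    have h1 := h.multiplicativeReduction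
    rw [hc4, map_zero] at h1
    exact zero_ne_one h1
  have hgood : ¬ ((C • Wt (algebraMap A K e)).minimal A).HasGoodReduction A := by
    intro h
    have h1 := h.goodReduction
    rw [hΔ] at h1
    have hm : (IsDiscreteValuationRing.maximalIdeal A).asIdeal = Ideal.span {ϖ} :=
      (IsDiscreteValuationRing.irreducible_iff_uniformizer ϖ).1 hϖ
    have h2 : (IsDiscreteValuationRing.maximalIdeal A).valuation K (algebraMap A K ϖ)
        = WithZero.exp (-1 : ℤ) := by
      have h4 := HeightOneSpectrum.valuation_of_algebraMap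
        (K := K) (IsDiscreteValuationRing.maximalIdeal A) ϖ
      rw [HeightOneSpectrum.intValuation_singleton _ hϖ.ne_zero hm] at h4
      exact h4
    have h3 : (IsDiscreteValuationRing.maximalIdeal A).valuation K (algebraMap A K u) = 1 := by
      rw [HeightOneSpectrum.valuation_of_algebraMap]
      rw [HeightOneSpectrum.intValuation_eq_one_iff]
      intro hmem
      exact (IsLocalRing.mem_maximalIdeal u).1 hmem hu
    rw [map_mul, map_pow, Valuation.map_neg, map_mul, map_pow, h2, h3, one_mul] at h1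
    have hu : (IsDiscreteValuationRing.maximalIdeal A).valuation K ((T.u⁻¹ : Kˣ) : K) ≠ 0 := by
      rw [Valuation.ne_zero_iff]
      exact Units.ne_zero _
    have h6 := congrArg WithZero.log h1
    rw [WithZero.log_mul (pow_ne_zero _ hu) (pow_ne_zero _ (by simp)), WithZero.log_pow,
      WithZero.log_pow, WithZero.log_exp, WithZero.log_one] at h6
    simp only [nsmul_eq_mul, Nat.cast_ofNat] at h6
    omega
  unfold WeierstrassCurve.localPolynomial
  rw [if_neg hgood, if_neg (fun h => hmult h.toHasMultiplicativeReduction), if_neg hmult]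

end CMT
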