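import Pool.Agent.MP_9ab903_nt.CF3.K3
import Pool.Agent.MP_9ab903_nt.CF3.W1
import Pool.Agent.MP_9ab903_nt.CF.J0
import Pool.Agent.MP_dfae13_nt.T.TC3

set_option autoImplicit false

open IsDedekindDomain NumberField
open CM27 CMT
open scoped Classical

namespace CF

/-! ## [CF3-K4] the Tamagawa numbers of the twist `y² + y = x³ + e`, `4 e + 1 = d³`
(file CF3/K4.lean; uses K3, W1) -/

theorem k4_cubic {R : Type*} [CommRing R] (e x : R) :
    SBSD.cubic (Wt e) x = 4 * x ^ 3 + (4 * e + 1) := by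
  simp only [SBSD.cubic, Wt, WeierstrassCurve.b₂, WeierstrassCurve.b₄, WeierstrassCurve.b₆]
  ring

theorem k4_c₄ {R : Type*} [CommRing R] (e : R) : (Wt e).c₄ = 0 := by
  simp only [Wt, WeierstrassCurve.c₄, WeierstrassCurve.b₂, WeierstrassCurve.b₄]
  ring

section
variable (A : Type) [CommRing A] [IsDomain A] [IsDiscreteValuationRing A]
  {K : Type} [Field K] [Algebra A K] [IsFractionRing A K]

theorem k4_lt_one (a : A) (ha : a ∈ IsLocalRing.maximalIdeal A) :
    vl A (algebraMap A K a) < 1 := by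
  rw [HeightOneSpectrum.valuation_lt_one_iff_mem]
  exact ha

theorem k4_le_one_iff (x : K) : vl A x ≤ 1 ↔ ∃ a : A, algebraMap A K a = x := by
  constructor
  · intro h
    exact IsDiscreteValuationRing.exists_lift_of_le_one h
  · rintro ⟨a, rfl⟩
    exact HeightOneSpectrum.valuation_le_one _ _

/-- a lower bound for `4 t³ + 1` gives one for the cubic -/
theorem k4_bound (h2 : IsUnit (2 : A)) (d e : K) (hd : d ≠ 0)
    (he : 4 * e + 1 = d ^ 3) (δ : WithZero (Multiplicative ℤ)) (hδ1 : δ ≤ 1)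
    (hA : ∀ a : A, δ ≤ vl A (algebraMap A K (4 * a ^ 3 + 1))) (x : K) :
    δ * vl A d ^ 3 ≤ vl A (SBSD.cubic (Wt e) x) := by
  obtain ⟨t, ht⟩ : ∃ t : K, x = d * t := ⟨x / d, by field_simp⟩
  have e1 : SBSD.cubic (Wt e) x = (4 * t ^ 3 + 1) * d ^ 3 := by
    rw [k4_cubic, he, ht]; ring
  rw [e1, map_mul, map_pow]
  refine mul_le_mul_left ?_ _
  rcases le_or_gt (vl A t) 1 with h | h
  · obtain ⟨a, rfl⟩ := (k4_le_one_iff A t).1 h
    have := hA a
    simpa only [map_add, map_mul, map_pow, map_one, map_ofNat] using this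
  · have h4 : vl A (4 : K) = 1 := by
      have h5 := val_algebraMap_unit (K := K) A (4 : A)
        (by have := h2.mul h2; norm_num at this; exact this)
      rwa [map_ofNat] at h5
    have h6 : vl A (1 : K) < vl A (4 * t ^ 3) := by
      rw [map_one, map_mul, h4, one_mul, map_pow]
      exact one_lt_pow₀ h (by norm_num)
    rw [Valuation.map_add_eq_of_lt_left _ h6]
    refine hδ1.trans ?_
    rw [← map_one (vl A (K := K))]
    exact h6.le

/-- `cubic (Wt e) x = 4 x³ + d³`, `ε = |3| |d|³`. If `|x| ≠ |d|` clear (`4` is a unit). `x = d t`, `t` a unit of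
`A`: `4 t³ + 1 = (t³ + 1) + 3 t³` is a unit if `t³ + 1` is; otherwise `(t + 1)³ ≡ 0 mod 3`, so
`s = t + 1` is in the maximal ideal, `4 t³ + 1 = - 3 + 12 s (1 - s) + 4 s³` and `|3| ≠ |s|³` as `3 ∤ k`. -/
theorem bound_three (k : ℕ) (hk : ¬ 3 ∣ k) (ϖ u : A) (hϖ : Irreducible ϖ) (hu : IsUnit u)
    (h : (3 : A) = u * ϖ ^ k) (hk0 : k ≠ 0) (h2 : IsUnit (2 : A)) (d e : K) (hd : d ≠ 0)
    (he : 4 * e + 1 = d ^ 3) :
    ∃ ε : WithZero (Multiplicative ℤ), ε ≠ 0 ∧ ∀ x : K, ε ≤ vl A (SBSD.cubic (Wt e) x) := by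
  have h3 : vl A (algebraMap A K 3) = WithZero.exp (-(k : ℤ)) := by
    rw [h, map_mul, map_mul, val_algebraMap_unit A u hu, one_mul, map_pow, map_pow,
      val_irreducible A ϖ hϖ, ← WithZero.exp_nsmul]
    simp
  have h30 : vl A (algebraMap A K 3) ≠ 0 := by rw [h3]; simp
  have h31 : vl A (algebraMap A K 3) ≤ 1 := HeightOneSpectrum.valuation_le_one _ _
  have h3m : (3 : A) ∈ IsLocalRing.maximalIdeal A := by
    rw [h]
    exact Ideal.mul_mem_left _ _ (Ideal.pow_mem_of_mem _
      ((IsLocalRing.mem_maximalIdeal _).2 hϖ.not_isUnit) k (Nat.pos_of_ne_zero hk0))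
  refine ⟨vl A (algebraMap A K 3) * vl A d ^ 3, mul_ne_zero h30
    (pow_ne_zero _ ((Valuation.ne_zero_iff _).2 hd)), fun x =>
    k4_bound A h2 d e hd he _ h31 ?_ x⟩
  intro a
  by_cases hm : 4 * a ^ 3 + 1 ∈ IsLocalRing.maximalIdeal A
  swap
  · rw [val_algebraMap_unit A (4 * a ^ 3 + 1) (by
      by_contra hcon
      exact hm ((IsLocalRing.mem_maximalIdeal _).2 hcon))]
    exact h31
  set s : A := a + 1 with hs
  have hsm : s ∈ IsLocalRing.maximalIdeal A := by
    have h5 : s ^ 3 ∈ IsLocalRing.maximalIdeal A := by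
      have e1 : s ^ 3 = (4 * a ^ 3 + 1) + 3 * (a ^ 2 + a - a ^ 3) := by rw [hs]; ring
      rw [e1]
      exact Ideal.add_mem _ hm (Ideal.mul_mem_right _ _ h3m)
    exact (IsLocalRing.maximalIdeal.isMaximal A).isPrime.mem_of_pow_mem 3 h5
  have e2 : 4 * a ^ 3 + 1 = 3 * (-1 + 4 * s * (1 - s)) + 4 * s ^ 3 := by rw [hs]; ring
  have hun : IsUnit (-1 + 4 * s * (1 - s)) := by
    by_contra hcon
    have h5 : (-1 + 4 * s * (1 - s)) ∈ IsLocalRing.maximalIdeal A :=
      (IsLocalRing.mem_maximalIdeal _).2 hcon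
    have h6 : (1 : A) ∈ IsLocalRing.maximalIdeal A := by
      have e3 : (1 : A) = s * (4 * (1 - s)) - (-1 + 4 * s * (1 - s)) := by ring
      rw [e3]
      exact Ideal.sub_mem _ (Ideal.mul_mem_right _ _ hsm) h5
    exact (Ideal.ne_top_iff_one _).1 (IsLocalRing.maximalIdeal.isMaximal A).ne_top h6
  have h4u : IsUnit (4 : A) := by have := h2.mul h2; norm_num at this; exact this
  have v1 : vl A (algebraMap A K (3 * (-1 + 4 * s * (1 - s)))) = vl A (algebraMap A K 3) := by
    rw [map_mul, map_mul, val_algebraMap_unit A _ hun, mul_one]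
  have v2 : vl A (algebraMap A K (4 * s ^ 3)) = vl A (algebraMap A K s) ^ 3 := by
    rw [map_mul, map_mul, val_algebraMap_unit A _ h4u, one_mul, map_pow, map_pow]
  have hne : vl A (algebraMap A K (3 * (-1 + 4 * s * (1 - s)))) ≠
      vl A (algebraMap A K (4 * s ^ 3)) := by
    rw [v1, v2, h3]
    intro heq
    by_cases hs0 : vl A (algebraMap A K s) = 0
    · rw [hs0] at heq
      simp at heq
    · have h7 := congrArg WithZero.log heq
      rw [WithZero.log_exp, WithZero.log_pow] at h7
      apply hk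
      simp only [nsmul_eq_mul, Nat.cast_ofNat] at h7
      omega
  rw [e2, map_add, Valuation.map_add_of_distinct_val _ hne, v1]
  exact le_max_left _ _

/-- `ε = |d|³`: if `x = d t`, `t` a unit and `4 t³ + 1` is not a unit then `(- 2 t)³ - 2` is not a unit. -/
theorem bound_bad (h6 : IsUnit (6 : A)) (hc : ∀ x : A, x ^ 3 - 2 ∉ IsLocalRing.maximalIdeal A)
    (d e : K) (hd : d ≠ 0) (he : 4 * e + 1 = d ^ 3) :
    ∃ ε : WithZero (Multiplicative ℤ), ε ≠ 0 ∧ ∀ x : K, ε ≤ vl A (SBSD.cubic (Wt e) x) := by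
  have h2 : IsUnit (2 : A) := by
    have : (6 : A) = 2 * 3 := by norm_num
    rw [this] at h6
    exact isUnit_of_mul_isUnit_left h6
  refine ⟨1 * vl A d ^ 3, mul_ne_zero one_ne_zero
    (pow_ne_zero _ ((Valuation.ne_zero_iff _).2 hd)), fun x =>
    k4_bound A h2 d e hd he 1 le_rfl ?_ x⟩
  intro a
  rw [val_algebraMap_unit A (4 * a ^ 3 + 1) (by
      by_contra hcon
      have h1 : 4 * a ^ 3 + 1 ∈ IsLocalRing.maximalIdeal A := (IsLocalRing.mem_maximalIdeal _).2 hcon
      apply hc (-2 * a)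
      have e1 : (-2 * a) ^ 3 - 2 = -2 * (4 * a ^ 3 + 1) := by ring
      rw [e1]
      exact Ideal.mul_mem_left _ _ h1)]

/-- unit discriminant -/
theorem k4_unit (h3 : IsUnit (3 : A)) (d : A) (hd : IsUnit d) (e : A)
    (he : 4 * e + 1 = d ^ 3) (W : WeierstrassCurve K) (C : WeierstrassCurve.VariableChange K)
    (hC : C • W = Wt (algebraMap A K e)) : SBSD.tamagawa A W = 1 := by
  apply tamagawa_of_unit A W C
  · rw [hC]
    exact Wt_integral A (K := K) e
  · rw [hC, Wt_Δ]
    have e1 : -27 * (1 + 4 * algebraMap A K e) ^ 2 = algebraMap A K (-(3 ^ 3 * (d ^ 3) ^ 2)) := by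
      rw [← he]
      simp only [map_neg, map_mul, map_pow, map_add, map_one, map_ofNat]
      ring
    rw [e1, val_algebraMap_unit A _ ((h3.pow 3).mul ((hd.pow 3).pow 2)).neg]

end

section
variable (F : Type) [Field F] [NumberField F] (v : HeightOneSpectrum (𝓞 F))

theorem k4_baseChange (e : F) : (Wt e).baseChange (v.adicCompletion F) =
    Wt (algebraMap F (v.adicCompletion F) e) := by
  unfold WeierstrassCurve.baseChange WeierstrassCurve.map Wt
  simp

theorem k4_val (x : F) : Valued.v (algebraMap F (v.adicCompletion F) x) = v.valuation F x :=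
  HeightOneSpectrum.valuedAdicCompletion_eq_valuation' v x

theorem k4_res (x : 𝓞 F) : algebraMap (v.adicCompletionIntegers F) (v.adicCompletion F)
    (algebraMap (𝓞 F) (v.adicCompletionIntegers F) x) =
      algebraMap F (v.adicCompletion F) (x : F) := rfl

end

/-- Sketch: `finprod_induction`. Above `2`: `Wt e` is integral with the unit discriminant `-27 d⁶`
(`tamagawa_of_unit`). Above `3`: `bound_three`, `tamagawa_odd`. Otherwise, if `v(d)` is even,
`d = c² d'` with `c ∈ F`, `d'` a unit at `v`: `Wt_scale`, `tamagawa_of_unit`; if `v(d)` is odd: `hbad`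
(the residue field of the completion is `𝓞 F / v`, `card_residue`), `bound_bad`, `tamagawa_odd`. -/
theorem tam_odd_tw (F : Type) [Field F] [NumberField F]
    (h3 : ∀ v : HeightOneSpectrum (𝓞 F), (3 : 𝓞 F) ∈ v.asIdeal →
      ∃ (k : ℕ) (ϖ u : v.adicCompletionIntegers F), ¬ 3 ∣ k ∧ Irreducible ϖ ∧ IsUnit u ∧
        (3 : v.adicCompletionIntegers F) = u * ϖ ^ k)
    (d : 𝓞 F) (hd : d ≠ 0) (h4 : (4 : 𝓞 F) ∣ d - 1) (e : F) (he : 4 * e + 1 = (d : F) ^ 3)
    (hbad : ∀ v : HeightOneSpectrum (𝓞 F), (3 : 𝓞 F) ∉ v.asIdeal →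
      ¬ IsSquare (v.valuation F (d : F)) → ∀ x : 𝓞 F, x ^ 3 - 2 ∉ v.asIdeal) :
    Odd (∏ᶠ v : HeightOneSpectrum (𝓞 F), SBSD.tam (Wt e) v) := by
  refine finprod_induction Odd odd_one (fun _ _ hx hy => hx.mul hy) fun v => ?_
  unfold SBSD.tam
  rw [k4_baseChange]
  have := (card_residue F v).2
  have := henselian_completion F v
  have hinj : Function.Injective (algebraMap F (v.adicCompletion F)) := RingHom.injective _
  have hd' : algebraMap F (v.adicCompletion F) (d : F) ≠ 0 := by
    rw [Ne, map_eq_zero]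
    exact fun h => hd (RingOfIntegers.coe_injective (h.trans (map_zero _).symm))
  have he' : 4 * algebraMap F (v.adicCompletion F) e + 1 =
      (algebraMap F (v.adicCompletion F) (d : F)) ^ 3 := by
    rw [← map_pow, ← he, map_add, map_mul, map_one, map_ofNat]
  have hprime : v.asIdeal.IsPrime := v.isPrime
  have hone : (1 : 𝓞 F) ∉ v.asIdeal := (Ideal.ne_top_iff_one _).1 hprime.ne_top
  by_cases hv2 : (2 : 𝓞 F) ∈ v.asIdeal
  · -- above `2`
    obtain ⟨c, hc⟩ := h4
    have hv3 : (3 : 𝓞 F) ∉ v.asIdeal := fun h => hone (by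
      have : (1 : 𝓞 F) = 3 - 2 := by norm_num
      rw [this]; exact Ideal.sub_mem _ h hv2)
    have hvd : d ∉ v.asIdeal := fun h => hone (by
      have : (1 : 𝓞 F) = d - 2 * (2 * c) := by linear_combination -hc
      rw [this]; exact Ideal.sub_mem _ h (Ideal.mul_mem_right _ _ hv2))
    have hd1 : d = 1 + 4 * c := by linear_combination hc
    obtain ⟨e₀, he₀⟩ : ∃ e₀ : 𝓞 F, (e₀ : F) = e := by
      refine ⟨3 * c + 12 * c ^ 2 + 16 * c ^ 3, ?_⟩
      have h5 : (4 : F) ≠ 0 := by norm_num
      apply mul_left_cancel₀ h5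
      rw [hd1] at he
      simp only [map_add, map_mul, map_pow, map_one, map_ofNat] at he ⊢
      linear_combination -he
    have he1 : 4 * e₀ + 1 = d ^ 3 := by
      apply RingOfIntegers.coe_injective
      simp only [map_add, map_mul, map_pow, map_one, map_ofNat]
      have h5 := he
      rw [← he₀] at h5
      exact h5
    rw [k4_unit (v.adicCompletionIntegers F) (K := v.adicCompletion F)
      (by have := isUnit_completion F v 3 (by exact_mod_cast hv3); exact_mod_cast this)
      (algebraMap (𝓞 F) (v.adicCompletionIntegers F) d) (isUnit_completion' F v d hvd)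
      (algebraMap (𝓞 F) (v.adicCompletionIntegers F) e₀)
      (by rw [← map_pow, ← he1, map_add, map_mul, map_one, map_ofNat]) _ 1
      (by rw [one_smul, k4_res, he₀])]
    exact odd_one
  have h2u : IsUnit (2 : v.adicCompletionIntegers F) := by
    have := isUnit_completion F v 2 (by exact_mod_cast hv2)
    exact_mod_cast this
  by_cases hv3 : (3 : 𝓞 F) ∈ v.asIdeal
  · -- above `3`
    obtain ⟨k, ϖ, u, hk, hϖ, hu, h3'⟩ := h3 v hv3
    have hk0 : k ≠ 0 := by
      rintro rfl
      exact hk (dvd_zero 3)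
    obtain ⟨ε, hε, hb⟩ := bound_three (v.adicCompletionIntegers F) (K := v.adicCompletion F) k hk ϖ u
      hϖ hu h3' hk0 h2u _ _ hd' he'
    exact tamagawa_odd (v.adicCompletionIntegers F) h2u _ (k4_c₄ _) ε hε hb
  have h3u : IsUnit (3 : v.adicCompletionIntegers F) := by
    have := isUnit_completion F v 3 (by exact_mod_cast hv3)
    exact_mod_cast this
  by_cases hsq : IsSquare (v.valuation F (d : F))
  · -- even valuation
    obtain ⟨γ, hγ⟩ := hsq
    obtain ⟨c, hc⟩ := v.valuation_surjective F γ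
    have hdF : (d : F) ≠ 0 := fun h => hd' (by rw [h, map_zero])
    have hc0 : c ≠ 0 := by
      rintro rfl
      rw [map_zero] at hc
      rw [← hc, mul_zero] at hγ
      exact hdF ((Valuation.zero_iff _).1 hγ)
    have hvc : v.valuation F c ≠ 0 := (Valuation.ne_zero_iff _).2 hc0
    set d₁ : F := (d : F) / c ^ 2 with hd₁
    have hd₁' : (d : F) = c ^ 2 * d₁ := by rw [hd₁]; field_simp
    have hvd₁ : v.valuation F d₁ = 1 := by
      rw [hd₁, map_div₀, map_pow, hγ, hc, sq]
      exact div_self (mul_ne_zero (hc ▸ hvc) (hc ▸ hvc))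
    have hmem : algebraMap F (v.adicCompletion F) d₁ ∈ v.adicCompletionIntegers F := by
      rw [HeightOneSpectrum.mem_adicCompletionIntegers, k4_val, hvd₁]
    set D₁ : v.adicCompletionIntegers F := ⟨algebraMap F (v.adicCompletion F) d₁, hmem⟩ with hD₁
    have hD₁u : IsUnit D₁ := by
      rw [HeightOneSpectrum.adicCompletionIntegers.isUnit_iff_valued_eq_one]
      show Valued.v (algebraMap F (v.adicCompletion F) d₁) = 1
      rw [k4_val, hvd₁]
    have h4u : IsUnit (4 : v.adicCompletionIntegers F) := by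
      have := h2u.mul h2u; norm_num at this; exact this
    obtain ⟨q, hq⟩ := h4u
    set e₁ : v.adicCompletionIntegers F := ((q⁻¹ : (v.adicCompletionIntegers F)ˣ) :
      v.adicCompletionIntegers F) * (D₁ ^ 3 - 1) with he₁
    have he₁' : 4 * e₁ + 1 = D₁ ^ 3 := by
      rw [he₁, ← hq, ← mul_assoc, Units.mul_inv]
      ring
    have h2K : (2 : v.adicCompletion F) ≠ 0 := by
      have : (2 : F) ≠ 0 := by norm_num
      rw [← map_ofNat (algebraMap F (v.adicCompletion F)) 2]
      exact fun h => this (hinj (by rw [h, map_zero]))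
    obtain ⟨C, hC⟩ := Wt_scale (v.adicCompletion F) h2K (algebraMap F (v.adicCompletion F) c)
      (algebraMap F (v.adicCompletion F) (d : F)) (algebraMap F (v.adicCompletion F) d₁)
      (algebraMap F (v.adicCompletion F) e)
      (algebraMap (v.adicCompletionIntegers F) (v.adicCompletion F) e₁)
      (by rw [Ne, map_eq_zero]; exact hc0) he'
      (by
        have h5 := congrArg (algebraMap (v.adicCompletionIntegers F) (v.adicCompletion F)) he₁'
        rw [map_add, map_mul, map_one, map_ofNat, map_pow] at h5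
        exact h5)
      (by rw [hd₁', map_mul, map_pow])
    rw [k4_unit (v.adicCompletionIntegers F) (K := v.adicCompletion F) h3u D₁ hD₁u e₁ he₁' _ C⁻¹
      (by rw [hC, inv_smul_smul])]
    exact odd_one
  · -- odd valuation
    have h6u : IsUnit (6 : v.adicCompletionIntegers F) := by
      have := h2u.mul h3u; norm_num at this; exact this
    obtain ⟨ε, hε, hb⟩ := bound_bad (v.adicCompletionIntegers F) (K := v.adicCompletion F) h6u
      (by
        intro x hx
        obtain ⟨r, hr⟩ := (residue_completion F v).1 (IsLocalRing.residue _ x)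
        apply hbad v hv3 hsq r
        rw [← (residue_completion F v).2, RingHom.mem_ker, map_sub, map_pow, hr, map_ofNat,
          ← map_pow, ← map_ofNat (IsLocalRing.residue (v.adicCompletionIntegers F)) 2, ← map_sub,
          IsLocalRing.residue_eq_zero_iff]
        exact hx)
      _ _ hd' he'
    exact tamagawa_odd (v.adicCompletionIntegers F) h2u _ (k4_c₄ _) ε hε hb

end CF
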