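import Pool.Agent.MP_9ab903_nt.CF3.K0
import Pool.Agent.MP_9ab903_nt.CF.J0
import Pool.Agent.MP_dfae13_nt.T.J6

set_option autoImplicit false

open IsDedekindDomain NumberField
open CM27 CMT
open scoped Classical

namespace CF

/-! ## [CF3-K5] Néron factors and archimedean periods of the twist (file CF3/K5.lean) -/

theorem k5_absNorm (F : Type) [Field F] [NumberField F] (v : HeightOneSpectrum (𝓞 F))
    (hv : (2 : 𝓞 F) ∉ v.asIdeal) : Odd (Ideal.absNorm v.asIdeal) := by
  obtain ⟨p, n, hp, hn, hpn⟩ : ∃ (p n : ℕ), p.Prime ∧ 0 < n ∧ p ^ n = Nat.card (𝓞 F ⧸ v.asIdeal) := by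
    have hfin : Finite (𝓞 F ⧸ v.asIdeal) := Ideal.finiteQuotientOfFreeOfNeBot v.asIdeal v.ne_bot
    have hmax : v.asIdeal.IsMaximal := v.isMaximal
    let : Field (𝓞 F ⧸ v.asIdeal) := Ideal.Quotient.field _
    obtain ⟨p, hpc⟩ := CharP.exists (𝓞 F ⧸ v.asIdeal)
    let := Fintype.ofFinite (𝓞 F ⧸ v.asIdeal)
    obtain ⟨n, hp, hn⟩ := FiniteField.card (𝓞 F ⧸ v.asIdeal) p
    exact ⟨p, n, hp, n.pos, by rw [Nat.card_eq_fintype_card, hn]⟩
  have h1 : Ideal.absNorm v.asIdeal = p ^ n := by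
    rw [Ideal.absNorm_apply, Submodule.cardQuot_apply]
    exact hpn.symm
  rw [h1]
  refine Odd.pow (hp.odd_of_ne_two ?_)
  rintro rfl
  apply hv
  have h2 : ((Ideal.absNorm v.asIdeal : ℕ) : 𝓞 F) ∈ v.asIdeal := Ideal.absNorm_mem _
  rw [h1] at h2
  push_cast at h2
  exact v.isPrime.mem_of_pow_mem _ h2

/-- above `2` -/
theorem k5_neron_two (F : Type) [Field F] [NumberField F] (d : 𝓞 F)
    (h4 : (4 : 𝓞 F) ∣ d - 1) (e : F) (he : 4 * e + 1 = (d : F) ^ 3) (v : HeightOneSpectrum (𝓞 F))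
    (hv : (2 : 𝓞 F) ∈ v.asIdeal) : SBSD.neron (Wt e) v = 1 := by
  obtain ⟨f, hf⟩ := h4
  have hdf : d = 4 * f + 1 := by linear_combination hf
  obtain ⟨e₀, he₀⟩ : ∃ e₀ : 𝓞 F, e₀ = 16 * f ^ 3 + 12 * f ^ 2 + 3 * f := ⟨_, rfl⟩
  have he1 : 1 + 4 * e₀ = d ^ 3 := by rw [he₀, hdf]; ring
  have hee : e = (e₀ : F) := by
    have h1 : 1 + 4 * (e₀ : F) = (d : F) ^ 3 := by
      have h0 := congrArg (algebraMap (𝓞 F) F) he1
      rw [map_add, map_mul, map_one, map_ofNat, map_pow] at h0
      exact h0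
    have h2 : (4 : F) * (e - e₀) = 0 := by linear_combination he - h1
    rcases mul_eq_zero.1 h2 with h | h
    · norm_num at h
    · exact sub_eq_zero.1 h
  have hdv : d ∉ v.asIdeal := by
    intro h
    apply v.isPrime.ne_top
    rw [Ideal.eq_top_iff_one]
    have h1 : (1 : 𝓞 F) = d - 2 * (2 * f) := by rw [hdf]; ring
    rw [h1]
    exact v.asIdeal.sub_mem h (Ideal.mul_mem_right _ _ hv)
  have h3v : (3 : 𝓞 F) ∉ v.asIdeal := by
    intro h
    apply v.isPrime.ne_top
    rw [Ideal.eq_top_iff_one]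
    have h1 : (1 : 𝓞 F) = 3 - 2 := by norm_num
    rw [h1]
    exact v.asIdeal.sub_mem h hv
  have hu3 : IsUnit (3 : v.adicCompletionIntegers F) := by
    have := CMT.isUnit_completion' F v 3 h3v
    rwa [map_ofNat] at this
  have hud : IsUnit (1 + 4 * algebraMap (𝓞 F) (v.adicCompletionIntegers F) e₀) := by
    have h1 := (CMT.isUnit_completion' F v d hdv).pow 3
    rw [← map_pow, ← he1, map_add, map_mul, map_one, map_ofNat] at h1
    exact h1
  have hbase : (Wt e).baseChange (v.adicCompletion F) =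
      Wt (algebraMap (v.adicCompletionIntegers F) (v.adicCompletion F)
        (algebraMap (𝓞 F) (v.adicCompletionIntegers F) e₀)) := by
    rw [hee]
    exact tc1_map _ _
  have hu : (IsDiscreteValuationRing.maximalIdeal (v.adicCompletionIntegers F)).valuation
      (v.adicCompletion F) (((((Wt e).baseChange (v.adicCompletion F)).exists_isMinimal
        (v.adicCompletionIntegers F)).choose.u : (v.adicCompletion F)ˣ) : v.adicCompletion F)
        = 1 := by
    have hmin := (((Wt e).baseChange (v.adicCompletion F)).exists_isMinimal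
        (v.adicCompletionIntegers F)).choose_spec
    generalize (((Wt e).baseChange (v.adicCompletion F)).exists_isMinimal
        (v.adicCompletionIntegers F)).choose = T at hmin ⊢
    rw [hbase] at hmin
    exact unit_good _ hu3 _ hud T hmin
  unfold SBSD.neron
  generalize (((((Wt e).baseChange (v.adicCompletion F)).exists_isMinimal
        (v.adicCompletionIntegers F)).choose.u : (v.adicCompletion F)ˣ) : v.adicCompletion F) = u
        at hu ⊢
  have hmem : u ∈ MonoidHom.mker ((IsDiscreteValuationRing.maximalIdeal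
      (v.adicCompletionIntegers F)).valuation (v.adicCompletion F)) := hu
  rw [IsDiscreteValuationRing.mker_valuation_eq_isUnitSubmonoid] at hmem
  obtain ⟨u₀, hu₀, rfl⟩ := hmem
  have hu₀' : IsUnit u₀ := hu₀
  rw [HeightOneSpectrum.adicCompletionIntegers.isUnit_iff_valued_eq_one] at hu₀'
  rw [inv_eq_one]
  have h1 : algebraMap (v.adicCompletionIntegers F) (v.adicCompletion F) u₀ =
      (u₀ : v.adicCompletion F) := rfl
  rw [h1, FinitePlace.norm_def, hu₀', map_one]
  rfl

/-- The Néron factor at `v` is an integral power of `N(v)` (odd if `v ∤ 2`), and it is `1` above `2`, where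
`Wt e` is integral with the unit discriminant `- 27 d⁶` (so `u` is a unit, compare `unit_of_lt` in T/J2 with
`k = 0`, or `j0_le` in CF/J0). Use `finprod_induction` as in `neron_unit` of CF/J0. -/
theorem neron_unit_tw (F : Type) [Field F] [NumberField F] (d : 𝓞 F) (hd : d ≠ 0)
    (h4 : (4 : 𝓞 F) ∣ d - 1) (e : F) (he : 4 * e + 1 = (d : F) ^ 3) :
    ∃ q : ℚ, 0 < q ∧ padicValRat 2 q = 0 ∧
      ∏ᶠ v : HeightOneSpectrum (𝓞 F), SBSD.neron (Wt e) v = (q : ℝ) := by
  refine finprod_induction (fun x : ℝ => ∃ q : ℚ, 0 < q ∧ padicValRat 2 q = 0 ∧ x = (q : ℝ))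
    ⟨1, one_pos, by simp, by simp⟩ ?_ fun v => ?_
  · rintro x y ⟨q, hq, hq2, rfl⟩ ⟨q', hq', hq2', rfl⟩
    refine ⟨q * q', mul_pos hq hq', ?_, by push_cast; ring⟩
    rw [padicValRat.mul hq.ne' hq'.ne', hq2, hq2']
    rfl
  by_cases hv : (2 : 𝓞 F) ∈ v.asIdeal
  · exact ⟨1, one_pos, by simp, by rw [k5_neron_two F d h4 e he v hv]; simp⟩
  · unfold SBSD.neron
    generalize ((((Wt e).baseChange (v.adicCompletion F)).exists_isMinimal
        (v.adicCompletionIntegers F)).choose.u : (v.adicCompletion F)ˣ) = x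
    have hx0 : (x : v.adicCompletion F) ≠ 0 := x.ne_zero
    have hvx : Valued.v (x : v.adicCompletion F) ≠ 0 := (Valuation.ne_zero_iff _).2 hx0
    have hodd := k5_absNorm F v hv
    refine ⟨((Ideal.absNorm v.asIdeal : ℚ) ^ (WithZero.unzero hvx).toAdd)⁻¹, ?_, ?_, ?_⟩
    · have h1 : (0 : ℚ) < Ideal.absNorm v.asIdeal := by exact_mod_cast hodd.pos
      positivity
    · rw [padicValRat.inv, padicValRat.zpow, padicValRat.of_nat,
        padicValNat.eq_zero_of_not_dvd (Nat.two_dvd_ne_zero.2 (Nat.odd_iff.1 hodd))]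
      simp
    · rw [FinitePlace.norm_def, WithZeroMulInt.toNNReal_neg_apply _ hvx]
      push_cast
      rfl

/-- `complexArea_Wt` (T/J6) at all places (all complex); `∏ |d|_v² = |N d|`
(`NumberField.InfinitePlace.prod_eq_abs_norm`). -/
theorem arch_tw (F : Type) [Field F] [NumberField F] (hw : ∃ om : F, om ^ 2 + om + 1 = 0)
    (d e : F) (hd : d ≠ 0) (he : 4 * e + 1 = d ^ 3) :
    ∏ v : InfinitePlace F, SBSD.archPeriod (Wt e) v =
      CM27.period F / √|((Algebra.norm ℚ d : ℚ) : ℝ)| := by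
  have hreal : ∀ v : InfinitePlace F, ¬ v.IsReal := by
    intro v hv
    obtain ⟨om, hom⟩ := hw
    have h1 : (InfinitePlace.embedding_of_isReal hv) om ^ 2 +
        (InfinitePlace.embedding_of_isReal hv) om + 1 = 0 := by
      rw [← map_pow, ← map_add, ← map_one (InfinitePlace.embedding_of_isReal hv), ← map_add, hom,
        map_zero]
    nlinarith [sq_nonneg (2 * (InfinitePlace.embedding_of_isReal hv) om + 1)]
  have harch : ∀ v : InfinitePlace F, SBSD.archPeriod (Wt e) v = OmCC / v d := by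
    intro v
    have h3 : v.embedding d ≠ 0 := by
      rwa [Ne, map_eq_zero]
    have h4 : 4 * v.embedding e + 1 = v.embedding d ^ 3 := by
      rw [← map_pow, ← he, map_add, map_mul, map_one, map_ofNat]
    unfold SBSD.archPeriod
    rw [dif_neg (hreal v), tc1_map, complexArea_Wt _ (v.embedding d) h3 h4,
      InfinitePlace.norm_embedding_eq]
  have hnorm : (∏ v : InfinitePlace F, v d) ^ 2 = |((Algebra.norm ℚ d : ℚ) : ℝ)| := by
    have h1 := InfinitePlace.prod_eq_abs_norm d
    rw [← Finset.prod_pow]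
    rw [Rat.cast_abs] at h1
    rw [← h1]
    refine Finset.prod_congr rfl fun v _ => ?_
    rw [InfinitePlace.mult, if_neg (hreal v)]
  have hpos : 0 ≤ ∏ v : InfinitePlace F, v d := Finset.prod_nonneg fun v _ => apply_nonneg v d
  rw [← hnorm, Real.sqrt_sq hpos, CM27.period, ← Finset.prod_div_distrib]
  refine Finset.prod_congr rfl fun v _ => ?_
  rw [harch v, if_neg (hreal v)]

end CF
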