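import Pool.Agent.MP_9ab903_nt.CF.SG
import Pool.Agent.MP_dfae13_nt.T.IDefs
import Pool.Agent.MP_dfae13_nt.T.I1
import Pool.Agent.MP_dfae13_nt.T.I2
import Pool.Agent.MP_dfae13_nt.T.I5
import Pool.Agent.MP_dfae13_nt.T.I6
import Pool.Agent.MP_dfae13_nt.T.I7

set_option autoImplicit false

open NumberField IsDedekindDomain
open CM27 CMT
open scoped Classical

namespace CF

/-! ## [CF3-SGT] the algebraic half for the quadratic twist `E_d : y² + y = x³ + e`, `4 e + 1 = d³`
over a field `F`, Galois of degree `2 ^ n` over `K = ℚ(ω)` (file CF3/SGT.lean, helper71) -/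

/-- The elements of `R F` which satisfy the conditions of a Selmer element outside `3`, the good
primes and the places with bad ramification. -/
structure GoodT {F : Type} [Field F] [NumberField F] [Fact (Irreducible (cubPoly F))]
    (z : R F) : Prop where
  ne : z ≠ 0
  norm : ∃ n : F, Algebra.norm F z = n ^ 2
  even : ∀ P : HeightOneSpectrum (𝓞 (R F)), (6 : 𝓞 (R F)) ∉ P.asIdeal →
    (∀ p : ℕ, GoodPrime p → (p : 𝓞 (R F)) ∉ P.asIdeal) → IsSquare (P.valuation (R F) z)
  two : ∀ v : HeightOneSpectrum (𝓞 F), (2 : 𝓞 F) ∈ v.asIdeal → (2 : 𝓞 F) ∉ v.asIdeal ^ 2 →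
    InU2 (v.valuation F) z

section

variable {F : Type} [Field F] [NumberField F] [Fact (Irreducible (cubPoly F))]

theorem GoodT.mul {z z' : R F} (h : GoodT z) (h' : GoodT z') : GoodT (z * z') := by
  refine ⟨mul_ne_zero h.ne h'.ne, ?_, ?_, ?_⟩
  · obtain ⟨n, hn⟩ := h.norm
    obtain ⟨n', hn'⟩ := h'.norm
    exact ⟨n * n', by rw [map_mul, hn, hn']; ring⟩
  · intro P hP hp
    rw [map_mul]
    exact (h.even P hP hp).mul (h'.even P hP hp)
  · intro v hv hv'
    exact InU2.mul (g_two_lt hv) (h.two v hv hv') (h'.two v hv hv')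

theorem GoodT.sq (t : R F) (ht : t ≠ 0) : GoodT (t ^ 2) := by
  refine ⟨pow_ne_zero 2 ht, ⟨Algebra.norm F t, map_pow _ _ _⟩, ?_, ?_⟩
  · intro P _ _
    rw [map_pow]
    exact IsSquare.sq _
  · intro v hv hv'
    exact InU2.sq _ t (isUnit_iff_ne_zero.2 ht)

theorem GoodT.inv {z : R F} (h : GoodT z) : GoodT z⁻¹ := by
  have h1 : z⁻¹ = z * (z⁻¹) ^ 2 := by
    have := h.ne
    field_simp
  rw [h1]
  exact h.mul (GoodT.sq _ (inv_ne_zero h.ne))

theorem GoodT.mapR {z : R F} (h : GoodT z) (σ : F ≃+* F) :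
    GoodT (CM27.mapR (σ : F →+* F) z) := by
  have hval : ∀ x, g_equiv σ x = CM27.mapR (σ : F →+* F) x := fun x => rfl
  refine ⟨?_, ?_, ?_, ?_⟩
  · rw [← hval]
    exact (map_ne_zero_iff _ (g_equiv σ).injective).2 h.ne
  · obtain ⟨n, hn⟩ := h.norm
    exact ⟨σ n, by rw [norm_mapR, hn]; simp⟩
  · intro P hP hp
    obtain ⟨P', hP1, hP2, -⟩ := exists_conj (R F) (g_equiv σ) P
    have h6 : (6 : 𝓞 (R F)) ∉ P'.asIdeal := by
      intro h6
      have h7 := (hP2 6).1 (by exact_mod_cast h6)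
      exact hP (by exact_mod_cast h7)
    rw [← hval, ← hP1]
    exact h.even P' h6 fun p hgp hpP => hp p hgp ((hP2 p).1 hpP)
  · intro v hv hv'
    obtain ⟨v', h1, h2, h3⟩ := exists_conj F σ v
    have h4 : (2 : 𝓞 F) ∈ v'.asIdeal := by
      have := (h2 2).2 (by exact_mod_cast hv)
      exact_mod_cast this
    have h5 : (2 : 𝓞 F) ∉ v'.asIdeal ^ 2 := by
      intro h5
      have := (h3 2).1 (by exact_mod_cast h5)
      exact hv' (by exact_mod_cast this)
    exact InU2.mapR (σ : F →+* F) h1 (h.two v' h4 h5)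

omit [Fact (Irreducible (cubPoly F))] [NumberField F] in
theorem locD_scale {D : F} {z : R F} {C : Type} [Field C] [Algebra F C] (h : LocD D z C) (c : F) :
    LocD (D * c ^ 2) z C := by
  rcases h with ⟨v, hv⟩ | ⟨x, m, v, hm, hv⟩
  · exact Or.inl ⟨v, hv⟩
  · set γ := algebraMap F C c with hγ
    refine Or.inr ⟨γ ^ 2 * x, γ ^ 3 * m, algebraMap C (R C) γ * v, ?_, ?_⟩
    · rw [map_mul, map_pow, ← hγ]
      linear_combination γ ^ 6 * hm
    · rw [mul_pow, ← hv, map_mul, map_pow, ← hγ]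
      simp only [trip, map_mul, map_pow, map_zero]
      ring

/-- The places of `F` below a place of `R F` and their valuations. -/
theorem goodT_below (P : HeightOneSpectrum (𝓞 (R F))) : ∃ v : HeightOneSpectrum (𝓞 F),
    (∀ n : ℕ, (n : 𝓞 F) ∈ v.asIdeal → (n : 𝓞 (R F)) ∈ P.asIdeal) ∧
    ∀ x : F, v.valuation F x = 1 → P.valuation (R F) (algebraMap F (R F) x) = 1 := by
  obtain ⟨v, hv, -⟩ := exists_below F (R F) P
  refine ⟨v, fun n hn => ?_, fun x hx => ?_⟩
  · rw [hv, Ideal.under_def, Ideal.mem_comap, map_natCast] at hn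
    exact hn
  · have hlie : P.asIdeal.LiesOver v.asIdeal := ⟨hv⟩
    have h1 := HeightOneSpectrum.valuation_liesOver (K := F) (R F) v P x
    rw [← h1, hx, one_pow]

theorem goodT_of_locD (om : F) (hom : om ^ 2 + om + 1 = 0) (d : 𝓞 F) (hd : d ≠ 0)
    (h4 : (4 : 𝓞 F) ∣ d - 1)
    (hev : ∀ v : HeightOneSpectrum (𝓞 F), (3 : 𝓞 F) ∉ v.asIdeal →
      (∀ p : ℕ, GoodPrime p → (p : 𝓞 F) ∉ v.asIdeal) → IsSquare (v.valuation F (d : F)))
    (z : R F) (hz : z ≠ 0) (hN : ∃ y : F, Algebra.norm F z = y ^ 2)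
    (hloc : ∀ v : HeightOneSpectrum (𝓞 F), LocD (d : F) z (v.adicCompletion F)) : GoodT z := by
  have hd0 : (d : F) ≠ 0 := RingOfIntegers.coe_ne_zero_iff.2 hd
  refine ⟨hz, hN, ?_, ?_⟩
  · intro P hP hp
    obtain ⟨v, hv1, hv2⟩ := goodT_below P
    have h3 : (3 : 𝓞 F) ∉ v.asIdeal := by
      intro h3
      have h5 := hv1 3 (by exact_mod_cast h3)
      apply hP
      have h6 : (6 : 𝓞 (R F)) = 2 * ((3 : ℕ) : 𝓞 (R F)) := by norm_num
      rw [h6]
      exact Ideal.mul_mem_left _ _ h5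
    obtain ⟨g, hg⟩ := hev v h3 (fun p hgp hpv => hp p hgp (hv1 p hpv))
    have hg0 : g ≠ 0 := by
      rintro rfl
      rw [mul_zero] at hg
      exact (Valuation.ne_zero_iff _).2 hd0 hg
    obtain ⟨π, hπ⟩ := v.valuation_exists_uniformizer F
    set c : F := π ^ (WithZero.log g) with hc
    have hπ0 : π ≠ 0 := by
      rintro rfl
      rw [map_zero] at hπ
      exact WithZero.exp_ne_zero hπ.symm
    have hcv : v.valuation F c * g = 1 := by
      rw [hc, map_zpow₀, hπ, ← WithZero.exp_zsmul]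
      conv_lhs => rw [← WithZero.exp_log hg0]
      rw [WithZero.log_exp, ← WithZero.exp_add]
      simp
    have h7 : v.valuation F ((d : F) * c ^ 2) = 1 := by
      rw [map_mul, map_pow, hg]
      generalize v.valuation F c = C at hcv
      calc g * g * C ^ 2 = (C * g) * (C * g) := by
            rw [pow_two, mul_mul_mul_comm, mul_comm g C]
        _ = 1 := by rw [hcv, mul_one]
    exact even_of_locD F om hom ((d : F) * c ^ 2) z hz hN (fun v' => locD_scale (hloc v') c) P hP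
      (hv2 _ h7)
  · intro v hv2 hv4
    refine inU2_of_locD F (d : F) z (isUnit_iff_ne_zero.2 hz) v hv2 hv4 ?_ (hloc v)
    obtain ⟨f, hf⟩ := h4
    have h5 : (d : F) - 1 = 2 ^ 2 * (f : F) := by
      have h6 := congrArg (algebraMap (𝓞 F) F) hf
      rw [map_sub, map_one, map_mul, map_ofNat] at h6
      change (d : F) - 1 = 4 * (f : F) at h6
      rw [h6]
      norm_num
    have hw2 : v.valuation F 2 ≤ WithZero.exp (-1) := v_lt_one_iff.1 (g_two_lt hv2)
    rw [h5, map_mul, map_pow]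
    calc v.valuation F 2 ^ 2 * v.valuation F (f : F)
        ≤ v.valuation F 2 ^ 2 * 1 := mul_le_mul_right (v.valuation_le_one f) _
      _ = v.valuation F 2 ^ 2 := mul_one _
      _ ≤ WithZero.exp (-1) ^ 2 := pow_le_pow_left₀ zero_le hw2 2
      _ = WithZero.exp (-2) := by
        rw [← WithZero.exp_nsmul]
        rfl

end

section
variable (K F : Type) [Field K] [NumberField K] [IsCyclotomicExtension {3} ℚ K] [Field F]
  [NumberField F] [Algebra K F] [IsGalois K F] (n : ℕ) (hn : Module.finrank K F = 2 ^ n)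
  (hu : Unr K F) (d : 𝓞 F) (hd : d ≠ 0) (h4 : (4 : 𝓞 F) ∣ d - 1)
  (hσ : ∀ σ : F ≃ₐ[K] F, ∃ s : F, σ (d : F) = (d : F) * s ^ 2)
  (hev : ∀ v : HeightOneSpectrum (𝓞 F), (3 : 𝓞 F) ∉ v.asIdeal →
    (∀ p : ℕ, GoodPrime p → (p : 𝓞 F) ∉ v.asIdeal) → IsSquare (v.valuation F (d : F)))
  (e : F) (he : 4 * e + 1 = (d : F) ^ 3)
include hn hu hd h4 hσ hev

/-- The Selmer group is trivial. -/
theorem selmer_trivial_tw (z : R F) (hz : z ≠ 0) (hN : ∃ y : F, Algebra.norm F z = y ^ 2)
    (hloc : ∀ v : HeightOneSpectrum (𝓞 F), LocD (d : F) z (v.adicCompletion F)) :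
    ∃ t : R F, z = t ^ 2 := by
  have hirrF : Fact (Irreducible (cubPoly F)) := ⟨sg_irreducible K F n hn⟩
  have hirrK : Fact (Irreducible (cubPoly K)) := ⟨CMT.irreducible_K K⟩
  have hfd : FiniteDimensional K F := Module.Finite.of_restrictScalars_finite ℚ K F
  obtain ⟨om, hom⟩ := exists_om K
  have homF : (algebraMap K F om) ^ 2 + algebraMap K F om + 1 = 0 := by
    rw [← map_pow, ← map_add, ← map_one (algebraMap K F), ← map_add, hom, map_zero]
  by_contra hsq
  have hgood : GoodT z := goodT_of_locD _ homF d hd h4 hev z hz hN hloc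
  letI := sgAct K F
  let A : Subgroup (R F)ˣ :=
    { carrier := {u | GoodT (u : R F)}
      mul_mem' := fun {a b} ha hb => by
        change GoodT ((a * b : (R F)ˣ) : R F)
        rw [Units.val_mul]
        exact GoodT.mul ha hb
      one_mem' := by
        change GoodT ((1 : (R F)ˣ) : R F)
        have := GoodT.sq (1 : R F) one_ne_zero
        rwa [one_pow] at this
      inv_mem' := fun {a} ha => by
        change GoodT ((a⁻¹ : (R F)ˣ) : R F)
        rw [Units.val_inv_eq_inv_val]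
        exact GoodT.inv ha }
  obtain ⟨z1, hz1, hz1', hfix⟩ := exists_fixed_mod (U := (R F)ˣ) (G := F ≃ₐ[K] F) n
    (by rw [IsGalois.card_aut_eq_finrank, hn]) A
    (fun σ u hu => GoodT.mapR (hu : GoodT (u : R F)) (σ : F ≃+* F)) (Units.mk0 z hz) hgood
    (by
      rintro ⟨u, hu⟩
      exact hsq ⟨u, by
        have := congrArg (Units.val) hu
        rw [Units.val_pow_eq_pow_val] at this
        exact this⟩)
  have hg1 : GoodT (z1 : R F) := hz1
  obtain ⟨y, hy⟩ := hg1.norm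
  obtain ⟨t, ht, z0, hz0⟩ := descend_gal (K := K) (z1 : R F) hg1.ne y hy (fun σ => by
    obtain ⟨u, hu⟩ := hfix σ
    exact ⟨u, by
      have := congrArg (Units.val) hu
      rw [Units.val_mul, Units.val_pow_eq_pow_val] at this
      exact this⟩)
  have hmapinj := sel_mapR_injective (algebraMap K F)
  have hz00 : z0 ≠ 0 := by
    rintro rfl
    rw [map_zero] at hz0
    exact mul_ne_zero hg1.ne (pow_ne_zero 2 ht) hz0.symm
  -- replace `z0` by `z0 * N(z0)`
  set ν : K := nrm z0 with hν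
  have hν0 : ν ≠ 0 := nrm_ne_zero hz00
  rw [nrm_eq] at hy
  have hνF : algebraMap K F ν = (y * nrm t) ^ 2 := by
    rw [hν, ← nrm_mapR, hz0, map_mul, map_pow, hy]
    ring
  have hyt : y * nrm t ≠ 0 := by
    intro h
    rw [h, zero_pow two_ne_zero] at hνF
    exact hν0 ((algebraMap K F).injective (by rw [hνF, map_zero]))
  set z0' : R K := z0 * trip ν 0 0 with hz0'
  set t' : R F := t * trip (y * nrm t) 0 0 with ht'
  have ht'0 : t' ≠ 0 := mul_ne_zero ht (trip_ne_zero hyt)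
  have hmap : mapR (algebraMap K F) z0' = z1 * t' ^ 2 := by
    have e : trip ((y * nrm t) ^ 2) 0 0 = trip (y * nrm t) 0 0 ^ 2 := by
      rw [pow_two, pow_two, trip_mul_self]
    rw [hz0', map_mul, mapR_trip, map_zero, hz0, hνF, ht', e]
    ring
  have hz0'0 : z0' ≠ 0 := mul_ne_zero hz00 (trip_ne_zero hν0)
  have hN' : nrm z0' = (ν ^ 2) ^ 2 := by
    rw [hz0', map_mul, nrm_trip, ← hν]
    ring
  -- all valuations are even
  have heven : ∀ v : HeightOneSpectrum (𝓞 (R K)), IsSquare (v.valuation (R K) z0') := by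
    intro v
    by_cases hv : ∃ p : ℕ, (p = 2 ∨ p = 3 ∨ GoodPrime p) ∧ (p : 𝓞 (R K)) ∈ v.asIdeal
    · obtain ⟨p, hp, hpv⟩ := hv
      exact even_ram_K K om hom z0' hz0'0 ⟨ν ^ 2, hN'⟩ p hp v hpv
    · have hv' : ∀ p : ℕ, (p = 2 ∨ p = 3 ∨ GoodPrime p) → (p : 𝓞 (R K)) ∉ v.asIdeal :=
        fun p hp hpv => hv ⟨p, hp, hpv⟩
      obtain ⟨P, hP, hPv⟩ := unram_gal (K := K) (F := F) n hn om hom v (by
        intro v₀ P₀ hv₀ hP₀
        have hmem : ∀ p : ℕ, (p = 2 ∨ p = 3 ∨ GoodPrime p) → (p : 𝓞 K) ∉ v₀.asIdeal := by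
          intro p hp hpv
          apply hv' p hp
          rw [hv₀, Ideal.under_def, Ideal.mem_comap, map_natCast] at hpv
          exact hpv
        exact hu v₀ P₀ hP₀ (by exact_mod_cast hmem 3 (Or.inr (Or.inl rfl)))
          fun p hp => hmem p (Or.inr (Or.inr hp)))
      have h6 : (6 : 𝓞 (R F)) ∉ P.asIdeal := by
        intro h6
        have h7 := hP 6 (by exact_mod_cast h6)
        have h8 : ((6 : ℕ) : 𝓞 (R K)) = ((2 : ℕ) : 𝓞 (R K)) * ((3 : ℕ) : 𝓞 (R K)) := by
          norm_num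
        rw [h8] at h7
        rcases v.isPrime.mem_or_mem h7 with h9 | h9
        · exact hv' 2 (Or.inl rfl) h9
        · exact hv' 3 (Or.inr (Or.inl rfl)) h9
      have hPg : ∀ p : ℕ, GoodPrime p → (p : 𝓞 (R F)) ∉ P.asIdeal := by
        intro p hp hpP
        exact hv' p (Or.inr (Or.inr hp)) (hP p hpP)
      rw [← hPv, hmap, map_mul, map_pow]
      exact (hg1.even P h6 hPg).mul (IsSquare.sq _)
  obtain ⟨W, hW0, hW⟩ := sg_class K om hom z0' ⟨hz0'0, ⟨_, hN'⟩, fun P _ => heven P⟩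
  set f := algebraMap K F with hf
  have hom' : f om ^ 2 + f om + 1 = 0 := by
    rw [← map_pow, ← map_add, ← map_one f, ← map_add, hom, map_zero]
  set θ := CMT.th (f om) hom' with hθ
  have hWF : mapR f W * t'⁻¹ ≠ 0 := mul_ne_zero (by
    intro h
    exact hW0 (hmapinj (by rw [h, map_zero]))) (inv_ne_zero ht'0)
  have hz1D : ∀ D : R K, z0' = D * W ^ 2 → (z1 : R F) = mapR f D * (mapR f W * t'⁻¹) ^ 2 := by
    intro D hD
    have h1 : mapR f z0' = mapR f D * mapR f W ^ 2 := by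
      rw [hD, map_mul, map_pow]
    rw [mul_pow, ← mul_assoc, ← h1, hmap, mul_assoc, ← mul_pow, mul_inv_cancel₀ ht'0, one_pow,
      mul_one]
  obtain ⟨v, h2, h4'⟩ := sg_exists_two K F hu
  have hnot := not_inU2 (v.valuation F) (sg_w2 v h2 h4')
  have hprF : mapR f (pr K - 1) = pr F - 1 := by rw [map_sub, map_one, mapR_pr]
  have h3 : ∀ x, θ (θ (θ x)) = x := CMT.th_three (f om) hom'
  have hU : ∀ D : R K, z0' = D * W ^ 2 → InU2 (v.valuation F) (mapR f D) := by
    intro D hD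
    have h6 : mapR f D = (z1 : R F) * ((mapR f W * t'⁻¹)⁻¹) ^ 2 := by
      rw [hz1D D hD, mul_assoc, ← mul_pow, mul_inv_cancel₀ hWF, one_pow, mul_one]
    rw [h6]
    exact (GoodT.mul hg1 (GoodT.sq _ (inv_ne_zero hWF))).two v h2 h4'
  rcases hW with hW | hW | hW | hW
  · apply hz1'
    refine ⟨Units.mk0 _ hWF, ?_⟩
    ext
    rw [Units.val_pow_eq_pow_val, hz1D 1 (by rw [hW, one_mul]), map_one, one_mul]
    rfl
  · have h5 := hU _ hW
    rw [hprF] at h5
    exact hnot h5
  · have h5 := CMT.InU2.th (f om) hom' _ (CMT.InU2.th (f om) hom' _ (hU _ hW))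
    rw [sg_mapR_th f om hom hom', hprF] at h5
    change InU2 _ (θ (θ (θ (pr F - 1)))) at h5
    rw [h3] at h5
    exact hnot h5
  · have h5 := CMT.InU2.th (f om) hom' _ (hU _ hW)
    rw [sg_mapR_th f om hom hom', sg_mapR_th f om hom hom', hprF] at h5
    change InU2 _ (θ (θ (θ (pr F - 1)))) at h5
    rw [h3] at h5
    exact hnot h5

theorem tw_divisible (e : F) (he : 4 * e + 1 = (d : F) ^ 3) (P : (Wt e).toAffine.Point) :
    ∃ Q, P = 2 • Q := by
  have hirrF : Fact (Irreducible (cubPoly F)) := ⟨sg_irreducible K F n hn⟩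
  rcases P with _ | ⟨x, y, hxy⟩
  · exact ⟨0, by rw [smul_zero]; rfl⟩
  · set D : F := (d : F) with hD
    have hD0 : D ≠ 0 := RingOfIntegers.coe_ne_zero_iff.2 hd
    have heq : y ^ 2 + y = x ^ 3 + e := by
      have h1 := (WeierstrassCurve.Affine.equation_iff _ _).1 hxy.1
      simp only [Wt] at h1
      linear_combination h1
    have hm : (2 * y + 1) ^ 2 = 4 * x ^ 3 + D ^ 3 := by
      rw [← he]
      linear_combination 4 * heq
    have hz0 : trip D 0 x ≠ 0 := by
      intro h0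
      have h1 : trip D 0 x = trip 0 0 0 := by
        rw [h0]; simp [trip]
      exact hD0 (trip_inj h1).1
    have hloc : ∀ v : HeightOneSpectrum (𝓞 F), LocD D (trip D 0 x) (v.adicCompletion F) := by
      intro v
      refine Or.inr ⟨algebraMap F _ x, algebraMap F _ (2 * y + 1),
          mapR (algebraMap F (v.adicCompletion F)) (trip D 0 x), ?_, ?_⟩
      · have h1 := congrArg (algebraMap F (v.adicCompletion F)) hm
        simp only [map_add, map_mul, map_pow, map_ofNat, map_one] at h1 ⊢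
        exact h1
      · rw [mapR_trip, map_zero, pow_two]
    obtain ⟨t, ht⟩ := selmer_trivial_tw K F n hn hu d hd h4 hσ hev (trip D 0 x) hz0
      ⟨2 * y + 1, by rw [norm_trip, hm]; ring⟩ hloc
    exact CMT.exists_half e D hD0 he x y hxy t ht

include he

theorem finite_points_tw : Finite (Wt e).toAffine.Point := by
  obtain ⟨v, hv2, hv4⟩ := sg_exists_two K F hu
  refine CMT.finite_of_divisible v hv2 hv4 e ?_ (tw_divisible K F n hn hu d hd h4 hσ hev e he)
  obtain ⟨f, hf⟩ := h4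
  have h5 : (d : F) = 4 * (f : F) + 1 := by
    have h6 := congrArg (algebraMap (𝓞 F) F) hf
    rw [map_sub, map_one, map_mul, map_ofNat] at h6
    change (d : F) - 1 = 4 * (f : F) at h6
    linear_combination h6
  have h6 : e = ((16 * f ^ 3 + 12 * f ^ 2 + 3 * f : 𝓞 F) : F) := by
    have h7 : ((16 * f ^ 3 + 12 * f ^ 2 + 3 * f : 𝓞 F) : F) =
        16 * (f : F) ^ 3 + 12 * (f : F) ^ 2 + 3 * (f : F) := by
      change algebraMap (𝓞 F) F (16 * f ^ 3 + 12 * f ^ 2 + 3 * f) = _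
      simp only [map_add, map_mul, map_pow, map_ofNat]
    rw [h7]
    have h8 : (4 : F) * (e - (16 * (f : F) ^ 3 + 12 * (f : F) ^ 2 + 3 * (f : F))) = 0 := by
      rw [h5] at he
      linear_combination he
    rcases mul_eq_zero.1 h8 with h9 | h9
    · norm_num at h9
    · exact sub_eq_zero.1 h9
  rw [h6]
  exact v.valuation_le_one _

theorem odd_points_tw : Odd (Nat.card (Wt e).toAffine.Point) := by
  have hirrF : Fact (Irreducible (cubPoly F)) := ⟨sg_irreducible K F n hn⟩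
  have hfin := finite_points_tw K F n hn hu d hd h4 hσ hev e he
  have hsurj : Function.Surjective (fun P : (Wt e).toAffine.Point => 2 • P) := fun P => by
    obtain ⟨Q, hQ⟩ := tw_divisible K F n hn hu d hd h4 hσ hev e he P
    exact ⟨Q, hQ.symm⟩
  have hinj := Finite.injective_iff_surjective.2 hsurj
  rw [← Nat.not_even_iff_odd]
  intro hev'
  obtain ⟨P, hP⟩ := exists_prime_addOrderOf_dvd_card' (G := (Wt e).toAffine.Point) 2 hev'.two_dvd
  have h2 : (fun P : (Wt e).toAffine.Point => 2 • P) P = (fun P => 2 • P) 0 := by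
    change 2 • P = 2 • (0 : (Wt e).toAffine.Point)
    rw [smul_zero, ← hP, addOrderOf_nsmul_eq_zero]
  have h0 := hinj h2
  rw [h0, addOrderOf_zero] at hP
  norm_num at hP

theorem sha_tw (k : ℕ) (x : SBSD.Sha (Wt e)) (h2 : 2 ^ k • x = 0) : x = 0 := by
  have hD0 : (d : F) ≠ 0 := RingOfIntegers.coe_ne_zero_iff.2 hd
  refine fin_two_pow (A := SBSD.Sha (Wt e)) (fun x hx => ?_) k x h2
  obtain ⟨c, rfl⟩ := QuotientAddGroup.mk_surjective x
  obtain ⟨hc1, hc2, -⟩ := c.2
  have h3 : 2 • c ∈ (SBSD.coboundaries (Wt e)).addSubgroupOf (SBSD.locTrivial (Wt e)) := by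
    rw [← QuotientAddGroup.eq_zero_iff]
    exact hx
  obtain ⟨P, hP⟩ := AddSubgroup.mem_addSubgroupOf.1 h3
  exact (QuotientAddGroup.eq_zero_iff _).2 (AddSubgroup.mem_addSubgroupOf.2
    (CMT.sha_two_of_selmer F e (d : F) hD0 he
      (fun z hz hn' hloc => selmer_trivial_tw K F n hn hu d hd h4 hσ hev z hz hn' hloc) c.1 hc1 hc2
      ⟨P, fun σ => hP σ⟩))

end

end CF
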