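import Pool.Agent.MP_9ab903_nt.CF3.A3
import Pool.Agent.MP_9ab903_nt.CF3.K4
import Pool.Agent.MP_9ab903_nt.CF3.K5
import Pool.Agent.MP_9ab903_nt.CF3.SGT
import Pool.Agent.MP_9ab903_nt.CF.FinalCF
import Pool.Agent.MP_9ab903_nt.CF.X1

set_option autoImplicit false

open NumberField IsDedekindDomain
open CM27 CMT
open scoped ComplexConjugate Classical

namespace CF

/-! ## the final statement for the twists (file CF3/Fin3.lean) -/

/-- the norm of `d ≡ 1 mod 4` is odd -/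
theorem norm_odd (K : Type) [Field K] [NumberField K] (d : 𝓞 K) (h4 : (4 : 𝓞 K) ∣ d - 1)
    (hd : d ≠ 0) : Odd (Algebra.norm ℤ d).natAbs := by
  rw [← Ideal.absNorm_span_singleton]
  by_contra hev
  rw [Nat.not_odd_iff_even, even_iff_two_dvd, Ideal.absNorm_apply,
    Submodule.cardQuot_apply] at hev
  have hfin : Finite (𝓞 K ⧸ Ideal.span {d}) :=
    Ideal.finiteQuotientOfFreeOfNeBot _ (by rwa [Ne, Ideal.span_singleton_eq_bot])
  haveI : Fact (Nat.Prime 2) := ⟨Nat.prime_two⟩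
  obtain ⟨x, hx⟩ := exists_prime_addOrderOf_dvd_card' 2 hev
  have h2 : (2 : ℕ) • x = 0 := by rw [← hx]; exact addOrderOf_nsmul_eq_zero x
  have hx0 : x ≠ 0 := by
    rintro rfl
    rw [addOrderOf_zero] at hx
    norm_num at hx
  obtain ⟨f, hf⟩ := h4
  have h5 : (Ideal.Quotient.mk (Ideal.span {d})) (-2 * f) * 2 = 1 := by
    have h6 : (Ideal.Quotient.mk (Ideal.span {d})) d = 0 := by
      rw [Ideal.Quotient.eq_zero_iff_mem]
      exact Ideal.mem_span_singleton_self d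
    have h7 : (Ideal.Quotient.mk (Ideal.span {d})) (-2 * f * 2) =
        (Ideal.Quotient.mk (Ideal.span {d})) (1 - d) := by
      congr 1
      linear_combination hf
    rw [map_mul, map_ofNat] at h7
    rw [h7, map_sub, h6, map_one, sub_zero]
  apply hx0
  have h8 : (2 : 𝓞 K ⧸ Ideal.span {d}) * x = 0 := by
    rw [two_mul, ← two_smul ℕ x]
    exact h2
  calc x = 1 * x := (one_mul x).symm
    _ = (Ideal.Quotient.mk (Ideal.span {d})) (-2 * f) * (2 * x) := by rw [← h5]; ring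
    _ = 0 := by rw [h8, mul_zero]

section
variable (S : Finset Eis) (hS : ∀ b ∈ S, GoodEis b) (F : IntermediateField ℚ ℂ) [NumberField F]
  (hw : w ∈ F) (hF : F ≤ LS S) (n : ℕ) (h : Module.finrank ℚ F = 2 ^ (n + 1))
  (F' : IntermediateField ℚ ℂ) [NumberField F'] (hFF : F ≤ F') (hF' : F' ≤ LS S)
  (h' : Module.finrank ℚ F' = 2 ^ (n + 1 + 1)) (d : 𝓞 F) (h4 : (4 : 𝓞 F) ∣ d - 1) (δ : ℂ)
  (hδ : δ ^ 2 = ((d : F) : ℂ)) (hδF : δ ∉ F) (hδF' : δ ∈ F') (e : F)
  (he : 4 * e + 1 = (d : F) ^ 3)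
include hS hw hF h hFF hF' h' h4 hδ hδF hδF' he

/-- the algebraic half -/
theorem points_tw : Finite (Wt e).toAffine.Point ∧ Odd (Nat.card (Wt e).toAffine.Point) ∧
    ∀ (k : ℕ) (x : SBSD.Sha (Wt e)), 2 ^ k • x = 0 → x = 0 := by
  letI := algK F hw
  obtain ⟨hG, hdeg⟩ := galois_F S hS F hw hF n h
  haveI := hG
  have hu : Unr KK F := unr_F S hS F hw hF n h
  have hd0 : d ≠ 0 := by
    rintro rfl
    apply hδF
    have h1 : δ ^ 2 = 0 := by rw [hδ]; rfl
    rw [(pow_eq_zero_iff two_ne_zero).1 h1]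
    exact zero_mem _
  have h2 : Module.finrank ℚ F' = 2 * Module.finrank ℚ F := by rw [h, h']; ring
  have hσ : ∀ σ : F ≃ₐ[KK] F, ∃ s : F, σ (d : F) = (d : F) * s ^ 2 :=
    gal_sq S hS F hw hF F' hFF hF' h2 (d : F) δ hδ hδF hδF'
  have hev : ∀ v : HeightOneSpectrum (𝓞 F), (3 : 𝓞 F) ∉ v.asIdeal →
      (∀ p : ℕ, GoodPrime p → (p : 𝓞 F) ∉ v.asIdeal) → IsSquare (v.valuation F (d : F)) := by
    intro v hv3 hvp
    refine even_val S hS F hw hF F' hFF hF' (d : F) δ hδ hδF' v hv3 ?_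
    intro b hb hvb
    obtain ⟨hprim, p, hp, hn⟩ := hS b hb
    apply hvp p hp
    obtain ⟨x, hx, hxb⟩ := hvb
    have h5 : x = eF F hw b := by
      ext
      rw [hxb, eF_apply]
    have h6 : ((p : ℕ) : 𝓞 F) = eF F hw b * eF F hw (star b) := by
      rw [← map_mul, a3_mul_star, hn]
      simp
    rw [h6, ← h5]
    exact Ideal.mul_mem_right _ _ hx
  exact ⟨finite_points_tw KK F n hdeg hu d hd0 h4 hσ hev e he,
    odd_points_tw KK F n hdeg hu d hd0 h4 hσ hev e he,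
    fun k x => sha_tw KK F n hdeg hu d hd0 h4 hσ hev e he k x⟩

theorem strong_tw : SBSD.TwoPartRankZero (Wt e) := by
  obtain ⟨hfin, hodd, hsha⟩ := points_tw S hS F hw hF n h F' hFF hF' h' d h4 δ hδ hδF hδF' e he
  obtain ⟨L, hL1, hL2, hL3, q, hq1, hq2, hq3⟩ :=
    analytic_tw S hS F hw hF n h F' hFF hF' h' d h4 δ hδ hδF hδF' e he
  have hd0 : d ≠ 0 := by
    rintro rfl
    apply hδF
    have h1 : δ ^ 2 = 0 := by rw [hδ]; rfl
    rw [(pow_eq_zero_iff two_ne_zero).1 h1]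
    exact zero_mem _
  have hd0' : (d : F) ≠ 0 := by exact_mod_cast hd0
  have hell : (Wt e).IsElliptic := by
    rw [WeierstrassCurve.isElliptic_iff, tc1_Δ, he, isUnit_iff_ne_zero]
    exact mul_ne_zero (by norm_num) (pow_ne_zero _ (pow_ne_zero _ hd0'))
  have h1 : analyticOrderAt L 1 = 0 := (hL1.analyticAt 1).analyticOrderAt_eq_zero.2 hL3
  have hodd' : Odd (discr F).natAbs := odd_discr S hS F hw hF
  have h3 := fun v hv => three_ram S hS F hw hF n h v hv
  have hom : ∃ om : F, om ^ 2 + om + 1 = 0 := ⟨⟨w, hw⟩, by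
    ext
    change w ^ 2 + w + 1 = 0
    linear_combination w_sq⟩
  have hbad : ∀ v : HeightOneSpectrum (𝓞 F), (3 : 𝓞 F) ∉ v.asIdeal →
      ¬ IsSquare (v.valuation F (d : F)) → ∀ x : 𝓞 F, x ^ 3 - 2 ∉ v.asIdeal := by
    intro v hv3 hns x
    by_contra hx
    apply hns
    refine even_val S hS F hw hF F' hFF hF' (d : F) δ hδ hδF' v hv3 ?_
    intro b hb hvb
    exact two_not_cube_F S hS F hw hF n h b hb v hvb x hx
  have htam := tam_odd_tw F h3 d hd0 h4 e he hbad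
  obtain ⟨q3, hq3pos, hq3v, hner⟩ := neron_unit_tw F d hd0 h4 e he
  have harch := arch_tw F hom (d : F) e hd0' he
  set T : ℕ := ∏ᶠ v : HeightOneSpectrum (𝓞 F), SBSD.tam (Wt e) v with hT
  set N : ℕ := (Algebra.norm ℤ d).natAbs with hN
  have hNodd : Odd N := norm_odd F d h4 hd0
  have hNabs : |((Algebra.norm ℚ (d : F) : ℚ) : ℝ)| = (N : ℝ) := by
    have h5 : (Algebra.norm ℚ (d : F) : ℚ) = ((Algebra.norm ℤ d : ℤ) : ℚ) :=
      (Algebra.coe_norm_int d).symm
    rw [h5, hN, Rat.cast_intCast, Nat.cast_natAbs, Int.cast_abs]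
  have hNQ : (N : ℚ) ≠ 0 := by exact_mod_cast hNodd.pos.ne'
  have hC : (Nat.card (Wt e).toAffine.Point : ℚ) ≠ 0 := by exact_mod_cast hodd.pos.ne'
  have hD : ((discr F).natAbs : ℚ) ≠ 0 := by exact_mod_cast hodd'.pos.ne'
  have hT0 : (T : ℚ) ≠ 0 := by exact_mod_cast htam.pos.ne'
  have hper : SBSD.period (Wt e) = CM27.period F / √(N : ℝ) * q3 := by
    rw [SBSD.period, hner, harch, hNabs]
  refine ⟨hell, hfin, L, ⟨hL1, hL2⟩, order_eq (Wt e) h1, hL3, fun x k => hsha k x,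
    q * N * (discr F).natAbs * (Nat.card (Wt e).toAffine.Point : ℚ) ^ 4 * (((q3 * T) ^ 2)⁻¹),
    ?_, ?_, ?_⟩
  · exact mul_ne_zero (mul_ne_zero (mul_ne_zero (mul_ne_zero hq1 hNQ) hD) (pow_ne_zero _ hC))
      (inv_ne_zero (pow_ne_zero _ (mul_ne_zero hq3pos.ne' hT0)))
  · have h4' : padicValRat 2 ((Nat.card (Wt e).toAffine.Point : ℚ) ^ 4) = 0 := by
      rw [padicValRat.pow, padic_unit_odd hodd]
      simp
    have h5 : padicValRat 2 (((q3 * T) ^ 2)⁻¹) = 0 := by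
      rw [padicValRat.inv, padicValRat.pow,
        padic_unit_mul hq3pos.ne' hT0 hq3v (padic_unit_odd htam)]
      simp
    refine padic_unit_mul (mul_ne_zero (mul_ne_zero (mul_ne_zero hq1 hNQ) hD)
      (pow_ne_zero _ hC)) (inv_ne_zero (pow_ne_zero _ (mul_ne_zero hq3pos.ne' hT0))) ?_ h5
    refine padic_unit_mul (mul_ne_zero (mul_ne_zero hq1 hNQ) hD) (pow_ne_zero _ hC) ?_ h4'
    exact padic_unit_mul (mul_ne_zero hq1 hNQ) hD
      (padic_unit_mul hq1 hNQ hq2 (padic_unit_odd hNodd)) (padic_unit_odd hodd')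
  · rw [SBSD.bsdQuotient, hper, card_tors]
    have hP : (CM27.period F : ℂ) ≠ 0 := by
      intro h0
      rw [h0] at hq3
      apply hL3
      have h1 : L 1 ^ 2 = 0 := by rw [hq3]; ring
      exact (pow_eq_zero_iff two_ne_zero).1 h1
    have hsq : ((√|(discr F : ℝ)| : ℝ) : ℂ) ^ 2 = ((discr F).natAbs : ℂ) := by
      rw [← Complex.ofReal_pow, Real.sq_sqrt (abs_nonneg _)]
      have h1 : |(discr F : ℝ)| = (((discr F).natAbs : ℕ) : ℝ) := by
        rw [Nat.cast_natAbs, Int.cast_abs]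
      rw [h1, Complex.ofReal_natCast]
    have hsqN : ((√(N : ℝ) : ℝ) : ℂ) ^ 2 = (N : ℂ) := by
      rw [← Complex.ofReal_pow, Real.sq_sqrt (by positivity), Complex.ofReal_natCast]
    have hsN0 : ((√(N : ℝ) : ℝ) : ℂ) ≠ 0 := by
      intro h0
      rw [h0] at hsqN
      have : (N : ℂ) ≠ 0 := by exact_mod_cast hNodd.pos.ne'
      exact this (by rw [← hsqN]; norm_num)
    have hq3C : (q3 : ℂ) ≠ 0 := by exact_mod_cast hq3pos.ne'
    have hTC : (T : ℂ) ≠ 0 := by exact_mod_cast hT0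
    have hNC : (N : ℂ) ≠ 0 := by exact_mod_cast hNQ
    have hden : (((CM27.period F / √(N : ℝ) * q3 : ℝ) : ℂ) * (T : ℂ)) ^ 2 =
        (CM27.period F : ℂ) ^ 2 / N * (q3 * T) ^ 2 := by
      push_cast
      rw [mul_pow, mul_pow, div_pow, hsqN, mul_pow]
      ring
    have hcast : ((∏ᶠ v : HeightOneSpectrum (𝓞 F), SBSD.tam (Wt e) v : ℕ) : ℂ) = (T : ℂ) := rfl
    rw [div_pow, hcast, hden, mul_pow, mul_pow, hq3, hsq, ← pow_mul]
    push_cast
    field_simp

end

/-- the quadratic extension generated by a square root -/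
theorem exists_F' (F : IntermediateField ℚ ℂ) [NumberField F] (L : IntermediateField ℚ ℂ)
    (hFL : F ≤ L) (d : F) (δ : ℂ) (hδ : δ ^ 2 = (d : ℂ)) (hδF : δ ∉ F) (hδL : δ ∈ L) :
    ∃ F' : IntermediateField ℚ ℂ, F ≤ F' ∧ F' ≤ L ∧ δ ∈ F' ∧
      Module.finrank ℚ F' = Module.finrank ℚ F * 2 := by
  have hint : IsIntegral F δ := by
    refine ⟨Polynomial.X ^ 2 - Polynomial.C d, Polynomial.monic_X_pow_sub_C _ two_ne_zero, ?_⟩
    rw [← Polynomial.aeval_def, map_sub, map_pow, Polynomial.aeval_X, Polynomial.aeval_C, hδ]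
    exact sub_self _
  have hdeg : (minpoly F δ).natDegree = 2 := by
    apply le_antisymm
    · have h1 : (minpoly F δ).natDegree ≤ (Polynomial.X ^ 2 - Polynomial.C d).natDegree := by
        apply Polynomial.natDegree_le_of_dvd
        · apply minpoly.dvd
          rw [map_sub, map_pow, Polynomial.aeval_X, Polynomial.aeval_C, hδ]
          exact sub_self _
        · exact (Polynomial.monic_X_pow_sub_C _ two_ne_zero).ne_zero
      rwa [Polynomial.natDegree_X_pow_sub_C] at h1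
    · rw [minpoly.two_le_natDegree_iff hint]
      rintro ⟨x, hx⟩
      apply hδF
      rw [← hx]
      exact x.2
  set G : IntermediateField F ℂ := IntermediateField.adjoin F {δ} with hG
  have hG2 : Module.finrank F G = 2 := by
    rw [hG, IntermediateField.adjoin.finrank hint, hdeg]
  refine ⟨G.restrictScalars ℚ, ?_, ?_, ?_, ?_⟩
  · intro x hx
    exact G.algebraMap_mem ⟨x, hx⟩
  · intro x hx
    have h1 : x ∈ G := hx
    rw [hG] at h1
    refine IntermediateField.adjoin_induction F (p := fun x _ => x ∈ L) ?_ ?_ ?_ ?_ ?_ h1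
    · intro y hy
      rw [Set.mem_singleton_iff] at hy
      rw [hy]
      exact hδL
    · intro y
      exact hFL y.2
    · intro x y _ _ hx hy
      exact add_mem hx hy
    · intro x _ hx
      exact inv_mem hx
    · intro x y _ _ hx hy
      exact mul_mem hx hy
  · exact IntermediateField.subset_adjoin F {δ} rfl
  · have h1 := Module.finrank_mul_finrank ℚ F G
    rw [hG2] at h1
    rw [h1]
    rfl

/-- the twists over the fields between `ℚ(ω)` and `ℚ(ω)(E[m])` -/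
theorem strong_tw_m (m : ℕ) (hm : GoodLevel m) (F : IntermediateField ℚ ℂ) [NumberField F]
    (hw : w ∈ F) (hF : F ≤ torsionField (E ℂ) m) (n : ℕ) (h : Module.finrank ℚ F = 2 ^ n)
    (d : 𝓞 F) (h4 : (4 : 𝓞 F) ∣ d - 1) (δ : ℂ) (hδ : δ ^ 2 = ((d : F) : ℂ)) (hδF : δ ∉ F)
    (hδm : δ ∈ torsionField (E ℂ) m) (e : F) (he : 4 * e + 1 = (d : F) ^ 3) :
    SBSD.TwoPartRankZero (Wt e) := by
  obtain ⟨S, hS, -, hSm⟩ := exists_S m hm
  obtain ⟨k, rfl⟩ := exists_succ F hw n h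
  have hle := torsionField_le m hm S hS hSm
  obtain ⟨F', h1, h2, h3, h5⟩ := exists_F' F (LS S) (hF.trans hle) (d : F) δ hδ hδF (hle hδm)
  have : FiniteDimensional ℚ (LS S) := LS_finite S hS
  haveI : FiniteDimensional ℚ F' := x1_finite h2
  haveI : NumberField F' := ⟨⟩
  exact strong_tw S hS F hw (hF.trans hle) k h F' h1 h2 (by rw [h5, h, pow_succ 2 (k + 1)]) d h4 δ
    hδ hδF h3 e he

end CF
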