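import Pool.Agent.MP_9ab903_nt.CF3.RV
import Pool.Agent.MP_9ab903_nt.CF3.RD
import Pool.Agent.MP_9ab903_nt.CF3.Fin3
import Pool.Agent.MP_dfae13_nt.T.FinalDefs

set_option autoImplicit false

open NumberField IsDedekindDomain ArithmeticFunction
open CM27 CMT
open scoped ComplexConjugate Classical

namespace CF

/-! ## the final statements with a rational quotient (file CF3/Fin4.lean) -/

section
variable (S : Finset Eis) (hS : ∀ b ∈ S, GoodEis b) (F : IntermediateField ℚ ℂ) [NumberField F]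
  (hw : w ∈ F) (hF : F ≤ LS S) (n : ℕ) (h : Module.finrank ℚ F = 2 ^ (n + 1))
include hS hw hF h

/-- **The 2-part of the formula for `E` over `F`.** -/
theorem strong_Fq : SBSD.TwoPartFormula (E F) := by
  obtain ⟨hfin, hodd, hsha⟩ := points_F S hS F hw hF n h
  obtain ⟨L, hL1, hL2, hL3, q, hq1, hq2, hq3⟩ := analytic_Fq S hS F hw hF n h
  have hell : (E F).IsElliptic := by
    rw [WeierstrassCurve.isElliptic_iff]
    have : (E F).Δ = -27 := by
      simp only [E, WeierstrassCurve.Δ, WeierstrassCurve.b₂, WeierstrassCurve.b₄,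
        WeierstrassCurve.b₆, WeierstrassCurve.b₈]
      norm_num
    rw [this]
    norm_num
  have h1 : analyticOrderAt L 1 = 0 := by
    have han : AnalyticAt ℂ L 1 := hL1.analyticAt 1
    exact han.analyticOrderAt_eq_zero.2 hL3
  have hodd' : Odd (discr F).natAbs := odd_discr S hS F hw hF
  have h3 := fun v hv => three_ram S hS F hw hF n h v hv
  have htam := tam_odd F h3 ⟨⟨w, hw⟩, by
    ext
    change w ^ 2 + w + 1 = 0
    linear_combination w_sq⟩
  obtain ⟨q3, hq3pos, hq3v, hner⟩ := neron_unit F h3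
  set T : ℕ := ∏ᶠ v : HeightOneSpectrum (𝓞 F), SBSD.tam (E F) v with hT
  have hN : (Nat.card (E F).toAffine.Point : ℚ) ≠ 0 := by exact_mod_cast hodd.pos.ne'
  have hT0 : (T : ℚ) ≠ 0 := by exact_mod_cast htam.pos.ne'
  have hper : SBSD.period (E F) = CM27.period F * q3 := by
    rw [SBSD.period, hner, CM27.period]
    congr 1
    refine Finset.prod_congr rfl fun v _ => ?_
    rw [SBSD.archPeriod_eq]
    rfl
  have hqC : (q : ℂ) ≠ 0 := by exact_mod_cast hq1.ne'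
  have hcard : (0 : ℚ) < (Nat.card (E F).toAffine.Point : ℚ) := by exact_mod_cast hodd.pos
  have hTpos : (0 : ℚ) < (T : ℚ) := by exact_mod_cast htam.pos
  refine ⟨hell, hfin, L, ⟨hL1, hL2⟩, order_eq (E F) h1, hL3, fun x k => hsha k x,
    q * (Nat.card (E F).toAffine.Point : ℚ) ^ 2 * (q3 * T)⁻¹, ?_, ?_, ?_⟩
  · positivity
  · have h4 : padicValRat 2 ((Nat.card (E F).toAffine.Point : ℚ) ^ 2) = 0 := by
      rw [padicValRat.pow, padic_unit_odd hodd]
      simp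
    have h5 : padicValRat 2 ((q3 * T)⁻¹) = 0 := by
      rw [padicValRat.inv, padic_unit_mul hq3pos.ne' hT0 hq3v (padic_unit_odd htam)]
      simp
    exact padic_unit_mul (mul_ne_zero hq1.ne' (pow_ne_zero _ hN))
      (inv_ne_zero (mul_ne_zero hq3pos.ne' hT0)) (padic_unit_mul hq1.ne' (pow_ne_zero _ hN) hq2 h4)
      h5
  · rw [SBSD.bsdQuotient, hper, card_tors]
    have hP : (CM27.period F : ℂ) ≠ 0 := by
      intro h0
      rw [h0, mul_zero] at hq3
      rcases mul_eq_zero.1 hq3 with h5 | h5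
      · exact hL3 h5
      · have h6 : (√|(discr F : ℝ)| : ℝ) = 0 := by exact_mod_cast h5
        rw [Real.sqrt_eq_zero (abs_nonneg _), abs_eq_zero] at h6
        exact NumberField.discr_ne_zero F (by exact_mod_cast h6)
    have hq3C : (q3 : ℂ) ≠ 0 := by exact_mod_cast hq3pos.ne'
    have hTC : (T : ℂ) ≠ 0 := by exact_mod_cast hT0
    rw [hq3, ← hT]
    push_cast
    field_simp

end

section
variable (S : Finset Eis) (hS : ∀ b ∈ S, GoodEis b) (F : IntermediateField ℚ ℂ) [NumberField F]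
  (hw : w ∈ F) (hF : F ≤ LS S) (n : ℕ) (h : Module.finrank ℚ F = 2 ^ (n + 1))
  (F' : IntermediateField ℚ ℂ) [NumberField F'] (hFF : F ≤ F') (hF' : F' ≤ LS S)
  (h' : Module.finrank ℚ F' = 2 ^ (n + 1 + 1)) (d : 𝓞 F) (h4 : (4 : 𝓞 F) ∣ d - 1) (δ : ℂ)
  (hδ : δ ^ 2 = ((d : F) : ℂ)) (hδF : δ ∉ F) (hδF' : δ ∈ F') (e : F)
  (he : 4 * e + 1 = (d : F) ^ 3)
include hS hw hF h hFF hF' h' h4 hδ hδF hδF' he

/-- **The analytic half for the twist.** -/
theorem analytic_twq : ∃ L : ℂ → ℂ, Differentiable ℂ L ∧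
    (∀ s : ℂ, 3 / 2 < s.re → LSeriesSummable (fun k => ((Wt e).LFunction k : ℂ)) s ∧
      L s = (Wt e).LSeries s) ∧ L 1 ≠ 0 ∧
    ∃ q : ℚ, 0 < q ∧ padicValRat 2 q = 0 ∧ L 1 * ((√|(discr F : ℝ)| : ℝ) : ℂ) =
      q * ((period F / √((Algebra.norm ℤ d).natAbs : ℝ) : ℝ) : ℂ) := by
  have key : ∀ X ∈ chF S F' \ chF S F, ∃ Φ : ℂ → ℂ, Differentiable ℂ Φ ∧
      (∀ s : ℂ, 3 / 2 < s.re → LSeriesSummable (fun k => (Dg (gx S X) * Dg (gy S X)) k) s ∧
        Φ s = LSeries (fun k => (Dg (gx S X) * Dg (gy S X)) k) s) := by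
    intro X hX
    have hX' := (Finset.mem_sdiff.1 hX).1
    obtain ⟨Φ₁, Φ₂, d1, d2, s1, s2, hv⟩ := value_X S hS (n + 1) X
      (pow_chF S hS F' (hFF hw) hF' (n + 1) h' X hX')
    refine ⟨fun s => Φ₁ s * Φ₂ s, d1.mul d2, ?_⟩
    intro s hs
    refine ⟨ArithmeticFunction.LSeriesSummable_mul (s1 s hs).1 (s2 s hs).1, ?_⟩
    rw [ArithmeticFunction.LSeries_mul' (s1 s hs).1 (s2 s hs).1, ← (s1 s hs).2, ← (s2 s hs).2]
  choose! Φ hΦ1 hΦ2 using key
  have hLW : (fun k => ((Wt e).LFunction k : ℂ)) = fun k => (∏ X ∈ chF S F' \ chF S F,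
      (Dg (gx S X) * Dg (gy S X))) k := by
    funext k
    rw [← LCW_apply, LW_eq S hS F hw hF n h F' hFF hF' h' d h4 δ hδ hδF hδF' e he]
  set L : ℂ → ℂ := fun s => ∏ X ∈ chF S F' \ chF S F, Φ X s with hL
  have hLd : Differentiable ℂ L := Differentiable.fun_finsetProd hΦ1
  have hLs : ∀ s : ℂ, 3 / 2 < s.re → LSeriesSummable (fun k => ((Wt e).LFunction k : ℂ)) s ∧
      L s = (Wt e).LSeries s := by
    intro s hs
    obtain ⟨h1, h2⟩ := LSeries_prod (chF S F' \ chF S F) (fun X => Dg (gx S X) * Dg (gy S X)) s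
      (fun X hX => (hΦ2 X hX s hs).1)
    rw [hLW]
    refine ⟨h1, ?_⟩
    have h3 : (Wt e).LSeries s = LSeries (fun k => ((Wt e).LFunction k : ℂ)) s := rfl
    rw [h3, hLW, h2]
    exact Finset.prod_congr rfl fun X hX => (hΦ2 X hX s hs).2
  obtain ⟨L₁, d1, s1, n1, q₁, hq₁, v₁, e₁⟩ := analytic_Fq S hS F hw hF n h
  obtain ⟨L₂, d2, s2, n2, q₂, hq₂, v₂, e₂⟩ := analytic_Fq S hS F' (hFF hw) hF' (n + 1) h'
  -- the identity
  have hid : ∀ s : ℂ, 3 / 2 < s.re → L₂ s = L₁ s * L s := by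
    intro s hs
    have h1 := LC_F' S hS F hw hF n h F' hFF hF' h' d h4 δ hδ hδF hδF' e he
    rw [(s1 s hs).2, (s2 s hs).2, (hLs s hs).2]
    have t1 : (E F').LSeries s = LSeries (fun k => LC F' k) s := rfl
    have t2 : (E F).LSeries s = LSeries (fun k => LC F k) s := rfl
    have t3 : (Wt e).LSeries s = LSeries (fun k => LCW F (Wt e) k) s := rfl
    rw [t1, t2, t3, h1]
    exact ArithmeticFunction.LSeries_mul' (s1 s hs).1 (hLs s hs).1
  have hall : L₂ = fun s => L₁ s * L s := by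
    have a1 : AnalyticOnNhd ℂ L₂ Set.univ := fun z _ => d2.analyticAt z
    have a2 : AnalyticOnNhd ℂ (fun s => L₁ s * L s) Set.univ := fun z _ =>
      (d1.mul hLd).analyticAt z
    refine a1.eq_of_eventuallyEq a2 (z₀ := 2) ?_
    have hopen : IsOpen {s : ℂ | 3 / 2 < s.re} := isOpen_lt continuous_const Complex.continuous_re
    exact Filter.eventually_of_mem (hopen.mem_nhds (by norm_num)) hid
  have h1 : L₂ 1 = L₁ 1 * L 1 := congrFun hall 1
  have hL1 : L 1 ≠ 0 := by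
    intro h0
    rw [h0, mul_zero] at h1
    exact n2 h1
  have hd0 : d ≠ 0 := by
    rintro rfl
    apply hδF
    have h1 : δ ^ 2 = 0 := by rw [hδ]; rfl
    rw [(pow_eq_zero_iff two_ne_zero).1 h1]
    exact zero_mem _
  -- the discriminants
  obtain ⟨r, hr, hr'⟩ : ∃ r : ℚ, 0 < r ∧ |(discr F' : ℚ)| * r ^ 2 =
      (discr F : ℚ) ^ 2 * |Algebra.norm ℚ (d : F)| := by
    letI : Algebra F F' := (IntermediateField.inclusion hFF).toRingHom.toAlgebra
    refine discr_quad F F' (finrank_FF F n h F' hFF h') (d : F) ⟨δ, hδF'⟩ ?_ ?_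
    · ext
      exact hδ
    · rintro ⟨x, hx⟩
      apply hδF
      have h1 : ((algebraMap F F' x : F') : ℂ) = δ := by rw [hx]
      rw [← h1]
      exact x.2
  set N : ℕ := (Algebra.norm ℤ d).natAbs with hN
  have hNodd : Odd N := norm_odd F d h4 hd0
  have hNabs : |(Algebra.norm ℚ (d : F) : ℚ)| = (N : ℚ) := by
    have h5 : (Algebra.norm ℚ (d : F) : ℚ) = ((Algebra.norm ℤ d : ℤ) : ℚ) :=
      (Algebra.coe_norm_int d).symm
    rw [h5, hN, Nat.cast_natAbs, Int.cast_abs]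
  have hodd₁ : Odd (discr F).natAbs := odd_discr S hS F hw hF
  have hodd₂ : Odd (discr F').natAbs := odd_discr S hS F' (hFF hw) hF'
  have hNQ : (N : ℚ) ≠ 0 := by exact_mod_cast hNodd.pos.ne'
  have hD₁ : ((discr F).natAbs : ℚ) ≠ 0 := by exact_mod_cast hodd₁.pos.ne'
  have hD₂ : ((discr F').natAbs : ℚ) ≠ 0 := by exact_mod_cast hodd₂.pos.ne'
  have hr'' : ((discr F').natAbs : ℚ) * r ^ 2 = ((discr F).natAbs : ℚ) ^ 2 * N := by
    have h8 : (((discr F).natAbs : ℕ) : ℚ) ^ 2 = (discr F : ℚ) ^ 2 := by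
      rw [Nat.cast_natAbs, Int.cast_abs, sq_abs]
    have h9 : (((discr F').natAbs : ℕ) : ℚ) = |(discr F' : ℚ)| := by
      rw [Nat.cast_natAbs, Int.cast_abs]
    rw [h8, h9, hr', hNabs]
  have vr : padicValRat 2 r = 0 := by
    haveI : Fact (Nat.Prime 2) := ⟨Nat.prime_two⟩
    have h6 := congrArg (padicValRat 2) hr''
    rw [padicValRat.mul hD₂ (pow_ne_zero 2 hr.ne'), padicValRat.mul (pow_ne_zero 2 hD₁) hNQ,
      padicValRat.pow, padicValRat.pow, padic_unit_odd hNodd, padic_unit_odd hodd₁,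
      padic_unit_odd hodd₂] at h6
    push_cast at h6
    omega
  refine ⟨L, hLd, hLs, hL1, q₂ * r * q₁⁻¹, by positivity, ?_, ?_⟩
  · have vq1' : padicValRat 2 (q₁⁻¹) = 0 := by rw [padicValRat.inv, v₁]; simp
    exact padic_unit_mul (mul_ne_zero hq₂.ne' hr.ne') (inv_ne_zero hq₁.ne')
      (padic_unit_mul hq₂.ne' hr.ne' v₂ vr) vq1'
  · -- square roots
    set A₁ : ℝ := √|(discr F : ℝ)| with hA₁
    set A₂ : ℝ := √|(discr F' : ℝ)| with hA₂
    set B : ℝ := √(N : ℝ) with hB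
    have hA₁pos : 0 < A₁ := by
      rw [hA₁, Real.sqrt_pos, abs_pos]
      exact_mod_cast NumberField.discr_ne_zero F
    have hA₂pos : 0 < A₂ := by
      rw [hA₂, Real.sqrt_pos, abs_pos]
      exact_mod_cast NumberField.discr_ne_zero F'
    have hBpos : 0 < B := by
      rw [hB, Real.sqrt_pos]
      exact_mod_cast hNodd.pos
    have hsq : A₂ * r = A₁ ^ 2 * B := by
      have h6 : (A₂ * r) ^ 2 = (A₁ ^ 2 * B) ^ 2 := by
        rw [mul_pow, mul_pow, hA₂, Real.sq_sqrt (abs_nonneg _), hA₁, Real.sq_sqrt (abs_nonneg _), hB,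
          Real.sq_sqrt (by positivity)]
        have h7 : ((((discr F').natAbs : ℚ) * r ^ 2 : ℚ) : ℝ) =
            ((((discr F).natAbs : ℚ) ^ 2 * N : ℚ) : ℝ) := by rw [hr'']
        push_cast at h7
        rw [Nat.cast_natAbs, Nat.cast_natAbs, Int.cast_abs, Int.cast_abs] at h7
        exact h7
      have hrR : (0 : ℝ) < r := by exact_mod_cast hr
      exact (pow_left_inj₀ (by positivity) (by positivity) two_ne_zero).1 h6
    have hsqC : (A₂ : ℂ) * r = (A₁ : ℂ) ^ 2 * B := by exact_mod_cast congrArg (fun t : ℝ => (t : ℂ)) hsq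
    have hp : ((period F' : ℝ) : ℂ) = ((period F : ℝ) : ℂ) ^ 2 := by
      rw [period_F S hS F' (hFF hw) hF' (n + 1) h', period_F S hS F hw hF n h]
      push_cast
      rw [mul_pow, ← pow_mul, ← pow_mul]
      congr 2 <;> ring
    rw [hp, h1] at e₂
    have hA₁C : (A₁ : ℂ) ≠ 0 := by exact_mod_cast hA₁pos.ne'
    have hA₂C : (A₂ : ℂ) ≠ 0 := by exact_mod_cast hA₂pos.ne'
    have hBC : (B : ℂ) ≠ 0 := by exact_mod_cast hBpos.ne'
    have hq₁C : (q₁ : ℂ) ≠ 0 := by exact_mod_cast hq₁.ne'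
    have hP0 : ((period F : ℝ) : ℂ) ≠ 0 := by
      intro h0
      rw [h0, mul_zero] at e₁
      exact mul_ne_zero n1 hA₁C e₁
    -- `L₁ A₁ = q₁ P`, `L₁ L A₂ = q₂ P²`, `A₂ r = A₁² B`
    have key1 : (q₁ : ℂ) * ((period F : ℝ) : ℂ) * L 1 * A₂ = q₂ * ((period F : ℝ) : ℂ) ^ 2 * A₁ := by
      rw [← e₁]
      linear_combination (A₁ : ℂ) * e₂
    have key2 : (q₁ : ℂ) * L 1 * A₂ = q₂ * ((period F : ℝ) : ℂ) * A₁ := by
      apply mul_left_cancel₀ hP0
      linear_combination key1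
    have key3 : (q₁ : ℂ) * L 1 * (A₁ ^ 2 * B) = q₂ * ((period F : ℝ) : ℂ) * A₁ * r := by
      rw [← hsqC]
      linear_combination (r : ℂ) * key2
    have key4 : (q₁ : ℂ) * L 1 * (A₁ * B) = q₂ * ((period F : ℝ) : ℂ) * r := by
      apply mul_left_cancel₀ hA₁C
      linear_combination key3
    push_cast
    field_simp
    linear_combination key4

/-- **The 2-part of the formula for the twists.** -/
theorem strong_twq : SBSD.TwoPartFormula (Wt e) := by
  obtain ⟨hfin, hodd, hsha⟩ := points_tw S hS F hw hF n h F' hFF hF' h' d h4 δ hδ hδF hδF' e he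
  obtain ⟨L, hL1, hL2, hL3, q, hq1, hq2, hq3⟩ :=
    analytic_twq S hS F hw hF n h F' hFF hF' h' d h4 δ hδ hδF hδF' e he
  have hd0 : d ≠ 0 := by
    rintro rfl
    apply hδF
    have h1 : δ ^ 2 = 0 := by rw [hδ]; rfl
    rw [(pow_eq_zero_iff two_ne_zero).1 h1]
    exact zero_mem _
  have hd0' : (d : F) ≠ 0 := by exact_mod_cast hd0
  have hell : (Wt e).IsElliptic := by
    rw [WeierstrassCurve.isElliptic_iff, tc1_Δ, he, isUnit_iff_ne_zero]
    exact mul_ne_zero (by norm_num) (pow_ne_zero _ (pow_ne_zero _ hd0'))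
  have h1 : analyticOrderAt L 1 = 0 := (hL1.analyticAt 1).analyticOrderAt_eq_zero.2 hL3
  have hodd' : Odd (discr F).natAbs := odd_discr S hS F hw hF
  have h3 := fun v hv => three_ram S hS F hw hF n h v hv
  have hom : ∃ om : F, om ^ 2 + om + 1 = 0 := ⟨⟨w, hw⟩, by
    ext
    change w ^ 2 + w + 1 = 0
    linear_combination w_sq⟩
  have hbad : ∀ v : HeightOneSpectrum (𝓞 F), (3 : 𝓞 F) ∉ v.asIdeal →
      ¬ IsSquare (v.valuation F (d : F)) → ∀ x : 𝓞 F, x ^ 3 - 2 ∉ v.asIdeal := by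
    intro v hv3 hns x
    by_contra hx
    apply hns
    refine even_val S hS F hw hF F' hFF hF' (d : F) δ hδ hδF' v hv3 ?_
    intro b hb hvb
    exact two_not_cube_F S hS F hw hF n h b hb v hvb x hx
  have htam := tam_odd_tw F h3 d hd0 h4 e he hbad
  obtain ⟨q3, hq3pos, hq3v, hner⟩ := neron_unit_tw F d hd0 h4 e he
  have harch := arch_tw F hom (d : F) e hd0' he
  set T : ℕ := ∏ᶠ v : HeightOneSpectrum (𝓞 F), SBSD.tam (Wt e) v with hT
  set N : ℕ := (Algebra.norm ℤ d).natAbs with hN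
  have hNodd : Odd N := norm_odd F d h4 hd0
  have hNabs : |((Algebra.norm ℚ (d : F) : ℚ) : ℝ)| = (N : ℝ) := by
    have h5 : (Algebra.norm ℚ (d : F) : ℚ) = ((Algebra.norm ℤ d : ℤ) : ℚ) :=
      (Algebra.coe_norm_int d).symm
    rw [h5, hN, Rat.cast_intCast, Nat.cast_natAbs, Int.cast_abs]
  have hNQ : (N : ℚ) ≠ 0 := by exact_mod_cast hNodd.pos.ne'
  have hC : (Nat.card (Wt e).toAffine.Point : ℚ) ≠ 0 := by exact_mod_cast hodd.pos.ne'
  have hT0 : (T : ℚ) ≠ 0 := by exact_mod_cast htam.pos.ne'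
  have hper : SBSD.period (Wt e) = CM27.period F / √(N : ℝ) * q3 := by
    rw [SBSD.period, hner, harch, hNabs]
  have hcard : (0 : ℚ) < (Nat.card (Wt e).toAffine.Point : ℚ) := by exact_mod_cast hodd.pos
  have hTpos : (0 : ℚ) < (T : ℚ) := by exact_mod_cast htam.pos
  refine ⟨hell, hfin, L, ⟨hL1, hL2⟩, order_eq (Wt e) h1, hL3, fun x k => hsha k x,
    q * (Nat.card (Wt e).toAffine.Point : ℚ) ^ 2 * (q3 * T)⁻¹, ?_, ?_, ?_⟩
  · positivity
  · have h4' : padicValRat 2 ((Nat.card (Wt e).toAffine.Point : ℚ) ^ 2) = 0 := by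
      rw [padicValRat.pow, padic_unit_odd hodd]
      simp
    have h5 : padicValRat 2 ((q3 * T)⁻¹) = 0 := by
      rw [padicValRat.inv, padic_unit_mul hq3pos.ne' hT0 hq3v (padic_unit_odd htam)]
      simp
    exact padic_unit_mul (mul_ne_zero hq1.ne' (pow_ne_zero _ hC))
      (inv_ne_zero (mul_ne_zero hq3pos.ne' hT0)) (padic_unit_mul hq1.ne' (pow_ne_zero _ hC) hq2 h4')
      h5
  · rw [SBSD.bsdQuotient, hper, card_tors]
    have hP : (CM27.period F : ℂ) ≠ 0 := by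
      intro h0
      have h0' : (CM27.period F : ℝ) = 0 := by exact_mod_cast h0
      rw [h0', zero_div, Complex.ofReal_zero, mul_zero] at hq3
      rcases mul_eq_zero.1 hq3 with h5 | h5
      · exact hL3 h5
      · have h6 : (√|(discr F : ℝ)| : ℝ) = 0 := by exact_mod_cast h5
        rw [Real.sqrt_eq_zero (abs_nonneg _), abs_eq_zero] at h6
        exact NumberField.discr_ne_zero F (by exact_mod_cast h6)
    have hq3C : (q3 : ℂ) ≠ 0 := by exact_mod_cast hq3pos.ne'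
    have hTC : (T : ℂ) ≠ 0 := by exact_mod_cast hT0
    have hBC : ((√(N : ℝ) : ℝ) : ℂ) ≠ 0 := by
      have : (0 : ℝ) < √(N : ℝ) := by
        rw [Real.sqrt_pos]
        exact_mod_cast hNodd.pos
      exact_mod_cast this.ne'
    rw [hq3, ← hT]
    push_cast
    field_simp

end

/-- the fields between `ℚ(ω)` and `ℚ(ω)(E[m])` -/
theorem formula_m (m : ℕ) (hm : GoodLevel m) (F : IntermediateField ℚ ℂ) [NumberField F]
    (hw : w ∈ F) (hF : F ≤ torsionField (E ℂ) m) (n : ℕ) (h : Module.finrank ℚ F = 2 ^ n) :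
    SBSD.TwoPartFormula (E F) := by
  obtain ⟨S, hS, -, hSm⟩ := exists_S m hm
  obtain ⟨k, rfl⟩ := exists_succ F hw n h
  exact strong_Fq S hS F hw (hF.trans (torsionField_le m hm S hS hSm)) k h

/-- the twists over the fields between `ℚ(ω)` and `ℚ(ω)(E[m])` -/
theorem formula_tw_m (m : ℕ) (hm : GoodLevel m) (F : IntermediateField ℚ ℂ) [NumberField F]
    (hw : w ∈ F) (hF : F ≤ torsionField (E ℂ) m) (n : ℕ) (h : Module.finrank ℚ F = 2 ^ n)
    (d : 𝓞 F) (h4 : (4 : 𝓞 F) ∣ d - 1) (δ : ℂ) (hδ : δ ^ 2 = ((d : F) : ℂ)) (hδF : δ ∉ F)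
    (hδm : δ ∈ torsionField (E ℂ) m) (e : F) (he : 4 * e + 1 = (d : F) ^ 3) :
    SBSD.TwoPartFormula (Wt e) := by
  obtain ⟨S, hS, -, hSm⟩ := exists_S m hm
  obtain ⟨k, rfl⟩ := exists_succ F hw n h
  have hle := torsionField_le m hm S hS hSm
  obtain ⟨F', h1, h2, h3, h5⟩ := exists_F' F (LS S) (hF.trans hle) (d : F) δ hδ hδF (hle hδm)
  have : FiniteDimensional ℚ (LS S) := LS_finite S hS
  haveI : FiniteDimensional ℚ F' := x1_finite h2
  haveI : NumberField F' := ⟨⟩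
  exact strong_twq S hS F hw (hF.trans hle) k h F' h1 h2 (by rw [h5, h, pow_succ 2 (k + 1)]) d h4 δ
    hδ hδF h3 e he

end CF
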