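import Pool.Agent.MP_9ab903_nt.Tam
import Pool.Agent.MP_dfae13_nt.T.J4

set_option autoImplicit false

open IsDedekindDomain
open CM27
open scoped Classical

namespace CF

/-! ## [CF3-K0] additive reduction in odd residue characteristic (file CF3/K0.lean) -/

section
variable (A : Type) [CommRing A] [IsDomain A] [IsDiscreteValuationRing A]
  {K : Type} [Field K] [Algebra A K] [IsFractionRing A K]

/-- the valuation of `K` -/
noncomputable abbrev vl : Valuation K (WithZero (Multiplicative ℤ)) :=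
  (IsDiscreteValuationRing.maximalIdeal A).valuation K

/-- The integral equation `W` over `K` is `(2 y + a₁ x + a₃)² = 4 (T³ + a T² + b T + c)`, `T = x - s`,
with `a, b, c` in the maximal ideal. -/
structure Cusp (W : WeierstrassCurve K) (s a b c : A) : Prop where
  ha : a ∈ IsLocalRing.maximalIdeal A
  hb : b ∈ IsLocalRing.maximalIdeal A
  hc : c ∈ IsLocalRing.maximalIdeal A
  h2 : W.b₂ + 12 * algebraMap A K s = 4 * algebraMap A K a
  h4 : 2 * W.b₄ + 2 * W.b₂ * algebraMap A K s + 12 * algebraMap A K s ^ 2 = 4 * algebraMap A K b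
  h6 : SBSD.cubic W (algebraMap A K s) = 4 * algebraMap A K c

theorem Cusp.cubic {W : WeierstrassCurve K} {s a b c : A} (h : Cusp A W s a b c) (x : K) :
    SBSD.cubic W x = 4 * ((x - algebraMap A K s) ^ 3 + algebraMap A K a * (x - algebraMap A K s) ^ 2
      + algebraMap A K b * (x - algebraMap A K s) + algebraMap A K c) := by
  have h1 := h.h2
  have h2 := h.h4
  have h3 := h.h6
  simp only [SBSD.cubic] at h3 ⊢
  linear_combination (x - algebraMap A K s) ^ 2 * h1 + (x - algebraMap A K s) * h2 + h3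

/-- the points of nonsingular reduction: `T` is not in the maximal ideal -/
def Big (s : A) {W : WeierstrassCurve K} : W.toAffine.Point → Prop
  | .zero => True
  | .some x _ _ => 1 ≤ vl A (x - algebraMap A K s)

theorem k0_lt_one (t : A) : vl A (algebraMap A K t) < 1 ↔ t ∈ IsLocalRing.maximalIdeal A :=
  HeightOneSpectrum.valuation_lt_one_iff_mem _ _

theorem k0_lift (x : K) (h : vl A x ≤ 1) : ∃ t : A, algebraMap A K t = x :=
  IsDiscreteValuationRing.exists_lift_of_le_one h

/-- cube roots in the residue field of characteristic three -/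
theorem k0_cube [Finite (IsLocalRing.ResidueField A)] (h3 : (3 : A) ∈ IsLocalRing.maximalIdeal A)
    (g : A) : ∃ s : A, s ^ 3 - g ∈ IsLocalRing.maximalIdeal A := by
  have h3' : (3 : IsLocalRing.ResidueField A) = 0 := by
    have h := (IsLocalRing.residue_eq_zero_iff (3 : A)).2 h3
    rwa [map_ofNat] at h
  have hinj : Function.Injective (fun x : IsLocalRing.ResidueField A => x ^ 3) := by
    intro x y hxy
    have h1 : (x - y) ^ 3 = 0 := by
      have h2 : x ^ 3 = y ^ 3 := hxy
      linear_combination h2 - (x ^ 2 * y - x * y ^ 2) * h3'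
    exact sub_eq_zero.1 (pow_eq_zero_iff (three_ne_zero) |>.1 h1)
  obtain ⟨x, hx⟩ := (Finite.injective_iff_surjective.1 hinj) (IsLocalRing.residue A g)
  obtain ⟨s, rfl⟩ := IsLocalRing.residue_surjective x
  refine ⟨s, ?_⟩
  rw [← IsLocalRing.residue_eq_zero_iff, map_sub, map_pow, sub_eq_zero]
  exact hx

/-- the cusp of the integral equation -/
theorem k0_cusp (h2 : IsUnit (2 : A)) [Finite (IsLocalRing.ResidueField A)]
    (I : WeierstrassCurve A) (hΔ : I.Δ ∈ IsLocalRing.maximalIdeal A)
    (h4 : I.c₄ ∈ IsLocalRing.maximalIdeal A) :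
    ∃ s a b c : A, a ∈ IsLocalRing.maximalIdeal A ∧ b ∈ IsLocalRing.maximalIdeal A ∧
      c ∈ IsLocalRing.maximalIdeal A ∧ I.b₂ + 12 * s = 4 * a ∧
      2 * I.b₄ + 2 * I.b₂ * s + 12 * s ^ 2 = 4 * b ∧ SBSD.cubic I s = 4 * c := by
  obtain ⟨v, hv⟩ := h2.exists_left_inv
  have hprime : (IsLocalRing.maximalIdeal A).IsPrime := inferInstance
  by_cases h3 : (3 : A) ∈ IsLocalRing.maximalIdeal A
  · have hb2 : I.b₂ ∈ IsLocalRing.maximalIdeal A := by
      apply hprime.mem_of_pow_mem 2
      have h5 : I.b₂ ^ 2 = I.c₄ + 3 * (8 * I.b₄) := by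
        simp only [WeierstrassCurve.c₄]
        ring
      rw [h5]
      exact add_mem h4 (Ideal.mul_mem_right _ _ h3)
    have hb4 : I.b₄ ∈ IsLocalRing.maximalIdeal A := by
      apply hprime.mem_of_pow_mem 3
      have h5 : I.b₄ ^ 3 = v ^ 3 * (- I.Δ + I.b₂ * (- I.b₂ * I.b₈ + 9 * I.b₄ * I.b₆) +
          3 * (- 9 * I.b₆ ^ 2)) := by
        have h6 : v ^ 3 * 8 = 1 := by linear_combination (v ^ 2 * 4 + v * 2 + 1) * hv
        simp only [WeierstrassCurve.Δ]
        linear_combination - I.b₄ ^ 3 * h6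
      rw [h5]
      apply Ideal.mul_mem_left
      exact add_mem (add_mem (neg_mem hΔ) (Ideal.mul_mem_right _ _ hb2))
        (Ideal.mul_mem_right _ _ h3)
    obtain ⟨s, hs⟩ := k0_cube A h3 (- v ^ 2 * I.b₆)
    have h7 : v ^ 2 * 4 = 1 := by linear_combination (v * 2 + 1) * hv
    refine ⟨s, v ^ 2 * I.b₂ + 3 * s, v ^ 2 * (2 * I.b₄ + 2 * I.b₂ * s + 12 * s ^ 2),
      v ^ 2 * SBSD.cubic I s, ?_, ?_, ?_, ?_, ?_, ?_⟩
    · exact add_mem (Ideal.mul_mem_left _ _ hb2) (Ideal.mul_mem_right _ _ h3)
    · apply Ideal.mul_mem_left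
      have h8 : 2 * I.b₄ + 2 * I.b₂ * s + 12 * s ^ 2 =
          2 * I.b₄ + (I.b₂ * (2 * s)) + 3 * (4 * s ^ 2) := by ring
      rw [h8]
      exact add_mem (add_mem (Ideal.mul_mem_left _ _ hb4) (Ideal.mul_mem_right _ _ hb2))
        (Ideal.mul_mem_right _ _ h3)
    · have h8 : v ^ 2 * SBSD.cubic I s = (s ^ 3 - - v ^ 2 * I.b₆) + I.b₂ * (v ^ 2 * s ^ 2) +
          I.b₄ * (2 * v ^ 2 * s) := by
        simp only [SBSD.cubic]
        linear_combination s ^ 3 * h7
      rw [h8]
      exact add_mem (add_mem hs (Ideal.mul_mem_right _ _ hb2)) (Ideal.mul_mem_right _ _ hb4)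
    · linear_combination - I.b₂ * h7
    · linear_combination - (2 * I.b₄ + 2 * I.b₂ * s + 12 * s ^ 2) * h7
    · linear_combination - SBSD.cubic I s * h7
  · have h3u : IsUnit (3 : A) := by
      by_contra h5
      exact h3 ((IsLocalRing.mem_maximalIdeal _).2 h5)
    obtain ⟨w, hw⟩ := h3u.exists_left_inv
    have h12 : v ^ 2 * w * 12 = 1 := by
      linear_combination (v * 2 + 1) * w * 3 * hv + hw
    have hc6 : I.c₆ ∈ IsLocalRing.maximalIdeal A := by
      apply hprime.mem_of_pow_mem 2
      have h5 : I.c₆ ^ 2 = I.c₄ * I.c₄ ^ 2 - 1728 * I.Δ := by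
        linear_combination I.c_relation
      rw [h5]
      exact sub_mem (Ideal.mul_mem_right _ _ h4) (Ideal.mul_mem_left _ _ hΔ)
    have h7 : v ^ 2 * 4 = 1 := by linear_combination (v * 2 + 1) * hv
    obtain ⟨β, hβ⟩ : ∃ β : A, I.b₂ = 12 * β :=
      ⟨v ^ 2 * w * I.b₂, by linear_combination - I.b₂ * h12⟩
    have hu12 : IsUnit (12 : A) := IsUnit.of_mul_eq_one (v ^ 2 * w) (by rw [mul_comm]; exact h12)
    have hu216 : IsUnit (216 : A) := by
      have h8 : (216 : A) = 2 ^ 3 * 3 ^ 3 := by norm_num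
      rw [h8]
      exact (h2.pow 3).mul (h3u.pow 3)
    have hb : 2 * I.b₄ + 2 * I.b₂ * (-β) + 12 * (-β) ^ 2 ∈ IsLocalRing.maximalIdeal A := by
      rw [← Ideal.unit_mul_mem_iff_mem _ hu12]
      have h8 : 12 * (2 * I.b₄ + 2 * I.b₂ * (-β) + 12 * (-β) ^ 2) = - I.c₄ := by
        simp only [WeierstrassCurve.c₄]
        linear_combination (I.b₂ - 12 * β) * hβ
      rw [h8]
      exact neg_mem h4
    have hc : SBSD.cubic I (-β) ∈ IsLocalRing.maximalIdeal A := by
      rw [← Ideal.unit_mul_mem_iff_mem _ hu216]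
      have h8 : 216 * SBSD.cubic I (-β) = - I.c₆ := by
        simp only [SBSD.cubic, WeierstrassCurve.c₆]
        rw [hβ]
        ring
      rw [h8]
      exact neg_mem hc6
    refine ⟨-β, 0, v ^ 2 * (2 * I.b₄ + 2 * I.b₂ * (-β) + 12 * (-β) ^ 2),
      v ^ 2 * SBSD.cubic I (-β), zero_mem _, Ideal.mul_mem_left _ _ hb,
      Ideal.mul_mem_left _ _ hc, ?_, ?_, ?_⟩
    · linear_combination hβ
    · linear_combination - (2 * I.b₄ + 2 * I.b₂ * (-β) + 12 * (-β) ^ 2) * h7
    · linear_combination - SBSD.cubic I (-β) * h7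

/-- Additive reduction: `v(Δ) > 0`, `v(c₄) > 0`. Over the residue field `k` (finite of odd
characteristic) the cubic `f = X³ + (b₂/4) X² + (b₄/2) X + b₆/4` has a triple root `s`: if `3 ≠ 0` in `k`,
`s = - b₂ / 12` (`c₄ = b₂² - 24 b₄`); if `3 = 0`, `c₄ = b₂²`, `Δ = -8 b₄³`, and `s` is the cube root of
`- b₆ / 4`. The singular point of the reduction is `T = 0`, `2 y + a₁ x + a₃ = 0`; as
`(2 y + a₁ x + a₃)² = 4 T³` in `k`, a point is singular iff `T = 0`. (`not_nonsingular` in T/J2.lean,
`nonsingular_iff`.) -/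
theorem exists_cusp (h2 : IsUnit (2 : A)) [Finite (IsLocalRing.ResidueField A)]
    (W : WeierstrassCurve K) [W.IsMinimal A] (hΔ : vl A W.Δ < 1) (h4 : vl A W.c₄ < 1) :
    ∃ s a b c : A, Cusp A W s a b c ∧
      ∀ P : W.toAffine.Point, SBSD.NonsingularReduction A W P ↔ Big A s P := by
  have hinj : Function.Injective (algebraMap A K) := IsFractionRing.injective A K
  have hIW : (W.integralModel A).map (algebraMap A K) = W :=
    WeierstrassCurve.baseChange_integralModel_eq A W
  obtain ⟨I, hI⟩ : ∃ I, W.integralModel A = I := ⟨_, rfl⟩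
  rw [hI] at hIW
  have hΔ' : I.Δ ∈ IsLocalRing.maximalIdeal A := by
    rw [← k0_lt_one A (K := K), ← WeierstrassCurve.map_Δ, hIW]
    exact hΔ
  have h4' : I.c₄ ∈ IsLocalRing.maximalIdeal A := by
    rw [← k0_lt_one A (K := K), ← WeierstrassCurve.map_c₄, hIW]
    exact h4
  have e2 : algebraMap A K I.b₂ = W.b₂ := by rw [← WeierstrassCurve.map_b₂, hIW]
  have e4 : algebraMap A K I.b₄ = W.b₄ := by rw [← WeierstrassCurve.map_b₄, hIW]
  have e6 : algebraMap A K I.b₆ = W.b₆ := by rw [← WeierstrassCurve.map_b₆, hIW]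
  have ea1 : algebraMap A K I.a₁ = W.a₁ := by rw [← hIW]; rfl
  have ea3 : algebraMap A K I.a₃ = W.a₃ := by rw [← hIW]; rfl
  have hprime : (IsLocalRing.maximalIdeal A).IsPrime := inferInstance
  obtain ⟨v, hv⟩ := h2.exists_left_inv
  have h7 : v ^ 2 * 4 = 1 := by linear_combination (v * 2 + 1) * hv
  have hu4 : IsUnit (4 : A) := IsUnit.of_mul_eq_one (v ^ 2) (by rw [mul_comm]; exact h7)
  obtain ⟨s, a, b, c, ha, hb, hc, g2, g4, g6⟩ := k0_cusp A h2 I hΔ' h4'
  have hcusp : Cusp A W s a b c := by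
    refine ⟨ha, hb, hc, ?_, ?_, ?_⟩
    · have h := congrArg (algebraMap A K) g2
      simpa only [map_add, map_mul, map_ofNat, e2] using h
    · have h := congrArg (algebraMap A K) g4
      simpa only [map_add, map_mul, map_pow, map_ofNat, e2, e4] using h
    · have h := congrArg (algebraMap A K) g6
      simpa only [SBSD.cubic, map_add, map_mul, map_pow, map_ofNat, e2, e4, e6] using h
  -- the cubic over `A`
  have hcub : ∀ x : A, SBSD.cubic I x = 4 * ((x - s) ^ 3 + a * (x - s) ^ 2 + b * (x - s) + c) := by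
    intro x
    simp only [SBSD.cubic] at g6 ⊢
    linear_combination (x - s) ^ 2 * g2 + (x - s) * g4 + g6
  -- the equation
  have heqn : ∀ x y : A, W.toAffine.Equation (algebraMap A K x) (algebraMap A K y) →
      (2 * y + I.a₁ * x + I.a₃) ^ 2 = SBSD.cubic I x := by
    intro x y hxy
    have h1 : I.toAffine.Equation x y := by
      have h3 : (I.map (algebraMap A K)).toAffine.Equation (algebraMap A K x)
          (algebraMap A K y) := by
        rw [hIW]
        exact hxy
      exact (WeierstrassCurve.Affine.map_equation _ hinj x y).1 h3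
    rw [WeierstrassCurve.Affine.equation_iff] at h1
    simp only [SBSD.cubic, WeierstrassCurve.b₂, WeierstrassCurve.b₄, WeierstrassCurve.b₆]
    have h5 : y ^ 2 + I.a₁ * x * y + I.a₃ * y = x ^ 3 + I.a₂ * x ^ 2 + I.a₄ * x + I.a₆ := h1
    linear_combination 4 * h5
  refine ⟨s, a, b, c, hcusp, fun P => ?_⟩
  constructor
  · -- a point with `T` in the maximal ideal is singular
    intro hP
    rcases P with _ | ⟨x, y, hxy⟩
    · trivial
    · change 1 ≤ vl A (x - algebraMap A K s)
      by_contra hlt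
      rw [not_le] at hlt
      obtain ⟨t, ht⟩ := k0_lift A _ hlt.le
      have htm : t ∈ IsLocalRing.maximalIdeal A := by
        rw [← k0_lt_one A (K := K), ht]
        exact hlt
      have hx : algebraMap A K (s + t) = x := by rw [map_add, ht]; ring
      have hz2 : (2 * y + W.a₁ * x + W.a₃) ^ 2 = algebraMap A K (SBSD.cubic I (s + t)) := by
        have h1 := (WeierstrassCurve.Affine.equation_iff _ _).1 hxy.1
        have h5 : y ^ 2 + W.a₁ * x * y + W.a₃ * y = x ^ 3 + W.a₂ * x ^ 2 + W.a₄ * x + W.a₆ := h1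
        have h6 : algebraMap A K (SBSD.cubic I (s + t)) = SBSD.cubic W x := by
          simp only [SBSD.cubic, map_add, map_mul, map_pow, map_ofNat, e2, e4, e6, ← hx]
        rw [h6]
        simp only [SBSD.cubic, WeierstrassCurve.b₂, WeierstrassCurve.b₄, WeierstrassCurve.b₆]
        linear_combination 4 * h5
      have hzle : vl A (2 * y + W.a₁ * x + W.a₃) ≤ 1 := by
        have h1 : vl A (2 * y + W.a₁ * x + W.a₃) ^ 2 ≤ 1 := by
          rw [← map_pow, hz2]
          exact HeightOneSpectrum.valuation_le_one _ _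
        exact (pow_le_one_iff two_ne_zero).1 h1
      obtain ⟨z, hz⟩ := k0_lift A _ hzle
      have hvK : algebraMap A K v * 2 = 1 := by
        have h1 := congrArg (algebraMap A K) hv
        rwa [map_mul, map_ofNat, map_one] at h1
      obtain ⟨y', hy'⟩ : ∃ y' : A, algebraMap A K y' = y := by
        refine ⟨v * (z - I.a₁ * (s + t) - I.a₃), ?_⟩
        rw [map_mul, map_sub, map_sub, map_mul, hz, ea1, ea3, hx]
        linear_combination y * hvK
      subst hy'
      subst hx
      have hred := hP (s + t) y' rfl rfl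
      have hzA : z = 2 * y' + I.a₁ * (s + t) + I.a₃ := by
        apply hinj
        rw [hz]
        simp only [map_add, map_mul, map_ofNat, ea1, ea3]
      have hzm : z ∈ IsLocalRing.maximalIdeal A := by
        apply hprime.mem_of_pow_mem 2
        have h1 := heqn _ _ hxy.1
        rw [hzA, h1, hcub]
        apply Ideal.mul_mem_left
        have h8 : (s + t - s) ^ 3 + a * (s + t - s) ^ 2 + b * (s + t - s) + c =
            t * (t ^ 2 + a * t + b) + c := by ring
        rw [h8]
        exact add_mem (Ideal.mul_mem_right _ _ htm) hc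
      have hz0 : IsLocalRing.residue A z = 0 := (IsLocalRing.residue_eq_zero_iff _).2 hzm
      have hDer : I.a₁ * y' - (3 * (s + t) ^ 2 + 2 * I.a₂ * (s + t) + I.a₄) ∈
          IsLocalRing.maximalIdeal A := by
        rw [← Ideal.unit_mul_mem_iff_mem _ hu4]
        have h8 : 4 * (I.a₁ * y' - (3 * (s + t) ^ 2 + 2 * I.a₂ * (s + t) + I.a₄)) =
            z * (2 * I.a₁) - (a * (8 * t) + b * 4 + t * (12 * t)) := by
          rw [hzA]
          simp only [WeierstrassCurve.b₂, WeierstrassCurve.b₄] at g2 g4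
          linear_combination - 2 * t * g2 - g4
        rw [h8]
        exact sub_mem (Ideal.mul_mem_right _ _ hzm) (add_mem (add_mem
          (Ideal.mul_mem_right _ _ ha) (Ideal.mul_mem_right _ _ hb))
          (Ideal.mul_mem_right _ _ htm))
      have hDer0 : IsLocalRing.residue A
          (I.a₁ * y' - (3 * (s + t) ^ 2 + 2 * I.a₂ * (s + t) + I.a₄)) = 0 :=
        (IsLocalRing.residue_eq_zero_iff _).2 hDer
      rw [WeierstrassCurve.Affine.nonsingular_iff] at hred
      have r1 : (W.reduction A).toAffine.a₁ = IsLocalRing.residue A I.a₁ := by rw [← hI]; rfl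
      have r2 : (W.reduction A).toAffine.a₂ = IsLocalRing.residue A I.a₂ := by rw [← hI]; rfl
      have r3 : (W.reduction A).toAffine.a₃ = IsLocalRing.residue A I.a₃ := by rw [← hI]; rfl
      have r4 : (W.reduction A).toAffine.a₄ = IsLocalRing.residue A I.a₄ := by rw [← hI]; rfl
      rcases hred.2 with h9 | h9
      · apply h9
        rw [r1, r2, r4]
        simp only [map_sub, map_add, map_mul, map_pow, map_ofNat] at hDer0 ⊢
        linear_combination hDer0
      · apply h9
        rw [r1, r3]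
        rw [hzA] at hz0
        simp only [map_add, map_mul, map_ofNat] at hz0 ⊢
        linear_combination hz0
  · intro hP
    by_contra hns
    obtain ⟨x, y, hxy, rfl, hz⟩ := CMT.not_nonsingular (A := A) W P hns
    rw [hI] at hz
    change 1 ≤ vl A (algebraMap A K x - algebraMap A K s) at hP
    rw [← map_sub] at hP
    have h1 := heqn _ _ hxy.1
    have hT : x - s ∈ IsLocalRing.maximalIdeal A := by
      apply hprime.mem_of_pow_mem 3
      rw [← Ideal.unit_mul_mem_iff_mem _ hu4]
      have h8 : 4 * (x - s) ^ 3 = (2 * y + I.a₁ * x + I.a₃) * (2 * y + I.a₁ * x + I.a₃) -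
          4 * (a * (x - s) ^ 2 + b * (x - s) + c) := by
        rw [hcub] at h1
        linear_combination - h1
      rw [h8]
      exact sub_mem (Ideal.mul_mem_left _ _ hz) (Ideal.mul_mem_left _ _ (add_mem (add_mem
        (Ideal.mul_mem_right _ _ ha) (Ideal.mul_mem_right _ _ hb)) hc))
    exact absurd ((k0_lt_one A (K := K) _).2 hT) (not_lt.2 hP)

end

end CF
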