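import Pool.Agent.MP_9ab903_nt.CF3.K0

set_option autoImplicit false

open IsDedekindDomain
open CM27
open scoped Classical

namespace CF

/-! ## [CF3-K1] the group of points of nonsingular reduction is `2`-divisible (file CF3/K1.lean) -/

/-- Explicit halving of a point. -/
theorem K1_double {K : Type} [Field K] (W : WeierstrassCurve K) (h2 : (2 : K) ≠ 0)
    (s a b c X Y T η : K)
    (e2 : W.b₂ + 12 * s = 4 * a) (e4 : 2 * W.b₄ + 2 * W.b₂ * s + 12 * s ^ 2 = 4 * b)
    (e6 : SBSD.cubic W s = 4 * c)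
    (hY : Y ^ 2 = X ^ 3 + a * X ^ 2 + b * X + c) (hY0 : Y ≠ 0)
    (hq : (3 * X ^ 2 + 2 * a * X + b) ^ 2 = 4 * Y ^ 2 * (T + a + 2 * X))
    (hη : 2 * (Y * η) = -(2 * Y ^ 2 + (3 * X ^ 2 + 2 * a * X + b) * (T - X)))
    (x y : K) (hx : x = T + s) (hy : 2 * y + W.a₁ * x + W.a₃ = 2 * η)
    (hP : W.toAffine.Nonsingular x y) :
    ∃ hQ : W.toAffine.Nonsingular (X + s) (Y - (W.a₁ * (X + s) + W.a₃) / 2),
      (WeierstrassCurve.Affine.Point.some x y hP : W.toAffine.Point) =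
        2 • (WeierstrassCurve.Affine.Point.some _ _ hQ : W.toAffine.Point) := by
  have h4 : (4 : K) ≠ 0 := by
    have : (4 : K) = 2 * 2 := by norm_num
    rw [this]
    exact mul_ne_zero h2 h2
  have eb2 : W.b₂ = W.a₁ ^ 2 + 4 * W.a₂ := rfl
  have eb4 : W.b₄ = 2 * W.a₄ + W.a₁ * W.a₃ := rfl
  have eb6 : W.b₆ = W.a₃ ^ 2 + 4 * W.a₆ := rfl
  have e6' : 4 * s ^ 3 + W.b₂ * s ^ 2 + 2 * W.b₄ * s + W.b₆ = 4 * c := e6
  set yQ := Y - (W.a₁ * (X + s) + W.a₃) / 2 with hyQ
  have hyQ2 : 2 * yQ = 2 * Y - (W.a₁ * (X + s) + W.a₃) := by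
    rw [hyQ]
    field_simp
  have heq : W.toAffine.Equation (X + s) yQ := by
    rw [WeierstrassCurve.Affine.equation_iff]
    apply mul_left_cancel₀ h4
    have : (2 * yQ + W.a₁ * (X + s) + W.a₃) ^ 2 = 4 * Y ^ 2 := by
      have h5 : 2 * yQ + W.a₁ * (X + s) + W.a₃ = 2 * Y := by linear_combination hyQ2
      rw [h5]
      ring
    rw [eb2] at e2
    rw [eb2, eb4] at e4
    rw [eb2, eb4, eb6] at e6'
    linear_combination this + 4 * hY - (X ^ 2) * e2 - X * e4 - e6'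
  have hQ : W.toAffine.Nonsingular (X + s) yQ := by
    rw [WeierstrassCurve.Affine.nonsingular_iff]
    refine ⟨heq, Or.inr ?_⟩
    intro h
    apply mul_ne_zero h2 hY0
    linear_combination h - hyQ2
  refine ⟨hQ, ?_⟩
  have hne : yQ ≠ W.toAffine.negY (X + s) yQ := by
    intro h
    apply mul_ne_zero h2 hY0
    simp only [WeierstrassCurve.Affine.negY] at h
    linear_combination h - hyQ2
  rw [two_nsmul, WeierstrassCurve.Affine.Point.add_self_of_Y_ne hne]
  set ℓ := W.toAffine.slope (X + s) (X + s) yQ yQ with hℓ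
  have hsl : ℓ * (2 * Y) = 3 * (X + s) ^ 2 + 2 * W.a₂ * (X + s) + W.a₄ - W.a₁ * yQ := by
    rw [hℓ, WeierstrassCurve.Affine.slope_of_Y_ne rfl hne]
    have h5 : yQ - W.toAffine.negY (X + s) yQ = 2 * Y := by
      simp only [WeierstrassCurve.Affine.negY]
      linear_combination hyQ2
    rw [h5, div_mul_cancel₀ _ (mul_ne_zero h2 hY0)]
  -- `lam = ℓ + a₁/2`
  have hlam : (2 * ℓ + W.a₁) * Y = 3 * X ^ 2 + 2 * a * X + b := by
    rw [eb2] at e2 e4
    rw [eb4] at e4
    apply mul_left_cancel₀ h4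
    linear_combination 4 * hsl - 2 * W.a₁ * hyQ2 + 2 * X * e2 + e4
  have hX : W.toAffine.addX (X + s) (X + s) ℓ = x := by
    simp only [WeierstrassCurve.Affine.addX]
    apply mul_left_cancel₀ h4
    apply mul_left_cancel₀ (pow_ne_zero 2 hY0)
    rw [eb2] at e2
    have h5 : ((2 * ℓ + W.a₁) * Y) ^ 2 = 4 * Y ^ 2 * (T + a + 2 * X) := by
      rw [hlam, hq]
    rw [hx]
    linear_combination h5 - Y ^ 2 * e2
  have hYY : W.toAffine.addY (X + s) (X + s) yQ ℓ = y := by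
    simp only [WeierstrassCurve.Affine.addY, WeierstrassCurve.Affine.negAddY,
      WeierstrassCurve.Affine.negY, hX]
    apply mul_left_cancel₀ h2
    apply mul_left_cancel₀ hY0
    rw [hx] at hy ⊢
    linear_combination -(T - X) * hlam - Y * hyQ2 - Y * hy - hη
  rw [WeierstrassCurve.Affine.Point.some.injEq]
  exact ⟨hX.symm, hYY.symm⟩

section
variable (A : Type) [CommRing A] [IsDomain A] [IsDiscreteValuationRing A]
  {K : Type} [Field K] [Algebra A K] [IsFractionRing A K]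

/-- Hensel's lemma for the quartic equation of the halves. -/
theorem K1_root (h2 : IsUnit (2 : A)) [HenselianLocalRing A] (a b c τ : A)
    (ha : a ∈ IsLocalRing.maximalIdeal A) (hb : b ∈ IsLocalRing.maximalIdeal A)
    (hc : c ∈ IsLocalRing.maximalIdeal A) :
    ∃ Z : A, IsUnit Z ∧ 256 * Z ^ 4 - 256 * Z ^ 3 - 16 * (2 * b * τ ^ 2 + 4 * a * τ) * Z ^ 2
      - (16 * b * τ ^ 2 + 32 * c * τ ^ 3) * Z + (b ^ 2 * τ ^ 4 - 4 * c * τ ^ 3 - 4 * a * c * τ ^ 4)
      = 0 := by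
  obtain ⟨u, hu⟩ := (h2.pow 8).exists_right_inv
  set p : A := -(16 * (2 * b * τ ^ 2 + 4 * a * τ) * u) with hp
  set q : A := -((16 * b * τ ^ 2 + 32 * c * τ ^ 3) * u) with hq
  set r : A := (b ^ 2 * τ ^ 4 - 4 * c * τ ^ 3 - 4 * a * c * τ ^ 4) * u with hr
  have hpm : p ∈ IsLocalRing.maximalIdeal A := by
    have : p = a * (-(64 * τ * u)) + b * (-(32 * τ ^ 2 * u)) := by rw [hp]; ring
    rw [this]
    exact Ideal.add_mem _ (Ideal.mul_mem_right _ _ ha) (Ideal.mul_mem_right _ _ hb)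
  have hqm : q ∈ IsLocalRing.maximalIdeal A := by
    have : q = c * (-(32 * τ ^ 3 * u)) + b * (-(16 * τ ^ 2 * u)) := by rw [hq]; ring
    rw [this]
    exact Ideal.add_mem _ (Ideal.mul_mem_right _ _ hc) (Ideal.mul_mem_right _ _ hb)
  have hrm : r ∈ IsLocalRing.maximalIdeal A := by
    have : r = c * ((- 4 * τ ^ 3 - 4 * a * τ ^ 4) * u) + b * (b * τ ^ 4 * u) := by rw [hr]; ring
    rw [this]
    exact Ideal.add_mem _ (Ideal.mul_mem_right _ _ hc) (Ideal.mul_mem_right _ _ hb)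
  set F : Polynomial A := Polynomial.X ^ 4 + (-Polynomial.X ^ 3 + Polynomial.C p * Polynomial.X ^ 2
    + Polynomial.C q * Polynomial.X + Polynomial.C r) with hF
  have hmon : F.Monic := by
    rw [hF]
    apply Polynomial.monic_X_pow_add
    have : (-Polynomial.X ^ 3 + Polynomial.C p * Polynomial.X ^ 2
      + Polynomial.C q * Polynomial.X + Polynomial.C r : Polynomial A).degree ≤ 3 := by
      compute_degree
    exact lt_of_le_of_lt this (by norm_num)
  have h1 : F.eval 1 ∈ IsLocalRing.maximalIdeal A := by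
    have : F.eval 1 = p + q + r := by
      rw [hF]
      simp
      ring
    rw [this]
    exact Ideal.add_mem _ (Ideal.add_mem _ hpm hqm) hrm
  have h3 : IsUnit (F.derivative.eval 1) := by
    have : F.derivative.eval 1 = 1 + (2 * p + q) := by
      rw [hF]
      simp [Polynomial.derivative_pow]
      ring
    rw [this]
    have h5 : 2 * p + q ∈ IsLocalRing.maximalIdeal A :=
      Ideal.add_mem _ (Ideal.mul_mem_left _ _ hpm) hqm
    by_contra hn
    have h6 : (1 : A) ∈ IsLocalRing.maximalIdeal A := by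
      have h7 : 1 + (2 * p + q) ∈ IsLocalRing.maximalIdeal A := hn
      have h8 := Ideal.sub_mem _ h7 h5
      simp at h8
    exact (Ideal.ne_top_iff_one _).1 (IsLocalRing.maximalIdeal.isMaximal A).ne_top h6
  obtain ⟨Z, hZ, hZ1⟩ := HenselianLocalRing.is_henselian F hmon 1 h1 h3
  refine ⟨Z, ?_, ?_⟩
  · by_contra hn
    have h7 : Z ∈ IsLocalRing.maximalIdeal A := hn
    have h8 := Ideal.sub_mem _ h7 hZ1
    have h6 : (1 : A) ∈ IsLocalRing.maximalIdeal A := by simp at h8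
    exact (Ideal.ne_top_iff_one _).1 (IsLocalRing.maximalIdeal.isMaximal A).ne_top h6
  · have h9 : Z ^ 4 + (-Z ^ 3 + p * Z ^ 2 + q * Z + r) = 0 := by
      have := hZ
      rw [Polynomial.IsRoot.def, hF] at this
      simpa using this
    rw [hp, hq, hr] at h9
    linear_combination (256 : A) * h9 + (16 * (2 * b * τ ^ 2 + 4 * a * τ) * Z ^ 2
      + (16 * b * τ ^ 2 + 32 * c * τ ^ 3) * Z - (b ^ 2 * τ ^ 4 - 4 * c * τ ^ 3 - 4 * a * c * τ ^ 4))
      * hu

/-- `T` large implies `f(T) ≠ 0` -/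
theorem K1_ne (a b c τ : A)
    (ha : a ∈ IsLocalRing.maximalIdeal A) (hb : b ∈ IsLocalRing.maximalIdeal A)
    (hc : c ∈ IsLocalRing.maximalIdeal A) (T : K) (hT : T * algebraMap A K τ = 1) :
    T ^ 3 + algebraMap A K a * T ^ 2 + algebraMap A K b * T + algebraMap A K c ≠ 0 := by
  intro h0
  have h1 : algebraMap A K (1 + (a * τ + b * τ ^ 2 + c * τ ^ 3)) = 0 := by
    have h2 : algebraMap A K (1 + (a * τ + b * τ ^ 2 + c * τ ^ 3)) =
        (T ^ 3 + algebraMap A K a * T ^ 2 + algebraMap A K b * T + algebraMap A K c) *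
          (algebraMap A K τ) ^ 3 := by
      simp only [map_add, map_mul, map_pow, map_one]
      have h3 : T ^ 2 * algebraMap A K τ ^ 2 = 1 := by rw [← mul_pow, hT, one_pow]
      have h4 : T ^ 3 * algebraMap A K τ ^ 3 = 1 := by rw [← mul_pow, hT, one_pow]
      linear_combination -h4 - algebraMap A K a * algebraMap A K τ * h3 -
        algebraMap A K b * algebraMap A K τ ^ 2 * hT
    rw [h2, h0, zero_mul]
  have h5 : 1 + (a * τ + b * τ ^ 2 + c * τ ^ 3) = 0 :=
    (IsFractionRing.injective A K) (by rw [h1, map_zero])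
  have h6 : a * τ + b * τ ^ 2 + c * τ ^ 3 ∈ IsLocalRing.maximalIdeal A :=
    Ideal.add_mem _ (Ideal.add_mem _ (Ideal.mul_mem_right _ _ ha) (Ideal.mul_mem_right _ _ hb))
      (Ideal.mul_mem_right _ _ hc)
  have h7 : (1 : A) ∈ IsLocalRing.maximalIdeal A := by
    have : (1 : A) = -(a * τ + b * τ ^ 2 + c * τ ^ 3) := by linear_combination h5
    rw [this]
    exact Ideal.neg_mem_iff _ |>.2 h6
  exact (Ideal.ne_top_iff_one _).1 (IsLocalRing.maximalIdeal.isMaximal A).ne_top h7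

/-- Sketch. With `η = (2 y + a₁ x + a₃) / 2`, `T = x - s`: `η² = f(T) = T³ + a T² + b T + c`. Let
`(T₀, η₀)` be given, `1 ≤ |T₀|`; so `T₀⁻¹ ∈ A`, `η₀ ≠ 0` (`η₀² = T₀³ (1 + …)`). Equation for `X = T(Q)`:
`f'(X)² = 4 f(X) (T₀ + a + 2 X)`, a quartic equation; with `X = 4 T₀ Z` and divided by `(4 T₀)⁴` it is
`Z⁴ - Z³ + (coefficients in the maximal ideal: multiples of a / T₀, b / T₀², c / T₀³, …) = 0`, with the
simple root `Z = 1` in the residue field: Hensel (`HenselianLocalRing.is_henselian`) gives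
`Z ∈ A`, `Z ≡ 1`; `f(X) ≠ 0` as `|X| = |T₀| ≥ 1` (`2` is a unit). Put `h = T₀ - X`,
`Y = - (f(X) + f'(X) h / 2) / η₀`; as `f(T₀) = f(X) + f'(X) h + h² (T₀ + 2 X + a)` one gets
`(f(X) + f'(X) h / 2)² = f(X) f(T₀) = f(X) η₀²`, so `Y² = f(X)`. `Q = (X, Y)` and `2 Q = (T₀, η₀)`:
the slope is `λ = f'(X) / (2 Y)`, `λ² = T₀ + a + 2 X`, `- (Y + λ h) = η₀` (multiply by `Y`). -/
theorem halving (h2 : IsUnit (2 : A)) [HenselianLocalRing A] (W : WeierstrassCurve K)
    [W.IsMinimal A] (s a b c : A) (hc : Cusp A W s a b c) (P : W.toAffine.Point)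
    (hP : Big A s P) : ∃ Q : W.toAffine.Point, Big A s Q ∧ P = 2 • Q := by
  have h2K : (2 : K) ≠ 0 := by
    intro h0
    apply h2.ne_zero
    apply IsFractionRing.injective A K
    rw [map_ofNat, map_zero, h0]
  have h4K : (4 : K) ≠ 0 := by
    have : (4 : K) = 2 * 2 := by norm_num
    rw [this]
    exact mul_ne_zero h2K h2K
  rcases P with _ | ⟨x, y, hxy⟩
  · exact ⟨0, trivial, by rw [smul_zero]; rfl⟩
  have hT1 : 1 ≤ vl A (x - algebraMap A K s) := hP
  set T : K := x - algebraMap A K s with hT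
  have hx : x = T + algebraMap A K s := by rw [hT]; ring
  have hT0 : T ≠ 0 := by
    intro h0
    rw [h0, map_zero] at hT1
    exact absurd hT1 (by simp)
  obtain ⟨τ, hτ⟩ := IsDiscreteValuationRing.exists_lift_of_le_one (A := A) (K := K) (x := T⁻¹) (by
    rw [map_inv₀]
    exact inv_le_one_of_one_le₀ hT1)
  have hTτ : T * algebraMap A K τ = 1 := by rw [hτ, mul_inv_cancel₀ hT0]
  set η : K := (2 * y + W.a₁ * x + W.a₃) / 2 with hη
  have hη2 : 2 * y + W.a₁ * x + W.a₃ = 2 * η := by rw [hη]; field_simp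
  set a' := algebraMap A K a with ha'
  set b' := algebraMap A K b with hb'
  set c' := algebraMap A K c with hc'
  set s' := algebraMap A K s with hs'
  have hfT : η ^ 2 = T ^ 3 + a' * T ^ 2 + b' * T + c' := by
    apply mul_left_cancel₀ h4K
    have h3 := hc.cubic A x
    rw [← hT] at h3
    rw [← h3]
    have h5 := (WeierstrassCurve.Affine.equation_iff _ _).1 hxy.1
    have h6 : (2 * y + W.a₁ * x + W.a₃) ^ 2 = 4 * η ^ 2 := by rw [hη2]; ring
    rw [← h6]
    simp only [SBSD.cubic, WeierstrassCurve.b₂, WeierstrassCurve.b₄, WeierstrassCurve.b₆]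
    linear_combination 4 * h5
  have hfT0 : T ^ 3 + a' * T ^ 2 + b' * T + c' ≠ 0 := K1_ne A a b c τ hc.ha hc.hb hc.hc T hTτ
  have hη0 : η ≠ 0 := by
    intro h0
    apply hfT0
    rw [← hfT, h0]
    ring
  obtain ⟨Z, hZu, hZ⟩ := K1_root A h2 a b c τ hc.ha hc.hb hc.hc
  have h4Z : IsUnit (4 * Z) := by
    have : (4 : A) = 2 * 2 := by norm_num
    rw [this]
    exact (h2.mul h2).mul hZu
  obtain ⟨w, hw⟩ := h4Z.exists_right_inv
  set X : K := T * algebraMap A K (4 * Z) with hX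
  have hXτ : X * algebraMap A K (τ * w) = 1 := by
    rw [hX, map_mul _ τ w]
    calc T * algebraMap A K (4 * Z) * (algebraMap A K τ * algebraMap A K w)
        = (T * algebraMap A K τ) * (algebraMap A K (4 * Z) * algebraMap A K w) := by ring
      _ = 1 := by rw [hTτ, ← map_mul, hw, map_one, mul_one]
  have hfX0 : X ^ 3 + a' * X ^ 2 + b' * X + c' ≠ 0 := K1_ne A a b c (τ * w) hc.ha hc.hb hc.hc X hXτ
  have hquart : (3 * X ^ 2 + 2 * a' * X + b') ^ 2 =
      4 * (X ^ 3 + a' * X ^ 2 + b' * X + c') * (T + a' + 2 * X) := by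
    have h3 := congrArg (algebraMap A K) hZ
    simp only [map_add, map_mul, map_pow, map_sub, map_ofNat, map_zero] at h3
    have h5 : X = 4 * T * algebraMap A K Z := by
      rw [hX, map_mul, map_ofNat]; ring
    have h6 : T ^ 4 * (256 * algebraMap A K Z ^ 4 - 256 * algebraMap A K Z ^ 3 -
        16 * (2 * b' * (T⁻¹) ^ 2 + 4 * a' * T⁻¹) * algebraMap A K Z ^ 2
        - (16 * b' * T⁻¹ ^ 2 + 32 * c' * T⁻¹ ^ 3) * algebraMap A K Z +
        (b' ^ 2 * T⁻¹ ^ 4 - 4 * c' * T⁻¹ ^ 3 - 4 * a' * c' * T⁻¹ ^ 4)) = 0 := by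
      rw [← hτ, h3, mul_zero]
    rw [h5]
    field_simp at h6
    linear_combination h6
  set h : K := T - X with hh
  set f : K := X ^ 3 + a' * X ^ 2 + b' * X + c' with hf
  set f' : K := 3 * X ^ 2 + 2 * a' * X + b' with hf'
  set Y : K := -(f + f' * h / 2) / η with hYdef
  have hYη : Y * η = -(f + f' * h / 2) := by rw [hYdef, div_mul_cancel₀ _ hη0]
  have hsq : (f + f' * h / 2) ^ 2 = f * η ^ 2 := by
    apply mul_left_cancel₀ h4K
    have e1 : (4 : K) * (f + f' * h / 2) ^ 2 = (2 * f + f' * h) ^ 2 := by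
      field_simp
      ring
    have e2 : (2 * f + f' * h) ^ 2 = 4 * f ^ 2 + 4 * f * f' * h + f' ^ 2 * h ^ 2 := by ring
    rw [e1, e2, hquart, hfT, hh, hf, hf']
    ring
  have hYsq : Y ^ 2 = f := by
    apply mul_right_cancel₀ (pow_ne_zero 2 hη0)
    rw [← mul_pow, hYη, neg_sq, hsq]
  have hY0 : Y ≠ 0 := by
    intro h0
    apply hfX0
    rw [← hYsq, h0]
    ring
  obtain ⟨hQ, hPQ⟩ := K1_double W h2K s' a' b' c' X Y T η hc.h2 hc.h4 hc.h6 hYsq hY0
    (by rw [hYsq]; exact hquart) (by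
      rw [hYη, hYsq, ← hf', ← hh]
      field_simp) x y hx hη2 hxy
  refine ⟨_, ?_, hPQ⟩
  change 1 ≤ vl A (X + s' - s')
  rw [add_sub_cancel_right, hX, map_mul]
  have h5 : vl A (algebraMap A K (4 * Z)) = 1 := by
    apply le_antisymm
    · exact IsDedekindDomain.HeightOneSpectrum.valuation_le_one _ _
    · by_contra hlt
      rw [not_le] at hlt
      have h6 := (IsDedekindDomain.HeightOneSpectrum.valuation_lt_one_iff_mem
        (K := K) (IsDiscreteValuationRing.maximalIdeal A) (4 * Z)).1 hlt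
      exact (IsLocalRing.mem_maximalIdeal _).1 h6 h4Z
  rw [h5, mul_one]
  exact hT1

end

end CF
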