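import Pool.Agent.MP_9ab903_nt.CF.G5
import Pool.Agent.MP_9ab903_nt.CF.H2

/-!
# Rationality of the BSD quotient over the fields of 2-power degree: definitions
-/

set_option autoImplicit false

open NumberField IsDedekindDomain
open CM27 CMT
open scoped ComplexConjugate Classical

namespace CF

/-- The embeddings of `F` into `ℂ` which fix `ω`. -/
abbrev EmbK (F : IntermediateField ℚ ℂ) (hw : w ∈ F) : Type :=
  {φ : F →+* ℂ // φ ⟨w, hw⟩ = w}

/-- The action of `σ ∈ AutK` on the embeddings, `φ ↦ σ ∘ φ`. -/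
noncomputable def permF (F : IntermediateField ℚ ℂ) (hw : w ∈ F) (σ : AutK) :
    Equiv.Perm (EmbK F hw) where
  toFun φ := ⟨((σ : ℂ ≃+* ℂ) : ℂ →+* ℂ).comp φ.1, by
    change (σ : ℂ ≃+* ℂ) (φ.1 ⟨w, hw⟩) = w
    rw [φ.2]
    exact σ.2⟩
  invFun φ := ⟨(((σ⁻¹ : AutK) : ℂ ≃+* ℂ) : ℂ →+* ℂ).comp φ.1, by
    change ((σ⁻¹ : AutK) : ℂ ≃+* ℂ) (φ.1 ⟨w, hw⟩) = w
    rw [φ.2]
    exact (σ⁻¹).2⟩
  left_inv φ := by
    apply Subtype.ext
    ext x
    change (σ : ℂ ≃+* ℂ).symm ((σ : ℂ ≃+* ℂ) (φ.1 x)) = φ.1 x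
    exact (σ : ℂ ≃+* ℂ).symm_apply_apply _
  right_inv φ := by
    apply Subtype.ext
    ext x
    change (σ : ℂ ≃+* ℂ) ((σ : ℂ ≃+* ℂ).symm (φ.1 x)) = φ.1 x
    exact (σ : ℂ ≃+* ℂ).apply_symm_apply _

theorem permF_apply (F : IntermediateField ℚ ℂ) (hw : w ∈ F) (σ : AutK) (φ : EmbK F hw) (x : F) :
    (permF F hw σ φ).1 x = (σ : ℂ ≃+* ℂ) (φ.1 x) := rfl

instance EmbK_finite (F : IntermediateField ℚ ℂ) [NumberField F] (hw : w ∈ F) :
    Finite (EmbK F hw) := by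
  have : Finite (F →+* ℂ) := Finite.of_equiv (F →ₐ[ℚ] ℂ) (RingHom.equivRatAlgHom (R := F) (S := ℂ)).symm
  exact Subtype.finite

noncomputable instance EmbK_fintype (F : IntermediateField ℚ ℂ) [NumberField F] (hw : w ∈ F) :
    Fintype (EmbK F hw) := Fintype.ofFinite _

/-- The determinant of the matrix `φ_i (b_j)`. -/
noncomputable def DD (F : IntermediateField ℚ ℂ) (hw : w ∈ F) (N : ℕ) (e : Fin N ≃ EmbK F hw)
    (b : Fin N → F) : ℂ := (Matrix.of fun i j => (e i).1 (b j) : Matrix (Fin N) (Fin N) ℂ).det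

/-- The discriminant of a basis differs from the discriminant of the field by a square. -/
theorem discr_basis (K : Type) [Field K] [NumberField K] {ι : Type} [Fintype ι]
    [DecidableEq ι] (c : Module.Basis ι ℚ K) :
    ∃ r : ℚ, r ≠ 0 ∧ Algebra.discr ℚ c = r ^ 2 * (discr K : ℚ) := by
  set b := integralBasis K with hb
  let f : ι ≃ Module.Free.ChooseBasisIndex ℤ (𝓞 K) :=
    c.indexEquiv b
  have h1 : Algebra.discr ℚ c = Algebra.discr ℚ (c.reindex f) := by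
    rw [Module.Basis.coe_reindex]
    exact (Algebra.discr_reindex ℚ c f).symm
  have h2 := Algebra.discr_of_matrix_vecMul (A := ℚ) b (b.toMatrix (c.reindex f))
  rw [Module.Basis.toMatrix_map_vecMul] at h2
  rw [h1, h2, hb, ← coe_discr]
  refine ⟨_, ?_, rfl⟩
  intro h0
  have h3 := b.toMatrix_mul_toMatrix_flip (c.reindex f)
  have h4 := congrArg Matrix.det h3
  rw [Matrix.det_mul, h0, zero_mul, Matrix.det_one] at h4
  exact zero_ne_one h4

end CF
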