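import Pool.Agent.MP_9ab903_nt.CF3.RDefs
import Pool.Agent.MP_9ab903_nt.CF.C1

set_option autoImplicit false

open NumberField IsDedekindDomain
open CM27 CMT
open scoped ComplexConjugate Classical

namespace CF

/-! ## [CF3-RS1] the product of the values of all characters at `a` is the sign of the permutation
`x ↦ a x` (file CF3/RS1.lean) -/

/-- Proof 1. The sign: `A` is the disjoint union of the `card A / f` cosets of `⟨a⟩`, `f = orderOf a`,
each is a cycle of length `f`: `sign (mulLeft a) = (-1) ^ ((f - 1) (card A / f))`. The product: by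
`prod_char A a u` (MP_ae0bd0_nt/CM/D2.lean: `∏ χ, (1 - χ a * u) = (1 - u ^ f) ^ (card A / f)`) for all
`u`; compare the coefficients of `u ^ card A` (polynomial identity, or divide by `u ^ card A` and let
`u → ∞`, or put `u = 1/v`, multiply by `v ^ card A` and set `v = 0` by continuity):
`∏ (-χ a) = (-1) ^ (card A / f)`, the number of characters is `card A`, so
`∏ χ a = (-1) ^ (card A + card A / f)`, `card A = f (card A / f)`.
Proof 2. Both sides are the determinant of the linear map `f ↦ f (a · )` on the functions `A → ℂ`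
(`Matrix.det_permutation`; the characters are a basis of eigenvectors: `linearIndependent_monoidHom`,
the number of characters is `card A` as in `c1_card_dual`).
Proof 3. Both sides are homomorphisms `A → {±1}` ... (any proof is fine). -/
theorem rs1_group (A : Type) [CommGroup A] [Fintype A] [Fintype (A →* ℂˣ)] (a : A) :
    ∏ χ : A →* ℂˣ, ((χ a : ℂˣ) : ℂ) = (((Equiv.Perm.sign (Equiv.mulLeft a) : ℤˣ) : ℤ) : ℂ) := by
  have : NeZero (Monoid.exponent A) := ⟨Monoid.exponent_ne_zero_of_finite⟩
  have : HasEnoughRootsOfUnity ℂ (Monoid.exponent A) := inferInstance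
  have hcard : Fintype.card (A →* ℂˣ) = Fintype.card A := by
    rw [← Nat.card_eq_fintype_card, ← Nat.card_eq_fintype_card]
    exact CommGroup.card_monoidHom_of_hasEnoughRootsOfUnity A ℂ
  let e : (A →* ℂˣ) ≃ A := Fintype.equivOfCardEq hcard
  -- the character table
  let M : Matrix A A ℂ := Matrix.of fun i x => ((e.symm i x : ℂˣ) : ℂ)
  let P : Matrix A A ℂ := (Equiv.toPEquiv (Equiv.mulLeft a)).toMatrix
  have hP : P.det = (((Equiv.Perm.sign (Equiv.mulLeft a) : ℤˣ) : ℤ) : ℂ) :=
    Matrix.det_permutation (Equiv.mulLeft a)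
  have hM : IsUnit M := by
    rw [← Matrix.linearIndependent_rows_iff_isUnit]
    have h1 := linearIndependent_monoidHom A ℂ
    have h2 : Function.Injective (fun i : A => (Units.coeHom ℂ).comp (e.symm i)) := by
      intro i j h
      apply e.symm.injective
      refine MonoidHom.ext (fun x => Units.ext ?_)
      exact DFunLike.congr_fun h x
    have h3 := LinearIndependent.comp h1 _ h2
    have h4 : M.row = (fun f : A →* ℂ => (f : A → ℂ)) ∘ (fun i : A => (Units.coeHom ℂ).comp (e.symm i)) := by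
      funext i x
      rfl
    rw [h4]
    exact h3
  have hdet : M.det ≠ 0 := by
    have := (Matrix.isUnit_iff_isUnit_det M).1 hM
    exact this.ne_zero
  have hcomm : M * P.transpose = Matrix.diagonal (fun i => ((e.symm i a : ℂˣ) : ℂ)) * M := by
    ext i x
    rw [Matrix.diagonal_mul, Matrix.mul_apply]
    simp only [Matrix.transpose_apply, P, PEquiv.toMatrix_apply, Equiv.toPEquiv_apply, Option.mem_def,
      Option.some.injEq, Equiv.coe_mulLeft, mul_ite, mul_one, mul_zero, M, Matrix.of_apply]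
    rw [Finset.sum_ite_eq]
    simp
  have h3 := congrArg Matrix.det hcomm
  rw [Matrix.det_mul, Matrix.det_mul, Matrix.det_transpose, Matrix.det_diagonal, hP, mul_comm] at h3
  have h4 := mul_right_cancel₀ hdet h3
  rw [h4]
  exact Fintype.prod_equiv e _ _ (fun χ => by simp)

section gen

variable {A Ξ : Type} [CommGroup A] [Finite A] (e : Ξ → A → ℂ) (hom : Ξ → A →* ℂˣ)
  (inv : (A →* ℂˣ) → Ξ) (h1 : ∀ χ a, e (inv χ) a = (χ a : ℂˣ)) (h2 : ∀ X a, ((hom X a : ℂˣ) : ℂ) = e X a)
  (h3 : ∀ X Y : Ξ, (∀ a, e X a = e Y a) → X = Y)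

include h1 h2 h3 in
theorem rs1_gen (H : Subgroup A) (T : Finset Ξ) (hT : ∀ X, X ∈ T ↔ ∀ a ∈ H, e X a = 1)
    [Fintype (A ⧸ H)] (a : A) :
    ∏ X ∈ T, e X a =
      (((Equiv.Perm.sign (MulAction.toPerm a : Equiv.Perm (A ⧸ H)) : ℤˣ) : ℤ) : ℂ) := by
  have hfd := c1_finite_dual H
  let _ : Fintype (A ⧸ H →* ℂˣ) := Fintype.ofFinite _
  rw [← c1_bij e hom inv h1 h2 h3 H T hT (fun X => e X a)
    (fun χ => (χ (QuotientGroup.mk a) : ℂ)) (fun χ => by
      simp only [h1, MonoidHom.comp_apply, QuotientGroup.mk'_apply])]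
  have h4 := rs1_group (A ⧸ H) (QuotientGroup.mk a)
  have h5 : (MulAction.toPerm a : Equiv.Perm (A ⧸ H)) =
      Equiv.mulLeft (QuotientGroup.mk a : A ⧸ H) := by
    refine Equiv.ext (fun x => ?_)
    obtain ⟨b, rfl⟩ := QuotientGroup.mk_surjective x
    rfl
  rw [h5]
  exact h4.trans (by congr; exact Subsingleton.elim _ _)

end gen

/-- By `c1_bij` (CF/C1.lean; see `grp` and `c1_grp` there: state it for a general commutative group
`A` with `e hom inv h1 h2 h3`, in the section `gen` style, then apply it with `e := ev S`,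
`hom := c1_hom S`, `inv := c1_inv S`, `h1 := c1_ev_inv S`, `h2 := c1_hom_apply S`,
`h3 := c1_ev_inj S`; instance search for `Group (AS S ⧸ H)` fails, so stay general) the left side is
`∏ χ : A ⧸ H →* ℂˣ, χ (mk a)`; use `rs1_group (A ⧸ H) (mk a)`; `MulAction.toPerm a` on `A ⧸ H` is the
permutation `Equiv.mulLeft (mk a)`. -/
theorem rs1_sign (S : Finset Eis) (hS : ∀ b ∈ S, GoodEis b) (H : Subgroup (AS S))
    (T : Finset (XX S)) (hT : ∀ X, X ∈ T ↔ ∀ a ∈ H, ev S X a = 1) [Fintype (AS S ⧸ H)] (a : AS S) :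
    ∏ X ∈ T, ev S X a =
      (((Equiv.Perm.sign (MulAction.toPerm a : Equiv.Perm (AS S ⧸ H)) : ℤˣ) : ℤ) : ℂ) := by
  have := c1_finAS S hS
  exact @rs1_gen (AS S) (XX S) inferInstance this (ev S) (c1_hom S) (c1_inv S) (c1_ev_inv S)
    (c1_hom_apply S) (c1_ev_inj S) H T hT _ a

end CF
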