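import Pool.Agent.MP_9ab903_nt.CF3.RDefs
import Pool.Agent.MP_9ab903_nt.CF.D2

set_option autoImplicit false

open NumberField IsDedekindDomain
open CM27 CMT
open scoped ComplexConjugate Classical

namespace CF

/-! ## [CF3-RS2] the determinant `DD` and the discriminant (file CF3/RS2.lean; `DD`, `EmbK`, `permF`,
`discr_basis` are in RDefs.lean) -/

/-- `σ (det (φ_i (b_j))) = det (σ φ_i (b_j))` (`RingHom.map_det`) and `σ ∘ φ_i = φ_{π i}` with
`π = e.trans (permF F hw σ) |>.trans e.symm`; `Matrix.det_permute` and `Equiv.Perm.sign_symm_trans_trans`. -/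
theorem DD_gal (F : IntermediateField ℚ ℂ) [NumberField F] (hw : w ∈ F) (N : ℕ)
    (e : Fin N ≃ EmbK F hw) (b : Fin N → F) (σ : AutK) :
    (σ : ℂ ≃+* ℂ) (DD F hw N e b) =
      (((Equiv.Perm.sign (permF F hw σ) : ℤˣ) : ℤ) : ℂ) * DD F hw N e b := by
  set M : Matrix (Fin N) (Fin N) ℂ := Matrix.of fun i j => (e i).1 (b j) with hM
  let π : Equiv.Perm (Fin N) := (e.symm.symm.trans (permF F hw σ)).trans e.symm
  have h1 : Equiv.Perm.sign π = Equiv.Perm.sign (permF F hw σ) :=
    Equiv.Perm.sign_symm_trans_trans (permF F hw σ) e.symm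
  have h2 : ((σ : ℂ ≃+* ℂ) : ℂ →+* ℂ).mapMatrix M = M.submatrix π id := by
    ext i j
    rw [RingHom.mapMatrix_apply, Matrix.map_apply, Matrix.submatrix_apply, hM, Matrix.of_apply,
      Matrix.of_apply]
    have h3 : e (π i) = permF F hw σ (e i) := by
      simp [π]
    rw [h3, permF_apply]
    rfl
  have h3 : (σ : ℂ ≃+* ℂ) M.det = (((σ : ℂ ≃+* ℂ) : ℂ →+* ℂ).mapMatrix M).det :=
    RingHom.map_det ((σ : ℂ ≃+* ℂ) : ℂ →+* ℂ) M
  change (σ : ℂ ≃+* ℂ) M.det = _ * M.det
  rw [h3, h2, Matrix.det_permute, h1]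

theorem r2_alg (F : IntermediateField ℚ ℂ) [NumberField F] (φ : F →+* ℂ) (x : F) :
    φ x ∈ algebraicClosure ℚ ℂ := by
  rw [mem_algebraicClosure_iff]
  have h1 : IsAlgebraic ℚ x := Algebra.IsAlgebraic.isAlgebraic x
  exact h1.algHom (RingHom.toRatAlgHom φ)

/-- Images of algebraic numbers are algebraic; sums and products (`Matrix.det_apply`; work in
`algebraicClosure ℚ ℂ` as in `PF_rat`, CF/N2.lean: `mem_algebraicClosure_iff`, `sum_mem`, `prod_mem`). -/
theorem DD_alg (F : IntermediateField ℚ ℂ) [NumberField F] (hw : w ∈ F) (N : ℕ)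
    (e : Fin N ≃ EmbK F hw) (b : Fin N → F) : IsAlgebraic ℚ (DD F hw N e b) := by
  rw [← mem_algebraicClosure_iff, DD, Matrix.det_apply]
  refine sum_mem fun σ _ => ?_
  rw [Units.smul_def]
  refine zsmul_mem (prod_mem fun i _ => ?_) _
  exact r2_alg F _ _

/-- the complex conjugate of an embedding -/
noncomputable def r2_conj (F : IntermediateField ℚ ℂ) (φ : F →+* ℂ) : F →+* ℂ :=
  (starRingEnd ℂ).comp φ

theorem r2_conj_apply (F : IntermediateField ℚ ℂ) (φ : F →+* ℂ) (x : F) :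
    r2_conj F φ x = conj (φ x) := rfl

theorem r2_conj_conj (F : IntermediateField ℚ ℂ) (φ : F →+* ℂ) : r2_conj F (r2_conj F φ) = φ := by
  ext x
  rw [r2_conj_apply, r2_conj_apply, Complex.conj_conj]

theorem r2_w_ne : conj w ≠ w := by
  intro h
  have h1 := Complex.conj_eq_iff_im.1 h
  have h2 := w_sq
  have h3 := congrArg Complex.re h2
  rw [Complex.mul_re, h1, Complex.sub_re, Complex.neg_re, Complex.one_re, w_re] at h3
  norm_num at h3

theorem r2_cases (F : IntermediateField ℚ ℂ) (hw : w ∈ F) (φ : F →+* ℂ) :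
    φ ⟨w, hw⟩ = w ∨ φ ⟨w, hw⟩ = conj w := by
  apply a7_w_cases
  have h : (⟨w, hw⟩ : F) * ⟨w, hw⟩ = -1 - ⟨w, hw⟩ := Subtype.ext w_sq
  rw [← map_mul, h, map_sub, map_neg, map_one]

/-- all embeddings -/
noncomputable def r2_all (F : IntermediateField ℚ ℂ) (hw : w ∈ F) :
    EmbK F hw ⊕ EmbK F hw ≃ (F →ₐ[ℚ] ℂ) :=
  Equiv.ofBijective (Sum.elim (fun φ => RingHom.toRatAlgHom φ.1)
    (fun φ => RingHom.toRatAlgHom (r2_conj F φ.1))) (by
    constructor
    · rintro (a | a) (b | b) hab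
      · congr 1
        apply Subtype.ext
        ext x
        exact DFunLike.congr_fun hab x
      · exfalso
        have h : a.1 ⟨w, hw⟩ = conj (b.1 ⟨w, hw⟩) := DFunLike.congr_fun hab _
        rw [a.2, b.2] at h
        exact r2_w_ne h.symm
      · exfalso
        have h : conj (a.1 ⟨w, hw⟩) = b.1 ⟨w, hw⟩ := DFunLike.congr_fun hab _
        rw [a.2, b.2] at h
        exact r2_w_ne h
      · congr 1
        apply Subtype.ext
        ext x
        have h : conj (a.1 x) = conj (b.1 x) := DFunLike.congr_fun hab x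
        exact (starRingEnd ℂ).injective h
    · intro φ
      rcases r2_cases F hw φ.toRingHom with h | h
      · exact ⟨Sum.inl ⟨φ.toRingHom, h⟩, by ext x; rfl⟩
      · refine ⟨Sum.inr ⟨r2_conj F φ.toRingHom, ?_⟩, ?_⟩
        · rw [r2_conj_apply, h, Complex.conj_conj]
        · ext x
          change conj (conj (φ x)) = φ x
          rw [Complex.conj_conj])

theorem r2_all_inl (F : IntermediateField ℚ ℂ) (hw : w ∈ F) (φ : EmbK F hw) (x : F) :
    r2_all F hw (Sum.inl φ) x = φ.1 x := rfl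

theorem r2_all_inr (F : IntermediateField ℚ ℂ) (hw : w ∈ F) (φ : EmbK F hw) (x : F) :
    r2_all F hw (Sum.inr φ) x = conj (φ.1 x) := rfl

theorem r2_card (F : IntermediateField ℚ ℂ) [NumberField F] (hw : w ∈ F) (N : ℕ)
    (hN : Module.finrank ℚ F = 2 * N) : Fintype.card (EmbK F hw) = N := by
  have h1 := Fintype.card_congr (r2_all F hw)
  rw [AlgHom.card ℚ F ℂ, hN, Fintype.card_sum] at h1
  omega

/-- the basis `1, ω` of `KK` -/
theorem r2_indep : LinearIndependent ℚ (![1, ⟨w, d2_w_mem⟩] : Fin 2 → KK) := by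
  rw [LinearIndependent.pair_iff]
  intro s t h
  have h1 : (s : ℂ) + t * w = 0 := by
    have h2 := congrArg (fun x : KK => (x : ℂ)) h
    simp only [Algebra.smul_def, mul_one] at h2
    exact h2
  have h3 : t = 0 := by
    have h4 := congrArg Complex.im h1
    have h5 : w.im ≠ 0 := fun h => r2_w_ne (Complex.conj_eq_iff_im.2 h)
    rw [Complex.add_im, Complex.mul_im] at h4
    simp only [Complex.ratCast_im, Complex.ratCast_re, zero_mul, add_zero, zero_add,
      Complex.zero_im] at h4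
    rcases mul_eq_zero.1 h4 with h6 | h6
    · exact_mod_cast h6
    · exact absurd h6 h5
  refine ⟨?_, h3⟩
  rw [h3, Rat.cast_zero, zero_mul, add_zero] at h1
  exact_mod_cast h1

/-- the basis `b_j, ω b_j` of `F` over `ℚ` -/
theorem r2_basis (F : IntermediateField ℚ ℂ) [NumberField F] (hw : w ∈ F) (N : ℕ)
    (hN : Module.finrank ℚ F = 2 * N) :
    ∃ (b : Fin N → F) (c : Module.Basis (Fin N ⊕ Fin N) ℚ F),
      (∀ j, c (Sum.inl j) = b j) ∧ ∀ j, c (Sum.inr j) = ⟨w, hw⟩ * b j := by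
  letI := algK F hw
  haveI := d2_tower F hw
  haveI := d2_finite F hw
  have hfr : Module.finrank KK F = N := by
    have := d2_finrank F hw
    omega
  let b0 : Module.Basis (Fin N) KK F := Module.finBasisOfFinrankEq KK F hfr
  let k0 : Module.Basis (Fin 2) ℚ KK :=
    basisOfLinearIndependentOfCardEqFinrank r2_indep (by rw [d2_finrank_KK]; rfl)
  have hk0 : ⇑k0 = ![1, ⟨w, d2_w_mem⟩] := coe_basisOfLinearIndependentOfCardEqFinrank _ _
  let ε : Fin 2 × Fin N ≃ Fin N ⊕ Fin N :=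
    (Equiv.prodCongr finTwoEquiv (Equiv.refl _)).trans (Equiv.boolProdEquivSum _)
  refine ⟨b0, (k0.smulTower b0).reindex ε, ?_, ?_⟩
  · intro j
    rw [Module.Basis.reindex_apply, Module.Basis.smulTower_apply]
    have : ε.symm (Sum.inl j) = (0, j) := rfl
    rw [this, hk0]
    simp
  · intro j
    rw [Module.Basis.reindex_apply, Module.Basis.smulTower_apply]
    have : ε.symm (Sum.inr j) = (1, j) := rfl
    rw [this, hk0]
    simp only [Matrix.cons_val_one, Matrix.cons_val_fin_one]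
    rw [Algebra.smul_def]
    rfl

theorem r2_det {n : Type} [Fintype n] [DecidableEq n] (M : Matrix n n ℂ) :
    (Matrix.fromBlocks M (w • M) (M.map conj) (conj w • M.map conj)).det =
      M.det * conj M.det * (conj w - w) ^ Fintype.card n := by
  have h1 : Matrix.fromBlocks M (w • M) (M.map conj) (conj w • M.map conj) =
      Matrix.fromBlocks M 0 0 (M.map conj) *
        Matrix.fromBlocks 1 (w • (1 : Matrix n n ℂ)) 1 (conj w • (1 : Matrix n n ℂ)) := by
    rw [Matrix.fromBlocks_multiply]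
    simp
  rw [h1, Matrix.det_mul, Matrix.det_fromBlocks_zero₂₁, Matrix.det_fromBlocks_one₁₁]
  congr 1
  · congr 1
    exact (RingHom.map_det (starRingEnd ℂ) M).symm
  · rw [Matrix.one_mul, ← sub_smul, Matrix.det_smul, Matrix.det_one, mul_one]

/-- Let `[F : ℚ] = 2 N`, so `[F : KK] = N` (`d2_finrank`, `d2_tower`, CF/D2.lean; `algK F hw` is the
algebra structure). Let `b` be a `KK`-basis of `F` (`Module.finBasisOfFinrankEq`) and
`c (j, 0) = b_j`, `c (j, 1) = ω b_j`, a `ℚ`-basis of `F` (`Module.Basis.smulTower` with the basis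
`1, ω` of `KK` over `ℚ`, or linear independence and the dimension). Each embedding `F → ℂ` sends `ω` to
`ω` or `conj ω` (`a7_w_cases`), so the embeddings are the `φ ∈ EmbK F hw` and the `conj ∘ φ`:
`EmbK F hw ≃ Fin N` (number: `Fintype.card (F →+* ℂ) = 2 N = 2 card EmbK`, or `AlgHom.card KK F ℂ`),
`Fin N ⊕ Fin N ≃ (F →ₐ[ℚ] ℂ)`. By `Algebra.discr_eq_det_embeddingsMatrixReindex_pow_two` the
discriminant of `c` is the square of the determinant of the block matrix
`[[M, ω M], [conj M, conj ω conj M]]`, `M = (φ_i (b_j))`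
`= [[M, 0], [0, conj M]] * [[1, ω], [1, conj ω]]` (`Matrix.fromBlocks_multiply`,
`Matrix.det_fromBlocks_zero₂₁`, `Matrix.det_fromBlocks_one₁₁`: the second has determinant
`det ((conj ω - ω) 1) = (conj ω - ω) ^ N`), i.e. up to sign `D * conj D * (conj ω - ω) ^ N` with
`D = DD F hw N e b`; `(conj ω - ω) ^ 2 = -3`. So `discr c = (D conj D) ^ 2 (-3) ^ N`. By `discr_basis`
this is `r ^ 2 * discr F`, `r ≠ 0`: take absolute values and square roots:
`‖D‖ ^ 2 * √3 ^ N = |r| * √|discr F|`, `s = |r|`; `D ≠ 0` because the right side is not `0`. -/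
theorem DD_disc (F : IntermediateField ℚ ℂ) [NumberField F] (hw : w ∈ F) (N : ℕ)
    (hN : Module.finrank ℚ F = 2 * N) :
    ∃ (e : Fin N ≃ EmbK F hw) (b : Fin N → F), DD F hw N e b ≠ 0 ∧
      ∃ s : ℚ, 0 < s ∧ ‖DD F hw N e b‖ ^ 2 * √3 ^ N = (s : ℝ) * √|(discr F : ℝ)| := by
  obtain ⟨b, c, hc1, hc2⟩ := r2_basis F hw N hN
  let e : Fin N ≃ EmbK F hw := (Fintype.equivFinOfCardEq (r2_card F hw N hN)).symm
  let E : Fin N ⊕ Fin N ≃ (F →ₐ[ℚ] ℂ) := (Equiv.sumCongr e e).trans (r2_all F hw)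
  set M : Matrix (Fin N) (Fin N) ℂ := Matrix.of fun i j => (e i).1 (b j) with hM
  have hD : DD F hw N e b = M.det := rfl
  have h1 := Algebra.discr_eq_det_embeddingsMatrixReindex_pow_two ℚ ℂ (⇑c) E
  have h2 : (Algebra.embeddingsMatrixReindex ℚ ℂ (⇑c) E).transpose =
      Matrix.fromBlocks M (w • M) (M.map conj) (conj w • M.map conj) := by
    ext i j
    rw [Matrix.transpose_apply]
    change E i (c j) = _
    rcases i with i | i <;> rcases j with j | j
    · rw [hc1]
      rfl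
    · rw [hc2]
      have : E (Sum.inl i) (⟨w, hw⟩ * b j) = (e i).1 (⟨w, hw⟩ * b j) := rfl
      rw [this, map_mul, (e i).2]
      rfl
    · rw [hc1]
      rfl
    · rw [hc2]
      have : E (Sum.inr i) (⟨w, hw⟩ * b j) = conj ((e i).1 (⟨w, hw⟩ * b j)) := rfl
      rw [this, map_mul, (e i).2, map_mul]
      rfl
  rw [← Matrix.det_transpose, h2, r2_det, Fintype.card_fin] at h1
  obtain ⟨r, hr, hrd0⟩ := discr_basis F c
  have hrd : Algebra.discr ℚ ⇑c = r ^ 2 * (discr F : ℚ) := hrd0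
  rw [hrd] at h1
  have h3 := congrArg norm h1
  have hw2 : ‖conj w - w‖ ^ 2 = 3 := by
    have h4 : (conj w - w) ^ 2 = -3 := by
      have hw1 : conj w = -1 - w := by
        apply Complex.ext
        · rw [Complex.conj_re, Complex.sub_re, Complex.neg_re, Complex.one_re, w_re]; norm_num
        · rw [Complex.conj_im, Complex.sub_im, Complex.neg_im, Complex.one_im]; ring
      rw [hw1]
      have := w_sq
      linear_combination 4 * this
    rw [← norm_pow, h4]
    simp
  have hd0 : (discr F : ℝ) ≠ 0 := by exact_mod_cast discr_ne_zero F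
  have h5 : (‖M.det‖ ^ 2 * √3 ^ N) ^ 2 = ((|r| : ℚ) : ℝ) ^ 2 * |(discr F : ℝ)| := by
    rw [norm_pow, norm_mul, norm_mul, norm_pow, Complex.norm_conj] at h3
    have h6 : ‖(algebraMap ℚ ℂ) (r ^ 2 * (discr F : ℚ))‖ = ((|r| : ℚ) : ℝ) ^ 2 * |(discr F : ℝ)| := by
      rw [eq_ratCast]
      push_cast
      rw [norm_mul, norm_pow]
      congr 1
      · rw [← Complex.ofReal_ratCast, Complex.norm_real, Real.norm_eq_abs]
      · rw [← Complex.ofReal_intCast, Complex.norm_real, Real.norm_eq_abs]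
    rw [← h6, h3]
    have h7 : (√3 ^ N) ^ 2 = (‖conj w - w‖ ^ N) ^ 2 := by
      rw [← pow_mul, ← pow_mul, mul_comm N 2, pow_mul, pow_mul, hw2, Real.sq_sqrt (by norm_num)]
    rw [mul_pow, h7]
    ring
  have hs : (0 : ℝ) < ((|r| : ℚ) : ℝ) := by
    exact_mod_cast abs_pos.2 hr
  have h6 : ‖M.det‖ ^ 2 * √3 ^ N = ((|r| : ℚ) : ℝ) * √|(discr F : ℝ)| := by
    apply (pow_left_inj₀ (by positivity) (by positivity) two_ne_zero).1
    rw [h5, mul_pow, Real.sq_sqrt (abs_nonneg _)]
  refine ⟨e, b, ?_, |r|, abs_pos.2 hr, ?_⟩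
  · rw [hD]
    intro h0
    rw [h0, norm_zero, zero_pow two_ne_zero, zero_mul] at h6
    have : 0 < ((|r| : ℚ) : ℝ) * √|(discr F : ℝ)| :=
      mul_pos hs (Real.sqrt_pos.2 (abs_pos.2 hd0))
    linarith
  · rw [hD]
    exact h6

end CF
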