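import Pool.Agent.MP_9ab903_nt.CF3.RDefs
import Pool.Agent.MP_9ab903_nt.CF3.RS1
import Pool.Agent.MP_9ab903_nt.CF.D2

set_option autoImplicit false

open NumberField IsDedekindDomain
open CM27 CMT
open scoped ComplexConjugate Classical

namespace CF

/-! ## [CF3-RS3] the product of the values of the characters of `F` is the sign of the action on the
embeddings of `F` (file CF3/RS3.lean; uses `rs1_sign` of RS1.lean) -/

theorem rs3_fixKK (F : IntermediateField ℚ ℂ) (hw : w ∈ F) (φ : F →+* ℂ) (hφ : φ ⟨w, hw⟩ = w)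
    (x : ℂ) (hx : x ∈ KK) : φ ⟨x, KK_le F hw hx⟩ = x := by
  have hx' : x ∈ IntermediateField.adjoin ℚ {w} := hx
  induction hx' using IntermediateField.adjoin_induction with
  | mem x h =>
    rw [Set.mem_singleton_iff] at h
    subst h
    exact hφ
  | algebraMap q =>
    have e : (⟨algebraMap ℚ ℂ q, KK_le F hw hx⟩ : F) = algebraMap ℚ F q := rfl
    rw [e]
    simp
  | add x y hx1 hy1 h1 h2 =>
    have e : (⟨x + y, KK_le F hw hx⟩ : F) = ⟨x, KK_le F hw hx1⟩ + ⟨y, KK_le F hw hy1⟩ := rfl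
    rw [e, map_add, h1 hx1, h2 hy1]
  | inv x hx1 h1 =>
    have e : (⟨x⁻¹, KK_le F hw hx⟩ : F) = (⟨x, KK_le F hw hx1⟩ : F)⁻¹ := rfl
    rw [e, map_inv₀, h1 hx1]
  | mul x y hx1 hy1 h1 h2 =>
    have e : (⟨x * y, KK_le F hw hx⟩ : F) = ⟨x, KK_le F hw hx1⟩ * ⟨y, KK_le F hw hy1⟩ := rfl
    rw [e, map_mul, h1 hx1, h2 hy1]

/-- Every embedding of `F` over `ℚ(ω)` is induced by some `σ ∈ AutK`. Proof: `F` is stable under `AutK`
(`d2_stable`) and `F / KK` is Galois (`d2_galois`, `galois_F`), so an embedding `φ` over `KK` has image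
`F` and is `φ = incl ∘ τ` with an automorphism `τ` of `F`, `τ ω = ω`; `extend_aut F hw τ` (CF/H2.lean)
gives `σ`. (Or directly: extend `φ : F →+* ℂ` to an automorphism of `ℂ` as in the proof of
`extend_aut`.) -/
theorem rs3_surj (S : Finset Eis) (hS : ∀ b ∈ S, GoodEis b) (F : IntermediateField ℚ ℂ)
    [NumberField F] (hw : w ∈ F) (hF : F ≤ LS S) (φ : EmbK F hw) :
    ∃ σ : AutK, ∀ x : F, φ.1 x = (σ : ℂ ≃+* ℂ) x := by
  letI := algK F hw
  haveI := d2_finite F hw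
  haveI := d2_galois S hS F hw hF
  haveI : IsScalarTower KK F ℂ := IsScalarTower.of_algebraMap_eq fun _ => rfl
  let φ' : F →ₐ[KK] ℂ :=
    { φ.1 with
      commutes' := fun r => rs3_fixKK F hw φ.1 φ.2 r r.2 }
  let τ : F ≃ₐ[KK] F := φ'.restrictNormal' F
  have hτ : ∀ x : F, ((τ x : F) : ℂ) = φ.1 x := fun x => φ'.restrictNormal_commutes F x
  obtain ⟨σ, hσ⟩ := extend_aut F hw τ.toRingEquiv (by
    apply Subtype.ext
    change ((τ ⟨w, hw⟩ : F) : ℂ) = w
    rw [hτ]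
    exact φ.2)
  refine ⟨σ, fun x => ?_⟩
  rw [hσ x]
  exact (hτ x).symm

/-- With `H = (fixer F).map (th S)`: the map `σ ↦ σ|_F` induces a bijection `AS S ⧸ H ≃ EmbK F hw`,
`th S σ ↦ σ|_F`: `th S` is surjective (`th_surjective`, CF/G4.lean); `th S σ ∈ H ↔ σ ∈ fixer F`
(`g5_mem_map`, CF/G5.lean); surjective by `rs3_surj`. It transports `MulAction.toPerm (th S σ)` on
`AS S ⧸ H` to `permF F hw σ`, so the signs are equal (`Equiv.Perm.sign_symm_trans_trans` or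
`Equiv.Perm.sign_eq_sign_of_equiv`); `rs1_sign` with `T = chF S F` (`hT` as in the proof of `PF_gal`,
CF/N2.lean, by `mem_chF`). -/
theorem rs3_sign (S : Finset Eis) (hS : ∀ b ∈ S, GoodEis b) (F : IntermediateField ℚ ℂ)
    [NumberField F] (hw : w ∈ F) (hF : F ≤ LS S) (σ : AutK) :
    ∏ X ∈ chF S F, ev S X (th S σ) = (((Equiv.Perm.sign (permF F hw σ) : ℤˣ) : ℤ) : ℂ) := by
  set H : Subgroup (AS S) := (fixer F).map (th S) with hH
  have hk : ∀ ρ : AutK, th S ρ ∈ H → ρ ∈ fixer F := by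
    rintro ρ ⟨ρ', hρ', e⟩
    have h1 : th S (ρ'⁻¹ * ρ) = 1 := by
      rw [map_mul, map_inv, e, inv_mul_cancel]
    rw [th_eq_one_iff S hS] at h1
    have h2 : ρ'⁻¹ * ρ ∈ fixer F := fun x hx => h1 x (hF hx)
    have h3 := (fixer F).mul_mem hρ' h2
    rwa [mul_inv_cancel_left] at h3
  choose s hs using rs3_surj S hS F hw hF
  let g : EmbK F hw → AS S ⧸ H := fun φ => ((th S (s φ) : AS S) : AS S ⧸ H)
  have hg : ∀ (φ : EmbK F hw) (ρ : AutK), (∀ x : F, φ.1 x = (ρ : ℂ ≃+* ℂ) x) →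
      g φ = ((th S ρ : AS S) : AS S ⧸ H) := by
    intro φ ρ h
    refine QuotientGroup.eq.2 ?_
    rw [← map_inv, ← map_mul]
    refine Subgroup.mem_map_of_mem _ ?_
    intro x hx
    change (s φ : ℂ ≃+* ℂ).symm ((ρ : ℂ ≃+* ℂ) x) = x
    rw [RingEquiv.symm_apply_eq]
    have h1 := h ⟨x, hx⟩
    have h2 := hs φ ⟨x, hx⟩
    rw [← h1]
    exact h2
  have hinj : Function.Injective g := by
    intro φ ψ h
    have h1 := QuotientGroup.eq.1 h
    rw [← map_inv, ← map_mul] at h1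
    have h2 := hk _ h1
    apply Subtype.ext
    ext x
    rw [hs φ x, hs ψ x]
    have h3 : (s φ : ℂ ≃+* ℂ).symm ((s ψ : ℂ ≃+* ℂ) x) = x := h2 x x.2
    rw [RingEquiv.symm_apply_eq] at h3
    exact h3.symm
  have hsurj : Function.Surjective g := by
    intro q
    obtain ⟨a, rfl⟩ := QuotientGroup.mk_surjective q
    obtain ⟨ρ, rfl⟩ := th_surjective S hS a
    refine ⟨⟨((ρ : ℂ ≃+* ℂ) : ℂ →+* ℂ).comp (algebraMap F ℂ), ρ.2⟩, ?_⟩
    exact hg _ ρ fun x => rfl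
  haveI := g4_AS_finite S hS
  haveI : Fintype (AS S ⧸ H) := Fintype.ofEquiv _ (Equiv.ofBijective g ⟨hinj, hsurj⟩)
  rw [rs1_sign S hS H (chF S F) (g5_mem_map S hS F) (th S σ)]
  congr 2
  symm
  refine Equiv.Perm.sign_eq_sign_of_equiv _ _ (Equiv.ofBijective g ⟨hinj, hsurj⟩) fun φ => ?_
  change g (permF F hw σ φ) = (th S σ) • g φ
  rw [hg (permF F hw σ φ) (σ * s φ) (fun x => by
    rw [permF_apply, hs φ x]
    rfl), map_mul]
  rfl

end CF
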