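import Pool.Agent.MP_9ab903_nt.CF3.RS2
import Pool.Agent.MP_9ab903_nt.CF3.RS3
import Pool.Agent.MP_9ab903_nt.CF.AF
import Pool.Agent.MP_9ab903_nt.CF.FinalCF

set_option autoImplicit false

open NumberField IsDedekindDomain ArithmeticFunction
open CM27 CMT
open scoped ComplexConjugate Classical

namespace CF

/-! ## rationality of `L(E/F, 1) √|disc F| / Ω` (file CF3/RV.lean) -/

section
variable (S : Finset Eis) (hS : ∀ b ∈ S, GoodEis b) (F : IntermediateField ℚ ℂ) [NumberField F]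
  (hw : w ∈ F) (hF : F ≤ LS S) (n : ℕ) (h : Module.finrank ℚ F = 2 ^ (n + 1))
include hS hw hF h

/-- the Galois action on `PF` (from the proof of `PF_gal`) -/
theorem PF_gal' (σ : AutK) : (σ : ℂ ≃+* ℂ) (PF S F) * ∏ X ∈ chF S F, ev S X (th S σ) = PF S F := by
  set s : ℂ ≃+* ℂ := (σ : ℂ ≃+* ℂ) with hs
  have hP : ∀ X ∈ chF S F, IsP n (gX S X) (Xt S X) := fun X hX =>
    isP_Xt S hS X n (pow_chF S hS F hw hF n h X hX)
  have hodd : ∀ X : XX S, Odd (gX S X).norm := by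
    intro X
    obtain ⟨T, hTS, hg, -⟩ := gX_eq S hS X
    rw [hg]
    exact (h_gS T fun b hb => hS b (hTS hb)).2
  have hterm : ∀ X ∈ chF S F, s (SX (gX S X) (Xt S X) lx) * ev S (n2_map S s X) (th S σ) =
      SX (gX S (n2_map S s X)) (Xt S (n2_map S s X)) lx := by
    intro X hX
    obtain ⟨u, -, hu, hsum⟩ := SX_gal' (hP X hX) (hodd X) s σ.2
    have h1 := n2_Xt S hS X σ u hu
    have h2 : Xt S (n2_map S s X) = fun a => s (Xt S X a) :=
      funext fun a => (Xt_map S X s a).1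
    have h3 : gX S (n2_map S s X) = gX S X := (Xt_map S X s 0).2
    rw [h2, h3, ← hsum, n2_ev, h1]
  have h1 : ∏ X ∈ chF S F, ev S X (th S σ) =
      ∏ X ∈ chF S F, ev S (n2_map S s X) (th S σ) :=
    (n2_prod S hS F s fun X => ev S X (th S σ)).symm
  unfold PF
  rw [h1, map_prod, ← Finset.prod_mul_distrib, Finset.prod_congr rfl hterm]
  exact n2_prod S hS F s fun X => SX (gX S X) (Xt S X) lx

theorem PF_alg : IsAlgebraic ℚ (PF S F) := by
  have key : ∀ z : ℂ, z ∈ algebraicClosure ℚ ℂ ↔ IsAlgebraic ℚ z := fun z =>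
    mem_algebraicClosure_iff
  rw [← key, PF]
  refine prod_mem fun X hX => ?_
  rw [key]
  exact SX_alg (isP_Xt S hS X n (pow_chF S hS F hw hF n h X hX)) (gX_odd S hS X)

omit hS hw hF h [NumberField F] in
theorem rv_alg_conj {z : ℂ} (hz : IsAlgebraic ℚ z) : IsAlgebraic ℚ (conj z) :=
  hz.algHom (Complex.conjAe.toAlgHom.restrictScalars ℚ)

/-- `|PF|² √|disc F| / √3 ^ N` is rational -/
theorem PF_disc : ∃ ρ : ℚ, 0 < ρ ∧ padicValRat 2 ρ = 0 ∧
    PF S F * conj (PF S F) * ((√|(discr F : ℝ)| : ℝ) : ℂ) = ρ * ((√3 ^ 2 ^ n : ℝ) : ℂ) := by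
  obtain ⟨e, b, hD0, s, hs, hD⟩ := DD_disc F hw (2 ^ n) (by rw [h, pow_succ]; ring)
  set D := DD F hw (2 ^ n) e b with hDdef
  set t := PF S F with ht
  have hfix : ∀ σ : AutK, (σ : ℂ ≃+* ℂ) (t * D) = t * D := by
    intro σ
    have h1 := PF_gal' S hS F hw hF n h σ
    have h2 := DD_gal F hw (2 ^ n) e b σ
    rw [rs3_sign S hS F hw hF σ] at h1
    rw [map_mul, h2]
    linear_combination D * h1
  have halg : IsAlgebraic ℚ (t * D) := (PF_alg S hS F hw hF n h).mul (DD_alg F hw _ e b)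
  have hfix' : ∀ σ : AutK, (σ : ℂ ≃+* ℂ) (conj (t * D)) = conj (t * D) := by
    intro σ
    set τ : ℂ ≃+* ℂ := ((starRingAut : ℂ ≃+* ℂ).trans (σ : ℂ ≃+* ℂ)).trans
      (starRingAut : ℂ ≃+* ℂ) with hτ
    have hτa : ∀ x, τ x = conj ((σ : ℂ ≃+* ℂ) (conj x)) := fun x => rfl
    have hσ : (σ : ℂ ≃+* ℂ) w = w := σ.2
    have hτw : τ w = w := by
      rw [hτa, n2_w_conj, map_sub, map_neg, map_one, hσ, map_sub, map_neg, map_one, n2_w_conj]
      ring
    have h1 := hfix ⟨τ, hτw⟩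
    rw [hτa] at h1
    have h2 := congrArg conj h1
    rwa [Complex.conj_conj] at h2
  obtain ⟨q, hq⟩ : ∃ q : ℚ, (q : ℂ) = (t * D) * conj (t * D) := by
    apply fixed_rat _ (halg.mul (rv_alg_conj halg))
    intro σ
    have hx : σ w * σ w = -1 - σ w := by
      rw [← map_mul, w_sq, map_sub, map_neg, map_one]
    rcases a7_w_cases (σ w) hx with h0 | h0
    · have h1 := hfix ⟨σ, h0⟩
      have h2 := hfix' ⟨σ, h0⟩
      rw [map_mul]
      exact congrArg₂ (· * ·) h1 h2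
    · set τ : ℂ ≃+* ℂ := (starRingAut : ℂ ≃+* ℂ).trans σ with hτ
      have hτa : ∀ x, τ x = σ (conj x) := fun x => rfl
      have hτw : τ w = w := by
        rw [hτa, n2_w_conj, map_sub, map_neg, map_one, h0, n2_w_conj]
        ring
      have h1 := hfix ⟨τ, hτw⟩
      have h2 := hfix' ⟨τ, hτw⟩
      change τ (t * D) = t * D at h1
      change τ (conj (t * D)) = conj (t * D) at h2
      rw [hτa] at h1 h2
      rw [Complex.conj_conj] at h2
      rw [map_mul (σ : ℂ ≃+* ℂ) (t * D) (conj (t * D)), h1, h2]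
      ring
  obtain ⟨q₁, hq₁, hv₁, he₁⟩ := PF_rat S hS F hw hF n h
  have ht0 : t ≠ 0 := by
    intro h0
    rw [← ht, h0] at he₁
    have : (q₁ : ℂ) = 0 := by rw [← he₁]; norm_num
    exact hq₁.ne' (by exact_mod_cast this)
  have hdisc : (0 : ℝ) < √|(discr F : ℝ)| := by
    rw [Real.sqrt_pos, abs_pos]
    exact_mod_cast NumberField.discr_ne_zero F
  have h3 : (0 : ℝ) < √3 ^ 2 ^ n := by positivity
  -- real version
  have hqR : (q : ℝ) = ‖t‖ ^ 2 * ‖D‖ ^ 2 := by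
    have h1 : ((q : ℝ) : ℂ) = ((‖t * D‖ ^ 2 : ℝ) : ℂ) := by
      rw [← Complex.normSq_eq_norm_sq, ← Complex.mul_conj, ← hq]
      norm_cast
    have h2 : (q : ℝ) = ‖t * D‖ ^ 2 := by exact_mod_cast h1
    rw [h2, norm_mul, mul_pow]
  have hkey : ‖t‖ ^ 2 * √|(discr F : ℝ)| = ((q / s : ℚ) : ℝ) * √3 ^ 2 ^ n := by
    push_cast
    have hsR : (s : ℝ) ≠ 0 := by exact_mod_cast hs.ne'
    rw [hqR]
    field_simp
    linear_combination -hD
  have hρ : (0 : ℚ) < q / s := by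
    have h1 : (0 : ℝ) < ((q / s : ℚ) : ℝ) := by
      have h5 : (0 : ℝ) < ‖t‖ ^ 2 * √|(discr F : ℝ)| :=
        mul_pos (pow_pos (norm_pos_iff.2 ht0) 2) hdisc
      rw [hkey] at h5
      exact (pos_iff_pos_of_mul_pos h5).2 h3
    exact_mod_cast h1
  have hodd' : Odd (discr F).natAbs := odd_discr S hS F hw hF
  have hD' : ((discr F).natAbs : ℚ) ≠ 0 := by exact_mod_cast hodd'.pos.ne'
  refine ⟨q / s, hρ, ?_, ?_⟩
  · -- square
    have h5 : (q / s) ^ 2 * 3 ^ 2 ^ n = q₁ * ((discr F).natAbs : ℚ) := by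
      have h6 : ((‖t‖ ^ 2 * √|(discr F : ℝ)|) ^ 2 : ℝ) = (((q / s : ℚ) : ℝ) * √3 ^ 2 ^ n) ^ 2 := by
        rw [hkey]
      have h7 : ((‖t‖ ^ 2) ^ 2 : ℝ) = (q₁ : ℝ) := by
        have h8 : (((‖t‖ ^ 2) ^ 2 : ℝ) : ℂ) = ((q₁ : ℝ) : ℂ) := by
          push_cast
          rw [← he₁, Complex.mul_conj, Complex.normSq_eq_norm_sq]
          push_cast
          ring
        exact_mod_cast h8
      have h9 : √|(discr F : ℝ)| ^ 2 = (((discr F).natAbs : ℕ) : ℝ) := by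
        rw [Real.sq_sqrt (abs_nonneg _), Nat.cast_natAbs, Int.cast_abs]
      have h10 : (√3 ^ 2 ^ n : ℝ) ^ 2 = 3 ^ 2 ^ n := by
        rw [← pow_mul, mul_comm, pow_mul, Real.sq_sqrt (by norm_num)]
      rw [mul_pow, mul_pow, h7, h9, h10] at h6
      exact_mod_cast h6.symm
    have v3 : padicValRat 2 ((3 : ℚ) ^ 2 ^ n) = 0 := by
      rw [padicValRat.pow]
      have : padicValRat 2 (3 : ℚ) = 0 := by
        have := padic_unit_odd (N := 3) (by decide)
        exact_mod_cast this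
      rw [this]
      simp
    have h6 := congrArg (padicValRat 2) h5
    haveI : Fact (Nat.Prime 2) := ⟨Nat.prime_two⟩
    rw [padicValRat.mul (pow_ne_zero 2 hρ.ne') (by positivity), v3, padicValRat.pow,
      padic_unit_mul hq₁.ne' hD' hv₁ (padic_unit_odd hodd')] at h6
    push_cast at h6
    omega
  · have h5 : t * conj t = ((‖t‖ ^ 2 : ℝ) : ℂ) := by
      rw [Complex.mul_conj, Complex.normSq_eq_norm_sq]
    rw [h5, ← Complex.ofReal_mul, hkey]
    push_cast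
    ring

/-- the period -/
theorem period_F : (CM27.period F : ℝ) = √3 ^ 2 ^ n * Om ^ (2 * 2 ^ n) := by
  have hreal : InfinitePlace.nrRealPlaces F = 0 := by
    rw [InfinitePlace.nrRealPlaces, Fintype.card_eq_zero_iff]
    refine ⟨fun ⟨v, hv⟩ => ?_⟩
    have hom : (⟨w, hw⟩ : F) ^ 2 + ⟨w, hw⟩ + 1 = 0 := by
      ext
      change w ^ 2 + w + 1 = 0
      linear_combination w_sq
    have h1 : (InfinitePlace.embedding_of_isReal hv) ⟨w, hw⟩ ^ 2 +
        (InfinitePlace.embedding_of_isReal hv) ⟨w, hw⟩ + 1 = 0 := by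
      rw [← map_pow, ← map_add, ← map_one (InfinitePlace.embedding_of_isReal hv), ← map_add, hom,
        _root_.map_zero]
    nlinarith [sq_nonneg (2 * (InfinitePlace.embedding_of_isReal hv) ⟨w, hw⟩ + 1)]
  have hrank := InfinitePlace.card_add_two_mul_card_eq_rank F
  have hp : period F = OmR ^ InfinitePlace.nrRealPlaces F * OmCC ^ InfinitePlace.nrComplexPlaces F := by
    rw [period, Finset.prod_ite, Finset.prod_const, Finset.prod_const]
    congr 2
    · rw [InfinitePlace.nrRealPlaces, Fintype.card_subtype]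
    · rw [InfinitePlace.nrComplexPlaces, Fintype.card_subtype]
      congr 1
      ext v
      simp [InfinitePlace.not_isReal_iff_isComplex]
  rw [hreal, h, zero_add, pow_succ, mul_comm] at hrank
  have hc : InfinitePlace.nrComplexPlaces F = 2 ^ n := by omega
  rw [hp, hreal, hc, pow_zero, one_mul, OmCC_eq, mul_pow, ← pow_mul]

/-- the value of the `L`-series -/
theorem analytic_Fq : ∃ L : ℂ → ℂ, Differentiable ℂ L ∧
    (∀ s : ℂ, 3 / 2 < s.re → LSeriesSummable (fun k => ((E F).LFunction k : ℂ)) s ∧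
      L s = (E F).LSeries s) ∧ L 1 ≠ 0 ∧
    ∃ q : ℚ, 0 < q ∧ padicValRat 2 q = 0 ∧
      L 1 * ((√|(discr F : ℝ)| : ℝ) : ℂ) = q * ((period F : ℝ) : ℂ) := by
  have key : ∀ X ∈ chF S F, ∃ Φ : ℂ → ℂ, Differentiable ℂ Φ ∧
      (∀ s : ℂ, 3 / 2 < s.re → LSeriesSummable (fun k => (Dg (gx S X) * Dg (gy S X)) k) s ∧
        Φ s = LSeries (fun k => (Dg (gx S X) * Dg (gy S X)) k) s) ∧
      Φ 1 = (Om : ℂ) ^ 2 * (SX (gX S X) (Xt S X) lx *
        conj (SX (gX S X) (fun a => conj (Xt S X a)) lx)) /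
          (9 * ((gX S X).norm.natAbs : ℂ) * (2 + (Xt S X (-2))⁻¹) ^ 2) := by
    intro X hX
    obtain ⟨Φ₁, Φ₂, d1, d2, s1, s2, hv⟩ := value_X S hS n X (pow_chF S hS F hw hF n h X hX)
    refine ⟨fun s => Φ₁ s * Φ₂ s, d1.mul d2, ?_, hv⟩
    intro s hs
    refine ⟨ArithmeticFunction.LSeriesSummable_mul (s1 s hs).1 (s2 s hs).1, ?_⟩
    rw [ArithmeticFunction.LSeries_mul' (s1 s hs).1 (s2 s hs).1, ← (s1 s hs).2, ← (s2 s hs).2]
  choose! Φ hΦ1 hΦ2 hΦ3 using key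
  have hLC : (fun k => ((E F).LFunction k : ℂ)) = fun k => (∏ X ∈ chF S F,
      (Dg (gx S X) * Dg (gy S X))) k := by
    funext k
    rw [← LC_apply, LF_eq S hS F hw hF n h]
    rfl
  obtain ⟨ρ, hρ, vρ, eρ⟩ := PF_disc S hS F hw hF n h
  obtain ⟨q₂, hq₂, hv₂, he₂⟩ := two_factor S hS F hw hF n h
  set N : ℕ := ∏ X ∈ chF S F, (gX S X).norm.natAbs with hN
  have hNodd : Odd N := by
    rw [hN]
    refine Finset.prod_induction _ Odd (fun a b => Odd.mul) odd_one fun X _ => ?_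
    exact Int.natAbs_odd.2 (gX_odd S hS X)
  have hN0 : (N : ℚ) ≠ 0 := by exact_mod_cast hNodd.pos.ne'
  have hval : ∏ X ∈ chF S F, Φ X 1 = (Om : ℂ) ^ (2 * 2 ^ n) * (PF S F * conj (PF S F)) /
      (9 ^ 2 ^ n * N * q₂ ^ 2) := by
    rw [Finset.prod_congr rfl hΦ3, Finset.prod_div_distrib, Finset.prod_mul_distrib,
      Finset.prod_mul_distrib, prod_conj S hS F hw hF n h, Finset.prod_mul_distrib,
      Finset.prod_mul_distrib, Finset.prod_pow (chF S F) 2 (fun X => 2 + (Xt S X (-2))⁻¹), he₂,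
      Finset.prod_const, Finset.prod_const, card_chF' S hS F hw hF n h, ← pow_mul, hN,
      Nat.cast_prod]
    rfl
  have hOm : (Om : ℂ) ≠ 0 := by exact_mod_cast Om_pos.ne'
  have h90 : ((9 : ℂ) ^ 2 ^ n) ≠ 0 := pow_ne_zero _ (by norm_num)
  have hNC : (N : ℂ) ≠ 0 := by exact_mod_cast hN0
  have hq₂C : (q₂ : ℂ) ≠ 0 := by exact_mod_cast hq₂
  have hρC : (ρ : ℂ) ≠ 0 := by exact_mod_cast hρ.ne'
  set c : ℚ := 9 ^ 2 ^ n * N * q₂ ^ 2 with hc
  have h9Q : ((9 : ℚ) ^ 2 ^ n) ≠ 0 := pow_ne_zero _ (by norm_num)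
  have hNpos : (0 : ℚ) < N := by exact_mod_cast hNodd.pos
  have hcpos : 0 < c := by
    rw [hc]
    have : 0 < q₂ ^ 2 := by positivity
    positivity
  have v9 : padicValRat 2 ((9 : ℚ) ^ 2 ^ n) = 0 := by
    rw [padicValRat.pow]
    have : padicValRat 2 (9 : ℚ) = 0 := by
      have := padic_unit_odd (N := 9) (by decide)
      exact_mod_cast this
    rw [this]
    simp
  have vq2 : padicValRat 2 (q₂ ^ 2) = 0 := by
    rw [padicValRat.pow, hv₂]
    simp
  have vc : padicValRat 2 c = 0 := padic_unit_mul (mul_ne_zero h9Q hN0)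
    (pow_ne_zero _ hq₂) (padic_unit_mul h9Q hN0 v9 (padic_unit_odd hNodd)) vq2
  have hcC : (c : ℂ) ≠ 0 := by exact_mod_cast hcpos.ne'
  have hfin : (∏ X ∈ chF S F, Φ X 1) * ((√|(discr F : ℝ)| : ℝ) : ℂ) =
      ((ρ / c : ℚ) : ℂ) * ((period F : ℝ) : ℂ) := by
    have hc' : ((9 : ℂ) ^ 2 ^ n * N * q₂ ^ 2) = (c : ℂ) := by
      rw [hc]
      push_cast
      ring
    rw [hval, hc', period_F S hS F hw hF n h]
    push_cast
    push_cast at eρ
    field_simp
    linear_combination eρ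
  have hper : ((period F : ℝ) : ℂ) ≠ 0 := by
    rw [period_F S hS F hw hF n h]
    have h3 : (0 : ℝ) < √3 ^ 2 ^ n * Om ^ (2 * 2 ^ n) := by
      have := Om_pos
      positivity
    exact_mod_cast h3.ne'
  have hρc : ((ρ / c : ℚ) : ℂ) ≠ 0 := by
    exact_mod_cast (div_pos hρ hcpos).ne'
  have hne : ∏ X ∈ chF S F, Φ X 1 ≠ 0 := by
    intro h0
    rw [h0, zero_mul] at hfin
    exact mul_ne_zero hρc hper hfin.symm
  refine ⟨fun s => ∏ X ∈ chF S F, Φ X s, Differentiable.fun_finsetProd hΦ1, ?_, hne, ?_⟩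
  · intro s hs
    obtain ⟨h1, h2⟩ := LSeries_prod (chF S F) (fun X => Dg (gx S X) * Dg (gy S X)) s
      (fun X hX => (hΦ2 X hX s hs).1)
    rw [hLC]
    refine ⟨h1, ?_⟩
    have h3 : (E F).LSeries s = LSeries (fun k => ((E F).LFunction k : ℂ)) s := rfl
    rw [h3, hLC, h2]
    exact Finset.prod_congr rfl fun X hX => (hΦ2 X hX s hs).2
  · refine ⟨ρ / c, div_pos hρ hcpos, ?_, hfin⟩
    rw [padicValRat.div hρ.ne' hcpos.ne', vρ, vc]
    simp

end

end CF
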