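import Pool.Agent.MP_ae0bd0_nt.CM.B7

set_option autoImplicit false

namespace CM27

/-! ## [CF3-X4] infinitely many good primes `p ≡ 1 mod 2 ^ k` (file CF3/X4.lean) -/

theorem x4_root (p : ℕ) [Fact p.Prime] (a : Eis) (h : (p : ℤ) ∣ a.norm)
    (him : (a.im : ZMod p) ≠ 0) :
    ∃ z : ZMod p, z * z = -1 - z ∧ (a.re : ZMod p) + a.im * z = 0 := by
  have h1 : ((a.re : ZMod p)) ^ 2 - a.re * a.im + (a.im : ZMod p) ^ 2 = 0 := by
    rw [norm_eq] at h
    have := (ZMod.intCast_zmod_eq_zero_iff_dvd _ p).2 h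
    push_cast at this
    exact this
  refine ⟨-(a.re : ZMod p) / a.im, ?_, ?_⟩
  · field_simp
    linear_combination h1
  · field_simp
    ring

theorem x4_root' (p : ℕ) (hp : p.Prime) (hp3 : p % 3 = 1) (a : Eis) (h : (p : ℤ) ∣ a.norm) :
    ∃ z : ZMod p, z * z = -1 - z ∧ (a.re : ZMod p) + a.im * z = 0 := by
  have : Fact p.Prime := ⟨hp⟩
  by_cases him : (a.im : ZMod p) = 0
  · have hre : (a.re : ZMod p) = 0 := by
      rw [norm_eq] at h
      have := (ZMod.intCast_zmod_eq_zero_iff_dvd _ p).2 h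
      push_cast at this
      rw [him] at this
      have h2 : (a.re : ZMod p) ^ 2 = 0 := by linear_combination this
      exact pow_eq_zero_iff (two_ne_zero) |>.1 h2
    obtain ⟨r, -, hr⟩ := exists_primary_prime p hp hp3
    have hrim : (r.im : ZMod p) ≠ 0 := by
      intro h3
      have h4 : (r.re : ZMod p) = 0 := by
        have h5 : (p : ℤ) ∣ r.norm := by rw [hr]
        rw [norm_eq] at h5
        have := (ZMod.intCast_zmod_eq_zero_iff_dvd _ p).2 h5
        push_cast at this
        rw [h3] at this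
        have h2 : (r.re : ZMod p) ^ 2 = 0 := by linear_combination this
        exact pow_eq_zero_iff (two_ne_zero) |>.1 h2
      obtain ⟨c, hc⟩ := (ZMod.intCast_zmod_eq_zero_iff_dvd _ p).1 h3
      obtain ⟨d, hd⟩ := (ZMod.intCast_zmod_eq_zero_iff_dvd _ p).1 h4
      rw [norm_eq, hc, hd] at hr
      have hp0 : (p : ℤ) ≠ 0 := by exact_mod_cast hp.ne_zero
      have h6 : (p : ℤ) * ((p : ℤ) * (d ^ 2 - d * c + c ^ 2)) = p * 1 := by
        linear_combination hr
      have h7 := mul_left_cancel₀ hp0 h6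
      have h8 := Int.eq_one_of_mul_eq_one_right (by positivity) h7
      have := hp.one_lt
      omega
    obtain ⟨z, hz, -⟩ := x4_root p r (by rw [hr]) hrim
    exact ⟨z, hz, by rw [him, hre]; ring⟩
  · exact x4_root p a h him

/-- the reduction map -/
def x4_hom (p : ℕ) (z : ZMod p) (hz : z * z = -1 - z) : Eis →+* ZMod p where
  toFun a := (a.re : ZMod p) + (a.im : ZMod p) * z
  map_one' := by simp [QuadraticAlgebra.re_one, QuadraticAlgebra.im_one]
  map_mul' a b := by
    simp only [QuadraticAlgebra.re_mul, QuadraticAlgebra.im_mul]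
    push_cast
    linear_combination (-(a.im : ZMod p) * b.im) * hz
  map_zero' := by simp
  map_add' a b := by
    simp only [QuadraticAlgebra.re_add, QuadraticAlgebra.im_add]
    push_cast
    ring

theorem x4_hom_apply (p : ℕ) (z : ZMod p) (hz : z * z = -1 - z) (a : Eis) :
    x4_hom p z hz a = (a.re : ZMod p) + (a.im : ZMod p) * z := rfl

/-- the cube root of unity -/
def x4_om : Eis := ⟨0, 1⟩

theorem x4_om_pow (j : ℕ) : x4_om ^ 2 ^ j = ⟨0, 1⟩ ∨ x4_om ^ 2 ^ j = ⟨-1, -1⟩ := by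
  induction j with
  | zero => left; simp [x4_om]
  | succ j ih =>
    rw [pow_succ, pow_mul, pow_two]
    rcases ih with h | h
    · right
      rw [h]
      ext
      · rw [QuadraticAlgebra.re_mul]; norm_num
      · rw [QuadraticAlgebra.im_mul]; norm_num
    · left
      rw [h]
      ext
      · rw [QuadraticAlgebra.re_mul]; norm_num
      · rw [QuadraticAlgebra.im_mul]; norm_num

theorem x4_two_dvd_im {a : Eis} (h : (2 : Eis) ∣ a) : (2 : ℤ) ∣ a.im := by
  obtain ⟨c, hc⟩ := h
  have h5 := congrArg QuadraticAlgebra.im hc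
  have h3 : (2 : Eis).re = 2 := rfl
  have h4 : (2 : Eis).im = 0 := rfl
  simp only [QuadraticAlgebra.im_mul, h3, h4] at h5
  exact ⟨c.im, by rw [h5]; ring⟩

/-- Sketch (compare `infinite_good` in CM/B7.lean, with the same `b7_key`). Let `M` be the (odd, prime to
`3`) product of the finitely many such primes; `x = 1 + 3 M (ω - 1)`, `y = 6 M`, `N = 2 ^ (k - 1)`
(`k ≥ 1`), `a = x ^ N + y ^ N`. Then `a ≡ 1 mod 3` (`x ≡ 1 mod 3`), `a ≡ ω ^ N mod 2` (`M` odd), and
`ω ^ N ≢ 1 mod 2` as `3 ∤ N`. By `b7_key` a good prime `p` divides `N(a)`; let `b | a` be a prime above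
`p`. If `b | y = 6 M` then `b | x ^ N`, `b | x`; `b ∣ 6 M` and `b ∣ x = 1 + 3 M (ω - 1)` is impossible
(`b ∤ 2`, since `x ≡ ω mod 2`; `b ∤ 3 M`, since `x ≡ 1`). So `b ∤ y`, `p ∤ M`, and
`(x / y) ^ N = -1` in `ℤ[ω] / b = 𝔽_p`: its order is `2 ^ k`, so `2 ^ k ∣ p - 1`. -/
theorem infinite_good_mod (k : ℕ) : {p : ℕ | GoodPrime p ∧ 2 ^ k ∣ p - 1}.Infinite := by
  cases k with
  | zero => simpa using infinite_good
  | succ k =>
    intro hfin
    set S := hfin.toFinset with hS
    set P : ℕ := ∏ p ∈ S, p with hP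
    have hmem : ∀ p, p ∈ S ↔ GoodPrime p ∧ 2 ^ (k + 1) ∣ p - 1 := by
      intro p; rw [hS, Set.Finite.mem_toFinset]; rfl
    have hPodd : Odd P := by
      rw [hP]
      apply Finset.prod_induction _ Odd (fun a b => Odd.mul) odd_one
      intro p hp
      have h := ((hmem p).1 hp).1
      apply h.1.odd_of_ne_two
      intro h2
      have := h.2.1
      omega
    obtain ⟨l, hl⟩ := hPodd
    obtain ⟨x, hx⟩ : ∃ x : Eis, x = ⟨1 - 3 * (P : ℤ), 3 * P⟩ := ⟨_, rfl⟩
    obtain ⟨y, hy⟩ : ∃ y : Eis, y = ⟨6 * (P : ℤ), 0⟩ := ⟨_, rfl⟩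
    obtain ⟨N, hN⟩ : ∃ N : ℕ, N = 2 ^ k := ⟨_, rfl⟩
    have hN0 : N ≠ 0 := by rw [hN]; positivity
    obtain ⟨a, ha⟩ : ∃ a : Eis, a = x ^ N + y ^ N := ⟨_, rfl⟩
    have h3r : (3 : Eis).re = 3 := rfl
    have h3i : (3 : Eis).im = 0 := rfl
    have h2r : (2 : Eis).re = 2 := rfl
    have h2i : (2 : Eis).im = 0 := rfl
    have hprim : Primary a := by
      have h1 : (3 : Eis) ∣ x - 1 := by
        refine ⟨⟨-P, P⟩, ?_⟩
        rw [hx]
        ext
        · simp [h3r, h3i, QuadraticAlgebra.re_one]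
        · simp [h3r, h3i, QuadraticAlgebra.im_one]
      have h2 : (3 : Eis) ∣ y := by
        refine ⟨⟨2 * P, 0⟩, ?_⟩
        rw [hy]
        ext
        · simp [h3r, h3i]; ring
        · simp [h3r, h3i]
      have h3 : (3 : Eis) ∣ x ^ N - 1 := by
        have := sub_dvd_pow_sub_pow x 1 N
        rw [one_pow] at this
        exact h1.trans this
      have h4 : (3 : Eis) ∣ y ^ N := h2.trans (dvd_pow_self y hN0)
      have h5 : a - 1 = (x ^ N - 1) + y ^ N := by rw [ha]; ring
      change (3 : Eis) ∣ a - 1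
      rw [h5]
      exact dvd_add h3 h4
    have him : ¬ (2 : ℤ) ∣ a.im := by
      have h1 : (2 : Eis) ∣ x - x4_om := by
        refine ⟨⟨-1 - 3 * l, 1 + 3 * l⟩, ?_⟩
        rw [hx, hl, x4_om]
        ext
        · simp [h2r, h2i]; ring
        · simp [h2r, h2i]; ring
      have h2 : (2 : Eis) ∣ y := by
        refine ⟨⟨3 * P, 0⟩, ?_⟩
        rw [hy]
        ext
        · simp [h2r, h2i]; ring
        · simp [h2r, h2i]
      have h3 : (2 : Eis) ∣ x ^ N - x4_om ^ N := h1.trans (sub_dvd_pow_sub_pow x x4_om N)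
      have h4 : (2 : Eis) ∣ y ^ N := h2.trans (dvd_pow_self y hN0)
      have h5 : (2 : Eis) ∣ a - x4_om ^ N := by
        have : a - x4_om ^ N = (x ^ N - x4_om ^ N) + y ^ N := by rw [ha]; ring
        rw [this]
        exact dvd_add h3 h4
      have h6 := x4_two_dvd_im h5
      rw [QuadraticAlgebra.im_sub] at h6
      have h7 : (x4_om ^ N).im = 1 ∨ (x4_om ^ N).im = -1 := by
        rw [hN]
        rcases x4_om_pow k with h | h
        · left; rw [h]
        · right; rw [h]
      rcases h7 with h7 | h7 <;> rw [h7] at h6 <;> omega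
    have hodd : Odd a.norm := by
      by_contra h
      exact him (x4_two_dvd_im (b7_even_dvd a h))
    have hex : ∃ p : ℕ, GoodPrime p ∧ (p : ℤ) ∣ a.norm := by
      by_contra h
      push Not at h
      have h1 := x4_two_dvd_im (b7_key _ a hprim rfl hodd h)
      rw [QuadraticAlgebra.im_sub, QuadraticAlgebra.im_one, sub_zero] at h1
      exact him h1
    obtain ⟨p, hp, hpa⟩ := hex
    have : Fact p.Prime := ⟨hp.1⟩
    obtain ⟨z, hz, hz0⟩ := x4_root' p hp.1 hp.2.1 a hpa
    have hφa : x4_hom p z hz a = 0 := hz0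
    rw [ha, map_add, map_pow, map_pow] at hφa
    obtain ⟨X, hX⟩ : ∃ X, X = x4_hom p z hz x := ⟨_, rfl⟩
    obtain ⟨Y, hY⟩ : ∃ Y, Y = x4_hom p z hz y := ⟨_, rfl⟩
    rw [← hX, ← hY] at hφa
    have hXv : X = 1 + 3 * (P : ZMod p) * (z - 1) := by
      rw [hX, x4_hom_apply, hx]
      push_cast
      ring
    have hYv : Y = 6 * (P : ZMod p) := by
      rw [hY, x4_hom_apply, hy]
      push_cast
      ring
    have h20 : (2 : ZMod p) ≠ 0 := by
      intro h
      have h7 : ((2 : ℕ) : ZMod p) = 0 := by exact_mod_cast h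
      rw [ZMod.natCast_eq_zero_iff] at h7
      have h8 := (Nat.prime_dvd_prime_iff_eq hp.1 Nat.prime_two).1 h7
      have := hp.2.1
      omega
    have hY0 : Y ≠ 0 := by
      intro h
      have h1 : 3 * (P : ZMod p) = 0 := by
        have h2 : (2 : ZMod p) * (3 * (P : ZMod p)) = 0 := by
          rw [← h, hYv]; ring
        exact (mul_eq_zero.1 h2).resolve_left h20
      rw [h, zero_pow hN0, add_zero, hXv, h1] at hφa
      simp at hφa
    have hpow : (X / Y) ^ N = -1 := by
      rw [div_pow, div_eq_iff (pow_ne_zero _ hY0)]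
      linear_combination hφa
    have hX0 : X / Y ≠ 0 := by
      intro h
      rw [h, zero_pow hN0] at hpow
      have : (1 : ZMod p) = 0 := by linear_combination hpow
      exact one_ne_zero this
    have hord : orderOf (X / Y) = 2 ^ (k + 1) := by
      refine orderOf_eq_prime_pow ?_ ?_
      · rw [← hN, hpow]
        intro h
        apply h20
        linear_combination -h
      · rw [pow_succ, pow_mul, ← hN, hpow]
        norm_num
    have hdvd : 2 ^ (k + 1) ∣ p - 1 := by
      rw [← hord]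
      exact ZMod.orderOf_dvd_card_sub_one hX0
    have hpS : p ∈ S := (hmem p).2 ⟨hp, hdvd⟩
    have hpP : p ∣ P := Finset.dvd_prod_of_mem (fun p => p) hpS
    apply hY0
    rw [hYv, (ZMod.natCast_eq_zero_iff P p).2 hpP, mul_zero]

end CM27
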