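import Mathlib

set_option autoImplicit false

open NumberField IsDedekindDomain

namespace CF

/-! ## [CF3-X5] a quadratic extension which is unramified above `2` is generated by the square root of
some `d ≡ 1 mod 4` (file CF3/X5.lean) -/

/-- Sketch. `L / K` is Galois with group `{1, σ}`. Let `v | 2` be a place of `K`, `P` a place of `L` above
`v`. There is `η ∈ 𝓞 L` with `η + σ η ∉ v`: otherwise `σ η ≡ - η ≡ η mod P` for all `η ∈ 𝓞 L` (`2 ∈ P`),
so `σ` is in the inertia group of `P`, whose order is the ramification index `1`. So the ideal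
`𝔞 = Tr (𝓞 L)` of `𝓞 K` is not contained in any `v | 2`, `𝔞 + (4) = (1)`: there is `η ∈ 𝓞 L` with
`a = η + σ η ≡ 1 mod 4`. Let `b = η σ η ∈ 𝓞 K`, `d = a² - 4 b ≡ 1 mod 4`, `δ = 2 η - a`, `δ² = d`. If
`δ ∈ K` then `η ∈ K` and `a = 2 η`, impossible. -/
theorem exists_d (K L : Type) [Field K] [NumberField K] [Field L] [NumberField L] [Algebra K L]
    (h2 : Module.finrank K L = 2)
    (hu : ∀ P : HeightOneSpectrum (𝓞 L), (2 : 𝓞 L) ∈ P.asIdeal → (2 : 𝓞 L) ∉ P.asIdeal ^ 2) :
    ∃ d : 𝓞 K, (4 : 𝓞 K) ∣ d - 1 ∧ ∃ δ : L, δ ^ 2 = algebraMap K L d ∧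
      δ ∉ Set.range (algebraMap K L) := by
  classical
  have : Algebra.IsQuadraticExtension K L := ⟨h2⟩
  have : FiniteDimensional K L := Module.finite_of_finrank_pos (by omega)
  have : IsGalois K L := inferInstance
  have hcard : Nat.card Gal(L/K) = 2 := by rw [IsGalois.card_aut_eq_finrank, h2]
  obtain ⟨σ, hσ⟩ : ∃ σ : Gal(L/K), σ ≠ 1 := by
    have : Nontrivial Gal(L/K) := Finite.one_lt_card_iff_nontrivial.1 (by omega)
    exact exists_ne 1
  have hall : ∀ g : Gal(L/K), g = 1 ∨ g = σ := by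
    intro g
    by_contra hg
    push Not at hg
    have h3 : ({1, σ, g} : Finset Gal(L/K)).card = 3 := by
      rw [Finset.card_insert_of_notMem, Finset.card_insert_of_notMem, Finset.card_singleton]
      · simpa using hg.2.symm
      · simp only [Finset.mem_insert, Finset.mem_singleton, not_or]
        exact ⟨hσ.symm, hg.1.symm⟩
    have h4 := Finset.card_le_univ ({1, σ, g} : Finset Gal(L/K))
    rw [h3, Fintype.card_eq_nat_card, hcard] at h4
    omega
  have hss : σ * σ = 1 := by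
    rcases hall (σ * σ) with h | h
    · exact h
    · exact absurd (mul_eq_left.1 h) hσ
  have hinv : ∀ x : 𝓞 L, σ • x = x → ∃ a : 𝓞 K, algebraMap (𝓞 K) (𝓞 L) a = x := by
    intro x hx
    have : IsGaloisGroup Gal(L/K) (𝓞 K) (𝓞 L) := inferInstance
    apply (IsGaloisGroup.isInvariant (G := Gal(L/K)) (A := 𝓞 K) (B := 𝓞 L)).isInvariant x
    intro g
    rcases hall g with rfl | rfl
    · exact one_smul _ x
    · exact hx
  have hσσ : ∀ x : 𝓞 L, σ • σ • x = x := fun x => by rw [smul_smul, hss, one_smul]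
  have hfix : ∀ a : 𝓞 K, σ • algebraMap (𝓞 K) (𝓞 L) a = algebraMap (𝓞 K) (𝓞 L) a :=
    fun a => smul_algebraMap σ a
  have hinj : Function.Injective (algebraMap (𝓞 K) (𝓞 L)) :=
    FaithfulSMul.algebraMap_injective _ _
  -- the trace ideal
  let T : Ideal (𝓞 K) :=
    { carrier := {a | ∃ η : 𝓞 L, algebraMap (𝓞 K) (𝓞 L) a = η + σ • η}
      add_mem' := by
        rintro a b ⟨x, hx⟩ ⟨y, hy⟩
        exact ⟨x + y, by rw [map_add, hx, hy, smul_add]; ring⟩
      zero_mem' := ⟨0, by simp⟩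
      smul_mem' := by
        rintro c a ⟨x, hx⟩
        exact ⟨algebraMap (𝓞 K) (𝓞 L) c * x, by
          rw [smul_eq_mul, map_mul, hx, smul_mul', hfix]; ring⟩ }
  have hT : ∀ a, a ∈ T ↔ ∃ η : 𝓞 L, algebraMap (𝓞 K) (𝓞 L) a = η + σ • η := fun a => Iff.rfl
  have htop : T ⊔ Ideal.span {(4 : 𝓞 K)} = ⊤ := by
    by_contra hne
    obtain ⟨v, hv, hle⟩ := Ideal.exists_le_maximal _ hne
    have hTv : T ≤ v := le_sup_left.trans hle
    have h4 : (4 : 𝓞 K) ∈ v := hle (Ideal.mem_sup_right (Ideal.mem_span_singleton_self _))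
    have h2v : (2 : 𝓞 K) ∈ v := by
      have : (2 : 𝓞 K) * 2 ∈ v := by convert h4 using 1; norm_num
      exact (hv.isPrime.mem_or_mem this).elim id id
    have := hv.isPrime
    obtain ⟨P, hPmax, hPlies⟩ := Ideal.exists_maximal_ideal_liesOver_of_isIntegral (S := 𝓞 L) v
    have := hPmax.isPrime
    have hPv : ∀ a : 𝓞 K, a ∈ v → algebraMap (𝓞 K) (𝓞 L) a ∈ P := by
      intro a ha
      have := (Ideal.over_def P v) ▸ ha
      exact this
    have h2P : (2 : 𝓞 L) ∈ P := by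
      have := hPv 2 h2v
      rwa [map_ofNat] at this
    have hmem : σ ∈ P.inertia Gal(L/K) := by
      intro x
      obtain ⟨a, ha⟩ := hinv (x + σ • x) (by rw [smul_add, hσσ]; ring)
      have h5 := hPv a (hTv ((hT a).2 ⟨x, ha⟩))
      rw [ha] at h5
      have h6 : (2 : 𝓞 L) * x ∈ P := P.mul_mem_right x h2P
      have h7 := P.sub_mem h5 h6
      have h8 : x + σ • x - 2 * x = σ • x - x := by ring
      rw [h8] at h7
      exact h7
    have hv0 : v ≠ ⊥ := by
      rintro rfl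
      exact two_ne_zero (Ideal.mem_bot.1 h2v)
    have : Finite (𝓞 K ⧸ v) := Ideal.finiteQuotientOfFreeOfNeBot v hv0
    have hcin := Ideal.card_inertia_eq_ramificationIdxIn (G := Gal(L/K)) v P
    rw [Ideal.ramificationIdxIn_eq_ramificationIdx v P Gal(L/K),
      ← Ideal.ramificationIdx'_eq_ramificationIdx v P hv0] at hcin
    have hge : 2 ≤ Nat.card (P.inertia Gal(L/K)) := by
      have : Nontrivial (P.inertia Gal(L/K)) :=
        ⟨⟨σ, hmem⟩, 1, fun h => hσ (congrArg Subtype.val h)⟩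
      exact Finite.one_lt_card
    rw [hcin] at hge
    have hP2 := Ideal.le_pow_of_le_ramificationIdx' hge
    have h2P2 : (2 : 𝓞 L) ∈ P ^ 2 := by
      have := hP2 (Ideal.mem_map_of_mem _ h2v)
      rwa [map_ofNat] at this
    have hP0 : P ≠ ⊥ := by
      rintro rfl
      exact two_ne_zero (Ideal.mem_bot.1 h2P)
    exact hu ⟨P, inferInstance, hP0⟩ h2P h2P2
  obtain ⟨a, haT, c', hc', hsum⟩ := Submodule.mem_sup.1 (htop ▸ Submodule.mem_top : (1 : 𝓞 K) ∈ _)
  obtain ⟨c, rfl⟩ := Ideal.mem_span_singleton'.1 hc'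
  obtain ⟨η, hη⟩ := (hT a).1 haT
  obtain ⟨b, hb⟩ := hinv (η * σ • η) (by rw [smul_mul', hσσ]; ring)
  have hδ : (2 * η - algebraMap (𝓞 K) (𝓞 L) a) ^ 2 =
      algebraMap (𝓞 K) (𝓞 L) (a ^ 2 - 4 * b) := by
    rw [map_sub, map_mul, map_pow, hb, hη, map_ofNat]
    ring
  refine ⟨a ^ 2 - 4 * b, ⟨4 * c ^ 2 - 2 * c - b, ?_⟩,
    algebraMap (𝓞 L) L (2 * η - algebraMap (𝓞 K) (𝓞 L) a), ?_, ?_⟩
  · have : a = 1 - c * 4 := by rw [← hsum]; ring
    rw [this]; ring
  · rw [← map_pow, hδ]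
    rfl
  · rintro ⟨κ, hκ⟩
    -- `η ∈ K`
    have hηK : algebraMap K L ((κ + algebraMap (𝓞 K) K a) / 2) = algebraMap (𝓞 L) L η := by
      rw [map_div₀, map_add, hκ, map_sub, map_mul, map_ofNat, map_ofNat]
      have : algebraMap K L (algebraMap (𝓞 K) K a) =
          algebraMap (𝓞 L) L (algebraMap (𝓞 K) (𝓞 L) a) := rfl
      rw [this]
      ring
    have hsη : σ • η = η := by
      apply RingOfIntegers.coe_injective
      have : algebraMap (𝓞 L) L (σ • η) = σ (algebraMap (𝓞 L) L η) := rfl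
      rw [this, ← hηK, AlgEquiv.commutes]
    obtain ⟨z, hz⟩ := hinv η hsη
    have ha2 : a = 2 * z := by
      apply hinj
      rw [hη, hsη, map_mul, hz, map_ofNat]
      ring
    have hone : (2 : 𝓞 K) * (z + 2 * c) = 1 := by
      rw [← hsum, ha2]; ring
    have hunit : IsUnit (2 : 𝓞 K) := IsUnit.of_mul_eq_one _ hone
    have hint : IsIntegral ℤ ((2 : K)⁻¹) := by
      have h9 : ((z + 2 * c : 𝓞 K) : K) = (2 : K)⁻¹ := by
        have := congrArg (algebraMap (𝓞 K) K) hone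
        rw [map_mul, map_one, map_ofNat] at this
        exact eq_inv_of_mul_eq_one_right this
      rw [← h9]
      exact RingOfIntegers.isIntegral_coe _
    have hq : IsIntegral ℤ ((2 : ℚ)⁻¹) := by
      have h10 : algebraMap ℚ K ((2 : ℚ)⁻¹) = (2 : K)⁻¹ := by simp
      rw [← h10] at hint
      exact (isIntegral_algebraMap_iff (FaithfulSMul.algebraMap_injective ℚ K)).1 hint
    obtain ⟨n, hn⟩ := IsIntegrallyClosed.isIntegral_iff.1 hq
    have h11 : (n : ℚ) * 2 = 1 := by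
      have : (n : ℚ) = (2 : ℚ)⁻¹ := by simpa using hn
      rw [this]; norm_num
    have h12 : n * 2 = 1 := by exact_mod_cast h11
    omega

end CF
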