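import Pool.Agent.MP_9ab903_nt.CF3.X4
import Pool.Agent.MP_9ab903_nt.CF3.X5
import Pool.Agent.MP_9ab903_nt.CF.X1
import Pool.Agent.MP_9ab903_nt.CF.D1

set_option autoImplicit false

open NumberField IsDedekindDomain
open CM27 CMT
open scoped ComplexConjugate Classical

namespace CF

/-! ## [CF3-X6] there are many pairs `(F, d)` (file CF3/X6.lean; uses X4, X5, CF/X1, CF/D1) -/

/-- Galois correspondence inside `LS S`: as `exists_F`, with the elements of `F` -/
theorem x6_exists_F (S : Finset Eis) (hS : ∀ b ∈ S, GoodEis b) (H : Subgroup AutK)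
    (hH : fixer (LS S) ≤ H) : ∃ F : IntermediateField ℚ ℂ, w ∈ F ∧ F ≤ LS S ∧ fixer F = H ∧
      Module.finrank ℚ F = 2 * H.index ∧
      ∀ x ∈ LS S, (∀ σ ∈ H, (σ : ℂ ≃+* ℂ) x = x) → x ∈ F := by
  have hfd : FiniteDimensional ℚ (LS S) := LS_finite S hS
  obtain ⟨ρ, hρ⟩ := x1_res (LS S) AutK.subtype (fun σ x hx => LS_stable S hS σ x hx)
    (fun σ r => by
      rw [eq_ratCast]
      exact map_ratCast _ r)
  have hker : ρ.ker ≤ H := by
    intro σ hσ
    apply hH
    intro x hx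
    rw [MonoidHom.mem_ker] at hσ
    have h1 := hρ σ ⟨x, hx⟩
    rw [hσ] at h1
    exact h1.symm
  obtain ⟨F, hle, h1, h2, h3⟩ := x1_galois (LS S) ρ H hker
  have hw : w ∈ F := by
    apply h1 w (w_mem_LS S)
    intro σ _
    apply Subtype.ext
    rw [hρ]
    exact σ.2
  have hfix : fixer F = H := by
    apply le_antisymm
    · intro σ hσ
      apply h3
      intro x hx hxF
      apply Subtype.ext
      rw [hρ]
      exact hσ x hxF
    · intro σ hσ x hx
      have h4 := congrArg Subtype.val (h2 x (hle hx) hx σ hσ)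
      rw [hρ] at h4
      exact h4
  have hfF : FiniteDimensional ℚ F := x1_finite hle
  have : NumberField F := ⟨⟩
  refine ⟨F, hw, hle, hfix, ?_, ?_⟩
  · rw [← index_fixer F hw, hfix]
  · intro x hx h
    apply h1 x hx
    intro σ hσ
    apply Subtype.ext
    rw [hρ]
    exact h σ hσ

/-- the component at `b` of the action on the points -/
noncomputable def x6_psi (S : Finset Eis) (b : Eis) (hb : b ∈ S) :
    AutK →* (Eis ⧸ Ideal.span {b})ˣ :=
  (Pi.evalMonoidHom (fun b : {x // x ∈ S} => (Eis ⧸ Ideal.span {(b : Eis)})ˣ) ⟨b, hb⟩).comp (th S)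

theorem x6_psi_surj (S : Finset Eis) (hS : ∀ b ∈ S, GoodEis b) (b : Eis) (hb : b ∈ S) :
    Function.Surjective (x6_psi S b hb) := by
  intro u
  obtain ⟨σ, hσ⟩ := th_surjective S hS (Pi.mulSingle ⟨b, hb⟩ u)
  refine ⟨σ, ?_⟩
  change th S σ ⟨b, hb⟩ = u
  rw [hσ, Pi.mulSingle_eq_same]

theorem x6_fixer_le (S : Finset Eis) (hS : ∀ b ∈ S, GoodEis b) (b : Eis) (hb : b ∈ S)
    (K : Subgroup (Eis ⧸ Ideal.span {b})ˣ) : fixer (LS S) ≤ K.comap (x6_psi S b hb) := by
  intro σ hσ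
  have h := (th_eq_one_iff S hS σ).2 hσ
  rw [Subgroup.mem_comap]
  change th S σ ⟨b, hb⟩ ∈ K
  rw [h, Pi.one_apply]
  exact K.one_mem

/-- the separation lemma -/
theorem x6_sep (S T : Finset Eis) (hS : ∀ b ∈ S, GoodEis b) (hT : ∀ b ∈ T, GoodEis b)
    (b : Eis) (hb : b ∈ S) (hbT : b ∉ T) (K : Subgroup (Eis ⧸ Ideal.span {b})ˣ) (hK : K ≠ ⊤)
    (F : IntermediateField ℚ ℂ) (hF : F ≤ LS T)
    (hfix : fixer F = K.comap (x6_psi S b hb)) : False := by
  have hU : ∀ b ∈ S ∪ T, GoodEis b := by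
    intro c hc
    rcases Finset.mem_union.1 hc with h | h
    · exact hS c h
    · exact hT c h
  have hbU : b ∈ S ∪ T := Finset.mem_union_left _ hb
  obtain ⟨v, hv⟩ : ∃ v, v ∉ K := by
    by_contra hcon
    push Not at hcon
    exact hK ((Subgroup.eq_top_iff' K).2 hcon)
  obtain ⟨σ, hσ⟩ := th_surjective (S ∪ T) hU (Pi.mulSingle ⟨b, hbU⟩ v)
  have h1 : th T σ = 1 := by
    funext c
    have hc : (c : Eis) ∈ S ∪ T := Finset.mem_union_right _ c.2
    have h2 := x1_compat T (S ∪ T) hT hU σ c c.2 hc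
    have h3 : th (S ∪ T) σ ⟨c, hc⟩ = 1 := by
      rw [hσ]
      apply Pi.mulSingle_eq_of_ne
      intro h
      apply hbT
      have : (c : Eis) = b := congrArg Subtype.val h
      rw [← this]
      exact c.2
    rw [h3] at h2
    exact h2
  have h2 : σ ∈ fixer F := by
    have h3 := (th_eq_one_iff T hT σ).1 h1
    intro x hx
    exact h3 x (hF hx)
  rw [hfix, Subgroup.mem_comap] at h2
  apply hv
  have h3 : th S σ ⟨b, hb⟩ = v := by
    rw [x1_compat S (S ∪ T) hS hU σ b hb hbU, hσ, Pi.mulSingle_eq_same]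
  rw [← h3]
  exact h2

theorem x6_not_normal (S : Finset Eis) (hS : ∀ b ∈ S, GoodEis b) (b : Eis) (hb : b ∈ S)
    (hbs : b ∉ S.image star) (K : Subgroup (Eis ⧸ Ideal.span {b})ˣ) (hK : K ≠ ⊤)
    (F : IntermediateField ℚ ℂ) (hF : F ≤ LS S)
    (hfix : fixer F = K.comap (x6_psi S b hb)) : ¬ Normal ℚ F := by
  intro hN
  have hT : ∀ c ∈ S.image star, GoodEis c := by
    intro c hc
    obtain ⟨d, hd, rfl⟩ := Finset.mem_image.1 hc
    obtain ⟨h1, p, hp, hn⟩ := hS d hd
    exact ⟨h1.star, p, hp, by rw [QuadraticAlgebra.norm_star, hn]⟩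
  apply x6_sep S (S.image star) hS hT b hb hbs K hK F _ hfix
  intro x hx
  have h2 : conj x ∈ F := x1_range hN x1_conj x hx
  have h3 := x1_conj_LS S (conj x) (hF h2)
  rwa [Complex.conj_conj] at h3

/-- the subgroup of the `2 ^ k`-th powers modulo `b` -/
noncomputable def x6_K (b : Eis) (k : ℕ) : Subgroup (Eis ⧸ Ideal.span {b})ˣ :=
  (powMonoidHom (α := (Eis ⧸ Ideal.span {b})ˣ) (2 ^ k)).range

theorem x6_index_K (b : Eis) (p : ℕ) (hp : p.Prime) (hn : b.norm = p) (k : ℕ)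
    (hk : 2 ^ k ∣ p - 1) : (x6_K b k).index = 2 ^ k := by
  have hpr : Prime b := a3_prime_of_norm p hp b hn
  have hdom := eis_isDomain
  have hpid := eis_pid
  have hmax : (Ideal.span {b}).IsMaximal :=
    PrincipalIdealRing.isMaximal_of_irreducible hpr.irreducible
  have hfin : Finite (Eis ⧸ Ideal.span {b}) := I3.quot_finite b hpr.ne_zero
  let _ : Field (Eis ⧸ Ideal.span {b}) := Ideal.Quotient.field _
  have hcard : Nat.card (Eis ⧸ Ideal.span {b})ˣ = p - 1 := by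
    rw [Nat.card_units, p5_card b p hp hn]
  rw [x6_K, IsCyclic.index_powMonoidHom_range, hcard, Nat.gcd_eq_right hk]

theorem x6_K_anti (b : Eis) (k : ℕ) : x6_K b (k + 1) ≤ x6_K b k := by
  rintro _ ⟨u, rfl⟩
  refine ⟨u ^ 2, ?_⟩
  change (u ^ 2) ^ 2 ^ k = u ^ 2 ^ (k + 1)
  rw [← pow_mul, pow_succ, mul_comm]

theorem x6_index (S : Finset Eis) (hS : ∀ b ∈ S, GoodEis b) (b : Eis) (hb : b ∈ S)
    (p : ℕ) (hp : p.Prime) (hn : b.norm = p) (k : ℕ) (hk : 2 ^ k ∣ p - 1) :
    ((x6_K b k).comap (x6_psi S b hb)).index = 2 ^ k := by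
  rw [Subgroup.index_comap_of_surjective _ (x6_psi_surj S hS b hb), x6_index_K b p hp hn k hk]

/-- the main step: one prime `b` -/
theorem x6_one (n : ℕ) (hn : 0 < n) (b : Eis) (hb : GoodEis b) (p : ℕ) (hp : GoodPrime p)
    (hbn : b.norm = p) (hk : 2 ^ (n + 1) ∣ p - 1) :
    ∃ F : IntermediateField ℚ ℂ, w ∈ F ∧ Module.finrank ℚ F = 2 ^ (n + 1) ∧ F ≤ LS {b} ∧
      fixer F = (x6_K b n).comap (x6_psi {b} b (Finset.mem_singleton_self b)) ∧
      ∃ d : 𝓞 F, (4 : 𝓞 F) ∣ d - 1 ∧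
        (∃ δ ∈ LS {b}, δ ∉ F ∧ δ ^ 2 = ((d : F) : ℂ)) ∧
        ∀ c s : F, (c : ℂ) ∈ IntermediateField.adjoin ℚ {w} → (d : F) ≠ c * s ^ 2 := by
  have hS : ∀ c ∈ ({b} : Finset Eis), GoodEis c := by
    intro c hc
    rw [Finset.mem_singleton.1 hc]
    exact hb
  have hbS : b ∈ ({b} : Finset Eis) := Finset.mem_singleton_self b
  have hkn : 2 ^ n ∣ p - 1 := (pow_dvd_pow 2 (Nat.le_succ n)).trans hk
  obtain ⟨F, hwF, hFle, hFfix, hFrank, hFmem⟩ := x6_exists_F {b} hS
    ((x6_K b n).comap (x6_psi {b} b hbS)) (x6_fixer_le {b} hS b hbS _)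
  obtain ⟨F', hwF', hFle', hFfix', hFrank', hFmem'⟩ := x6_exists_F {b} hS
    ((x6_K b (n + 1)).comap (x6_psi {b} b hbS)) (x6_fixer_le {b} hS b hbS _)
  rw [x6_index {b} hS b hbS p hp.1 hbn n hkn] at hFrank
  rw [x6_index {b} hS b hbS p hp.1 hbn (n + 1) hk] at hFrank'
  have hFF : F ≤ F' := by
    intro x hx
    apply hFmem' x (hFle hx)
    intro σ hσ
    have h1 : σ ∈ fixer F := by
      rw [hFfix]
      exact Subgroup.comap_mono (x6_K_anti b n) hσ
    exact h1 x hx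
  have hfd : FiniteDimensional ℚ (LS {b}) := LS_finite {b} hS
  have hfF : FiniteDimensional ℚ F := x1_finite hFle
  have hfF' : FiniteDimensional ℚ F' := x1_finite hFle'
  have hNF : NumberField F := ⟨⟩
  have hNF' : NumberField F' := ⟨⟩
  let alg : Algebra F F' := (IntermediateField.inclusion hFF).toRingHom.toAlgebra
  have hval : ∀ x : F, ((algebraMap F F' x : F') : ℂ) = x := fun x => rfl
  have htow : IsScalarTower ℚ F F' := IsScalarTower.of_algebraMap_eq fun x => by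
    apply Subtype.ext
    rw [hval]
    rfl
  have hdeg : Module.finrank F F' = 2 := by
    have h1 := Module.finrank_mul_finrank ℚ F F'
    rw [hFrank, hFrank'] at h1
    have h2 : 0 < 2 * 2 ^ n := by positivity
    apply Nat.eq_of_mul_eq_mul_left h2
    rw [h1, pow_succ]
    ring
  obtain ⟨d, hd4, δ, hδ, hδn⟩ := exists_d F F' hdeg (fun P hP => two_unram {b} hS F' hwF' hFle' P hP)
  have hδn' : (δ : ℂ) ∉ F := by
    intro h
    exact hδn ⟨⟨δ, h⟩, Subtype.ext rfl⟩
  have hδ' : (δ : ℂ) ^ 2 = ((d : F) : ℂ) := by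
    have h1 := congrArg (Subtype.val : F' → ℂ) hδ
    exact h1
  refine ⟨F, hwF, ?_, hFle, hFfix, d, hd4, ⟨δ, hFle' δ.2, hδn', hδ'⟩, ?_⟩
  · rw [hFrank, pow_succ, mul_comm]
  · intro c s hc hds
    have hs : (s : ℂ) ≠ 0 := by
      intro h
      apply hδn'
      have h1 : (δ : ℂ) ^ 2 = 0 := by
        rw [hδ', hds]
        push_cast
        rw [h]
        ring
      rw [pow_eq_zero_iff two_ne_zero] at h1
      rw [h1]
      exact zero_mem F
    set γ : ℂ := (δ : ℂ) / s with hγ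
    have hγF' : γ ∈ F' := div_mem δ.2 (hFF s.2)
    have hγ2 : γ ^ 2 = c := by
      rw [hγ, div_pow, hδ', hds]
      push_cast
      field_simp
    have hσc : ∀ σ : AutK, (σ : ℂ ≃+* ℂ) (c : ℂ) = c := by
      intro σ
      refine IntermediateField.adjoin_induction ℚ (p := fun x _ => (σ : ℂ ≃+* ℂ) x = x)
        ?_ ?_ ?_ ?_ ?_ hc
      · intro x hx
        rw [Set.mem_singleton_iff.1 hx]
        exact σ.2
      · intro q
        rw [eq_ratCast]
        exact map_ratCast _ q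
      · intro x y _ _ hx hy
        rw [map_add, hx, hy]
      · intro x _ hx
        rw [map_inv₀, hx]
      · intro x y _ _ hx hy
        rw [map_mul, hx, hy]
    have hσγ : ∀ σ : AutK, (σ : ℂ ≃+* ℂ) ((σ : ℂ ≃+* ℂ) γ) = γ := by
      intro σ
      have h1 : ((σ : ℂ ≃+* ℂ) γ) ^ 2 = γ ^ 2 := by
        rw [← map_pow, hγ2, hσc]
      rcases sq_eq_sq_iff_eq_or_eq_neg.1 h1 with h | h
      · rw [h, h]
      · rw [h, map_neg, h, neg_neg]
    apply hδn'
    have hγF : γ ∈ F := by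
      apply hFmem γ (hFle' hγF')
      intro σ hσ
      obtain ⟨t, ht⟩ := hσ
      have ht' : t ^ 2 ^ n = x6_psi {b} b hbS σ := ht
      obtain ⟨g, hg⟩ := x6_psi_surj {b} hS b hbS t
      have hg2 : g ^ 2 ^ (n - 1) * g ^ 2 ^ (n - 1) = g ^ 2 ^ n := by
        rw [← pow_add, ← two_mul, ← pow_succ', Nat.sub_add_cancel hn]
      set g' : AutK := g ^ 2 ^ (n - 1) with hg'
      have hτ : (g' * g')⁻¹ * σ ∈ fixer F' := by
        rw [hFfix', Subgroup.mem_comap, map_mul, map_inv, hg2, map_pow, hg, ht', inv_mul_cancel]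
        exact one_mem _
      have h5 : (((g' * g')⁻¹ * σ : AutK) : ℂ ≃+* ℂ) γ = γ := hτ γ hγF'
      have h6 : σ = g' * g' * ((g' * g')⁻¹ * σ) := by group
      rw [h6]
      change (g' : ℂ ≃+* ℂ) ((g' : ℂ ≃+* ℂ) ((((g' * g')⁻¹ * σ : AutK) : ℂ ≃+* ℂ) γ)) = γ
      rw [h5, hσγ]
    have h3 : (δ : ℂ) = γ * s := by
      rw [hγ]
      field_simp
    rw [h3]
    exact mul_mem hγF s.2

/-- Let `n > 0`. There are infinitely many fields `F` of degree `2 ^ (n + 1)`, `ω ∈ F`, not normal over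
`ℚ`, and for each some `d ≡ 1 mod 4` in `𝓞 F` such that `F(√d)` is a quadratic extension of `F` inside
the field of the points of order `m`, for some `m`, and `d` is not the product of an element of `ℚ(ω)`
and a square of `F`.
Sketch. `p` a good prime with `2 ^ (n + 1) ∣ p - 1` (X4), `b` a primary prime of norm `p`, `S = {b}`;
`(ℤ[ω]/b)ˣ` is cyclic of order `p - 1` and `th S` is surjective onto it (`th_surjective`): let `χ` be a
surjective homomorphism of it onto the cyclic group of order `2 ^ (n + 1)`, `H' = ker (χ ∘ th S)` and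
`H = ` the preimage of the subgroup of order `2`. `exists_F`: fields `F ≤ F'` with `fixer F = H`,
`fixer F' = H'`, `F' ≤ LS S`, of degrees `2 ^ (n + 1)` and `2 ^ (n + 2)`. `F ≤ F'`: as in the proof of
`exists_F` (or take `F := F ⊓ F'` and degrees). `exists_d` for `F' / F` with `two_unram` (CF/D1). If
`d = c s²`, `c ∈ ℚ(ω)`: `γ = δ / s ∈ F'`, `γ² = c`, so `σ γ = ± γ` for all `σ ∈ AutK`; every element
of `H` is `g ^ 2 ^ n` times an element of `H'`, so `H` fixes `γ`, `γ ∈ F`, `δ ∈ F`, a contradiction. Not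
normal, infinitely many: as in the proof of `infinite_fields` (CF/X1: `x1_sep`, `x1_not_normal` with this
`H` instead of `x1_H S`); `LS S ≤ torsionField (E ℂ) p` (`x1_le_torsion`). -/
theorem infinite_pairs (n : ℕ) (hn : 0 < n) :
    {F : IntermediateField ℚ ℂ | w ∈ F ∧ Module.finrank ℚ F = 2 ^ (n + 1) ∧ ¬ Normal ℚ F ∧
      ∃ m : ℕ, GoodLevel m ∧ F ≤ torsionField (E ℂ) m ∧ ∃ d : 𝓞 F, (4 : 𝓞 F) ∣ d - 1 ∧
        (∃ δ ∈ torsionField (E ℂ) m, δ ∉ F ∧ δ ^ 2 = ((d : F) : ℂ)) ∧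
        ∀ c s : F, (c : ℂ) ∈ IntermediateField.adjoin ℚ {w} → (d : F) ≠ c * s ^ 2}.Infinite := by
  let P := (infinite_good_mod (n + 1)).natEmbedding
  have hP : ∀ i, GoodPrime (P i : ℕ) := fun i => (P i).2.1
  have hP2 : ∀ i, 2 ^ (n + 1) ∣ (P i : ℕ) - 1 := fun i => (P i).2.2
  have hPinj : ∀ i j, ((P i : ℕ) = P j) → i = j := fun i j h => P.injective (Subtype.ext h)
  have hg : ∀ i, ∃ a : Eis, Primary a ∧ a.norm = (P i : ℕ) := fun i =>
    exists_primary_prime _ (hP i).1 (hP i).2.1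
  choose g hg1 hg2 using hg
  have hgood : ∀ i, GoodEis (g i) := fun i => ⟨hg1 i, P i, hP i, hg2 i⟩
  have hnorm : ∀ i j, (g i).norm = (g j).norm → i = j := by
    intro i j h
    rw [hg2, hg2] at h
    exact hPinj i j (by exact_mod_cast h)
  have hginj : Function.Injective g := fun i j h => hnorm i j (by rw [h])
  have hS : ∀ k, ∀ b ∈ ({g k} : Finset Eis), GoodEis b := by
    intro k b hb
    rw [Finset.mem_singleton.1 hb]
    exact hgood k
  have hF := fun k => x6_one n hn (g k) (hgood k) (P k) (hP k) (hg2 k) (hP2 k)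
  choose F hwF hFrank hFle hFfix hFd using hF
  have hK : ∀ k, x6_K (g k) n ≠ ⊤ := by
    intro k h
    have h1 := x6_index_K (g k) (P k) (hP k).1 (hg2 k) n
      ((pow_dvd_pow 2 (Nat.le_succ n)).trans (hP2 k))
    rw [h, Subgroup.index_top] at h1
    exact absurd h1 (Nat.one_lt_two_pow hn.ne').ne
  apply Set.infinite_of_injective_forall_mem (f := F)
  · intro k l h
    by_contra hkl
    apply x6_sep {g k} {g l} (hS k) (hS l) (g k) (Finset.mem_singleton_self _) _ _ (hK k) (F k) _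
      (hFfix k)
    · intro h1
      exact hkl (hginj (Finset.mem_singleton.1 h1))
    · rw [h]
      exact hFle l
  · intro k
    have htors : LS {g k} ≤ torsionField (E ℂ) (P k) := by
      refine x1_le_torsion {g k} (hS k) _ ?_
      intro b hb
      rw [Finset.mem_singleton.1 hb, hg2]
    obtain ⟨d, hd4, ⟨δ, hδ, hδn, hδ2⟩, hdc⟩ := hFd k
    refine ⟨hwF k, hFrank k, ?_, P k, ⟨(hP k).1.squarefree, ?_⟩, (hFle k).trans htors,
      d, hd4, ⟨δ, htors hδ, hδn, hδ2⟩, hdc⟩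
    · apply x6_not_normal {g k} (hS k) (g k) (Finset.mem_singleton_self _) _ _ (hK k) (F k)
        (hFle k) (hFfix k)
      intro h
      rw [Finset.image_singleton, Finset.mem_singleton] at h
      exact not_dvd_star _ (hP k).1 (hP k).2.1 (g k) (hg2 k) (by rw [← h])
    · intro q hq hd
      rw [(Nat.prime_dvd_prime_iff_eq hq (hP k).1).1 hd]
      exact hP k

end CF
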